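import Pool.Agent.H.MP_21b43d_ag.E3.Heart

/-!
# M21 (C9): effaceability of the higher extension classes

`C` abelian, `sgO A` the object `A` in degree zero of the derived category.

* `exists_epi_kill` : for `α : sgO A ⟶ (sgO M)⟦i⟧`, `i > 0`, there is an epimorphism `π : A' ⟶ A` with
  `sgO π ≫ α = 0`;
* `sg_hom_neg` : `Hom(sgO A, (sgO M)⟦i⟧) = 0` for `i < 0`;
* `exists_ext_of_hom` : a class in degree one comes from a short exact sequence;
* `sgTri`, the triangle of a short exact sequence and the exactness properties of `Hom(-, K)`.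
-/

open CategoryTheory CategoryTheory.Limits CategoryTheory.Pretriangulated
open DerivedCategory

noncomputable section

universe w v u

namespace M21

section Abs

variable {C : Type u} [Category.{v} C] [Abelian C] [HasDerivedCategory.{w} C]

/-- the object `A` in degree zero -/
abbrev sgO (A : C) : DerivedCategory C := (singleFunctor C 0).obj A

/-- the map of the objects in degree zero -/
abbrev sgmO {A B : C} (f : A ⟶ B) : sgO A ⟶ sgO B := (singleFunctor C 0).map f

omit [HasDerivedCategory.{w} C] in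
theorem exists_complex_map (K : CochainComplex C ℤ) [K.IsStrictlyLE 0] :
    ∃ π : (HomologicalComplex.single C (ComplexShape.up ℤ) 0).obj (K.X 0) ⟶ K,
      Epi (HomologicalComplex.homologyMap π 0) := by
  have hd : ∀ j : ℤ, (ComplexShape.up ℤ).Rel 0 j → K.d 0 j = 0 := fun j hj => by
    have hj' : (0 : ℤ) + 1 = j := hj
    exact (K.isZero_of_isStrictlyLE 0 j (by lia)).eq_of_tgt _ _
  let π : (HomologicalComplex.single C (ComplexShape.up ℤ) 0).obj (K.X 0) ⟶ K :=
    HomologicalComplex.mkHomFromSingle (𝟙 (K.X 0)) (fun j hj => by rw [hd j hj, comp_zero])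
  refine ⟨π, ?_⟩
  have h1 : IsIso (π.f 0) := by
    have : π.f 0 = (HomologicalComplex.singleObjXSelf (ComplexShape.up ℤ) 0 (K.X 0)).hom ≫
        𝟙 (K.X 0) := HomologicalComplex.mkHomFromSingle_f _ _
    rw [this]; infer_instance
  have hn : (ComplexShape.up ℤ).next (0 : ℤ) = 1 := by simp
  have h2 : IsIso (K.iCycles 0) := K.isIso_iCycles 0 1 hn (hd 1 (by simp))
  have h3 : IsIso (((HomologicalComplex.single C (ComplexShape.up ℤ) 0).obj (K.X 0)).iCycles 0) :=
    HomologicalComplex.isIso_iCycles _ 0 1 hn (by simp)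
  have h4 : IsIso (HomologicalComplex.cyclesMap π 0) := by
    have : HomologicalComplex.cyclesMap π 0 ≫ K.iCycles 0 =
        ((HomologicalComplex.single C (ComplexShape.up ℤ) 0).obj (K.X 0)).iCycles 0 ≫ π.f 0 :=
      HomologicalComplex.cyclesMap_i _ _
    have h5 : IsIso (HomologicalComplex.cyclesMap π 0 ≫ K.iCycles 0) := by
      rw [this]; infer_instance
    exact IsIso.of_isIso_comp_right _ (K.iCycles 0)
  have h6 := HomologicalComplex.homologyπ_naturality π 0
  have : Epi (((HomologicalComplex.single C (ComplexShape.up ℤ) 0).obj (K.X 0)).homologyπ 0 ≫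
      HomologicalComplex.homologyMap π 0) := by
    rw [h6]; infer_instance
  exact epi_of_epi (((HomologicalComplex.single C (ComplexShape.up ℤ) 0).obj (K.X 0)).homologyπ 0) _

theorem exists_epi_of_isLE (E : DerivedCategory C) (hE : E.IsLE 0) :
    ∃ (A : C) (π : sgO A ⟶ E), Epi ((homologyFunctor C 0).map π) := by
  obtain ⟨K, hK, ⟨e⟩⟩ := exists_iso_Q_obj_of_isLE E 0
  obtain ⟨π, hπ⟩ := exists_complex_map K
  refine ⟨K.X 0, (singleFunctorIsoCompQ C 0).hom.app _ ≫ Q.map π ≫ e.inv, ?_⟩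
  have h1 : Epi ((homologyFunctor C 0).map (Q.map π)) := by
    have h5 : (homologyFunctor C 0).map (Q.map π) =
        (homologyFunctorFactors C 0).hom.app _ ≫ HomologicalComplex.homologyMap π 0 ≫
          (homologyFunctorFactors C 0).inv.app K :=
      (NatIso.naturality_2 (homologyFunctorFactors C 0) π).symm
    have i1 : Epi ((homologyFunctorFactors C 0).inv.app K) :=
      IsIso.epi_of_iso ((homologyFunctorFactors C 0).inv.app K)
    rw [h5]
    exact epi_comp' (IsIso.epi_of_iso _) (epi_comp' hπ i1)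
  rw [Functor.map_comp, Functor.map_comp]
  exact epi_comp' inferInstance (epi_comp' h1 inferInstance)

theorem isZero_hh_shift (M : C) (i n : ℤ) (h : n + i ≠ 0) :
    IsZero ((homologyFunctor C n).obj ((sgO M)⟦i⟧)) := by
  have e : (homologyFunctor C n).obj ((sgO M)⟦i⟧) ≅ (homologyFunctor C (i + n)).obj (sgO M) :=
    ((homologyFunctor C 0).shiftIso i n (i + n) rfl).app (sgO M)
  refine IsZero.of_iso ?_ e
  rcases lt_or_gt_of_ne h with h | h
  · exact isZero_of_isGE (sgO M) 0 (i + n) (by lia)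
  · exact isZero_of_isLE (sgO M) 0 (i + n) (by lia)

theorem sg_hom_neg {A M : C} {i : ℤ} (hi : i < 0) (α : sgO A ⟶ (sgO M)⟦i⟧) : α = 0 := by
  have h3 : TStructure.t.IsGE ((sgO M)⟦i⟧) (-i) :=
    TStructure.t.isGE_shift (sgO M) 0 i (-i) (by lia)
  exact TStructure.t.zero_of_isLE_of_isGE α 0 (-i) (by lia) inferInstance h3

theorem epi_of_sgm {A B : C} (f : A ⟶ B) (h : Epi ((homologyFunctor C 0).map (sgmO f))) :
    Epi f := by
  have h1 := (singleFunctorCompHomologyFunctorIso C 0).hom.naturality f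
  have h2 : Epi ((homologyFunctor C 0).map (sgmO f) ≫
      (singleFunctorCompHomologyFunctorIso C 0).hom.app B) := epi_comp _ _
  have h3 : (homologyFunctor C 0).map (sgmO f) ≫
      (singleFunctorCompHomologyFunctorIso C 0).hom.app B =
      (singleFunctorCompHomologyFunctorIso C 0).hom.app A ≫ f := h1
  rw [h3] at h2
  exact epi_of_epi ((singleFunctorCompHomologyFunctorIso C 0).hom.app A) f

/-- Effaceability. -/
theorem exists_epi_kill {A M : C} {i : ℤ} (hi : 0 < i) (α : sgO A ⟶ (sgO M)⟦i⟧) :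
    ∃ (A' : C) (π : A' ⟶ A), Epi π ∧ sgmO π ≫ α = 0 := by
  obtain ⟨E, f, h, hT⟩ := distinguished_cocone_triangle₁ α
  have hE : E.IsLE 0 := by
    rw [isLE_iff]
    intro n hn
    have h1 := HomologySequence.exact₁ _ hT (n - 1) n (by lia)
    refine h1.isZero_X₂ ?_ ?_
    · exact (isZero_hh_shift M i (n - 1) (by lia)).eq_of_src _ _
    · exact (isZero_of_isLE (sgO A) 0 n hn).eq_of_tgt _ _
  obtain ⟨A', p, hp⟩ := exists_epi_of_isLE E hE
  obtain ⟨π, hπ⟩ := (singleFunctor C 0).map_surjective (p ≫ f)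
  refine ⟨A', π, ?_, ?_⟩
  · refine epi_of_sgm π ?_
    have h2 : Epi ((homologyFunctor C 0).map f) := by
      have h1 := HomologySequence.exact₂ _ hT 0
      refine (ShortComplex.exact_iff_epi _ ?_).mp h1
      exact (isZero_hh_shift M i 0 (by lia)).eq_of_tgt _ _
    change Epi ((homologyFunctor C 0).map ((singleFunctor C 0).map π))
    rw [hπ, Functor.map_comp]
    exact epi_comp _ _
  · change (singleFunctor C 0).map π ≫ α = 0
    rw [hπ, Category.assoc]
    have h3 : f ≫ α = 0 := comp_distTriang_mor_zero₁₂ _ hT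
    rw [h3, comp_zero]

/-- A class in degree one comes from a short exact sequence. -/
theorem exists_ext_of_hom {A M : C} (α : sgO A ⟶ (sgO M)⟦(1 : ℤ)⟧) :
    ∃ (E : C) (f : M ⟶ E) (g : E ⟶ A) (w : f ≫ g = 0),
      (ShortComplex.mk f g w).ShortExact ∧ sgmO g ≫ α = 0 := by
  obtain ⟨E', f', g', hT'⟩ := distinguished_cocone_triangle₂ α
  have h1 : E'.IsLE 0 := TStructure.t.isLE₂ _ hT' 0 (inferInstanceAs (IsLE (sgO M) 0))
    (inferInstanceAs (IsLE (sgO A) 0))
  have h2 : E'.IsGE 0 := TStructure.t.isGE₂ _ hT' 0 (inferInstanceAs (IsGE (sgO M) 0))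
    (inferInstanceAs (IsGE (sgO A) 0))
  obtain ⟨E, ⟨e⟩⟩ := exists_iso_singleFunctor_obj_of_isGE_of_isLE E' 0
  have hT : Triangle.mk (f' ≫ e.symm.inv) (e.symm.hom ≫ g') α ∈ distTriang (DerivedCategory C) :=
    triangle_iso₂ e.symm hT'
  obtain ⟨f, hf⟩ := (singleFunctor C 0).map_surjective (f' ≫ e.symm.inv)
  obtain ⟨g, hg⟩ := (singleFunctor C 0).map_surjective (e.symm.hom ≫ g')
  rw [← hf, ← hg] at hT
  have w : f ≫ g = 0 := by
    apply (singleFunctor C 0).map_injective
    rw [Functor.map_comp, Functor.map_zero]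
    exact comp_distTriang_mor_zero₁₂ _ hT
  refine ⟨E, f, g, w, ?_, comp_distTriang_mor_zero₂₃ _ hT⟩
  have h3 := HomologySequence.exact₂ _ hT 0
  have h4 : Mono ((homologyFunctor C 0).map (sgmO f)) := by
    refine (HomologySequence.mono_homologyMap_mor₁_iff _ hT (-1) 0 (by lia)).mpr ?_
    exact (isZero_of_isGE (sgO A) 0 (-1) (by lia)).eq_of_src _ _
  have h5 : Epi ((homologyFunctor C 0).map (sgmO g)) := by
    refine (HomologySequence.epi_homologyMap_mor₂_iff _ hT 0 1 (by lia)).mpr ?_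
    exact (isZero_of_isLE (sgO M) 0 1 (by lia)).eq_of_tgt _ _
  have h6 : ((ShortComplex.mk f g w).map
      (singleFunctor C 0 ⋙ homologyFunctor C 0)).ShortExact :=
    { exact := h3, mono_f := h4, epi_g := h5 }
  have h7 : (ShortComplex.mk f g w).map (singleFunctor C 0 ⋙ homologyFunctor C 0) ≅
      ShortComplex.mk f g w :=
    ShortComplex.mapNatIso _ (singleFunctorCompHomologyFunctorIso C 0) ≪≫
      ShortComplex.isoMk (Iso.refl _) (Iso.refl _) (Iso.refl _) (by simp) (by simp)
  exact ShortComplex.shortExact_of_iso h7 h6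

/-- If `A₁` has no classes in degree `j` then it has none for `A₁⟦1⟧` in degree `j + 1`. -/
theorem hom_shift_eq_zero {A M : DerivedCategory C} {j i : ℤ} (hij : j + 1 = i)
    (h : ∀ β : A ⟶ M⟦j⟧, β = 0) (β : A⟦(1 : ℤ)⟧ ⟶ M⟦i⟧) : β = 0 := by
  let e : M⟦i⟧ ≅ (M⟦j⟧)⟦(1 : ℤ)⟧ := (shiftFunctorAdd' (DerivedCategory C) j 1 i hij).app M
  obtain ⟨β', hβ'⟩ := (shiftFunctor (DerivedCategory C) (1 : ℤ)).map_surjective (β ≫ e.hom)
  rw [h β', Functor.map_zero] at hβ'
  rw [← cancel_mono e.hom, zero_comp, hβ']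

/-- A class which dies on the middle of a short exact sequence comes from the left. -/
theorem eq_zero_of_middle {S : ShortComplex C} (hS : S.ShortExact) {M : C} {j i : ℤ}
    (hij : j + 1 = i) (h : ∀ β : sgO S.X₁ ⟶ (sgO M)⟦j⟧, β = 0) (α : sgO S.X₃ ⟶ (sgO M)⟦i⟧)
    (hα : sgmO S.g ≫ α = 0) : α = 0 := by
  obtain ⟨β, hβ⟩ := Triangle.yoneda_exact₃ _ hS.singleTriangle_distinguished α hα
  have h1 : β = 0 := hom_shift_eq_zero hij h β
  exact hβ.trans (by rw [h1]; exact comp_zero)

/-- A class which dies on the middle of a short exact sequence comes from the left. -/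
theorem eq_zero_of_middle' {A₁ A₂ A₃ : C} {f : A₁ ⟶ A₂} {g : A₂ ⟶ A₃} {w : f ≫ g = 0}
    (hS : (ShortComplex.mk f g w).ShortExact) {M : C} {j i : ℤ}
    (hij : j + 1 = i) (h : ∀ β : sgO A₁ ⟶ (sgO M)⟦j⟧, β = 0) (α : sgO A₃ ⟶ (sgO M)⟦i⟧)
    (hα : sgmO g ≫ α = 0) : α = 0 := eq_zero_of_middle hS hij h α hα

/-- If the two outer terms have no classes, neither has the middle one. -/
theorem eq_zero_of_outer {S : ShortComplex C} (hS : S.ShortExact) {M : DerivedCategory C}
    (h1 : ∀ β : sgO S.X₁ ⟶ M, β = 0) (h3 : ∀ β : sgO S.X₃ ⟶ M, β = 0) (α : sgO S.X₂ ⟶ M) :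
    α = 0 := by
  obtain ⟨β, hβ⟩ := Triangle.yoneda_exact₂ _ hS.singleTriangle_distinguished α (h1 _)
  have h : β = 0 := h3 β
  exact hβ.trans (by rw [h]; exact comp_zero)

/-- maps out of a biproduct in degree zero -/
theorem sg_biprod_hom_ext {A B : C} {K : DerivedCategory C} {α β : sgO (A ⊞ B) ⟶ K}
    (h1 : sgmO biprod.inl ≫ α = sgmO biprod.inl ≫ β) (h2 : sgmO biprod.inr ≫ α = sgmO biprod.inr ≫ β) :
    α = β := by
  have h : 𝟙 (sgO (A ⊞ B)) = sgmO biprod.fst ≫ sgmO biprod.inl + sgmO biprod.snd ≫ sgmO biprod.inr := by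
    unfold sgmO
    rw [← Functor.map_comp, ← Functor.map_comp, ← Functor.map_add, biprod.total,
      CategoryTheory.Functor.map_id]
  rw [← Category.id_comp α, ← Category.id_comp β, h, Preadditive.add_comp, Preadditive.add_comp,
    Category.assoc, Category.assoc, Category.assoc, Category.assoc, h1, h2]

end Abs

end M21
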