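import Pool.Agent.H.MP_21b43d_ag.E3.G.Ez
import Pool.Agent.H.MP_21b43d_ag.E3.G.Eff

/-!
# M21 (C9, G1): affine vanishing

`affine_vanishing` : for `U` an affine open and `M` quasi-coherent,
`Hom_{D(X)}(Ez U 𝒪, M⟦i⟧) = 0` for `i ≠ 0`.
-/

open CategoryTheory CategoryTheory.Limits AlgebraicGeometry TopologicalSpace Opposite
open CategoryTheory.Pretriangulated DerivedCategory
open AlgebraicGeometry.Scheme (Modules)

noncomputable section

namespace M21

variable {X : Scheme.{0}}

/-- Every class of positive degree dies near every point. -/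
theorem exists_dies {U : X.Opens} {M : X.Modules} {i : ℤ} (hi : 0 < i)
    (α : sgO ((Ez U).obj (unitMod X)) ⟶ (sgO M)⟦i⟧) (x : X) (hx : x ∈ U) :
    ∃ (V : X.Opens) (hV : V ≤ U), x ∈ V ∧ sgmO ((ezLE hV).app (unitMod X)) ≫ α = 0 := by
  obtain ⟨A', π, hπ, h⟩ := exists_epi_kill hi α
  obtain ⟨V, hV, hxV, t, ht⟩ := locSurj_of_epi π U (ezOne le_rfl) x hx
  refine ⟨V, hV, hxV, ?_⟩
  have h1 : (ezLE hV).app (unitMod X) = ezHom t ≫ π := by
    apply ez_hom_ext
    rw [comp_app_apply, ezHom_one, res_self, ht, res_ezOne, ezLE_one]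
  rw [h1]
  unfold sgmO
  rw [Functor.map_comp, Category.assoc]
  change _ ≫ sgmO π ≫ α = 0
  rw [h, comp_zero]

/-- The class `α` dies on `V`. -/
def DiesOn {U : X.Opens} {N : X.Modules} {K : DMod X} (α : sgO ((Ez U).obj N) ⟶ K)
    (V : X.Opens) : Prop :=
  ∀ hV : V ≤ U, sgmO ((ezLE hV).app N) ≫ α = 0

theorem DiesOn.mono {U : X.Opens} {N : X.Modules} {K : DMod X}
    {α : sgO ((Ez U).obj N) ⟶ K} {V V' : X.Opens} (h : DiesOn α V) (hVV : V' ≤ V) (hV : V ≤ U) :
    DiesOn α V' := by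
  intro hV'
  have h1 : (ezLE hV').app N = (ezLE hVV).app N ≫ (ezLE hV).app N := (ezLE_ezLE _ _ _).symm
  rw [h1]
  unfold sgmO
  rw [Functor.map_comp, Category.assoc]
  change _ ≫ sgmO ((ezLE hV).app N) ≫ α = 0
  rw [h hV, comp_zero]

theorem DiesOn.self {U : X.Opens} {N : X.Modules} {K : DMod X}
    {α : sgO ((Ez U).obj N) ⟶ K} (h : DiesOn α U) : α = 0 := by
  have h1 := h le_rfl
  rw [ezLE_self] at h1
  unfold sgmO at h1
  rw [CategoryTheory.Functor.map_id, Category.id_comp] at h1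
  exact h1

/-- Mayer–Vietoris: a class which dies on `V₀` and `V₁` dies on the union. -/
theorem mv_zero {V₀ V₁ : X.Opens} {N M : X.Modules} {j i : ℤ} (hij : j + 1 = i)
    (h : ∀ β : sgO ((Ez (V₀ ⊓ V₁)).obj N) ⟶ (sgO M)⟦j⟧, β = 0)
    (α : sgO ((Ez (V₀ ⊔ V₁)).obj N) ⟶ (sgO M)⟦i⟧)
    (h0 : sgmO ((ezLE le_sup_left).app N) ≫ α = 0)
    (h1 : sgmO ((ezLE le_sup_right).app N) ≫ α = 0) : α = 0 := by
  refine eq_zero_of_middle' (mvShortExact V₀ V₁ N) hij h α ?_
  apply sg_biprod_hom_ext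
  · rw [← Category.assoc]
    unfold sgmO
    rw [← Functor.map_comp, comp_zero]
    have h2 : biprod.inl ≫ mvG V₀ V₁ N = (ezLE le_sup_left).app N := biprod.inl_desc _ _
    rw [h2]
    exact h0
  · rw [← Category.assoc]
    unfold sgmO
    rw [← Functor.map_comp, comp_zero]
    have h2 : biprod.inr ≫ mvG V₀ V₁ N = -(ezLE le_sup_right).app N := biprod.inr_desc _ _
    rw [h2, Functor.map_neg, Preadditive.neg_comp, neg_eq_zero]
    exact h1

theorem DiesOn.sup {U : X.Opens} {N M : X.Modules} {i j : ℤ} (hij : j + 1 = i)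
    {α : sgO ((Ez U).obj N) ⟶ (sgO M)⟦i⟧} {V₀ V₁ V : X.Opens} (hV : V₀ ⊔ V₁ = V)
    (h : ∀ β : sgO ((Ez (V₀ ⊓ V₁)).obj N) ⟶ (sgO M)⟦j⟧, β = 0)
    (h0 : DiesOn α V₀) (h1 : DiesOn α V₁) : DiesOn α V := by
  subst hV
  intro hU
  refine mv_zero hij h _ ?_ ?_
  · rw [← Category.assoc]
    unfold sgmO
    rw [← Functor.map_comp, ezLE_ezLE]
    exact h0 _
  · rw [← Category.assoc]
    unfold sgmO
    rw [← Functor.map_comp, ezLE_ezLE]
    exact h1 _

theorem affine_vanishing_aux (M : X.Modules) (hM : QC M) (n : ℕ) :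
    ∀ (i : ℤ) (_ : i = n + 1) (U : X.Opens) (_ : IsAffineOpen U)
      (α : sgO ((Ez U).obj (unitMod X)) ⟶ (sgO M)⟦i⟧), α = 0 := by
  induction n with
  | zero =>
    intro i hi U hU α
    obtain rfl : i = 1 := by rw [hi]; norm_num
    obtain ⟨E, f, g, w, hS, hα⟩ := exists_ext_of_hom α
    obtain ⟨m, hm⟩ := surj_of_qc _ hS hM hU (ezOne le_rfl)
    have h1 : ezHom m ≫ g = 𝟙 _ := by
      apply ez_hom_ext
      rw [comp_app_apply, ezHom_one, res_self]
      exact hm
    have h2 : sgmO (ezHom m) ≫ sgmO g = 𝟙 _ := by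
      unfold sgmO
      rw [← Functor.map_comp, h1, CategoryTheory.Functor.map_id]
    rw [← Category.id_comp α, ← h2, Category.assoc, hα, comp_zero]
  | succ n ih =>
    intro i hi U hU α
    have hi' : ((n : ℤ) + 1) + 1 = i := by rw [hi]; push_cast; ring
    have key : ∀ V : X.Opens, IsAffineOpen V →
        ∀ β : sgO ((Ez V).obj (unitMod X)) ⟶ (sgO M)⟦(n : ℤ) + 1⟧, β = 0 :=
      fun V hV β => ih _ rfl V hV β
    let I : Ideal Γ(X, U) :=
      { carrier := {f | DiesOn α (X.basicOpen f)}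
        add_mem' := by
          intro f g hf hg
          have e1 : X.basicOpen (f + g) ⊓ X.basicOpen f ⊔ X.basicOpen (f + g) ⊓ X.basicOpen g =
              X.basicOpen (f + g) := by
            rw [← inf_sup_left]
            exact inf_eq_left.mpr (X.basicOpen_add_le f g)
          have e2 : X.basicOpen (f + g) ⊓ X.basicOpen f ⊓ (X.basicOpen (f + g) ⊓ X.basicOpen g) =
              X.basicOpen ((f + g) * f * ((f + g) * g)) := by
            rw [X.basicOpen_mul, X.basicOpen_mul, X.basicOpen_mul]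
          refine DiesOn.sup hi' e1 (key _ ?_) (hf.mono inf_le_right (X.basicOpen_le f))
            (hg.mono inf_le_right (X.basicOpen_le g))
          rw [e2]
          exact hU.basicOpen _
        zero_mem' := by
          intro h
          have : IsZero ((Ez (X.basicOpen (0 : Γ(X, U)))).obj (unitMod X)) := by
            rw [X.basicOpen_zero]
            exact isZero_ez_bot _
          have h2 : IsZero (sgO ((Ez (X.basicOpen (0 : Γ(X, U)))).obj (unitMod X))) :=
            (singleFunctor X.Modules 0).map_isZero this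
          exact h2.eq_of_src _ _
        smul_mem' := by
          intro c f hf
          have h1 : X.basicOpen (c * f) ≤ X.basicOpen f := by
            rw [X.basicOpen_mul]
            exact inf_le_right
          exact DiesOn.mono hf h1 (X.basicOpen_le f) }
    have hI : Ideal.span (I : Set Γ(X, U)) = ⊤ := by
      rw [← hU.iSup_basicOpen_eq_self_iff]
      apply le_antisymm
      · exact iSup_le fun g => X.basicOpen_le g.1
      · intro x hx
        obtain ⟨W, hW, hxW, hd⟩ := exists_dies (by lia) α x hx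
        obtain ⟨g, hg, hxg⟩ := hU.exists_basicOpen_le ⟨x, hxW⟩ hx
        have hdW : DiesOn α W := fun _ => hd
        exact Opens.mem_iSup.mpr ⟨⟨g, hdW.mono hg hW⟩, hxg⟩
    rw [Ideal.span_eq] at hI
    have h1 : (1 : Γ(X, U)) ∈ I := by rw [hI]; trivial
    have h2 : DiesOn α (X.basicOpen (1 : Γ(X, U))) := h1
    have h3 : X.basicOpen (1 : Γ(X, U)) = U := X.basicOpen_of_isUnit isUnit_one
    rw [h3] at h2
    exact h2.self

/-- **Affine vanishing.** -/
theorem affine_vanishing (M : X.Modules) (hM : QC M) {U : X.Opens} (hU : IsAffineOpen U) {i : ℤ}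
    (hi : i ≠ 0) (α : sgO ((Ez U).obj (unitMod X)) ⟶ (sgO M)⟦i⟧) : α = 0 := by
  rcases lt_or_gt_of_ne hi with h | h
  · exact sg_hom_neg h α
  · obtain ⟨n, hn⟩ := Int.eq_ofNat_of_zero_le (show 0 ≤ i - 1 by lia)
    exact affine_vanishing_aux M hM n i (by lia) U hU α

/-- Affine vanishing for a module which is trivial on `U`. -/
theorem affine_vanishing' (M : X.Modules) (hM : QC M) {U : X.Opens} (hU : IsAffineOpen U)
    {N : X.Modules} {e : Γ(N, U)} (he : IsBasisOn N e) {i : ℤ}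
    (hi : i ≠ 0) (α : sgO ((Ez U).obj N) ⟶ (sgO M)⟦i⟧) : α = 0 := by
  have h1 := affine_vanishing M hM hU hi (sgmO (ezTrivIso he).hom ≫ α)
  have h2 : IsIso (sgmO (ezTrivIso he).hom) := inferInstance
  rw [← cancel_epi (sgmO (ezTrivIso he).hom), h1, comp_zero]

end M21
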