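import Pool.Agent.H.MP_21b43d_ag.E3.G.QCf
import Pool.Agent.H.MP_21b43d_ag.E3.Rk1

/-!
# M21, existence part, C8: extension of sections, ampleness
-/

open CategoryTheory CategoryTheory.Limits AlgebraicGeometry TopologicalSpace

noncomputable section

namespace M21.E3

variable {X : Scheme.{0}}

/-- Extension of sections: all large powers. -/
theorem ext_large_Ample {M : X.Modules} (h : QC M) {V W : X.Opens} (hV : IsAffineOpen V)
    (f : Γ(X, V)) (hWV : W ≤ V) (hW : W = X.basicOpen f) (t : Γ(M, W)) :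
    ∃ n : ℕ, ∀ n' : ℕ, n ≤ n' → ∃ s : Γ(M, V), res M hWV s = resF hWV f ^ n' • t := by
  obtain ⟨n, s, hs⟩ := h.ext' hV f hWV hW t
  refine ⟨n, fun n' hn => ⟨f ^ (n' - n) • s, ?_⟩⟩
  rw [res_pow_smul, hs, smul_smul, ← pow_add, Nat.sub_add_cancel hn]

theorem tors_large_Ample {M : X.Modules} (h : QC M) {V W : X.Opens} (hV : IsAffineOpen V)
    (f : Γ(X, V)) (hWV : W ≤ V) (hW : W = X.basicOpen f) (s : Γ(M, V)) (hs : res M hWV s = 0) :
    ∃ n : ℕ, ∀ n' : ℕ, n ≤ n' → f ^ n' • s = 0 := by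
  obtain ⟨n, hn⟩ := h.tors' hV f hWV hW s hs
  refine ⟨n, fun n' hn' => ?_⟩
  rw [← Nat.sub_add_cancel hn', pow_add, mul_smul, hn, smul_zero]

theorem resF_mul_Ample {U V : X.Opens} (h : V ≤ U) (a b : Γ(X, U)) :
    resF h (a * b) = resF h a * resF h b := map_mul _ _ _

/-- A function on `Bool × Bool` with given values. -/
theorem exists_four_Ample {P : Bool → Bool → Type} (s t : Bool) (x : P s t) (x10 : P (!s) t)
    (x01 : P s (!t)) (x11 : P (!s) (!t)) :
    ∃ a : ∀ s t, P s t, a s t = x ∧ a (!s) t = x10 ∧ a s (!t) = x01 ∧ a (!s) (!t) = x11 := by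
  cases s <;> cases t
  · exact ⟨fun s t => match s, t with
      | false, false => x
      | true, false => x10
      | false, true => x01
      | true, true => x11, rfl, rfl, rfl, rfl⟩
  · exact ⟨fun s t => match s, t with
      | false, true => x
      | true, true => x10
      | false, false => x01
      | true, false => x11, rfl, rfl, rfl, rfl⟩
  · exact ⟨fun s t => match s, t with
      | true, false => x
      | false, false => x10
      | true, true => x01
      | false, true => x11, rfl, rfl, rfl, rfl⟩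
  · exact ⟨fun s t => match s, t with
      | true, true => x
      | false, true => x10
      | true, false => x01
      | false, false => x11, rfl, rfl, rfl, rfl⟩

variable [IsIntegral X] [CX X]

namespace BiP

variable (G : BiP X)

omit [IsIntegral X] [CX X] in
theorem basicOpen_zc_UB_Ample (t : Bool) :
    X.basicOpen (G.zc t (inf_le_right : G.UB t ≤ G.W t)) = G.UU := by
  unfold zc
  rw [Scheme.basicOpen_res, G.hz]
  exact le_antisymm (le_inf (inf_le_left.trans inf_le_left) inf_le_right)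
    (le_inf (le_inf inf_le_left (inf_le_right.trans (G.W01_le t))) inf_le_right)

omit [IsIntegral X] [CX X] in
theorem basicOpen_bc_UZ_Ample (s : Bool) :
    X.basicOpen (G.bc s (inf_le_left : G.UZ s ≤ G.V s)) = G.UU := by
  unfold bc
  rw [Scheme.basicOpen_res, G.hb]
  exact le_antisymm (le_inf inf_le_right (inf_le_left.trans inf_le_right))
    (le_inf (le_inf (inf_le_left.trans (G.V01_le s)) inf_le_right) inf_le_left)

omit [IsIntegral X] in
/-- Families from relations written with the coordinates of the opposite charts. -/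
theorem mem_Fam_Ample {F : X.Modules} (s t : Bool) (m n : ℕ) (a : ∀ s t : Bool, Γ(F, G.U s t))
    (h1 : ∀ t₁, res F (G.UB_le (!s) t₁) (a (!s) t₁) =
      G.bc (!s) ((inf_le_left : G.UB t₁ ≤ G.V01).trans (G.V01_le (!s))) ^ m •
        res F (G.UB_le s t₁) (a s t₁))
    (h2 : ∀ s₁, res F (G.UZ_le s₁ (!t)) (a s₁ (!t)) =
      G.zc (!t) ((inf_le_right : G.UZ s₁ ≤ G.W01).trans (G.W01_le (!t))) ^ n •
        res F (G.UZ_le s₁ t) (a s₁ t)) :
    a ∈ G.Fam F m n := by
  constructor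
  · intro t₁
    have h := h1 t₁
    rw [bc_pow] at h
    cases s
    · change res F (G.UB_le true t₁) (a true t₁) = G.bp (sg true * m) inf_le_left •
        res F (G.UB_le false t₁) (a false t₁) at h
      rw [h, smul_smul, ← bp_add]
      have e : (m : ℤ) + sg true * m = 0 := by simp [sg]
      rw [e, bp_zero, one_smul]
    · change res F (G.UB_le false t₁) (a false t₁) = G.bp (sg false * m) inf_le_left •
        res F (G.UB_le true t₁) (a true t₁) at h
      have e : sg false * (m : ℤ) = m := by simp [sg]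
      rw [e] at h
      exact h
  · intro s₁
    have h := h2 s₁
    rw [zc_pow] at h
    cases t
    · change res F (G.UZ_le s₁ true) (a s₁ true) = G.zp (sg true * n) inf_le_right •
        res F (G.UZ_le s₁ false) (a s₁ false) at h
      rw [h, smul_smul, ← zp_add]
      have e : (n : ℤ) + sg true * n = 0 := by simp [sg]
      rw [e, zp_zero, one_smul]
    · change res F (G.UZ_le s₁ false) (a s₁ false) = G.zp (sg false * n) inf_le_right •
        res F (G.UZ_le s₁ true) (a s₁ true) at h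
      have e : sg false * (n : ℤ) = n := by simp [sg]
      rw [e] at h
      exact h

omit [IsIntegral X] [CX X] in
/-- The sections on the other charts. -/
theorem exists_ext_Ample {F : X.Modules} (hF : QC F) (s t : Bool) (x : Γ(F, G.U s t)) :
    ∃ k : ℕ, ∀ m n : ℕ, k ≤ m → k ≤ n →
      ∃ (x10 : Γ(F, G.U (!s) t)) (x01 : Γ(F, G.U s (!t))) (x11 : Γ(F, G.U (!s) (!t))),
        res F (G.UB_le (!s) t) x10 =
          G.bc (!s) ((inf_le_left : G.UB t ≤ G.V01).trans (G.V01_le (!s))) ^ m •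
            res F (G.UB_le s t) x ∧
        res F (G.UB_le (!s) (!t)) x11 =
          G.bc (!s) ((inf_le_left : G.UB (!t) ≤ G.V01).trans (G.V01_le (!s))) ^ m •
            res F (G.UB_le s (!t)) x01 ∧
        res F (G.UZ_le s (!t)) x01 =
          G.zc (!t) ((inf_le_right : G.UZ s ≤ G.W01).trans (G.W01_le (!t))) ^ n •
            res F (G.UZ_le s t) x ∧
        res F (G.UZ_le (!s) (!t)) x11 =
          G.zc (!t) ((inf_le_right : G.UZ (!s) ≤ G.W01).trans (G.W01_le (!t))) ^ n •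
            res F (G.UZ_le (!s) t) x10 := by
  obtain ⟨k1, h1⟩ := ext_large_Ample hF (G.aff (!s) t) (G.bc (!s) inf_le_left) (G.UB_le (!s) t)
    (G.basicOpen_bc (!s) t).symm (res F (G.UB_le s t) x)
  obtain ⟨k2, h2⟩ := ext_large_Ample hF (G.aff s (!t)) (G.zc (!t) inf_le_right) (G.UZ_le s (!t))
    (G.basicOpen_zc s (!t)).symm (res F (G.UZ_le s t) x)
  obtain ⟨k3, h3⟩ := ext_large_Ample hF (G.aff (!s) (!t))
    (G.bc (!s) inf_le_left * G.zc (!t) inf_le_right) (G.UU_le (!s) (!t))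
    (G.basicOpen_bc_zc (!s) (!t)).symm (res F (G.UU_le s t) x)
  obtain ⟨k, hk1, hk2, hk3⟩ : ∃ k, k1 ≤ k ∧ k2 ≤ k ∧ k3 ≤ k :=
    ⟨max k1 (max k2 k3), le_max_left _ _, (le_max_left _ _).trans (le_max_right _ _),
      (le_max_right _ _).trans (le_max_right _ _)⟩
  obtain ⟨y10, e10⟩ := h1 k hk1
  obtain ⟨y01, e01⟩ := h2 k hk2
  obtain ⟨y11, e11⟩ := h3 k hk3
  rw [bc_res] at e10
  rw [zc_res] at e01
  rw [resF_mul_Ample, bc_res, zc_res] at e11
  -- the relations on `UU`
  have u10 := congrArg (res F (G.UU_leB t)) e10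
  rw [res_res, res_pow_smul, res_res, bc_res] at u10
  have u01 := congrArg (res F (G.UU_leZ s)) e01
  rw [res_res, res_pow_smul, res_res, zc_res] at u01
  obtain ⟨j1, hj1⟩ := tors_large_Ample hF (G.aff_UB (!t)) (G.zc (!t) inf_le_right) (G.UU_leB (!t))
    (G.basicOpen_zc_UB_Ample (!t)).symm
    (res F (G.UB_le (!s) (!t)) y11 -
      G.bc (!s) ((inf_le_left : G.UB (!t) ≤ G.V01).trans (G.V01_le (!s))) ^ k •
        res F (G.UB_le s (!t)) y01) (by
      rw [res_sub, res_res, res_pow_smul, res_res, bc_res, e11, u01, mul_pow, smul_smul, sub_self])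
  obtain ⟨j2, hj2⟩ := tors_large_Ample hF (G.aff_UZ (!s)) (G.bc (!s) inf_le_left) (G.UU_leZ (!s))
    (G.basicOpen_bc_UZ_Ample (!s)).symm
    (res F (G.UZ_le (!s) (!t)) y11 -
      G.zc (!t) ((inf_le_right : G.UZ (!s) ≤ G.W01).trans (G.W01_le (!t))) ^ k •
        res F (G.UZ_le (!s) t) y10) (by
      rw [res_sub, res_res, res_pow_smul, res_res, zc_res, e11, u10, mul_pow, smul_smul,
        mul_comm, sub_self])
  refine ⟨k + max j1 j2, fun m n hm hn => ?_⟩
  obtain ⟨μ, rfl⟩ := Nat.exists_eq_add_of_le (le_of_add_le_left hm)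
  obtain ⟨ν, rfl⟩ := Nat.exists_eq_add_of_le (le_of_add_le_left hn)
  have hμ : j2 ≤ μ := (le_max_right _ _).trans (Nat.le_of_add_le_add_left hm)
  have hν : j1 ≤ ν := (le_max_left _ _).trans (Nat.le_of_add_le_add_left hn)
  have d1 := hj1 ν hν
  have d2 := hj2 μ hμ
  rw [smul_sub, sub_eq_zero, smul_smul] at d1 d2
  refine ⟨G.bc (!s) (inf_le_left : G.U (!s) t ≤ G.V (!s)) ^ μ • y10,
    G.zc (!t) (inf_le_right : G.U s (!t) ≤ G.W (!t)) ^ ν • y01,
    G.bc (!s) (inf_le_left : G.U (!s) (!t) ≤ G.V (!s)) ^ μ •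
      G.zc (!t) (inf_le_right : G.U (!s) (!t) ≤ G.W (!t)) ^ ν • y11, ?_, ?_, ?_, ?_⟩
  · rw [res_pow_smul, bc_res, e10, smul_smul, ← pow_add, add_comm μ k]
  · rw [res_pow_smul, bc_res, res_pow_smul, zc_res, d1, res_pow_smul, zc_res, smul_smul, smul_smul]
    congr 1
    ring
  · rw [res_pow_smul, zc_res, e01, smul_smul, ← pow_add, add_comm ν k]
  · rw [res_pow_smul, bc_res, res_pow_smul, zc_res, smul_comm, d2, res_pow_smul, bc_res, smul_smul,
      smul_smul]
    congr 1
    ring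

/-- A section `x` of a quasi-coherent `F` over the chart `U s t` is the value of a morphism
`O(-m, -n) → F` on the generator, for all large `m, n`. Proof for `(s, t) = (0, 0)` (the other cases are
the same with `b false ↔ b true` etc.): one needs sections `x_10, x_01, x_11` on the other charts with
`x = B^m x_10` on `UB 0`, `x = Z^n x_01` on `UZ 0`, `x_01 = B^m x_11` on `UB 1`, `x_10 = Z^n x_11` on
`UZ 1`. By quasi-coherence, for large `k`, `b^k x` extends to `y_10` on `U 1 0`, `z^k x` to `y_01` on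
`U 0 1` and `b^k z^k x` (on `UU`) to `y_11` on `U 1 1`; the relations hold on `UU`, so after
multiplication by a power of `z` (on `UZ 1`) and of `b` (on `UB 1`) also on `UZ 1`, `UB 1`: replace
`k` by a larger one; then put `x_10 = b^(m-k) y_10`, `x_01 = z^(n-k) y_01`,
`x_11 = b^(m-k) z^(n-k) y_11`. -/
theorem exists_hom_val {F : X.Modules} (hF : QC F) (s t : Bool) (x : Γ(F, G.U s t)) :
    ∃ k : ℤ, ∀ m n, k ≤ m → k ≤ n →
      ∃ φ : G.OO (-m) (-n) ⟶ F, φ.app _ (G.gen m n s t) = x := by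
  obtain ⟨k, hk⟩ := G.exists_ext_Ample hF s t x
  refine ⟨k, fun m n hm hn => ?_⟩
  obtain ⟨m, rfl⟩ := Int.eq_ofNat_of_zero_le ((Int.natCast_nonneg k).trans hm)
  obtain ⟨n, rfl⟩ := Int.eq_ofNat_of_zero_le ((Int.natCast_nonneg k).trans hn)
  obtain ⟨x10, x01, x11, e1, e2, e3, e4⟩ := hk m n (by exact_mod_cast hm) (by exact_mod_cast hn)
  obtain ⟨a, rfl, rfl, rfl, rfl⟩ := exists_four_Ample (P := fun s t => Γ(F, G.U s t)) s t x x10
    x01 x11
  obtain ⟨φ, hφ⟩ := G.exists_hom_of_fam F m n a (G.mem_Fam_Ample s t m n a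
    (fun t₁ => by
      rcases Bool.eq_or_eq_not t₁ t with rfl | rfl
      · exact e1
      · exact e2)
    (fun s₁ => by
      rcases Bool.eq_or_eq_not s₁ s with rfl | rfl
      · exact e3
      · exact e4))
  exact ⟨φ, hφ s t⟩

theorem exists_hom_ne_zero {F : X.Modules} (hF : QC F) (h : ¬ IsZero F) :
    ∃ k : ℤ, ∀ m n, k ≤ m → k ≤ n → ∃ φ : G.OO (-m) (-n) ⟶ F, φ ≠ 0 := by
  have h1 : ∃ s t, ∃ x : Γ(F, G.U s t), x ≠ 0 := by
    by_contra hc
    refine h (isZero_of_charts G hF fun s t x => ?_)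
    by_contra hx
    exact hc ⟨s, t, x, hx⟩
  obtain ⟨s, t, x, hx⟩ := h1
  obtain ⟨k, hk⟩ := G.exists_hom_val hF s t x
  refine ⟨k, fun m n hm hn => ?_⟩
  obtain ⟨φ, hφ⟩ := hk m n hm hn
  refine ⟨φ, fun h0 => hx ?_⟩
  rw [← hφ, h0]
  rfl

/-- Every coherent sheaf is a quotient of a sum of copies of `O(-k, -k)`. -/
theorem exists_epi {F : X.Modules} (hF : IsCoh F) :
    ∃ (k : ℤ) (n : ℕ) (φ : (⨁ (fun _ : Fin n => G.OO (-k) (-k))) ⟶ F), Epi φ := by
  have hQ : QC F := QC.of_isQuasicoherent F hF.qcoh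
  have hfin : ∀ s t, ∃ T : Finset Γ(F, G.U s t),
      Submodule.span Γ(X, G.U s t) (T : Set Γ(F, G.U s t)) = ⊤ := fun s t =>
    Submodule.fg_def.mp (hF.finite _ (G.aff s t)).fg_top |>.elim fun T hT =>
      ⟨hT.1.toFinset, by rw [Set.Finite.coe_toFinset]; exact hT.2⟩
  choose T hT using hfin
  choose κ hκ using fun (s t : Bool) (x : Γ(F, G.U s t)) => G.exists_hom_val hQ s t x
  -- a common bound
  obtain ⟨k, hk⟩ : ∃ k : ℤ, ∀ s t, ∀ x ∈ T s t, κ s t x ≤ k := by
    obtain ⟨k, hk⟩ := (Set.finite_range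
      (fun y : (Σ st : Bool × Bool, T st.1 st.2) => κ y.1.1 y.1.2 y.2.1)).bddAbove
    exact ⟨k, fun s t x hx => hk ⟨⟨(s, t), ⟨x, hx⟩⟩, rfl⟩⟩
  let J := Σ st : Bool × Bool, T st.1 st.2
  let e : Fin (Fintype.card J) ≃ J := (Fintype.equivFin J).symm
  choose φ hφ using fun y : J => hκ y.1.1 y.1.2 y.2.1 k k (hk _ _ _ y.2.2) (hk _ _ _ y.2.2)
  refine ⟨k, Fintype.card J, biproduct.desc fun j => φ (e j), ?_⟩
  refine epi_of_cover (fun i : Bool × Bool => G.U i.1 i.2) (fun i => G.aff i.1 i.2)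
    (fun p => ?_) hQ _ (fun i y => ?_)
  · obtain ⟨s, t, h⟩ := G.exists_mem_U p
    exact ⟨(s, t), h⟩
  · obtain ⟨s, t⟩ := i
    have hy : y ∈ Submodule.span Γ(X, G.U s t) (T s t : Set Γ(F, G.U s t)) := by
      rw [hT s t]; trivial
    induction hy using Submodule.span_induction with
    | mem x hx =>
      refine ⟨(biproduct.ι (fun _ : Fin (Fintype.card J) => G.OO (-k) (-k))
        (e.symm ⟨(s, t), ⟨x, hx⟩⟩)).app _ (G.gen k k s t), ?_⟩
      rw [← comp_app_apply, biproduct.ι_desc, Equiv.apply_symm_apply]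
      exact hφ ⟨(s, t), ⟨x, hx⟩⟩
    | zero => exact ⟨0, app_zero _⟩
    | add x y _ _ hx hy =>
      obtain ⟨x', hx'⟩ := hx
      obtain ⟨y', hy'⟩ := hy
      exact ⟨x' + y', by rw [app_add, hx', hy']⟩
    | smul a x _ hx =>
      obtain ⟨x', hx'⟩ := hx
      exact ⟨a • x', by rw [Scheme.Modules.Hom.app_smul, hx']⟩

end BiP

end M21.E3
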