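import Pool.Agent.H.MP_21b43d_ag.E3.G.Frac

/-!
# M21, existence part, C1b: complex structures

`CX X`: a structure morphism `X ⟶ Spec ℂ`. The instances: `X.Modules` is `ℂ`-linear (`linC`), `Γ(X, U)` is a
`ℂ`-algebra, `Γ(M, U)` a `ℂ`-module, the function field is a `ℂ`-algebra.
-/

open CategoryTheory CategoryTheory.Limits AlgebraicGeometry TopologicalSpace

noncomputable section

namespace M21.E3

/-- The structure morphism of a complex scheme, as a class. -/
class CX (X : Scheme.{0}) where
  /-- the structure morphism -/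
  f : X ⟶ Spec (.of ℂ)

variable {X : Scheme.{0}} [CX X]

instance instLinearCX : Linear ℂ X.Modules := linC CX.f

/-- the complex numbers in `Γ(X, U)` -/
def cr (U : X.Opens) : ℂ →+* Γ(X, U) :=
  (X.presheaf.map (homOfLE (le_top : U ≤ ⊤)).op).hom.comp (cmap CX.f)

instance instAlgCX (U : X.Opens) : Algebra ℂ Γ(X, U) := (cr U).toAlgebra

instance instModCX (M : X.Modules) (U : X.Opens) : Module ℂ Γ(M, U) := Module.compHom _ (cr U)

theorem cr_res {U V : X.Opens} (h : V ≤ U) (c : ℂ) : resF h (cr U c) = cr V c :=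
  resF_resF le_top h (cmap CX.f c)

theorem smul_eq_cr (M : X.Modules) (U : X.Opens) (c : ℂ) (s : Γ(M, U)) : c • s = cr U c • s := rfl

instance (M : X.Modules) (U : X.Opens) : IsScalarTower ℂ Γ(X, U) Γ(M, U) := ⟨fun c a s => by
  rw [smul_eq_cr, ← mul_smul]
  rfl⟩

/-- restriction as a linear map -/
def resL (M : X.Modules) {U V : X.Opens} (h : V ≤ U) : Γ(M, U) →ₗ[ℂ] Γ(M, V) where
  toFun := res M h
  map_add' := res_add h
  map_smul' c s := by
    rw [smul_eq_cr]
    refine (res_smul h _ s).trans ?_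
    exact congrArg (· • res M h s) (cr_res h c)

@[simp] theorem resL_apply (M : X.Modules) {U V : X.Opens} (h : V ≤ U) (s : Γ(M, U)) :
    resL M h s = res M h s := rfl

theorem smul_app_CX {M N : X.Modules} (c : ℂ) (φ : M ⟶ N) (U : X.Opens) (s : Γ(M, U)) :
    (c • φ).app U s = c • φ.app U s := rfl

/-- the sections of a morphism as a linear map -/
def appC {M N : X.Modules} (φ : M ⟶ N) (U : X.Opens) : Γ(M, U) →ₗ[ℂ] Γ(N, U) where
  toFun := φ.app U
  map_add' := app_add φ
  map_smul' c s := by
    rw [smul_eq_cr]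
    exact Scheme.Modules.Hom.app_smul _ _ _

@[simp] theorem appC_apply {M N : X.Modules} (φ : M ⟶ N) (U : X.Opens) (s : Γ(M, U)) :
    appC φ U s = φ.app U s := rfl

/-- evaluation at a section as a linear map -/
def evC {M : X.Modules} (N : X.Modules) {U : X.Opens} (s : Γ(M, U)) : (M ⟶ N) →ₗ[ℂ] Γ(N, U) where
  toFun φ := φ.app U s
  map_add' φ ψ := by rw [Scheme.Modules.Hom.add_app]; rfl
  map_smul' c φ := smul_app_CX c φ U s

@[simp] theorem evC_apply {M N : X.Modules} {U : X.Opens} (s : Γ(M, U)) (φ : M ⟶ N) :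
    evC N s φ = φ.app U s := rfl

section K

variable [IsIntegral X]

instance instAlgK : Algebra ℂ X.functionField :=
  ((toK (U := (⊤ : X.Opens)) (p := genericPoint X) trivial).comp (cr ⊤)).toAlgebra

theorem toK_cr {U : X.Opens} {p : X} (hp : p ∈ U) (c : ℂ) :
    toK hp (cr U c) = algebraMap ℂ X.functionField c := by
  rw [← cr_res (le_top : U ≤ ⊤) c, toK_res]
  rfl

/-- the value of a function in the function field, as an algebra homomorphism -/
def toKA {U : X.Opens} {p : X} (hp : p ∈ U) : Γ(X, U) →ₐ[ℂ] X.functionField :=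
  { toK hp with commutes' := toK_cr hp }

@[simp] theorem toKA_apply {U : X.Opens} {p : X} (hp : p ∈ U) (a : Γ(X, U)) :
    toKA hp a = toK hp a := rfl

/-- the value of a section as a linear map -/
def Frac.valL (N : Frac X) {U : X.Opens} {p : X} (hp : p ∈ U) : Γ(N.mod, U) →ₗ[ℂ] X.functionField where
  toFun := N.val hp
  map_add' := N.val_add hp
  map_smul' c s := by
    rw [smul_eq_cr, N.val_smul, toK_cr, Algebra.smul_def]
    rfl

theorem Frac.smul_memC (N : Frac X) (p : X) (c : ℂ) (g : X.functionField) (h : N.mem p g) :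
    N.mem p (c • g) := by
  rw [Algebra.smul_def, ← toK_cr (U := ⊤) (p := p) trivial c]
  exact N.smul p _ g (Reg.toK' _ _) h

/-- the elements of the function field which are sections over `U`, as a subspace -/
def Frac.secs (N : Frac X) (U : X.Opens) : Submodule ℂ X.functionField where
  carrier := {g | ∀ p ∈ U, N.mem p g}
  add_mem' ha hb p hp := N.add p _ _ (ha p hp) (hb p hp)
  zero_mem' p _ := N.zero p
  smul_mem' c g hg p hp := N.smul_memC p c g (hg p hp)

theorem Frac.mem_secs (N : Frac X) (U : X.Opens) (g : X.functionField) :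
    g ∈ N.secs U ↔ ∀ p ∈ U, N.mem p g := Iff.rfl

end K

end M21.E3
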