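import Pool.Agent.H.MP_21b43d_ag.E3.G.Res

/-!
# M21 (C9): the resolution of length two from a map of short exact sequences
-/

open CategoryTheory CategoryTheory.Limits

noncomputable section

universe v u

namespace M21

section Abs

variable {C : Type u} [Category.{v} C] [Abelian C]

/-- Two short exact sequences `A₂ → A₁ → A₀`, `B₂ → B₁ → B₀`, a map from the first to the second and
a short exact sequence `A₀ → B₀ → N`. -/
structure ConeData (N A₀ A₁ A₂ B₀ B₁ B₂ : C) where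
  /-- maps -/
  i : A₂ ⟶ A₁
  /-- maps -/
  p : A₁ ⟶ A₀
  wA : i ≫ p = 0
  hA : (ShortComplex.mk i p wA).ShortExact
  /-- maps -/
  j : B₂ ⟶ B₁
  /-- maps -/
  q : B₁ ⟶ B₀
  wB : j ≫ q = 0
  hB : (ShortComplex.mk j q wB).ShortExact
  /-- maps -/
  f : A₀ ⟶ B₀
  /-- maps -/
  g : B₀ ⟶ N
  w : f ≫ g = 0
  h : (ShortComplex.mk f g w).ShortExact
  /-- maps -/
  f₂ : A₂ ⟶ B₂
  /-- maps -/
  f₁ : A₁ ⟶ B₁
  comm₂ : i ≫ f₁ = f₂ ≫ j
  comm₁ : p ≫ f = f₁ ≫ q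

namespace ConeData

variable {N A₀ A₁ A₂ B₀ B₁ B₂ : C} (D : ConeData N A₀ A₁ A₂ B₀ B₁ B₂)

/-- `A₂ ⟶ B₂ ⊞ A₁` -/
def a : A₂ ⟶ B₂ ⊞ A₁ := biprod.lift D.f₂ (-D.i)

/-- `B₂ ⊞ A₁ ⟶ B₁` -/
def b' : B₂ ⊞ A₁ ⟶ B₁ := biprod.desc D.j D.f₁

/-- `B₁ ⟶ N` -/
def d : B₁ ⟶ N := D.q ≫ D.g

theorem a_b' : D.a ≫ D.b' = 0 := by
  unfold a b'
  rw [biprod.lift_desc, Preadditive.neg_comp, D.comm₂, add_neg_cancel]

theorem f₁_d : D.f₁ ≫ D.d = 0 := by
  unfold d
  rw [← Category.assoc, ← D.comm₁, Category.assoc, D.w, comp_zero]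

theorem j_d : D.j ≫ D.d = 0 := by
  unfold d
  rw [← Category.assoc, D.wB, zero_comp]

theorem b'_d : D.b' ≫ D.d = 0 := by
  unfold b'
  apply biprod.hom_ext'
  · rw [biprod.inl_desc_assoc, j_d, comp_zero]
  · rw [biprod.inr_desc_assoc, f₁_d, comp_zero]

/-- `B₂ ⊞ A₁ ⟶ kernel` -/
def b : B₂ ⊞ A₁ ⟶ kernel D.d := kernel.lift _ D.b' D.b'_d

theorem b_ι : D.b ≫ kernel.ι D.d = D.b' := kernel.lift_ι _ _ _

theorem a_b : D.a ≫ D.b = 0 := by
  rw [← cancel_mono (kernel.ι D.d), Category.assoc, b_ι, a_b', zero_comp]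

theorem epi_d : Epi D.d := by
  have h1 : Epi D.q := D.hB.epi_g
  have h2 : Epi D.g := D.h.epi_g
  exact epi_comp' h1 h2

theorem mono_a : Mono D.a := by
  have h1 : Mono D.i := D.hA.mono_f
  have h2 : D.a ≫ (biprod.snd : B₂ ⊞ A₁ ⟶ A₁) = -D.i := biprod.lift_snd _ _
  have : Mono (D.a ≫ (biprod.snd : B₂ ⊞ A₁ ⟶ A₁)) := by
    rw [h2]
    refine ⟨fun x y hxy => ?_⟩
    rw [Preadditive.comp_neg, Preadditive.comp_neg, neg_inj] at hxy
    exact (cancel_mono D.i).mp hxy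
  exact mono_of_mono _ (biprod.snd : B₂ ⊞ A₁ ⟶ A₁)

theorem exact_ab : (ShortComplex.mk D.a D.b D.a_b).Exact := by
  rw [ShortComplex.exact_iff_exact_up_to_refinements]
  intro T x hx
  have hx' : x ≫ D.b' = 0 := by
    have hx2 : x ≫ D.b = 0 := hx
    rw [← D.b_ι, ← Category.assoc, hx2, zero_comp]
  have mi : Mono D.i := D.hA.mono_f
  have mj : Mono D.j := D.hB.mono_f
  have mf : Mono D.f := D.h.mono_f
  have h1 : (x ≫ biprod.fst) ≫ D.j + (x ≫ biprod.snd) ≫ D.f₁ = 0 := by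
    rw [← hx']
    unfold b'
    have h2 : biprod.desc D.j D.f₁ = biprod.fst ≫ D.j + biprod.snd ≫ D.f₁ := by
      apply biprod.hom_ext' <;> simp
    rw [h2, Preadditive.comp_add, Category.assoc, Category.assoc]
  have h3 : (x ≫ biprod.snd) ≫ D.p = 0 := by
    rw [← cancel_mono D.f, Category.assoc, D.comm₁, zero_comp, ← Category.assoc]
    have h4 : (x ≫ biprod.snd) ≫ D.f₁ = -((x ≫ biprod.fst) ≫ D.j) :=
      eq_neg_of_add_eq_zero_right h1
    rw [h4, Preadditive.neg_comp, Category.assoc, D.wB, comp_zero, neg_zero]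
  let γ : T ⟶ A₂ := D.hA.exact.lift (x ≫ biprod.snd) h3
  have hγ : γ ≫ D.i = x ≫ biprod.snd := D.hA.exact.lift_f _ _
  refine ⟨T, 𝟙 T, inferInstance, -γ, ?_⟩
  rw [Category.id_comp]
  change x = (-γ) ≫ D.a
  unfold a
  apply biprod.hom_ext
  · rw [Category.assoc, biprod.lift_fst, ← cancel_mono D.j, Category.assoc (-γ), ← D.comm₂,
      Preadditive.neg_comp, ← Category.assoc γ, hγ]
    exact eq_neg_of_add_eq_zero_left h1
  · rw [Category.assoc, biprod.lift_snd, Preadditive.neg_comp, Preadditive.comp_neg, neg_neg, hγ]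

theorem epi_b : Epi D.b := by
  rw [epi_iff_surjective_up_to_refinements]
  intro T y
  have mj : Mono D.j := D.hB.mono_f
  have mf : Mono D.f := D.h.mono_f
  have ep : Epi D.p := D.hA.epi_g
  have h1 : (y ≫ kernel.ι D.d ≫ D.q) ≫ D.g = 0 := by
    have h2 : kernel.ι D.d ≫ D.d = 0 := kernel.condition _
    unfold d at h2
    rw [Category.assoc, Category.assoc]
    change y ≫ kernel.ι D.d ≫ D.d = 0
    rw [kernel.condition, comp_zero]
  let z : T ⟶ A₀ := D.h.exact.lift (y ≫ kernel.ι D.d ≫ D.q) h1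
  have hz : z ≫ D.f = y ≫ kernel.ι D.d ≫ D.q := D.h.exact.lift_f _ _
  obtain ⟨T', π, hπ, α, hα⟩ := surjective_up_to_refinements_of_epi D.p z
  have h3 : (π ≫ y ≫ kernel.ι D.d - α ≫ D.f₁) ≫ D.q = 0 := by
    rw [Preadditive.sub_comp, Category.assoc, Category.assoc, Category.assoc, ← hz,
      ← D.comm₁, ← Category.assoc, ← Category.assoc, hα, sub_self]
  let β : T' ⟶ B₂ := D.hB.exact.lift (π ≫ y ≫ kernel.ι D.d - α ≫ D.f₁) h3
  have hβ : β ≫ D.j = π ≫ y ≫ kernel.ι D.d - α ≫ D.f₁ := D.hB.exact.lift_f _ _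
  refine ⟨T', π, hπ, biprod.lift β α, ?_⟩
  rw [← cancel_mono (kernel.ι D.d), Category.assoc, Category.assoc, b_ι]
  unfold b'
  rw [biprod.lift_desc, hβ, sub_add_cancel]

/-- The resolution `0 → A₂ → B₂ ⊞ A₁ → B₁ → N → 0`. -/
def res2 : Res2 N B₁ (B₂ ⊞ A₁) A₂ where
  K := kernel D.d
  a := D.a
  b := D.b
  c := kernel.ι D.d
  d := D.d
  wab := D.a_b
  wcd := kernel.condition _
  h₁ := { exact := D.exact_ab, mono_f := D.mono_a, epi_g := D.epi_b }
  h₀ := { exact := ShortComplex.exact_of_f_is_kernel _ (kernelIsKernel D.d),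
          mono_f := inferInstanceAs (Mono (kernel.ι D.d)), epi_g := D.epi_d }

theorem res2_dd : D.res2.dd = D.b' := D.b_ι

theorem res2_a : D.res2.a = D.a := rfl

theorem res2_d : D.res2.d = D.d := rfl

end ConeData

end Abs

end M21
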