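import Pool.Agent.H.MP_21b43d_ag.E3.G.Aff
import Pool.Agent.H.MP_21b43d_ag.E3.G.Cone

/-!
# M21 (C9, G3): classes on a module for a double cover by affine opens

`DCov X` : two covers `X = V₀ ∪ V₁ = V'₀ ∪ V'₁`; `W = V₀ ∩ V₁`, `W' = V'₀ ∩ V'₁`.
`HM N M V = Hom(Ez V N, M)` (the sections over `V` of the sheaf of homomorphisms).

If the nine intersections `V₀ ∩ V'₀, …, W ∩ W'` are affine, `M` is quasi-coherent and `N` is trivial on
the four opens `V_s ∩ V'_t`, then for `Hom(sgO N, (sgO M)⟦i⟧)`: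

* `DCov.vanish` : it is zero for `i < 0` and `i > 2`;
* `DCov.H2` : `HM N M (W ∩ W') → Hom(sgO N, (sgO M)⟦2⟧)` is surjective, the kernel is the sum of the
  images of `HM N M` of `V₀ ∩ W', V₁ ∩ W', W ∩ V'₀, W ∩ V'₁`;
* `DCov.H1` : the quadruples `(β₀, β₁, α₀, α₁)` on these four opens with `β₀ + β₁ = α₀ + α₁` on
  `W ∩ W'` map onto `Hom(sgO N, (sgO M)⟦1⟧)`, the kernel are the
  `(m₀₀ + m₀₁, m₁₀ + m₁₁, m₀₀ + m₁₀, m₀₁ + m₁₁)`, `m_st` on `V_s ∩ V'_t`.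
-/

open CategoryTheory CategoryTheory.Limits AlgebraicGeometry TopologicalSpace Opposite
open CategoryTheory.Pretriangulated DerivedCategory
open AlgebraicGeometry.Scheme (Modules)

noncomputable section

universe t w v u

namespace M21

/-! ### abstract lemmas -/

section Abs

variable {C : Type u} [Category.{v} C] [Abelian C]

theorem shortExact_biprod {A₁ A₂ A₃ B₁ B₂ B₃ : C} {f : A₁ ⟶ A₂} {g : A₂ ⟶ A₃} {w : f ≫ g = 0}
    {f' : B₁ ⟶ B₂} {g' : B₂ ⟶ B₃} {w' : f' ≫ g' = 0}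
    (h : (ShortComplex.mk f g w).ShortExact) (h' : (ShortComplex.mk f' g' w').ShortExact)
    (W : biprod.map f f' ≫ biprod.map g g' = 0) :
    (ShortComplex.mk (biprod.map f f') (biprod.map g g') W).ShortExact where
  mono_f := by
    have m1 : Mono f := h.mono_f
    have m2 : Mono f' := h'.mono_f
    exact inferInstanceAs (Mono (biprod.map f f'))
  epi_g := by
    have m1 : Epi g := h.epi_g
    have m2 : Epi g' := h'.epi_g
    exact inferInstanceAs (Epi (biprod.map g g'))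
  exact := by
    rw [ShortComplex.exact_iff_exact_up_to_refinements]
    intro T x hx
    have m1 : Mono f := h.mono_f
    have m2 : Mono f' := h'.mono_f
    have hx' : x ≫ biprod.map g g' = 0 := hx
    have h1 : (x ≫ biprod.fst) ≫ g = 0 := by
      rw [Category.assoc, ← biprod.map_fst g g', ← Category.assoc, hx', zero_comp]
    have h2 : (x ≫ biprod.snd) ≫ g' = 0 := by
      rw [Category.assoc, ← biprod.map_snd g g', ← Category.assoc, hx', zero_comp]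
    let α : T ⟶ A₁ := h.exact.lift (x ≫ biprod.fst) h1
    have hα : α ≫ f = x ≫ biprod.fst := h.exact.lift_f _ _
    let β : T ⟶ B₁ := h'.exact.lift (x ≫ biprod.snd) h2
    have hβ : β ≫ f' = x ≫ biprod.snd := h'.exact.lift_f _ _
    refine ⟨T, 𝟙 T, inferInstance, biprod.lift α β, ?_⟩
    rw [Category.id_comp]
    change x = biprod.lift α β ≫ biprod.map f f'
    apply biprod.hom_ext
    · rw [Category.assoc, biprod.map_fst, biprod.lift_fst_assoc, hα]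
    · rw [Category.assoc, biprod.map_snd, biprod.lift_snd_assoc, hβ]

theorem shortExact_comp_iso {A₁ A₂ A₃ A₃' : C} {f : A₁ ⟶ A₂} {g : A₂ ⟶ A₃} {w : f ≫ g = 0}
    (h : (ShortComplex.mk f g w).ShortExact) (e : A₃ ⟶ A₃') [IsIso e] (w' : f ≫ g ≫ e = 0) :
    (ShortComplex.mk f (g ≫ e) w').ShortExact :=
  ShortComplex.shortExact_of_iso
    (ShortComplex.isoMk (Iso.refl A₁) (Iso.refl A₂) (asIso e) (by simp) (by simp)) h

variable [HasDerivedCategory.{w} C]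

theorem Acyc.biprod {A B M : C} (hA : Acyc A M) (hB : Acyc B M) : Acyc (A ⊞ B) M := by
  intro i hi α
  apply sg_biprod_hom_ext
  · exact (hA i hi _).trans (hA i hi _).symm
  · exact (hB i hi _).trans (hB i hi _).symm

end Abs

variable {X : Scheme.{0}}

/-! ### Mayer–Vietoris with names for the opens -/

section MV

variable {A B C D : X.Opens}

/-- `Ez A N → Ez B N ⊞ Ez C N` -/
def mvF' (hB : A ≤ B) (hC : A ≤ C) (N : X.Modules) :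
    (Ez A).obj N ⟶ (Ez B).obj N ⊞ (Ez C).obj N :=
  biprod.lift ((ezLE hB).app N) ((ezLE hC).app N)

/-- `Ez B N ⊞ Ez C N → Ez D N` (difference) -/
def mvG' (hB : B ≤ D) (hC : C ≤ D) (N : X.Modules) :
    (Ez B).obj N ⊞ (Ez C).obj N ⟶ (Ez D).obj N :=
  biprod.desc ((ezLE hB).app N) (-(ezLE hC).app N)

theorem mvF'_mvG' (hAB : A ≤ B) (hAC : A ≤ C) (hBD : B ≤ D) (hCD : C ≤ D) (N : X.Modules) :
    mvF' hAB hAC N ≫ mvG' hBD hCD N = 0 := by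
  unfold mvF' mvG'
  rw [biprod.lift_desc, Preadditive.comp_neg, ezLE_ezLE, ezLE_ezLE, add_neg_cancel]

theorem mvShortExact' (hAB : A ≤ B) (hAC : A ≤ C) (hBD : B ≤ D) (hCD : C ≤ D)
    (hA : B ⊓ C = A) (hD : B ⊔ C = D) (N : X.Modules) :
    (ShortComplex.mk (mvF' hAB hAC N) (mvG' hBD hCD N) (mvF'_mvG' _ _ _ _ N)).ShortExact := by
  subst hA
  subst hD
  exact mvShortExact B C N

end MV

variable (X) in
/-- Two covers by two opens. -/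
structure DCov where
  /-- first cover -/
  V₀ : X.Opens
  /-- first cover -/
  V₁ : X.Opens
  /-- second cover -/
  U₀ : X.Opens
  /-- second cover -/
  U₁ : X.Opens
  cov : V₀ ⊔ V₁ = ⊤
  cov' : U₀ ⊔ U₁ = ⊤

namespace DCov

variable (D : DCov X)

/-- the intersection of the first cover -/
abbrev W : X.Opens := D.V₀ ⊓ D.V₁

/-- the intersection of the second cover -/
abbrev W' : X.Opens := D.U₀ ⊓ D.U₁

/-- All nine intersections are affine. -/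
structure Aff : Prop where
  h00 : IsAffineOpen (D.V₀ ⊓ D.U₀)
  h01 : IsAffineOpen (D.V₀ ⊓ D.U₁)
  h10 : IsAffineOpen (D.V₁ ⊓ D.U₀)
  h11 : IsAffineOpen (D.V₁ ⊓ D.U₁)
  h0w : IsAffineOpen (D.V₀ ⊓ D.W')
  h1w : IsAffineOpen (D.V₁ ⊓ D.W')
  hw0 : IsAffineOpen (D.W ⊓ D.U₀)
  hw1 : IsAffineOpen (D.W ⊓ D.U₁)
  hww : IsAffineOpen (D.W ⊓ D.W')

/-- `N` is trivial on the four opens `V_s ⊓ U_t`. -/
structure Triv (N : X.Modules) : Prop where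
  h00 : ∃ e : Γ(N, D.V₀ ⊓ D.U₀), IsBasisOn N e
  h01 : ∃ e : Γ(N, D.V₀ ⊓ D.U₁), IsBasisOn N e
  h10 : ∃ e : Γ(N, D.V₁ ⊓ D.U₀), IsBasisOn N e
  h11 : ∃ e : Γ(N, D.V₁ ⊓ D.U₁), IsBasisOn N e

theorem l0w : D.V₀ ⊓ D.W' ≤ D.V₀ ⊓ D.U₀ := inf_le_inf_left _ inf_le_left
theorem l0w' : D.V₀ ⊓ D.W' ≤ D.V₀ ⊓ D.U₁ := inf_le_inf_left _ inf_le_right
theorem l1w : D.V₁ ⊓ D.W' ≤ D.V₁ ⊓ D.U₀ := inf_le_inf_left _ inf_le_left
theorem l1w' : D.V₁ ⊓ D.W' ≤ D.V₁ ⊓ D.U₁ := inf_le_inf_left _ inf_le_right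
theorem lw0 : D.W ⊓ D.U₀ ≤ D.V₀ ⊓ D.U₀ := inf_le_inf_right _ inf_le_left
theorem lw0' : D.W ⊓ D.U₀ ≤ D.V₁ ⊓ D.U₀ := inf_le_inf_right _ inf_le_right
theorem lw1 : D.W ⊓ D.U₁ ≤ D.V₀ ⊓ D.U₁ := inf_le_inf_right _ inf_le_left
theorem lw1' : D.W ⊓ D.U₁ ≤ D.V₁ ⊓ D.U₁ := inf_le_inf_right _ inf_le_right
theorem lww_0w : D.W ⊓ D.W' ≤ D.V₀ ⊓ D.W' := inf_le_inf_right _ inf_le_left
theorem lww_1w : D.W ⊓ D.W' ≤ D.V₁ ⊓ D.W' := inf_le_inf_right _ inf_le_right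
theorem lww_w0 : D.W ⊓ D.W' ≤ D.W ⊓ D.U₀ := inf_le_inf_left _ inf_le_left
theorem lww_w1 : D.W ⊓ D.W' ≤ D.W ⊓ D.U₁ := inf_le_inf_left _ inf_le_right

theorem inf_cov' (A : X.Opens) : A ⊓ D.U₀ ⊔ A ⊓ D.U₁ = A := by
  rw [← inf_sup_left, D.cov', inf_top_eq]

theorem inf_inf' (A : X.Opens) : A ⊓ D.U₀ ⊓ (A ⊓ D.U₁) = A ⊓ D.W' := by
  rw [← inf_inf_distrib_left]

variable (N : X.Modules)

/-- The two rows and the column. -/
def cone : ConeData N ((Ez D.W).obj N) ((Ez (D.W ⊓ D.U₀)).obj N ⊞ (Ez (D.W ⊓ D.U₁)).obj N)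
    ((Ez (D.W ⊓ D.W')).obj N) ((Ez D.V₀).obj N ⊞ (Ez D.V₁).obj N)
    (((Ez (D.V₀ ⊓ D.U₀)).obj N ⊞ (Ez (D.V₀ ⊓ D.U₁)).obj N) ⊞
      ((Ez (D.V₁ ⊓ D.U₀)).obj N ⊞ (Ez (D.V₁ ⊓ D.U₁)).obj N))
    ((Ez (D.V₀ ⊓ D.W')).obj N ⊞ (Ez (D.V₁ ⊓ D.W')).obj N) where
  i := mvF' D.lww_w0 D.lww_w1 N
  p := mvG' inf_le_left inf_le_left N
  wA := mvF'_mvG' _ _ _ _ N
  hA := mvShortExact' _ _ _ _ (D.inf_inf' _) (D.inf_cov' _) N
  j := biprod.map (mvF' D.l0w D.l0w' N) (mvF' D.l1w D.l1w' N)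
  q := biprod.map (mvG' inf_le_left inf_le_left N) (mvG' inf_le_left inf_le_left N)
  wB := by
    apply biprod.hom_ext'
    · rw [biprod.inl_map_assoc, biprod.inl_map, ← Category.assoc, mvF'_mvG', zero_comp, comp_zero]
    · rw [biprod.inr_map_assoc, biprod.inr_map, ← Category.assoc, mvF'_mvG', zero_comp, comp_zero]
  hB := shortExact_biprod (mvShortExact' _ _ _ _ (D.inf_inf' _) (D.inf_cov' _) N)
    (mvShortExact' _ _ _ _ (D.inf_inf' _) (D.inf_cov' _) N) _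
  f := mvF' inf_le_left inf_le_right N
  g := mvG' le_sup_left le_sup_right N ≫ (ezI _).app N
  w := by
    rw [← Category.assoc, mvF'_mvG', zero_comp]
  h := by
    have := isIso_ezI_of_eq_top D.cov N
    exact shortExact_comp_iso (mvShortExact' _ _ _ _ rfl rfl N) _ _
  f₂ := mvF' D.lww_0w D.lww_1w N
  f₁ := biprod.lift (biprod.map ((ezLE D.lw0).app N) ((ezLE D.lw1).app N))
    (biprod.map ((ezLE D.lw0').app N) ((ezLE D.lw1').app N))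
  comm₂ := by
    unfold mvF'
    apply biprod.hom_ext <;> apply biprod.hom_ext <;> simp
  comm₁ := by
    unfold mvF' mvG'
    apply biprod.hom_ext <;> apply biprod.hom_ext' <;> simp

/-- The resolution of length two given by the double cover. -/
def res2 : Res2 N
    (((Ez (D.V₀ ⊓ D.U₀)).obj N ⊞ (Ez (D.V₀ ⊓ D.U₁)).obj N) ⊞
      ((Ez (D.V₁ ⊓ D.U₀)).obj N ⊞ (Ez (D.V₁ ⊓ D.U₁)).obj N))
    (((Ez (D.V₀ ⊓ D.W')).obj N ⊞ (Ez (D.V₁ ⊓ D.W')).obj N) ⊞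
      ((Ez (D.W ⊓ D.U₀)).obj N ⊞ (Ez (D.W ⊓ D.U₁)).obj N))
    ((Ez (D.W ⊓ D.W')).obj N) := (D.cone N).res2

end DCov

/-! ### acyclicity -/

theorem IsBasisOn.res {N : X.Modules} {V V' : X.Opens} {e : Γ(N, V)} (he : IsBasisOn N e)
    (h : V' ≤ V) : IsBasisOn N (res N h e) := by
  intro W hW
  have h1 := he W (hW.trans h)
  simp only [res_res]
  exact h1

theorem acyc_ez {M : X.Modules} (hM : QC M) {U : X.Opens} (hU : IsAffineOpen U) {N : X.Modules}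
    {V : X.Opens} (hUV : U ≤ V) (hN : ∃ e : Γ(N, V), IsBasisOn N e) :
    Acyc ((Ez U).obj N) M := by
  obtain ⟨e, he⟩ := hN
  exact fun i hi α => affine_vanishing' M hM hU (he.res hUV) hi α

namespace DCov

variable {D : DCov X} {N M : X.Modules}

theorem acyc0 (hA : D.Aff) (hN : D.Triv N) (hM : QC M) :
    Acyc (((Ez (D.V₀ ⊓ D.U₀)).obj N ⊞ (Ez (D.V₀ ⊓ D.U₁)).obj N) ⊞
      ((Ez (D.V₁ ⊓ D.U₀)).obj N ⊞ (Ez (D.V₁ ⊓ D.U₁)).obj N)) M :=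
  ((acyc_ez hM hA.h00 le_rfl hN.h00).biprod (acyc_ez hM hA.h01 le_rfl hN.h01)).biprod
    ((acyc_ez hM hA.h10 le_rfl hN.h10).biprod (acyc_ez hM hA.h11 le_rfl hN.h11))

theorem acyc1 (hA : D.Aff) (hN : D.Triv N) (hM : QC M) :
    Acyc (((Ez (D.V₀ ⊓ D.W')).obj N ⊞ (Ez (D.V₁ ⊓ D.W')).obj N) ⊞
      ((Ez (D.W ⊓ D.U₀)).obj N ⊞ (Ez (D.W ⊓ D.U₁)).obj N)) M :=
  ((acyc_ez hM hA.h0w D.l0w hN.h00).biprod (acyc_ez hM hA.h1w D.l1w hN.h10)).biprod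
    ((acyc_ez hM hA.hw0 D.lw0 hN.h00).biprod (acyc_ez hM hA.hw1 D.lw1 hN.h01))

theorem acyc2 (hA : D.Aff) (hN : D.Triv N) (hM : QC M) :
    Acyc ((Ez (D.W ⊓ D.W')).obj N) M :=
  acyc_ez hM hA.hww (D.lww_w0.trans D.lw0) hN.h00

/-- **Vanishing outside of the degrees 0, 1, 2.** -/
theorem vanish (hA : D.Aff) (hN : D.Triv N) (hM : QC M) {i : ℤ} (hi : i < 0 ∨ 2 < i)
    (α : sgO N ⟶ (sgO M)⟦i⟧) : α = 0 :=
  (D.res2 N).vanish (acyc0 hA hN hM) (acyc1 hA hN hM) (acyc2 hA hN hM) hi α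

end DCov

/-! ### the explicit form -/

/-- the sections over `V` of the sheaf of homomorphisms -/
abbrev HM (N M : X.Modules) (V : X.Opens) := (Ez V).obj N ⟶ M

section Lin

variable (k : Type t) [Ring k] [Linear k X.Modules]

/-- restriction -/
abbrev hres {V V' : X.Opens} (h : V' ≤ V) (N M : X.Modules) : HM N M V →ₗ[k] HM N M V' :=
  pre k ((ezLE h).app N) M

/-- maps out of a biproduct -/
def descE {C : Type u} [Category.{v} C] [Abelian C] [Linear k C] (A B M : C) :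
    ((A ⟶ M) × (B ⟶ M)) ≃ₗ[k] (A ⊞ B ⟶ M) where
  toFun φ := biprod.desc φ.1 φ.2
  invFun ψ := (biprod.inl ≫ ψ, biprod.inr ≫ ψ)
  left_inv φ := by simp
  right_inv ψ := by
    apply biprod.hom_ext' <;> simp
  map_add' φ ψ := by
    apply biprod.hom_ext' <;> simp
  map_smul' r φ := by
    apply biprod.hom_ext' <;> simp

variable (D : DCov X) (N M : X.Modules)

namespace DCov

/-- `Č⁰ → Č¹` -/
def δ0 : ((HM N M (D.V₀ ⊓ D.U₀) × HM N M (D.V₀ ⊓ D.U₁)) ×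
      (HM N M (D.V₁ ⊓ D.U₀) × HM N M (D.V₁ ⊓ D.U₁))) →ₗ[k]
    ((HM N M (D.V₀ ⊓ D.W') × HM N M (D.V₁ ⊓ D.W')) ×
      (HM N M (D.W ⊓ D.U₀) × HM N M (D.W ⊓ D.U₁))) where
  toFun m := ((hres k D.l0w N M m.1.1 + hres k D.l0w' N M m.1.2,
      hres k D.l1w N M m.2.1 + hres k D.l1w' N M m.2.2),
    (hres k D.lw0 N M m.1.1 + hres k D.lw0' N M m.2.1,
      hres k D.lw1 N M m.1.2 + hres k D.lw1' N M m.2.2))
  map_add' m m' := by
    simp only [Prod.fst_add, Prod.snd_add, map_add, Prod.mk_add_mk]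
    refine Prod.ext (Prod.ext ?_ ?_) (Prod.ext ?_ ?_) <;> exact add_add_add_comm _ _ _ _
  map_smul' r m := by
    simp only [Prod.smul_fst, Prod.smul_snd, map_smul, Prod.smul_mk, smul_add, RingHom.id_apply]

/-- `Č¹ → Č²` -/
def δ1 : ((HM N M (D.V₀ ⊓ D.W') × HM N M (D.V₁ ⊓ D.W')) ×
      (HM N M (D.W ⊓ D.U₀) × HM N M (D.W ⊓ D.U₁))) →ₗ[k] HM N M (D.W ⊓ D.W') where
  toFun m := (hres k D.lww_0w N M m.1.1 + hres k D.lww_1w N M m.1.2) -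
    (hres k D.lww_w0 N M m.2.1 + hres k D.lww_w1 N M m.2.2)
  map_add' m m' := by
    simp only [Prod.fst_add, Prod.snd_add, map_add]
    abel
  map_smul' r m := by
    simp only [Prod.smul_fst, Prod.smul_snd, map_smul, RingHom.id_apply, smul_sub, smul_add]

/-- the first term as a product -/
def c0 : ((HM N M (D.V₀ ⊓ D.U₀) × HM N M (D.V₀ ⊓ D.U₁)) ×
      (HM N M (D.V₁ ⊓ D.U₀) × HM N M (D.V₁ ⊓ D.U₁))) ≃ₗ[k]
    ((((Ez (D.V₀ ⊓ D.U₀)).obj N ⊞ (Ez (D.V₀ ⊓ D.U₁)).obj N) ⊞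
      ((Ez (D.V₁ ⊓ D.U₀)).obj N ⊞ (Ez (D.V₁ ⊓ D.U₁)).obj N)) ⟶ M) :=
  (LinearEquiv.prodCongr (descE k _ _ M) (descE k _ _ M)) ≪≫ₗ descE k _ _ M

/-- the second term as a product -/
def c1 : ((HM N M (D.V₀ ⊓ D.W') × HM N M (D.V₁ ⊓ D.W')) ×
      (HM N M (D.W ⊓ D.U₀) × HM N M (D.W ⊓ D.U₁))) ≃ₗ[k]
    ((((Ez (D.V₀ ⊓ D.W')).obj N ⊞ (Ez (D.V₁ ⊓ D.W')).obj N) ⊞
      ((Ez (D.W ⊓ D.U₀)).obj N ⊞ (Ez (D.W ⊓ D.U₁)).obj N)) ⟶ M) :=
  (LinearEquiv.prodCongr (descE k _ _ M) (descE k _ _ M)) ≪≫ₗ descE k _ _ M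

theorem c0_apply (m) : D.c0 k N M m =
    biprod.desc (biprod.desc m.1.1 m.1.2) (biprod.desc m.2.1 m.2.2) := rfl

theorem c1_apply (m) : D.c1 k N M m =
    biprod.desc (biprod.desc m.1.1 m.1.2) (biprod.desc m.2.1 m.2.2) := rfl

theorem a_c1 (m) : (D.res2 N).a ≫ D.c1 k N M m = D.δ1 k N M m := by
  have h : (D.res2 N).a = biprod.lift (mvF' D.lww_0w D.lww_1w N) (-(mvF' D.lww_w0 D.lww_w1 N)) := rfl
  rw [h, c1_apply, biprod.lift_desc, Preadditive.neg_comp, ← sub_eq_add_neg]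
  unfold mvF'
  rw [biprod.lift_desc, biprod.lift_desc]
  rfl

theorem dd_c0 (m) : (D.res2 N).dd ≫ D.c0 k N M m = D.c1 k N M (D.δ0 k N M m) := by
  have h : (D.res2 N).dd = biprod.desc
      (biprod.map (mvF' D.l0w D.l0w' N) (mvF' D.l1w D.l1w' N))
      (biprod.lift (biprod.map ((ezLE D.lw0).app N) ((ezLE D.lw1).app N))
        (biprod.map ((ezLE D.lw0').app N) ((ezLE D.lw1').app N))) := (D.cone N).res2_dd
  rw [h, c0_apply, c1_apply]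
  unfold mvF'
  apply biprod.hom_ext'
  · rw [biprod.inl_desc_assoc, biprod.inl_desc]
    apply biprod.hom_ext'
    · rw [biprod.inl_map_assoc, biprod.inl_desc, biprod.inl_desc, biprod.lift_desc]
      rfl
    · rw [biprod.inr_map_assoc, biprod.inr_desc, biprod.inr_desc, biprod.lift_desc]
      rfl
  · rw [biprod.inr_desc_assoc, biprod.inr_desc, biprod.lift_desc]
    apply biprod.hom_ext'
    · rw [Preadditive.comp_add, biprod.inl_map_assoc, biprod.inl_map_assoc, biprod.inl_desc,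
        biprod.inl_desc, biprod.inl_desc]
      rfl
    · rw [Preadditive.comp_add, biprod.inr_map_assoc, biprod.inr_map_assoc, biprod.inr_desc,
        biprod.inr_desc, biprod.inr_desc]
      rfl

theorem δ1_δ0 (m) : D.δ1 k N M (D.δ0 k N M m) = 0 := by
  rw [← a_c1, ← dd_c0, ← Category.assoc, (D.res2 N).a_dd, zero_comp]

/-- `HM N M (W ⊓ W') → Hom(sgO N, (sgO M)⟦2⟧)` -/
def H2 : HM N M (D.W ⊓ D.W') →ₗ[k] (sgO N ⟶ (sgO M)⟦(2 : ℤ)⟧) := (D.res2 N).H2 k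

/-- `ker(Č¹ → Č²) → Hom(sgO N, (sgO M)⟦1⟧)` -/
def H1 : LinearMap.ker (D.δ1 k N M) →ₗ[k] (sgO N ⟶ (sgO M)⟦(1 : ℤ)⟧) :=
  (D.res2 N).H1 k ∘ₗ LinearMap.restrict (D.c1 k N M).toLinearMap (fun m hm => by
    rw [LinearMap.mem_ker] at hm ⊢
    change (D.res2 N).a ≫ D.c1 k N M m = 0
    rw [a_c1, hm])

variable {D N M}

theorem H2_surjective (hA : D.Aff) (hN : D.Triv N) (hM : QC M) :
    Function.Surjective (D.H2 k N M) :=
  (D.res2 N).H2_surjective k (acyc0 hA hN hM) (acyc1 hA hN hM)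

theorem H2_eq_zero_iff (hA : D.Aff) (hN : D.Triv N) (hM : QC M) (φ : HM N M (D.W ⊓ D.W')) :
    D.H2 k N M φ = 0 ↔ ∃ m, D.δ1 k N M m = φ := by
  refine ((D.res2 N).H2_eq_zero_iff k (acyc0 hA hN hM) φ).trans ?_
  constructor
  · rintro ⟨ψ, hψ⟩
    refine ⟨(D.c1 k N M).symm ψ, ?_⟩
    rw [← a_c1, LinearEquiv.apply_symm_apply, hψ]
  · rintro ⟨m, hm⟩
    exact ⟨D.c1 k N M m, by rw [a_c1, hm]⟩

theorem H1_surjective (hA : D.Aff) (hN : D.Triv N) (hM : QC M) :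
    Function.Surjective (D.H1 k N M) := by
  intro α
  obtain ⟨ψ, hψ⟩ := (D.res2 N).H1_surjective k (acyc0 hA hN hM) α
  refine ⟨⟨(D.c1 k N M).symm ψ, ?_⟩, ?_⟩
  · rw [LinearMap.mem_ker, ← a_c1, LinearEquiv.apply_symm_apply]
    exact ψ.2
  · rw [← hψ]
    change (D.res2 N).H1 k _ = (D.res2 N).H1 k ψ
    congr 1
    apply Subtype.ext
    exact (D.c1 k N M).apply_symm_apply (ψ : _)

theorem H1_eq_zero_iff (z : LinearMap.ker (D.δ1 k N M)) :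
    D.H1 k N M z = 0 ↔ ∃ m, D.δ0 k N M m = z := by
  refine ((D.res2 N).H1_eq_zero_iff k _).trans ?_
  constructor
  · rintro ⟨ψ, hψ⟩
    refine ⟨(D.c0 k N M).symm ψ, ?_⟩
    apply (D.c1 k N M).injective
    rw [← dd_c0, LinearEquiv.apply_symm_apply, hψ]
    rfl
  · rintro ⟨m, hm⟩
    refine ⟨D.c0 k N M m, ?_⟩
    rw [dd_c0, hm]
    rfl

end DCov

end Lin

end M21
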