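import Pool.Agent.H.MP_21b43d_ag.E3.G.CLin
import Pool.Agent.H.MP_21b43d_ag.E3.G.Cov

/-!
# M21 (C9): `Hom(Ez V N, M) = Γ(M, V)` for `N` with a basis on `V`, over the complex numbers
-/

open CategoryTheory CategoryTheory.Limits AlgebraicGeometry TopologicalSpace Opposite
open AlgebraicGeometry.Scheme (Modules)

noncomputable section

namespace M21.E3

variable {X : Scheme.{0}} {N M : X.Modules} {V V' U U' : X.Opens}

/-- a section of `N` over an open contained in `V` as a section of `Ez V N` -/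
def ezS (h : U ≤ V) (e : Γ(N, U)) : Γ((Ez V).obj N, U) := ezSec e (ezSub_of_le h e)

theorem ezVal_S (h : U ≤ V) (e : Γ(N, U)) : ezVal (ezS h e) = e := rfl

/-- the value of `φ : Ez V N ⟶ M` at a section of `N` over an open contained in `V` -/
def hv (h : U ≤ V) (e : Γ(N, U)) (φ : HM N M V) : Γ(M, U) := φ.app U (ezS h e)

theorem hv_ezLE (h : V' ≤ V) (hU : U ≤ V') (e : Γ(N, U)) (φ : HM N M V) :
    hv hU e ((ezLE h).app N ≫ φ) = hv (hU.trans h) e φ := rfl

theorem hv_res (h : U ≤ V) (h' : U' ≤ U) (e : Γ(N, U)) (φ : HM N M V) :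
    hv (h'.trans h) (res N h' e) φ = res M h' (hv h e φ) := app_res φ h' (ezS h e)

theorem hv_smul (h : U ≤ V) (a : Γ(X, U)) (e : Γ(N, U)) (φ : HM N M V) :
    hv h (a • e) φ = a • hv h e φ := Modules.Hom.app_smul φ a (ezS h e)

theorem hv_add (h : U ≤ V) (e : Γ(N, U)) (φ ψ : HM N M V) :
    hv h e (φ + ψ) = hv h e φ + hv h e ψ := by
  unfold hv
  rw [Scheme.Modules.Hom.add_app]
  rfl

theorem hv_sub (h : U ≤ V) (e : Γ(N, U)) (φ ψ : HM N M V) :
    hv h e (φ - ψ) = hv h e φ - hv h e ψ := by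
  have h1 := hv_add h e (φ - ψ) ψ
  rw [sub_add_cancel] at h1
  rw [h1, add_sub_cancel_right]

theorem ezTriv_one (e : Γ(N, V)) :
    (ezTriv e).app V (ezOne (le_refl V)) = ezS (le_refl V) e := by
  apply ezVal_injective
  rw [ezVal_triv, ezVal_S, ← ezHom_app, ezHom_one, res_self]

theorem hv_bijective {e : Γ(N, V)} (he : IsBasisOn N e) :
    Function.Bijective (hv (M := M) (le_refl V) e) := by
  have := isIso_ezTriv he
  constructor
  · intro φ ψ h
    rw [← cancel_epi (ezTriv e)]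
    apply ez_hom_ext
    rw [comp_app_apply, comp_app_apply, ezTriv_one]
    exact h
  · intro m
    refine ⟨inv (ezTriv e) ≫ ezHom m, ?_⟩
    have h1 : (inv (ezTriv e)).app V (ezS (le_refl V) e) = ezOne (le_refl V) := by
      rw [← ezTriv_one, ← comp_app_apply, IsIso.hom_inv_id]
      rfl
    unfold hv
    rw [comp_app_apply, h1, ezHom_one, res_self]

variable [CX X]

/-- `Hom(Ez V N, M) = Γ(M, V)` for a basis `e` of `N` on `V` -/
def homBasis (M : X.Modules) {e : Γ(N, V)} (he : IsBasisOn N e) : HM N M V ≃ₗ[ℂ] Γ(M, V) :=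
  LinearEquiv.ofBijective (evC M (ezS (le_refl V) e)) (hv_bijective he)

theorem homBasis_apply {e : Γ(N, V)} (he : IsBasisOn N e) (φ : HM N M V) :
    homBasis M he φ = hv (le_refl V) e φ := rfl

/-- the value of a restriction -/
theorem homBasis_res {e : Γ(N, V)} {e' : Γ(N, V')} (he : IsBasisOn N e) (he' : IsBasisOn N e')
    (h : V' ≤ V) (u : Γ(X, V')) (hu : e' = u • res N h e) (φ : HM N M V) :
    homBasis M he' ((ezLE h).app N ≫ φ) = u • res M h (homBasis M he φ) := by
  rw [homBasis_apply, homBasis_apply, hv_ezLE, hu, hv_smul, ← hv_res]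

theorem homBasis_res' {e : Γ(N, V)} {e' : Γ(N, V')} (he : IsBasisOn N e) (he' : IsBasisOn N e')
    (h : V' ≤ V) (hu : e' = res N h e) (φ : HM N M V) :
    homBasis M he' ((ezLE h).app N ≫ φ) = res M h (homBasis M he φ) := by
  rw [homBasis_apply, homBasis_apply, hv_ezLE, hu, ← hv_res]

end M21.E3
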