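import Pool.Agent.H.MP_21b43d_ag.E3.G.Der
import Pool.Agent.H.MP_21b43d_ag.E3.G.HomB

/-!
# M21, existence part, G3: `Hom(O(-m, -n), F[i])` for quasi-coherent `F`

Generators: `gen m n s t` of `O(-m, -n)` on `U s t`; on the overlaps use the generator of the chart
with the smaller indices: `gen m n false t` on `UB t`, `gen m n s false` on `UZ s`,
`gen m n false false` on `UU`.
-/

open CategoryTheory CategoryTheory.Limits CategoryTheory.Pretriangulated AlgebraicGeometry
  TopologicalSpace

noncomputable section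

namespace M21.E3

variable {X : Scheme.{0}}

/-- a pair as a function on `Bool` -/
def bE (P : Bool → Type) [∀ t, AddCommGroup (P t)] [∀ t, Module ℂ (P t)] :
    (P false × P true) ≃ₗ[ℂ] (∀ t, P t) where
  toFun p := fun t => match t with
    | false => p.1
    | true => p.2
  invFun f := (f false, f true)
  left_inv p := rfl
  right_inv f := funext fun t => by cases t <;> rfl
  map_add' p q := funext fun t => by cases t <;> rfl
  map_smul' c p := funext fun t => by cases t <;> rfl

@[simp] theorem bE_false (P : Bool → Type) [∀ t, AddCommGroup (P t)] [∀ t, Module ℂ (P t)]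
    (p : P false × P true) : bE P p false = p.1 := rfl

@[simp] theorem bE_true (P : Bool → Type) [∀ t, AddCommGroup (P t)] [∀ t, Module ℂ (P t)]
    (p : P false × P true) : bE P p true = p.2 := rfl

theorem res_neg_CX {F : X.Modules} {U V : X.Opens} (h : V ≤ U) (s : Γ(F, U)) :
    res F h (-s) = -res F h s := map_neg _ _

namespace BiP

/-- the double cover -/
def dcov (G : BiP X) : DCov X where
  V₀ := G.V false
  V₁ := G.V true
  U₀ := G.W false
  U₁ := G.W true
  cov := G.hV
  cov' := G.hW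

theorem dcov_aff (G : BiP X) : G.dcov.Aff where
  h00 := G.aff false false
  h01 := G.aff false true
  h10 := G.aff true false
  h11 := G.aff true true
  h0w := G.aff_UZ false
  h1w := G.aff_UZ true
  hw0 := G.aff_UB false
  hw1 := G.aff_UB true
  hww := G.aff_UU

variable [IsIntegral X] (G : BiP X)

theorem basis_gen (m n : ℤ) (s t : Bool) : IsBasisOn (G.OO (-m) (-n)) (G.gen m n s t) := by
  intro W hW
  constructor
  · intro a b hab
    obtain ⟨c, -, hc⟩ := G.existsUnique_gen m n s t hW
      (a • res (G.OO (-m) (-n)) hW (G.gen m n s t))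
    exact (hc a rfl).trans (hc b hab).symm
  · intro x
    obtain ⟨a, ha, -⟩ := G.existsUnique_gen m n s t hW x
    exact ⟨a, ha.symm⟩

theorem dcov_triv (m n : ℤ) : G.dcov.Triv (G.OO (-m) (-n)) where
  h00 := ⟨_, G.basis_gen m n false false⟩
  h01 := ⟨_, G.basis_gen m n false true⟩
  h10 := ⟨_, G.basis_gen m n true false⟩
  h11 := ⟨_, G.basis_gen m n true true⟩

variable [CX X]

omit [CX X] in
/-- No cohomology outside of degrees `0, 1, 2`. -/
theorem hom_zero_cech {F : X.Modules} (hF : QC F) (m n i : ℤ) (hi : i < 0 ∨ 2 < i)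
    (φ : G.LL m n ⟶ (SS F)⟦i⟧) : φ = 0 :=
  DCov.vanish G.dcov_aff (G.dcov_triv m n) hF hi φ

section cochains

variable (F : X.Modules) (m n : ℤ)

/-- the differential of 0-cochains, first component -/
def d0x (t : Bool) : (∀ s t, Γ(F, G.U s t)) →ₗ[ℂ] Γ(F, G.UB t) where
  toFun a := res F (G.UB_le false t) (a false t) -
    G.bp m (inf_le_left : G.UB t ≤ G.V01) • res F (G.UB_le true t) (a true t)
  map_add' a b := by
    change res F _ (a false t + b false t) - _ • res F _ (a true t + b true t) = _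
    rw [res_add, res_add, smul_add, add_sub_add_comm]
  map_smul' c a := by
    change resL F _ (c • a false t) - _ • resL F _ (c • a true t) = c • _
    rw [map_smul, map_smul, smul_comm, smul_sub]
    rfl

/-- the differential of 0-cochains, second component -/
def d0y (s : Bool) : (∀ s t, Γ(F, G.U s t)) →ₗ[ℂ] Γ(F, G.UZ s) where
  toFun a := res F (G.UZ_le s false) (a s false) -
    G.zp n (inf_le_right : G.UZ s ≤ G.W01) • res F (G.UZ_le s true) (a s true)
  map_add' a b := by
    change res F _ (a s false + b s false) - _ • res F _ (a s true + b s true) = _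
    rw [res_add, res_add, smul_add, add_sub_add_comm]
  map_smul' c a := by
    change resL F _ (c • a s false) - _ • resL F _ (c • a s true) = c • _
    rw [map_smul, map_smul, smul_comm, smul_sub]
    rfl

/-- the differential of 0-cochains -/
def d0 : (∀ s t, Γ(F, G.U s t)) →ₗ[ℂ] (∀ t, Γ(F, G.UB t)) × (∀ s, Γ(F, G.UZ s)) :=
  LinearMap.prod (LinearMap.pi fun t => G.d0x F m t) (LinearMap.pi fun s => G.d0y F n s)

/-- the differential of 1-cochains -/
def d1 : ((∀ t, Γ(F, G.UB t)) × (∀ s, Γ(F, G.UZ s))) →ₗ[ℂ] Γ(F, G.UU) where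
  toFun z := (res F (G.UU_leZ false) (z.2 false) -
      G.bp m (inf_le_left : G.UU ≤ G.V01) • res F (G.UU_leZ true) (z.2 true)) -
    (res F (G.UU_leB false) (z.1 false) -
      G.zp n (inf_le_right : G.UU ≤ G.W01) • res F (G.UU_leB true) (z.1 true))
  map_add' a b := by
    change (res F _ (a.2 false + b.2 false) - _ • res F _ (a.2 true + b.2 true)) -
      (res F _ (a.1 false + b.1 false) - _ • res F _ (a.1 true + b.1 true)) = _
    rw [res_add, res_add, res_add, res_add, smul_add, smul_add]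
    abel
  map_smul' c a := by
    change (resL F _ (c • a.2 false) - _ • resL F _ (c • a.2 true)) -
      (resL F _ (c • a.1 false) - _ • resL F _ (c • a.1 true)) = c • _
    rw [map_smul, map_smul, map_smul, map_smul, smul_comm, smul_comm (G.zp n _), ← smul_sub,
      ← smul_sub, ← smul_sub]
    rfl

/-- the values of the 0-cochains, with signs -/
def e0 : ((HM (G.OO (-m) (-n)) F (G.U false false) × HM (G.OO (-m) (-n)) F (G.U false true)) ×
      (HM (G.OO (-m) (-n)) F (G.U true false) × HM (G.OO (-m) (-n)) F (G.U true true))) ≃ₗ[ℂ]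
    (∀ s t, Γ(F, G.U s t)) :=
  (LinearEquiv.prodCongr
    (LinearEquiv.prodCongr (homBasis F (G.basis_gen m n false false))
      (homBasis F (G.basis_gen m n false true) ≪≫ₗ LinearEquiv.neg ℂ) ≪≫ₗ
        bE (fun t => Γ(F, G.U false t)))
    (LinearEquiv.prodCongr (homBasis F (G.basis_gen m n true false) ≪≫ₗ LinearEquiv.neg ℂ)
      (homBasis F (G.basis_gen m n true true)) ≪≫ₗ bE (fun t => Γ(F, G.U true t)))) ≪≫ₗ
    bE (fun s => ∀ t, Γ(F, G.U s t))

omit [CX X] in
/-- the basis on `UB t` -/
theorem basis_B (t : Bool) :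
    IsBasisOn (G.OO (-m) (-n)) (res (G.OO (-m) (-n)) (G.UB_le false t) (G.gen m n false t)) :=
  (G.basis_gen m n false t).res _

omit [CX X] in
/-- the basis on `UZ s` -/
theorem basis_Z (s : Bool) :
    IsBasisOn (G.OO (-m) (-n)) (res (G.OO (-m) (-n)) (G.UZ_le s false) (G.gen m n s false)) :=
  (G.basis_gen m n s false).res _

omit [CX X] in
/-- the basis on `UU` -/
theorem basis_U :
    IsBasisOn (G.OO (-m) (-n)) (res (G.OO (-m) (-n)) (G.UU_le false false)
      (G.gen m n false false)) :=
  (G.basis_gen m n false false).res _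

/-- the values of the 1-cochains, with signs -/
def e1 : ((HM (G.OO (-m) (-n)) F (G.UZ false) × HM (G.OO (-m) (-n)) F (G.UZ true)) ×
      (HM (G.OO (-m) (-n)) F (G.UB false) × HM (G.OO (-m) (-n)) F (G.UB true))) ≃ₗ[ℂ]
    (∀ t, Γ(F, G.UB t)) × (∀ s, Γ(F, G.UZ s)) :=
  LinearEquiv.prodComm ℂ _ _ ≪≫ₗ LinearEquiv.prodCongr
    (LinearEquiv.prodCongr (homBasis F (G.basis_B m n false))
      (homBasis F (G.basis_B m n true) ≪≫ₗ LinearEquiv.neg ℂ) ≪≫ₗ bE (fun t => Γ(F, G.UB t)))
    (LinearEquiv.prodCongr (homBasis F (G.basis_Z m n false))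
      (homBasis F (G.basis_Z m n true) ≪≫ₗ LinearEquiv.neg ℂ) ≪≫ₗ bE (fun s => Γ(F, G.UZ s)))

omit [CX X] in
theorem gU_Z0 : res (G.OO (-m) (-n)) (G.UU_le false false) (G.gen m n false false) =
    res (G.OO (-m) (-n)) (G.UU_leZ false)
      (res (G.OO (-m) (-n)) (G.UZ_le false false) (G.gen m n false false)) := by
  rw [res_res]

omit [CX X] in
theorem gU_B0 : res (G.OO (-m) (-n)) (G.UU_le false false) (G.gen m n false false) =
    res (G.OO (-m) (-n)) (G.UU_leB false)
      (res (G.OO (-m) (-n)) (G.UB_le false false) (G.gen m n false false)) := by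
  rw [res_res]

omit [CX X] in
theorem gU_Z1 : res (G.OO (-m) (-n)) (G.UU_le false false) (G.gen m n false false) =
    G.bp m (inf_le_left : G.UU ≤ G.V01) • res (G.OO (-m) (-n)) (G.UU_leZ true)
      (res (G.OO (-m) (-n)) (G.UZ_le true false) (G.gen m n true false)) := by
  have h := congrArg (res (G.OO (-m) (-n)) (G.UU_leB false)) (G.gen_B m n false)
  rw [res_res, res_smul', res_res, G.bp_res] at h
  rw [res_res]
  exact h

omit [CX X] in
theorem gU_B1 : res (G.OO (-m) (-n)) (G.UU_le false false) (G.gen m n false false) =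
    G.zp n (inf_le_right : G.UU ≤ G.W01) • res (G.OO (-m) (-n)) (G.UU_leB true)
      (res (G.OO (-m) (-n)) (G.UB_le false true) (G.gen m n false true)) := by
  have h := congrArg (res (G.OO (-m) (-n)) (G.UU_leZ false)) (G.gen_Z m n false)
  rw [res_res, res_smul', res_res, G.zp_res] at h
  rw [res_res]
  exact h

theorem d1_e1 (z) : G.d1 F m n (G.e1 F m n z) =
    homBasis F (G.basis_U m n) (G.dcov.δ1 ℂ (G.OO (-m) (-n)) F z) := by
  have h0 := homBasis_res' (M := F) (G.basis_Z m n false) (G.basis_U m n) (G.UU_leZ false)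
    (G.gU_Z0 m n) z.1.1
  have h1 := homBasis_res (M := F) (G.basis_Z m n true) (G.basis_U m n) (G.UU_leZ true) _
    (G.gU_Z1 m n) z.1.2
  have h2 := homBasis_res' (M := F) (G.basis_B m n false) (G.basis_U m n) (G.UU_leB false)
    (G.gU_B0 m n) z.2.1
  have h3 := homBasis_res (M := F) (G.basis_B m n true) (G.basis_U m n) (G.UU_leB true) _
    (G.gU_B1 m n) z.2.2
  have hR : homBasis F (G.basis_U m n) (G.dcov.δ1 ℂ (G.OO (-m) (-n)) F z) =
      (homBasis F (G.basis_U m n) ((ezLE (G.UU_leZ false)).app _ ≫ z.1.1) +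
        homBasis F (G.basis_U m n) ((ezLE (G.UU_leZ true)).app _ ≫ z.1.2)) -
      (homBasis F (G.basis_U m n) ((ezLE (G.UU_leB false)).app _ ≫ z.2.1) +
        homBasis F (G.basis_U m n) ((ezLE (G.UU_leB true)).app _ ≫ z.2.2)) := by
    rw [← map_add, ← map_add, ← map_sub]
    rfl
  rw [hR, h0, h1, h2, h3]
  change (res F _ (homBasis F (G.basis_Z m n false) z.1.1) -
      _ • res F _ (-(homBasis F (G.basis_Z m n true) z.1.2))) -
    (res F _ (homBasis F (G.basis_B m n false) z.2.1) -
      _ • res F _ (-(homBasis F (G.basis_B m n true) z.2.2))) = _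
  rw [res_neg_CX, res_neg_CX, smul_neg, smul_neg, sub_neg_eq_add, sub_neg_eq_add]

theorem e1_δ0 (z) : G.e1 F m n (G.dcov.δ0 ℂ (G.OO (-m) (-n)) F z) =
    G.d0 F m n (G.e0 F m n z) := by
  refine Prod.ext (funext fun t => ?_) (funext fun s => ?_)
  · cases t
    · have h0 := homBasis_res' (M := F) (G.basis_gen m n false false) (G.basis_B m n false)
        (G.UB_le false false) rfl z.1.1
      have h1 := homBasis_res (M := F) (G.basis_gen m n true false) (G.basis_B m n false)
        (G.UB_le true false) _ (G.gen_B m n false) z.2.1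
      change homBasis F (G.basis_B m n false) ((ezLE (G.UB_le false false)).app _ ≫ z.1.1 +
          (ezLE (G.UB_le true false)).app _ ≫ z.2.1) =
        res F _ (homBasis F (G.basis_gen m n false false) z.1.1) -
          G.bp m _ • res F _ (-(homBasis F (G.basis_gen m n true false) z.2.1))
      rw [map_add, h0, h1, res_neg_CX, smul_neg, sub_neg_eq_add]
    · have h0 := homBasis_res' (M := F) (G.basis_gen m n false true) (G.basis_B m n true)
        (G.UB_le false true) rfl z.1.2
      have h1 := homBasis_res (M := F) (G.basis_gen m n true true) (G.basis_B m n true)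
        (G.UB_le true true) _ (G.gen_B m n true) z.2.2
      change -(homBasis F (G.basis_B m n true) ((ezLE (G.UB_le false true)).app _ ≫ z.1.2 +
          (ezLE (G.UB_le true true)).app _ ≫ z.2.2)) =
        res F _ (-(homBasis F (G.basis_gen m n false true) z.1.2)) -
          G.bp m _ • res F _ (homBasis F (G.basis_gen m n true true) z.2.2)
      rw [map_add, h0, h1, res_neg_CX, neg_add, sub_eq_add_neg]
  · cases s
    · have h0 := homBasis_res' (M := F) (G.basis_gen m n false false) (G.basis_Z m n false)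
        (G.UZ_le false false) rfl z.1.1
      have h1 := homBasis_res (M := F) (G.basis_gen m n false true) (G.basis_Z m n false)
        (G.UZ_le false true) _ (G.gen_Z m n false) z.1.2
      change homBasis F (G.basis_Z m n false) ((ezLE (G.UZ_le false false)).app _ ≫ z.1.1 +
          (ezLE (G.UZ_le false true)).app _ ≫ z.1.2) =
        res F _ (homBasis F (G.basis_gen m n false false) z.1.1) -
          G.zp n _ • res F _ (-(homBasis F (G.basis_gen m n false true) z.1.2))
      rw [map_add, h0, h1, res_neg_CX, smul_neg, sub_neg_eq_add]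
    · have h0 := homBasis_res' (M := F) (G.basis_gen m n true false) (G.basis_Z m n true)
        (G.UZ_le true false) rfl z.2.1
      have h1 := homBasis_res (M := F) (G.basis_gen m n true true) (G.basis_Z m n true)
        (G.UZ_le true true) _ (G.gen_Z m n true) z.2.2
      change -(homBasis F (G.basis_Z m n true) ((ezLE (G.UZ_le true false)).app _ ≫ z.2.1 +
          (ezLE (G.UZ_le true true)).app _ ≫ z.2.2)) =
        res F _ (-(homBasis F (G.basis_gen m n true false) z.2.1)) -
          G.zp n _ • res F _ (homBasis F (G.basis_gen m n true true) z.2.2)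
      rw [map_add, h0, h1, res_neg_CX, neg_add, sub_eq_add_neg]

/-- `H^1(F(m, n))` is the space of Čech 1-cocycles modulo coboundaries. -/
theorem exists_H1 {F : X.Modules} (hF : QC F) (m n : ℤ) :
    ∃ c : LinearMap.ker (G.d1 F m n) →ₗ[ℂ] (G.LL m n ⟶ (SS F)⟦(1 : ℤ)⟧),
      Function.Surjective c ∧ ∀ z, c z = 0 ↔ ∃ a, G.d0 F m n a = z := by
  have hk : ∀ z ∈ LinearMap.ker (G.d1 F m n),
      (G.e1 F m n).symm.toLinearMap z ∈ LinearMap.ker (G.dcov.δ1 ℂ (G.OO (-m) (-n)) F) := by
    intro z hz
    rw [LinearMap.mem_ker] at hz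
    have h1 : G.dcov.δ1 ℂ (G.OO (-m) (-n)) F ((G.e1 F m n).symm z) = 0 := by
      apply (homBasis F (G.basis_U m n)).injective
      refine (G.d1_e1 F m n _).symm.trans ?_
      rw [LinearEquiv.apply_symm_apply, hz]
      exact (map_zero (homBasis F (G.basis_U m n))).symm
    exact h1
  refine ⟨G.dcov.H1 ℂ (G.OO (-m) (-n)) F ∘ₗ LinearMap.restrict _ hk, ?_, ?_⟩
  · intro α
    obtain ⟨z, hz⟩ := DCov.H1_surjective ℂ G.dcov_aff (G.dcov_triv m n) hF α
    refine ⟨⟨G.e1 F m n z.1, ?_⟩, ?_⟩
    · have h2 : G.dcov.δ1 ℂ (G.OO (-m) (-n)) F z.1 = 0 := z.2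
      rw [LinearMap.mem_ker]
      refine (G.d1_e1 F m n z.1).trans ?_
      rw [h2]
      exact map_zero (homBasis F (G.basis_U m n))
    · rw [← hz]
      change G.dcov.H1 ℂ (G.OO (-m) (-n)) F _ = _
      congr 1
      apply Subtype.ext
      exact (G.e1 F m n).symm_apply_apply z.1
  · intro z
    refine (DCov.H1_eq_zero_iff ℂ _).trans ?_
    constructor
    · rintro ⟨w, hw⟩
      refine ⟨G.e0 F m n w, ?_⟩
      rw [← e1_δ0, hw]
      exact (G.e1 F m n).apply_symm_apply (z : _)
    · rintro ⟨a, ha⟩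
      refine ⟨(G.e0 F m n).symm a, ?_⟩
      apply (G.e1 F m n).injective
      rw [e1_δ0, LinearEquiv.apply_symm_apply, ha]
      exact ((G.e1 F m n).apply_symm_apply (z : _)).symm

/-- `H^1(F(m, n)) = 0` if every Čech 1-cocycle is a coboundary. -/
theorem H1_zero {F : X.Modules} (hF : QC F) (m n : ℤ)
    (h : ∀ (x : ∀ t, Γ(F, G.UB t)) (y : ∀ s, Γ(F, G.UZ s)),
      res F (G.UU_leB false) (x false) -
          G.zp n (inf_le_right : G.UU ≤ G.W01) • res F (G.UU_leB true) (x true) =
        res F (G.UU_leZ false) (y false) -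
          G.bp m (inf_le_left : G.UU ≤ G.V01) • res F (G.UU_leZ true) (y true) →
      ∃ a : ∀ s t, Γ(F, G.U s t),
        (∀ t, x t = res F (G.UB_le false t) (a false t) -
          G.bp m (inf_le_left : G.UB t ≤ G.V01) • res F (G.UB_le true t) (a true t)) ∧
        ∀ s, y s = res F (G.UZ_le s false) (a s false) -
          G.zp n (inf_le_right : G.UZ s ≤ G.W01) • res F (G.UZ_le s true) (a s true))
    (φ : G.LL m n ⟶ (SS F)⟦(1 : ℤ)⟧) : φ = 0 := by
  obtain ⟨c, hc, hc'⟩ := G.exists_H1 hF m n
  obtain ⟨z, rfl⟩ := hc φ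
  rw [hc']
  have hz : (res F (G.UU_leZ false) (z.1.2 false) -
      G.bp m (inf_le_left : G.UU ≤ G.V01) • res F (G.UU_leZ true) (z.1.2 true)) -
    (res F (G.UU_leB false) (z.1.1 false) -
      G.zp n (inf_le_right : G.UU ≤ G.W01) • res F (G.UU_leB true) (z.1.1 true)) = 0 := z.2
  obtain ⟨a, ha1, ha2⟩ := h z.1.1 z.1.2 (sub_eq_zero.mp hz).symm
  exact ⟨a, Prod.ext (funext fun t => (ha1 t).symm) (funext fun s => (ha2 s).symm)⟩

/-- `H^2(F(m, n)) = F(UU) / (F(UB_0) + Z^n F(UB_1) + F(UZ_0) + B^m F(UZ_1))`. -/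
theorem exists_H2 {F : X.Modules} (hF : QC F) (m n : ℤ) :
    ∃ c : Γ(F, G.UU) →ₗ[ℂ] (G.LL m n ⟶ (SS F)⟦(2 : ℤ)⟧), Function.Surjective c ∧
      ∀ y, c y = 0 ↔ ∃ (x0 : Γ(F, G.UB false)) (x1 : Γ(F, G.UB true)) (y0 : Γ(F, G.UZ false))
        (y1 : Γ(F, G.UZ true)), y = res F (G.UU_leB false) x0 +
          G.zp n (inf_le_right : G.UU ≤ G.W01) • res F (G.UU_leB true) x1 +
          res F (G.UU_leZ false) y0 +
          G.bp m (inf_le_left : G.UU ≤ G.V01) • res F (G.UU_leZ true) y1 := by
  refine ⟨G.dcov.H2 ℂ (G.OO (-m) (-n)) F ∘ₗ (homBasis F (G.basis_U m n)).symm.toLinearMap,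
    ?_, ?_⟩
  · exact (DCov.H2_surjective ℂ G.dcov_aff (G.dcov_triv m n) hF).comp
      (homBasis F (G.basis_U m n)).symm.surjective
  · intro y
    refine (DCov.H2_eq_zero_iff ℂ G.dcov_aff (G.dcov_triv m n) hF _).trans ?_
    have key : (∃ w, G.dcov.δ1 ℂ (G.OO (-m) (-n)) F w = (homBasis F (G.basis_U m n)).symm y) ↔
        ∃ z, G.d1 F m n z = y := by
      constructor
      · rintro ⟨w, hw⟩
        refine ⟨G.e1 F m n w, ?_⟩
        rw [d1_e1, hw, LinearEquiv.apply_symm_apply]
      · rintro ⟨z, hz⟩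
        refine ⟨(G.e1 F m n).symm z, ?_⟩
        apply (homBasis F (G.basis_U m n)).injective
        rw [← d1_e1, LinearEquiv.apply_symm_apply, hz, LinearEquiv.apply_symm_apply]
    refine key.trans ?_
    constructor
    · rintro ⟨z, rfl⟩
      refine ⟨-z.1 false, z.1 true, z.2 false, -z.2 true, ?_⟩
      rw [res_neg_CX, res_neg_CX, smul_neg]
      change (res F (G.UU_leZ false) (z.2 false) -
        G.bp m (inf_le_left : G.UU ≤ G.V01) • res F (G.UU_leZ true) (z.2 true)) -
      (res F (G.UU_leB false) (z.1 false) -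
        G.zp n (inf_le_right : G.UU ≤ G.W01) • res F (G.UU_leB true) (z.1 true)) = _
      abel
    · rintro ⟨x0, x1, y0, y1, rfl⟩
      refine ⟨(bE (fun t => Γ(F, G.UB t)) (-x0, x1), bE (fun s => Γ(F, G.UZ s)) (y0, -y1)), ?_⟩
      change (res F (G.UU_leZ false) y0 -
        G.bp m (inf_le_left : G.UU ≤ G.V01) • res F (G.UU_leZ true) (-y1)) -
      (res F (G.UU_leB false) (-x0) -
        G.zp n (inf_le_right : G.UU ≤ G.W01) • res F (G.UU_leB true) x1) = _
      rw [res_neg_CX, res_neg_CX, smul_neg]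
      abel

end cochains

end BiP

end M21.E3
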