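import Pool.Agent.H.MP_21b43d_ag.E3.G.Geo3
import Pool.Agent.H.MP_21b43d_ag.B.Chi1

/-!
# M21, existence part, C3: the objects of the derived category
-/

open CategoryTheory CategoryTheory.Limits CategoryTheory.Pretriangulated AlgebraicGeometry
  TopologicalSpace

noncomputable section

universe v u w

namespace M21

section second_Der

variable {D : Type u} [Category.{v} D] [Preadditive D]
  [HasZeroObject D] [HasShift D ℤ] [∀ n : ℤ, (shiftFunctor D n).Additive]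
  [Pretriangulated D]

/-- The third morphism of the shifted triangle, without sign. -/
def mor3_Der (T : Triangle D) (n : ℤ) : T.obj₃⟦n⟧ ⟶ (T.obj₁⟦n⟧)⟦(1 : ℤ)⟧ :=
  T.mor₃⟦n⟧' ≫ (shiftFunctorComm D 1 n).hom.app T.obj₁

theorem shift_dist_Der (T : Triangle D) (hT : T ∈ distTriang D) (n : ℤ) :
    Triangle.mk (n.negOnePow • T.mor₁⟦n⟧') (n.negOnePow • T.mor₂⟦n⟧')
      (n.negOnePow • mor3_Der T n) ∈ distTriang D :=
  Triangle.shift_distinguished T hT n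

theorem exact₂_Der (F : D) (T : Triangle D) (hT : T ∈ distTriang D) (n : ℤ)
    (φ : F ⟶ T.obj₂⟦n⟧) (h : φ ≫ T.mor₂⟦n⟧' = 0) : ∃ ψ : F ⟶ T.obj₁⟦n⟧, φ = ψ ≫ T.mor₁⟦n⟧' := by
  have h0 : φ ≫ (n.negOnePow • T.mor₂⟦n⟧') = 0 := by
    rw [Linear.comp_units_smul, h, smul_zero]
  obtain ⟨g, hg⟩ : ∃ g : F ⟶ T.obj₁⟦n⟧, φ = g ≫ (n.negOnePow • T.mor₁⟦n⟧') :=
    Triangle.coyoneda_exact₂ _ (shift_dist_Der T hT n) φ h0
  refine ⟨n.negOnePow • g, ?_⟩
  rw [hg, Linear.comp_units_smul, Linear.units_smul_comp]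

/-- The connecting morphism of the shifted triangle. -/
def conn_Der (T : Triangle D) (n₀ n₁ : ℤ) (h : n₀ + 1 = n₁) : T.obj₃⟦n₀⟧ ⟶ T.obj₁⟦n₁⟧ :=
  mor3_Der T n₀ ≫ (shiftFunctorAdd' D n₀ 1 n₁ h).inv.app T.obj₁

theorem exact₃_Der (F : D) (T : Triangle D) (hT : T ∈ distTriang D) (n₀ n₁ : ℤ) (h : n₀ + 1 = n₁)
    (φ : F ⟶ T.obj₃⟦n₀⟧) (hφ : φ ≫ conn_Der T n₀ n₁ h = 0) :
    ∃ ψ : F ⟶ T.obj₂⟦n₀⟧, φ = ψ ≫ T.mor₂⟦n₀⟧' := by
  have h0 : φ ≫ (n₀.negOnePow • mor3_Der T n₀) = 0 := by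
    rw [conn_Der, ← Category.assoc] at hφ
    rw [Linear.comp_units_smul, ← cancel_mono ((shiftFunctorAdd' D n₀ 1 n₁ h).inv.app T.obj₁),
      Linear.units_smul_comp, hφ, smul_zero, zero_comp]
  obtain ⟨g, hg⟩ : ∃ g : F ⟶ T.obj₂⟦n₀⟧, φ = g ≫ (n₀.negOnePow • T.mor₂⟦n₀⟧') :=
    Triangle.coyoneda_exact₃ _ (shift_dist_Der T hT n₀) φ h0
  refine ⟨n₀.negOnePow • g, ?_⟩
  rw [hg, Linear.comp_units_smul, Linear.units_smul_comp]

theorem comp_conn_Der (T : Triangle D) (hT : T ∈ distTriang D) (n₀ n₁ : ℤ) (h : n₀ + 1 = n₁) :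
    T.mor₂⟦n₀⟧' ≫ conn_Der T n₀ n₁ h = 0 := by
  have h1 : (n₀.negOnePow • T.mor₂⟦n₀⟧') ≫ (n₀.negOnePow • mor3_Der T n₀) = 0 :=
    comp_distTriang_mor_zero₂₃ _ (shift_dist_Der T hT n₀)
  rw [Linear.units_smul_comp, Linear.comp_units_smul, smul_smul, Int.units_mul_self,
    one_smul] at h1
  rw [conn_Der, ← Category.assoc, h1, zero_comp]

theorem conn_comp_Der (T : Triangle D) (hT : T ∈ distTriang D) (n₀ n₁ : ℤ) (h : n₀ + 1 = n₁) :
    conn_Der T n₀ n₁ h ≫ T.mor₁⟦n₁⟧' = 0 := by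
  have h1 : (n₀.negOnePow • mor3_Der T n₀) ≫ (n₀.negOnePow • T.mor₁⟦n₀⟧')⟦(1 : ℤ)⟧' = 0 :=
    comp_distTriang_mor_zero₃₁ _ (shift_dist_Der T hT n₀)
  rw [Functor.map_units_smul, Linear.units_smul_comp, Linear.comp_units_smul, smul_smul,
    Int.units_mul_self, one_smul] at h1
  have h3 : (T.mor₁⟦n₀⟧')⟦(1 : ℤ)⟧' ≫ (shiftFunctorAdd' D n₀ 1 n₁ h).inv.app T.obj₂ =
      (shiftFunctorAdd' D n₀ 1 n₁ h).inv.app T.obj₁ ≫ T.mor₁⟦n₁⟧' :=
    (shiftFunctorAdd' D n₀ 1 n₁ h).inv.naturality T.mor₁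
  rw [conn_Der, Category.assoc, ← h3, ← Category.assoc, h1, zero_comp]

theorem exact₁_Der (F : D) (T : Triangle D) (hT : T ∈ distTriang D) (n₀ n₁ : ℤ) (h : n₀ + 1 = n₁)
    (φ : F ⟶ T.obj₁⟦n₁⟧) (hφ : φ ≫ T.mor₁⟦n₁⟧' = 0) :
    ∃ ψ : F ⟶ T.obj₃⟦n₀⟧, φ = ψ ≫ conn_Der T n₀ n₁ h := by
  have h3 : T.mor₁⟦n₁⟧' ≫ (shiftFunctorAdd' D n₀ 1 n₁ h).hom.app T.obj₂ =
      (shiftFunctorAdd' D n₀ 1 n₁ h).hom.app T.obj₁ ≫ (T.mor₁⟦n₀⟧')⟦(1 : ℤ)⟧' :=
    (shiftFunctorAdd' D n₀ 1 n₁ h).hom.naturality T.mor₁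
  let φ' : F ⟶ (T.obj₁⟦n₀⟧)⟦(1 : ℤ)⟧ := φ ≫ (shiftFunctorAdd' D n₀ 1 n₁ h).hom.app T.obj₁
  have h0 : φ' ≫ (n₀.negOnePow • T.mor₁⟦n₀⟧')⟦(1 : ℤ)⟧' = 0 := by
    rw [Functor.map_units_smul, Linear.comp_units_smul]
    change _ • ((φ ≫ (shiftFunctorAdd' D n₀ 1 n₁ h).hom.app T.obj₁) ≫ (T.mor₁⟦n₀⟧')⟦(1 : ℤ)⟧') = 0
    rw [Category.assoc, ← h3, ← Category.assoc, hφ, zero_comp, smul_zero]
  obtain ⟨g, hg⟩ : ∃ g : F ⟶ T.obj₃⟦n₀⟧, φ' = g ≫ (n₀.negOnePow • mor3_Der T n₀) :=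
    Triangle.coyoneda_exact₁ _ (shift_dist_Der T hT n₀) φ' h0
  refine ⟨n₀.negOnePow • g, ?_⟩
  rw [Linear.comp_units_smul, ← Linear.units_smul_comp] at hg
  rw [conn_Der, ← Category.assoc, ← hg]
  change φ = (φ ≫ (shiftFunctorAdd' D n₀ 1 n₁ h).hom.app T.obj₁) ≫ _
  rw [Category.assoc, Iso.hom_inv_id_app, Category.comp_id]

variable {k : Type w} [Field k] [Linear k D]

theorem range₂_Der (F : D) (T : Triangle D) (hT : T ∈ distTriang D) (n : ℤ) :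
    LinearMap.range (Linear.rightComp k F (T.mor₁⟦n⟧')) =
      LinearMap.ker (Linear.rightComp k F (T.mor₂⟦n⟧')) := by
  ext φ
  rw [LinearMap.mem_range, LinearMap.mem_ker, Linear.rightComp_apply]
  constructor
  · rintro ⟨x, rfl⟩
    rw [Linear.rightComp_apply, Category.assoc, ← Functor.map_comp,
      comp_distTriang_mor_zero₁₂ _ hT, Functor.map_zero, comp_zero]
  · intro hφ
    obtain ⟨g, hg⟩ := exact₂_Der F T hT n φ hφ
    exact ⟨g, hg.symm⟩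

theorem range₃_Der (F : D) (T : Triangle D) (hT : T ∈ distTriang D) (n₀ n₁ : ℤ)
    (h : n₀ + 1 = n₁) :
    LinearMap.range (Linear.rightComp k F (T.mor₂⟦n₀⟧')) =
      LinearMap.ker (Linear.rightComp k F (conn_Der T n₀ n₁ h)) := by
  ext φ
  rw [LinearMap.mem_range, LinearMap.mem_ker, Linear.rightComp_apply]
  constructor
  · rintro ⟨x, rfl⟩
    rw [Linear.rightComp_apply, Category.assoc, comp_conn_Der T hT, comp_zero]
  · intro hφ
    obtain ⟨g, hg⟩ := exact₃_Der F T hT n₀ n₁ h φ hφ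
    exact ⟨g, hg.symm⟩

theorem range₁_Der (F : D) (T : Triangle D) (hT : T ∈ distTriang D) (n₀ n₁ : ℤ)
    (h : n₀ + 1 = n₁) :
    LinearMap.range (Linear.rightComp k F (conn_Der T n₀ n₁ h)) =
      LinearMap.ker (Linear.rightComp k F (T.mor₁⟦n₁⟧')) := by
  ext φ
  rw [LinearMap.mem_range, LinearMap.mem_ker, Linear.rightComp_apply]
  constructor
  · rintro ⟨x, rfl⟩
    rw [Linear.rightComp_apply, Category.assoc, conn_comp_Der T hT, comp_zero]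
  · intro hφ
    obtain ⟨g, hg⟩ := exact₁_Der F T hT n₀ n₁ h φ hφ
    exact ⟨g, hg.symm⟩

/-- The long exact sequence of `Hom(F, -)`. -/
theorem les_Der (F : D) (T : Triangle D) (hT : T ∈ distTriang D)
    (h₁ : ∀ i : ℤ, FiniteDimensional k (F ⟶ T.obj₁⟦i⟧))
    (h₂ : ∀ i : ℤ, FiniteDimensional k (F ⟶ T.obj₂⟦i⟧))
    (h₃ : ∀ i : ℤ, FiniteDimensional k (F ⟶ T.obj₃⟦i⟧)) :
    LES (fun i : ℤ => Module.finrank k (F ⟶ T.obj₁⟦i⟧))
      (fun i : ℤ => Module.finrank k (F ⟶ T.obj₂⟦i⟧))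
      (fun i : ℤ => Module.finrank k (F ⟶ T.obj₃⟦i⟧))
      (fun i : ℤ => Module.finrank k (LinearMap.range (Linear.rightComp k F
        (conn_Der T i (i + 1) rfl)))) := by
  have e : ∀ i : ℤ, Module.finrank k (LinearMap.range (Linear.rightComp k F
      (conn_Der T (i - 1) (i - 1 + 1) rfl))) =
      Module.finrank k (LinearMap.ker (Linear.rightComp k F (T.mor₁⟦i⟧'))) := by
    intro i
    obtain ⟨j, rfl⟩ : ∃ j : ℤ, i = j + 1 := ⟨i - 1, by ring⟩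
    have h5 : j + 1 - 1 = j := by ring
    rw [← range₁_Der F T hT (j + 1 - 1) (j + 1) (by ring)]
    congr!
  refine ⟨fun i => ?_, fun i => ?_, fun i => ?_⟩
  · have := h₁ i
    have := h₂ i
    have := h₃ i
    have e1 := LinearMap.finrank_range_add_finrank_ker (Linear.rightComp k F
      (conn_Der T i (i + 1) rfl))
    have e2 := LinearMap.finrank_range_add_finrank_ker (Linear.rightComp k F (T.mor₂⟦i⟧'))
    have e3 := LinearMap.finrank_range_add_finrank_ker (Linear.rightComp k F (T.mor₁⟦i⟧'))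
    rw [← range₃_Der F T hT i (i + 1) rfl] at e1
    rw [← range₂_Der F T hT i] at e2
    rw [← e i] at e3
    omega
  · have := h₁ i
    rw [e i]
    exact Submodule.finrank_le _
  · have := h₃ i
    exact LinearMap.finrank_range_le _

theorem fin₂_Der (F : D) (T : Triangle D) (hT : T ∈ distTriang D) (i : ℤ)
    [FiniteDimensional k (F ⟶ T.obj₁⟦i⟧)] [FiniteDimensional k (F ⟶ T.obj₃⟦i⟧)] :
    FiniteDimensional k (F ⟶ T.obj₂⟦i⟧) :=
  finite_mid _ _ (range₂_Der F T hT i)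

theorem fin₃_Der (F : D) (T : Triangle D) (hT : T ∈ distTriang D) (i : ℤ)
    [FiniteDimensional k (F ⟶ T.obj₂⟦i⟧)] [FiniteDimensional k (F ⟶ T.obj₁⟦i + 1⟧)] :
    FiniteDimensional k (F ⟶ T.obj₃⟦i⟧) :=
  finite_mid _ _ (range₃_Der F T hT i (i + 1) rfl)

theorem homFin₂_Der (F : D) (T : Triangle D) (hT : T ∈ distTriang D)
    (h1 : HomFin k F T.obj₁) (h3 : HomFin k F T.obj₃) : HomFin k F T.obj₂ := by
  have h : ∀ i : ℤ, FiniteDimensional k (F ⟶ T.obj₂⟦i⟧) := fun i => by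
    have := h1.fin i
    have := h3.fin i
    exact fin₂_Der F T hT i
  exact ⟨h, (les_Der F T hT h1.fin h h3.fin).fin₂ h1.supp h3.supp⟩

omit [HasZeroObject D] [∀ n : ℤ, (shiftFunctor D n).Additive] [Pretriangulated D] in
theorem finrank_iso_right_Der (F : D) {E E' : D} (e : E ≅ E') (i : ℤ) :
    Module.finrank k (F ⟶ E⟦i⟧) = Module.finrank k (F ⟶ E'⟦i⟧) :=
  LinearEquiv.finrank_eq (Linear.homCongr k (Iso.refl F) ((shiftFunctor D i).mapIso e))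

/-- `Hom(F, E[n][i]) = Hom(F, E[i+n])` -/
def shiftEquiv_Der (F E : D) (n i : ℤ) : (F ⟶ E⟦i + n⟧) ≃ₗ[k] (F ⟶ (E⟦n⟧)⟦i⟧) :=
  Linear.homCongr k (Iso.refl F) ((shiftFunctorAdd' D n i (i + n) (add_comm n i)).app E)

/-- `Hom(F ⊞ F', E) = Hom(F, E) × Hom(F', E)` -/
def prodEquiv_Der [HasBinaryBiproducts D] (F F' E : D) :
    ((F ⊞ F') ⟶ E) ≃ₗ[k] (F ⟶ E) × (F' ⟶ E) where
  toFun φ := (biprod.inl ≫ φ, biprod.inr ≫ φ)
  map_add' φ ψ := by rw [Preadditive.comp_add, Preadditive.comp_add]; rfl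
  map_smul' c φ := by rw [Linear.comp_smul, Linear.comp_smul]; rfl
  invFun p := biprod.desc p.1 p.2
  left_inv φ := by ext <;> simp
  right_inv p := by ext <;> simp

end second_Der

end M21

namespace M21.E3

variable {X : Scheme.{0}}

/-- a sheaf of modules as an object of the derived category -/
abbrev SS (F : X.Modules) : DMod X := (DerivedCategory.singleFunctor X.Modules 0).obj F

/-- the object `O(-m, -n)` of the derived category -/
abbrev BiP.LL (G : BiP X) [IsIntegral X] (m n : ℤ) : DMod X := SS (G.OO (-m) (-n))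

/-- A short exact sequence gives a distinguished triangle. -/
theorem exists_triangle_SS (S : ShortComplex X.Modules) (hS : S.ShortExact) :
    ∃ d : SS S.X₃ ⟶ (SS S.X₁)⟦(1 : ℤ)⟧, Triangle.mk
      ((DerivedCategory.singleFunctor X.Modules 0).map S.f)
      ((DerivedCategory.singleFunctor X.Modules 0).map S.g) d ∈ distTriang (DMod X) :=
  ⟨hS.singleδ, hS.singleTriangle_distinguished⟩

/-- There are no morphisms `F → F'[i]` for `i < 0`. -/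
theorem hom_SS_neg (F F' : X.Modules) (i : ℤ) (hi : i < 0) (φ : SS F ⟶ (SS F')⟦i⟧) : φ = 0 := by
  have : ((SS F')⟦i⟧).IsGE (-i) :=
    DerivedCategory.TStructure.t.isGE_shift _ 0 i (-i) (by omega)
  exact DerivedCategory.TStructure.t.zero φ 0 (-i) (by omega)

variable [CX X]

omit [CX X] in
theorem homSS_bij_Der (F F' : X.Modules) : Function.Bijective (fun φ : F ⟶ F' =>
    ((DerivedCategory.singleFunctor X.Modules 0).map φ ≫
      (shiftFunctorZero (DMod X) ℤ).inv.app (SS F') : SS F ⟶ (SS F')⟦(0 : ℤ)⟧)) := by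
  let e : SS F' ≅ (SS F')⟦(0 : ℤ)⟧ := ((shiftFunctorZero (DMod X) ℤ).app (SS F')).symm
  have h2 : Function.Bijective (fun φ : SS F ⟶ SS F' => φ ≫ e.hom) := by
    refine ⟨fun φ ψ h => (cancel_mono e.hom).1 h, fun ψ => ⟨ψ ≫ e.inv, ?_⟩⟩
    change (ψ ≫ e.inv) ≫ e.hom = ψ
    rw [Category.assoc, e.inv_hom_id, Category.comp_id]
  exact h2.comp ⟨(DerivedCategory.singleFunctor X.Modules 0).map_injective,
    (DerivedCategory.singleFunctor X.Modules 0).map_surjective⟩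

/-- `Hom(F, F')` in the derived category. -/
def homSS (F F' : X.Modules) : (F ⟶ F') ≃ₗ[ℂ] (SS F ⟶ (SS F')⟦(0 : ℤ)⟧) :=
  LinearEquiv.ofBijective
    { toFun := fun φ => (DerivedCategory.singleFunctor X.Modules 0).map φ ≫
        (shiftFunctorZero (DMod X) ℤ).inv.app _
      map_add' := fun φ ψ => by rw [Functor.map_add, Preadditive.add_comp]
      map_smul' := fun c φ => by
        rw [Functor.map_smul, Linear.smul_comp]
        rfl }
    (homSS_bij_Der F F')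

omit [CX X] in
/-- the homomorphisms `F → A[i]` as additive functions of `A`: the exact sequence of a
distinguished triangle. -/
theorem hom_exact₂ (F : DMod X) (T : Triangle (DMod X)) (hT : T ∈ distTriang (DMod X)) (i : ℤ)
    (φ : F ⟶ T.obj₂⟦i⟧) (h : φ ≫ T.mor₂⟦i⟧' = 0) : ∃ ψ : F ⟶ T.obj₁⟦i⟧, φ = ψ ≫ T.mor₁⟦i⟧' :=
  exact₂_Der F T hT i φ h

omit [CX X] in
/-- If `Hom(F, A[i]) = 0` and `Hom(F, C[i]) = 0` then `Hom(F, B[i]) = 0` for a triangle `A → B → C`. -/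
theorem hom_zero₂ (F : DMod X) (T : Triangle (DMod X)) (hT : T ∈ distTriang (DMod X)) (i : ℤ)
    (h1 : ∀ φ : F ⟶ T.obj₁⟦i⟧, φ = 0) (h3 : ∀ φ : F ⟶ T.obj₃⟦i⟧, φ = 0) (φ : F ⟶ T.obj₂⟦i⟧) :
    φ = 0 := by
  obtain ⟨ψ, hψ⟩ := exact₂_Der F T hT i φ (h3 _)
  rw [hψ, h1 ψ, zero_comp]

omit [CX X] in
/-- If `Hom(F, B[i]) = 0` and `Hom(F, A[i+1]) = 0` then `Hom(F, C[i]) = 0` for a triangle
`A → B → C`. -/
theorem hom_zero₃ (F : DMod X) (T : Triangle (DMod X)) (hT : T ∈ distTriang (DMod X)) (i : ℤ)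
    (h2 : ∀ φ : F ⟶ T.obj₂⟦i⟧, φ = 0) (h1 : ∀ φ : F ⟶ T.obj₁⟦i + 1⟧, φ = 0)
    (φ : F ⟶ T.obj₃⟦i⟧) : φ = 0 := by
  obtain ⟨ψ, hψ⟩ := exact₃_Der F T hT i (i + 1) rfl φ (h1 _)
  rw [hψ, h2 ψ, zero_comp]

/-- Finite dimensionality, second variable. -/
theorem hom_fd₂ (F : DMod X) (T : Triangle (DMod X)) (hT : T ∈ distTriang (DMod X)) (i : ℤ)
    [FiniteDimensional ℂ (F ⟶ T.obj₁⟦i⟧)] [FiniteDimensional ℂ (F ⟶ T.obj₃⟦i⟧)] :
    FiniteDimensional ℂ (F ⟶ T.obj₂⟦i⟧) :=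
  fin₂_Der F T hT i

theorem hom_fd₃ (F : DMod X) (T : Triangle (DMod X)) (hT : T ∈ distTriang (DMod X)) (i : ℤ)
    [FiniteDimensional ℂ (F ⟶ T.obj₂⟦i⟧)] [FiniteDimensional ℂ (F ⟶ T.obj₁⟦i + 1⟧)] :
    FiniteDimensional ℂ (F ⟶ T.obj₃⟦i⟧) :=
  fin₃_Der F T hT i

/-- Additivity of the Euler form in the second variable. -/
theorem eulF_add_right (F : DMod X) (T : Triangle (DMod X)) (hT : T ∈ distTriang (DMod X))
    (h1 : HomFin ℂ F T.obj₁) (h2 : HomFin ℂ F T.obj₂) (h3 : HomFin ℂ F T.obj₃) :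
    eulF ℂ F T.obj₂ = eulF ℂ F T.obj₁ + eulF ℂ F T.obj₃ :=
  (les_Der F T hT h1.fin h2.fin h3.fin).altSum_eq h1.supp h3.supp

theorem homFin_right₂ (F : DMod X) (T : Triangle (DMod X)) (hT : T ∈ distTriang (DMod X))
    (h1 : HomFin ℂ F T.obj₁) (h3 : HomFin ℂ F T.obj₃) : HomFin ℂ F T.obj₂ :=
  homFin₂_Der F T hT h1 h3

theorem homFin_right_iso {F E E' : DMod X} (e : E ≅ E') (h : HomFin ℂ F E) : HomFin ℂ F E' := by
  refine ⟨fun i => ?_, ?_⟩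
  · have := h.fin i
    exact Module.Finite.equiv
      (Linear.homCongr ℂ (Iso.refl F) ((shiftFunctor (DMod X) i).mapIso e))
  · have := h.supp
    simpa only [finrank_iso_right_Der F e] using this

theorem eulF_right_iso (F : DMod X) {E E' : DMod X} (e : E ≅ E') : eulF ℂ F E = eulF ℂ F E' :=
  altSum_congr fun i => finrank_iso_right_Der F e i

theorem homFin_right_shift {F E : DMod X} (n : ℤ) (h : HomFin ℂ F E) : HomFin ℂ F (E⟦n⟧) := by
  refine ⟨fun i => ?_, ?_⟩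
  · have := h.fin (i + n)
    exact Module.Finite.equiv (shiftEquiv_Der (k := ℂ) F E n i)
  · have h1 := support_finite_shift h.supp n
    have h2 : (fun i : ℤ => Module.finrank ℂ (F ⟶ (E⟦n⟧)⟦i⟧)) =
        fun i : ℤ => Module.finrank ℂ (F ⟶ E⟦i + n⟧) :=
      funext fun i => (shiftEquiv_Der (k := ℂ) F E n i).finrank_eq.symm
    rw [h2]
    exact h1

theorem eulF_right_shift (F E : DMod X) (n : ℤ) :
    eulF ℂ F (E⟦n⟧) = (n.negOnePow : ℤ) * eulF ℂ F E := by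
  unfold eulF
  rw [← altSum_shift]
  exact altSum_congr fun i => (shiftEquiv_Der (k := ℂ) F E n i).finrank_eq.symm

/-- Additivity of finite-dimensionality and of the Euler form in the first variable for biproducts. -/
theorem homFin_prod {F F' E : DMod X} (h : HomFin ℂ F E) (h' : HomFin ℂ F' E) :
    HomFin ℂ (F ⊞ F') E := by
  refine ⟨fun i => ?_, ?_⟩
  · have := h.fin i
    have := h'.fin i
    exact Module.Finite.equiv (prodEquiv_Der (k := ℂ) F F' (E⟦i⟧)).symm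
  · have h2 : (fun i : ℤ => Module.finrank ℂ ((F ⊞ F') ⟶ E⟦i⟧)) =
        fun i : ℤ => Module.finrank ℂ (F ⟶ E⟦i⟧) + Module.finrank ℂ (F' ⟶ E⟦i⟧) :=
      funext fun i => by
        have := h.fin i
        have := h'.fin i
        rw [(prodEquiv_Der (k := ℂ) F F' (E⟦i⟧)).finrank_eq, Module.finrank_prod]
    rw [h2]
    exact support_finite_add h.supp h'.supp

theorem eulF_prod {F F' E : DMod X} (h : HomFin ℂ F E) (h' : HomFin ℂ F' E) :
    eulF ℂ (F ⊞ F') E = eulF ℂ F E + eulF ℂ F' E := by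
  unfold eulF
  rw [← altSum_add h.supp h'.supp]
  refine altSum_congr fun i => ?_
  have := h.fin i
  have := h'.fin i
  rw [(prodEquiv_Der (k := ℂ) F F' (E⟦i⟧)).finrank_eq, Module.finrank_prod]

omit [CX X] in
/-- The Euler form of `Lin.lean`. -/
theorem chi_eq_eulF (f : X ⟶ Spec (.of ℂ)) (F E : DMod X) :
    letI : CX X := ⟨f⟩
    chi f F E = eulF ℂ F E := rfl

end M21.E3
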