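import Pool.Agent.H.MP_21b43d_ag.E3.G.Split

/-!
# M21, existence part, C16: the dual basis
-/

open CategoryTheory CategoryTheory.Limits AlgebraicGeometry TopologicalSpace

noncomputable section

namespace M21.E3

section absDualB

variable {K : Type} [Field K] [Algebra ℂ K] {ι : Type} [Fintype ι]

theorem monomial_mem_DualB (B Z : K) (i j : ℤ) :
    B ^ i * Z ^ j ∈ IntermediateField.adjoin ℂ ({B, Z} : Set K) := by
  refine mul_mem (zpow_mem ?_ i) (zpow_mem ?_ j)
  · exact IntermediateField.subset_adjoin _ _ (by simp)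
  · exact IntermediateField.subset_adjoin _ _ (by simp)

/-- elements of the polynomial ring in `B`, `Z` are combinations of monomials -/
theorem adjoin_le_DualB (B Z : K) (x : K) (hx : x ∈ Algebra.adjoin ℂ ({B, Z} : Set K)) :
    ∃ r : ℤ × ℤ →₀ ℂ, x = r.sum fun m c => c • (B ^ m.1 * Z ^ m.2) := by
  have h : ∀ y ∈ Algebra.adjoin ℂ ({B, Z} : Set K),
      y ∈ Submodule.span ℂ (Set.range fun m : ℤ × ℤ => B ^ m.1 * Z ^ m.2) := by
    intro y hy
    rw [← Subalgebra.mem_toSubmodule, Algebra.adjoin_eq_span] at hy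
    refine Submodule.span_le.mpr ?_ hy
    intro z hz
    have hz' : ∃ m n : ℕ, z = B ^ m * Z ^ n := by
      induction hz using Submonoid.closure_induction with
      | mem z hz =>
        rcases hz with rfl | hz
        · exact ⟨1, 0, by simp⟩
        · rw [Set.mem_singleton_iff] at hz
          exact ⟨0, 1, by simp [hz]⟩
      | one => exact ⟨0, 0, by simp⟩
      | mul a b _ _ ha hb =>
        obtain ⟨m, n, rfl⟩ := ha
        obtain ⟨m', n', rfl⟩ := hb
        exact ⟨m + m', n + n', by ring⟩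
    obtain ⟨m, n, rfl⟩ := hz'
    exact Submodule.subset_span ⟨(m, n), by simp⟩
  obtain ⟨r, hr⟩ := (Finsupp.mem_span_range_iff_exists_finsupp).mp (h x hx)
  exact ⟨r, hr.symm⟩

open IntermediateField.algebraAdjoinAdjoin in
/-- The `e_l` are independent over `ℂ(B, Z)`. -/
theorem indep_DualB (B Z : K) (e : ι → K)
    (hind : LinearIndependent ℂ (fun x : ι × ℤ × ℤ => B ^ x.2.1 * Z ^ x.2.2 * e x.1)) :
    LinearIndependent (IntermediateField.adjoin ℂ ({B, Z} : Set K)) e := by
  classical
  have hA : LinearIndependent (Algebra.adjoin ℂ ({B, Z} : Set K)) e := by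
    rw [Fintype.linearIndependent_iff]
    intro c hc
    choose r hr using fun l => adjoin_le_DualB B Z (c l : K) (c l).2
    have h1 : Finsupp.linearCombination ℂ
        (fun x : ι × ℤ × ℤ => B ^ x.2.1 * Z ^ x.2.2 * e x.1)
        (∑ l, (r l).mapDomain (fun m => (l, m))) = 0 := by
      rw [map_sum, ← hc]
      refine Finset.sum_congr rfl fun l _ => ?_
      rw [Finsupp.linearCombination_mapDomain, Algebra.smul_def]
      change _ = (c l : K) * e l
      rw [hr l, Finsupp.linearCombination_apply, Finsupp.sum, Finsupp.sum, Finset.sum_mul]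
      refine Finset.sum_congr rfl fun m _ => ?_
      simp only [Function.comp]
      rw [smul_mul_assoc]
    have h2 := (linearIndependent_iff.mp hind) _ h1
    intro l
    have h3 : r l = 0 := by
      ext m
      have h4 := DFunLike.congr_fun h2 (l, m)
      rw [Finsupp.finsetSum_apply, Finset.sum_eq_single l] at h4
      · rw [Finsupp.mapDomain_apply (fun a b h => (Prod.mk.inj h).2)] at h4
        exact h4
      · intro l' _ hl'
        apply Finsupp.mapDomain_of_notMem_range
        rintro ⟨m', hm'⟩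
        exact hl' (Prod.mk.inj hm').1
      · intro h
        exact absurd (Finset.mem_univ l) h
    apply Subtype.ext
    rw [hr l, h3]
    simp
  exact (LinearIndependent.iff_fractionRing (Algebra.adjoin ℂ ({B, Z} : Set K))
    (IntermediateField.adjoin ℂ ({B, Z} : Set K))).mp hA

/-- The `F`-span of `e` is everything. -/
theorem span_DualB (B Z : K) (e : ι → K)
    (h1 : (1 : K) ∈ Submodule.span ℂ
      (Set.range fun x : ι × ℤ × ℤ => B ^ x.2.1 * Z ^ x.2.2 * e x.1))
    (hmul : ∀ k l, e k * e l ∈ Submodule.span ℂ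
      (Set.range fun x : ι × ℤ × ℤ => B ^ x.2.1 * Z ^ x.2.2 * e x.1))
    (hfrac : ∀ w : K, ∃ x ∈ Submodule.span ℂ
      (Set.range fun x : ι × ℤ × ℤ => B ^ x.2.1 * Z ^ x.2.2 * e x.1), ∃ y ∈ Submodule.span ℂ
      (Set.range fun x : ι × ℤ × ℤ => B ^ x.2.1 * Z ^ x.2.2 * e x.1), y ≠ 0 ∧ w = x / y) :
    Submodule.span (IntermediateField.adjoin ℂ ({B, Z} : Set K)) (Set.range e) = ⊤ := by
  classical
  have hle : ∀ x ∈ Submodule.span ℂ
      (Set.range fun x : ι × ℤ × ℤ => B ^ x.2.1 * Z ^ x.2.2 * e x.1),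
      x ∈ Submodule.span (IntermediateField.adjoin ℂ ({B, Z} : Set K)) (Set.range e) := by
    intro x hx
    induction hx using Submodule.span_induction with
    | mem x hx =>
      obtain ⟨⟨l, p, q⟩, rfl⟩ := hx
      have : B ^ p * Z ^ q * e l =
          (⟨_, monomial_mem_DualB B Z p q⟩ : IntermediateField.adjoin ℂ ({B, Z} : Set K)) • e l := rfl
      change B ^ p * Z ^ q * e l ∈ _
      rw [this]
      exact Submodule.smul_mem _ _ (Submodule.subset_span ⟨l, rfl⟩)
    | zero => exact Submodule.zero_mem _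
    | add x y _ _ hx hy => exact Submodule.add_mem _ hx hy
    | smul c x _ hx =>
      have : c • x = (algebraMap ℂ (IntermediateField.adjoin ℂ ({B, Z} : Set K)) c) • x := by
        rw [algebraMap_smul]
      rw [this]
      exact Submodule.smul_mem _ _ hx
  have hmul' : ∀ x ∈ Submodule.span (IntermediateField.adjoin ℂ ({B, Z} : Set K)) (Set.range e),
      ∀ y ∈ Submodule.span (IntermediateField.adjoin ℂ ({B, Z} : Set K)) (Set.range e),
      x * y ∈ Submodule.span (IntermediateField.adjoin ℂ ({B, Z} : Set K)) (Set.range e) := by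
    intro x hx y hy
    induction hx using Submodule.span_induction with
    | mem x hx =>
      obtain ⟨k, rfl⟩ := hx
      induction hy using Submodule.span_induction with
      | mem y hy =>
        obtain ⟨l, rfl⟩ := hy
        exact hle _ (hmul k l)
      | zero => rw [mul_zero]; exact Submodule.zero_mem _
      | add y z _ _ hy hz => rw [mul_add]; exact Submodule.add_mem _ hy hz
      | smul c y _ hy => rw [mul_smul_comm]; exact Submodule.smul_mem _ _ hy
    | zero => rw [zero_mul]; exact Submodule.zero_mem _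
    | add x z _ _ hx hz => rw [add_mul]; exact Submodule.add_mem _ hx hz
    | smul c x _ hx => rw [smul_mul_assoc]; exact Submodule.smul_mem _ _ hx
  rw [eq_top_iff]
  intro w _
  obtain ⟨x, hx, y, hy, hy0, rfl⟩ := hfrac w
  have hx' := hle x hx
  have hy' := hle y hy
  have hfin : Module.Finite (IntermediateField.adjoin ℂ ({B, Z} : Set K))
      (Submodule.span (IntermediateField.adjoin ℂ ({B, Z} : Set K)) (Set.range e)) :=
    Module.Finite.span_of_finite _ (Set.finite_range e)
  let φ : Submodule.span (IntermediateField.adjoin ℂ ({B, Z} : Set K)) (Set.range e) →ₗ[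
      IntermediateField.adjoin ℂ ({B, Z} : Set K)]
      Submodule.span (IntermediateField.adjoin ℂ ({B, Z} : Set K)) (Set.range e) :=
    { toFun := fun v => ⟨y * v, hmul' y hy' v v.2⟩
      map_add' := fun u v => Subtype.ext (mul_add _ _ _)
      map_smul' := fun c v => Subtype.ext (mul_smul_comm _ _ _) }
  have hinj : Function.Injective φ := by
    intro u v huv
    apply Subtype.ext
    exact mul_left_cancel₀ hy0 (congrArg Subtype.val huv)
  obtain ⟨z, hz⟩ := (LinearMap.injective_iff_surjective.mp hinj) ⟨1, hle 1 h1⟩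
  have hz1 : y * z = 1 := congrArg Subtype.val hz
  have : x / y = x * z := by
    rw [div_eq_iff hy0, mul_assoc, mul_comm (z : K) y, hz1, mul_one]
  rw [this]
  exact hmul' _ hx' _ z.2

/-- The dual basis, abstractly. -/
theorem exists_abs_DualB [DecidableEq ι] (B Z : K) (e : ι → K)
    (hind : LinearIndependent ℂ (fun x : ι × ℤ × ℤ => B ^ x.2.1 * Z ^ x.2.2 * e x.1))
    (h1 : (1 : K) ∈ Submodule.span ℂ
      (Set.range fun x : ι × ℤ × ℤ => B ^ x.2.1 * Z ^ x.2.2 * e x.1))
    (hmul : ∀ k l, e k * e l ∈ Submodule.span ℂ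
      (Set.range fun x : ι × ℤ × ℤ => B ^ x.2.1 * Z ^ x.2.2 * e x.1))
    (hfrac : ∀ w : K, ∃ x ∈ Submodule.span ℂ
      (Set.range fun x : ι × ℤ × ℤ => B ^ x.2.1 * Z ^ x.2.2 * e x.1), ∃ y ∈ Submodule.span ℂ
      (Set.range fun x : ι × ℤ × ℤ => B ^ x.2.1 * Z ^ x.2.2 * e x.1), y ≠ 0 ∧ w = x / y) :
    ∃ (f : ι → K) (τ : K →ₗ[ℂ] K), (∀ (i j : ℤ) g, τ (B ^ i * Z ^ j * g) = B ^ i * Z ^ j * τ g) ∧
      (∀ k l, τ (e k * f l) = if k = l then 1 else 0) ∧ ∀ w, w = ∑ l, τ (e l * w) * f l := by
  have hli := indep_DualB B Z e hind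
  have hsp := span_DualB B Z e h1 hmul hfrac
  let b : Module.Basis ι (IntermediateField.adjoin ℂ ({B, Z} : Set K)) K :=
    Module.Basis.mk hli hsp.ge
  have hb : ∀ l, b l = e l := fun l => Module.Basis.mk_apply _ _ _
  obtain ⟨l₀⟩ : Nonempty ι := by
    by_contra h
    rw [not_nonempty_iff] at h
    have : (Set.range fun x : ι × ℤ × ℤ => B ^ x.2.1 * Z ^ x.2.2 * e x.1) = ∅ :=
      Set.range_eq_empty _
    rw [this, Submodule.span_empty, Submodule.mem_bot] at h1
    exact one_ne_zero h1
  let τ₀ : K →ₗ[IntermediateField.adjoin ℂ ({B, Z} : Set K)]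
    IntermediateField.adjoin ℂ ({B, Z} : Set K) := b.coord l₀
  let β : LinearMap.BilinForm (IntermediateField.adjoin ℂ ({B, Z} : Set K)) K :=
    (LinearMap.mul (IntermediateField.adjoin ℂ ({B, Z} : Set K)) K).compr₂ τ₀
  have hβ : ∀ x y, β x y = τ₀ (x * y) := fun x y => rfl
  have key : ∀ x : K, x ≠ 0 → ∃ y, τ₀ (x * y) ≠ 0 := by
    intro x hx
    refine ⟨x⁻¹ * e l₀, ?_⟩
    rw [mul_inv_cancel_left₀ hx, ← hb l₀]
    simp [τ₀]
  have hnd : β.Nondegenerate := by
    constructor
    · intro x hx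
      by_contra h0
      obtain ⟨y, hy⟩ := key x h0
      exact hy (hx y)
    · intro y hy
      by_contra h0
      obtain ⟨x, hx⟩ := key y h0
      apply hx
      rw [mul_comm]
      exact hy x
  let d := β.dualBasis hnd b
  refine ⟨d, (IntermediateField.val _).toLinearMap ∘ₗ τ₀.restrictScalars ℂ, ?_, ?_, ?_⟩
  · intro i j g
    have h2 : B ^ i * Z ^ j * g =
        (⟨_, monomial_mem_DualB B Z i j⟩ : IntermediateField.adjoin ℂ ({B, Z} : Set K)) • g := rfl
    change ((τ₀ (B ^ i * Z ^ j * g) : IntermediateField.adjoin ℂ ({B, Z} : Set K)) : K) = _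
    rw [h2, map_smul]
    rfl
  · intro k l
    change ((τ₀ (e k * d l) : IntermediateField.adjoin ℂ ({B, Z} : Set K)) : K) = _
    rw [mul_comm, ← hβ, ← hb k, LinearMap.BilinForm.apply_dualBasis_left]
    split_ifs <;> simp
  · intro w
    refine (d.sum_repr w).symm.trans (Finset.sum_congr rfl fun l _ => ?_)
    have h2 : d.repr w l = τ₀ (e l * w) := by
      rw [mul_comm, ← hb l, ← hβ]
      exact LinearMap.BilinForm.dualBasis_repr_apply _ _ _ _
    rw [h2]
    rfl

end absDualB

variable {X : Scheme.{0}} [IsIntegral X] [CX X]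

/-- The dual basis of the basis `e` of a splitting of the structure sheaf with respect to a
`ℂ(B, Z)`-linear form `τ` on the function field. -/
structure DualB {G : BiP X} {ι : Type} [Fintype ι] [DecidableEq ι] (S : G.Split (FO X) ι) where
  /-- the dual basis -/
  f : ι → X.functionField
  /-- the linear form -/
  τ : X.functionField →ₗ[ℂ] X.functionField
  mon : ∀ (i j : ℤ) g, τ (G.B ^ i * G.Z ^ j * g) = G.B ^ i * G.Z ^ j * τ g
  dual : ∀ k l, τ (S.e k * f l) = if k = l then 1 else 0
  expand : ∀ w, w = ∑ l, τ (S.e l * w) * f l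

variable {G : BiP X} {ι : Type} [Fintype ι] [DecidableEq ι] (S : G.Split (FO X) ι)

omit [CX X] in
theorem qc_FO_DualB (G : BiP X) : QC (FO X).mod := by
  have h : FO X = G.OF 0 0 := by
    have h1 : (FO X).mem = (G.OF 0 0).mem := by
      funext p g
      exact propext (G.mem_zero_iff_Geo3 g).symm
    cases hF : FO X
    cases hG : G.OF 0 0
    rw [hF, hG] at h1
    cases h1
    rfl
  rw [h]
  exact qc_OO_QCf G 0 0

omit [Fintype ι] [DecidableEq ι] in
theorem one_mem_DualB (S : G.Split (FO X) ι) : (1 : X.functionField) ∈ G.spanAll S.e := by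
  have h1 : (1 : X.functionField) ∈ (FO X).secs (G.U false false) := fun p _ => Reg.one p
  rw [S.secs false false] at h1
  exact BiP.spanR_le _ h1

omit [Fintype ι] [DecidableEq ι] in
theorem mul_mem_DualB (S : G.Split (FO X) ι) (k l : ι) : S.e k * S.e l ∈ G.spanAll S.e := by
  have h : ∀ l, S.e l ∈ (FO X).secs G.UU := by
    intro l
    rw [S.secs_UU (qc_FO_DualB G)]
    exact Submodule.subset_span ⟨(l, 0, 0), by simp⟩
  have h1 : S.e k * S.e l ∈ (FO X).secs G.UU := fun p hp => Reg.mul (h k p hp) (h l p hp)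
  rwa [S.secs_UU (qc_FO_DualB G)] at h1

omit [Fintype ι] [DecidableEq ι] in
theorem frac_DualB (S : G.Split (FO X) ι) (w : X.functionField) :
    ∃ x ∈ G.spanAll S.e, ∃ y ∈ G.spanAll S.e, y ≠ 0 ∧ w = x / y := by
  have hne : Nonempty (G.U false false) := ⟨⟨G.pt, G.pt_mem_U false false⟩⟩
  have hfr := functionField_isFractionRing_of_isAffineOpen X (G.U false false) (G.aff false false)
  have hm : ∀ a : Γ(X, G.U false false), toK (G.pt_mem_U false false) a ∈ G.spanAll S.e := by
    intro a
    have h1 : toK (G.pt_mem_U false false) a ∈ (FO X).secs (G.U false false) :=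
      fun p hp => ⟨G.U false false, hp, a, rfl⟩
    rw [S.secs false false] at h1
    exact BiP.spanR_le _ h1
  obtain ⟨a, b, hb, h⟩ := IsFractionRing.div_surjective (A := Γ(X, G.U false false)) w
  refine ⟨_, hm a, _, hm b, ?_, h.symm⟩
  intro h0
  have : b = 0 := toK_inj (G.pt_mem_U false false) (by rw [h0, map_zero])
  exact (nonZeroDivisors.ne_zero hb) this

/-- Existence. Let `F₀ = ℂ(B, Z) ⊆ K` (`IntermediateField.adjoin ℂ {B, Z}`). The `e_l` are linearly
independent over `F₀` (clear denominators: the monomials `B^p Z^q e_l` are independent over `ℂ`). Their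
span over `F₀` is a subring (`e_k e_l ∈ O(UU)`, `Split.secs_UU`), finite dimensional over `F₀` and a domain, so
a field; it contains `O(UU)`, whose fraction field is `K`; so the `e_l` are a basis of `K` over `F₀`.
Take `τ` = any nonzero `F₀`-linear form `K → F₀` (a coordinate); `(x, y) ↦ τ(x y)` is
nondegenerate since `K` is a field; `f` = the dual basis (`LinearMap.BilinForm.dualBasis`). -/
theorem exists_dualB : Nonempty (DualB S) := by
  obtain ⟨f, τ, h1, h2, h3⟩ := exists_abs_DualB G.B G.Z S.e S.indep (one_mem_DualB S)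
    (mul_mem_DualB S) (frac_DualB S)
  exact ⟨⟨f, τ, h1, h2, h3⟩⟩

variable {S} (d : DualB S)

namespace DualB

/-- The monomials `B^p Z^q f_l` are independent (apply `τ (e_k ·)`). -/
theorem indep : LinearIndependent ℂ
    (fun x : ι × ℤ × ℤ => G.B ^ x.2.1 * G.Z ^ x.2.2 * d.f x.1) := by
  refine LinearIndependent.of_comp (∑ k, (LinearMap.mulRight ℂ (S.e k)) ∘ₗ d.τ ∘ₗ
    (LinearMap.mulLeft ℂ (S.e k))) ?_
  have h : (⇑(∑ k, (LinearMap.mulRight ℂ (S.e k)) ∘ₗ d.τ ∘ₗ (LinearMap.mulLeft ℂ (S.e k))) ∘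
      fun x : ι × ℤ × ℤ => G.B ^ x.2.1 * G.Z ^ x.2.2 * d.f x.1) =
      fun x : ι × ℤ × ℤ => G.B ^ x.2.1 * G.Z ^ x.2.2 * S.e x.1 := by
    funext x
    rw [Function.comp_apply, LinearMap.sum_apply]
    have h1 : ∀ k, ((LinearMap.mulRight ℂ (S.e k)) ∘ₗ d.τ ∘ₗ (LinearMap.mulLeft ℂ (S.e k)))
        (G.B ^ x.2.1 * G.Z ^ x.2.2 * d.f x.1) =
        if k = x.1 then G.B ^ x.2.1 * G.Z ^ x.2.2 * S.e x.1 else 0 := by
      intro k
      change d.τ (S.e k * (G.B ^ x.2.1 * G.Z ^ x.2.2 * d.f x.1)) * S.e k = _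
      rw [mul_left_comm, d.mon, d.dual]
      split_ifs with h2
      · rw [h2, mul_one]
      · rw [mul_zero, zero_mul]
    rw [Finset.sum_congr rfl fun k _ => h1 k, Finset.sum_ite_eq' Finset.univ x.1]
    simp
  rw [h]
  exact S.indep

end DualB

end M21.E3
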