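import Pool.Agent.H.MP_21b43d_ag.E3.G.DualMa

/-!
# M21, existence part, C18c: the `K`-valued map of a linear form, values on the charts
-/

open CategoryTheory CategoryTheory.Limits AlgebraicGeometry TopologicalSpace

noncomputable section

namespace M21.E3

variable {X : Scheme.{0}} [IsIntegral X] [CX X] {G : BiP X} {ι : Type} [Fintype ι] [DecidableEq ι]

namespace DualB

section aux_DualMc

variable (S : G.Split (FO X) ι)

omit [Fintype ι] [DecidableEq ι] in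
theorem reg_UB_DualMc (l : ι) (p q : ℤ) (t : Bool) (h : Rg t (S.b l) q) {x : X} (hx : x ∈ G.UB t) :
    Reg x (G.B ^ p * G.Z ^ q * S.e l) := by
  have h1 : G.B ^ (0 : ℤ) * G.Z ^ q * S.e l ∈ (FO X).secs (G.U false t) := by
    rw [S.secs]
    exact Submodule.subset_span ⟨l, 0, q, ⟨le_refl (0 : ℤ), h⟩, rfl⟩
  have h2 : Reg x (G.B ^ (0 : ℤ) * G.Z ^ q * S.e l) := h1 x (G.UB_le false t hx)
  have h3 : G.B ^ p * G.Z ^ q * S.e l = G.B ^ p * (G.B ^ (0 : ℤ) * G.Z ^ q * S.e l) := by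
    rw [zpow_zero, one_mul, mul_assoc]
  rw [h3]
  exact (G.reg_B p hx.1).mul h2

omit [Fintype ι] [DecidableEq ι] in
theorem reg_UZ_DualMc (l : ι) (p q : ℤ) (s : Bool) (h : Rg s (S.a l) p) {x : X} (hx : x ∈ G.UZ s) :
    Reg x (G.B ^ p * G.Z ^ q * S.e l) := by
  have h1 : G.B ^ p * G.Z ^ (0 : ℤ) * S.e l ∈ (FO X).secs (G.U s false) := by
    rw [S.secs]
    exact Submodule.subset_span ⟨l, p, 0, ⟨h, le_refl (0 : ℤ)⟩, rfl⟩
  have h2 : Reg x (G.B ^ p * G.Z ^ (0 : ℤ) * S.e l) := h1 x (G.UZ_le s false hx)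
  have h3 : G.B ^ p * G.Z ^ q * S.e l = G.Z ^ q * (G.B ^ p * G.Z ^ (0 : ℤ) * S.e l) := by
    rw [zpow_zero, mul_one]
    ring
  rw [h3]
  exact (G.reg_Z q hx.2).mul h2

theorem mo_UB_DualMc (l : ι) (p q : ℤ) (t : Bool) (h : Rg t (S.b l) q) :
    ∃ a : Γ(X, G.UB t), resF (G.UU_leB t) a = S.mo l p q := by
  obtain ⟨a, ha⟩ := exists_of_reg (G.UU_leB t G.pt_mem) (G.B ^ p * G.Z ^ q * S.e l)
    (fun _ hx => reg_UB_DualMc S l p q t h hx)
  refine ⟨a, toK_inj G.pt_mem ?_⟩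
  rw [toK_res, ha, S.toK_mo]

theorem mo_UZ_DualMc (l : ι) (p q : ℤ) (s : Bool) (h : Rg s (S.a l) p) :
    ∃ a : Γ(X, G.UZ s), resF (G.UU_leZ s) a = S.mo l p q := by
  obtain ⟨a, ha⟩ := exists_of_reg (G.UU_leZ s G.pt_mem) (G.B ^ p * G.Z ^ q * S.e l)
    (fun _ hx => reg_UZ_DualMc S l p q s h hx)
  refine ⟨a, toK_inj G.pt_mem ?_⟩
  rw [toK_res, ha, S.toK_mo]

theorem eval_B_DualMc {M : X.Modules} {u : Module.Dual ℂ Γ(M, G.UU)} (hu : u ∈ G.VV M)
    (s t : Bool) (l : ι) (p q : ℤ) (h : Rg t (S.b l) q) (y : Γ(M, G.U s t)) :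
    u (S.mo l p q • res M (G.UU_le s t) y) = 0 := by
  obtain ⟨a, ha⟩ := mo_UB_DualMc S l p q t h
  have h1 : S.mo l p q • res M (G.UU_le s t) y =
      res M (G.UU_leB t) (a • res M (G.UB_le s t) y) := by
    rw [res_smul', ha, res_res]
  rw [h1]
  exact hu.1 t _

theorem eval_Z_DualMc {M : X.Modules} {u : Module.Dual ℂ Γ(M, G.UU)} (hu : u ∈ G.VV M)
    (s t : Bool) (l : ι) (p q : ℤ) (h : Rg s (S.a l) p) (y : Γ(M, G.U s t)) :
    u (S.mo l p q • res M (G.UU_le s t) y) = 0 := by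
  obtain ⟨a, ha⟩ := mo_UZ_DualMc S l p q s h
  have h1 : S.mo l p q • res M (G.UU_le s t) y =
      res M (G.UU_leZ s) (a • res M (G.UZ_le s t) y) := by
    rw [res_smul', ha, res_res]
  rw [h1]
  exact hu.2 s _

/-- The exponents outside the range of a chart are dual to the exponents of the dual range. -/
theorem rg_DualMc (s : Bool) (a i : ℤ) (h : ¬ Rg s a i) : Rg s (- a - 2) (-i - 1) := by
  cases s <;> simp only [Rg, Bool.false_eq_true, if_true, if_false] at h ⊢ <;> lia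

end aux_DualMc

variable {S : G.Split (FO X) ι} (d : DualB S)

/-- The values on the sections over the charts: for `y ∈ M(U s t)`, `u(B^i Z^j e_l y) = 0` if
`Rg s (a_l) i` or `Rg t (b_l) j` (then `B^i Z^j e_l y` comes from `UZ s` or `UB t`: `B^i Z^j e_l` with
`Rg s (a_l) i` is a function on `UZ s`, `Split.secs_UZ`), so only `B^p Z^q f_l` with `p = -i`,
`q = -j` and not `Rg s (a_l) i`, not `Rg t (b_l) j` occur. -/
theorem kap_mem {M : X.Modules} (hM : QC M) {u : Module.Dual ℂ Γ(M, G.UU)} (hu : u ∈ G.VV M)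
    (s t : Bool) (y : Γ(M, G.U s t)) :
    d.kap u (res M (G.UU_le s t) y) ∈ G.spanR (fun l => G.B * G.Z * d.f l)
      (fun l p q => Rg s (- S.a l - 2) p ∧ Rg t (- S.b l - 2) q) := by
  unfold kap
  refine finsum_induction (fun g => g ∈ G.spanR (fun l => G.B * G.Z * d.f l)
      (fun l p q => Rg s (- S.a l - 2) p ∧ Rg t (- S.b l - 2) q)) (Submodule.zero_mem _)
      (fun _ _ h h' => Submodule.add_mem _ h h') ?_
  rintro ⟨l, i, j⟩
  by_cases h1 : Rg s (S.a l) i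
  · rw [eval_Z_DualMc S hu s t l i j h1 y, zero_smul]
    exact Submodule.zero_mem _
  by_cases h2 : Rg t (S.b l) j
  · rw [eval_B_DualMc S hu s t l i j h2 y, zero_smul]
    exact Submodule.zero_mem _
  refine Submodule.smul_mem _ _ (Submodule.subset_span ⟨l, -i - 1, -j - 1,
    ⟨rg_DualMc s _ i h1, rg_DualMc t _ j h2⟩, ?_⟩)
  dsimp only
  rw [zpow_sub₀ G.B_ne, zpow_sub₀ G.Z_ne, zpow_one, zpow_one]
  have hB := G.B_ne
  have hZ := G.Z_ne
  field_simp

end DualB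

end M21.E3
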