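import Pool.Agent.H.MP_21b43d_ag.E3.G.QCf

/-!
# M21, existence part, C12: morphisms from quasi-coherent sheaves to fractional sheaves
-/

open CategoryTheory CategoryTheory.Limits AlgebraicGeometry TopologicalSpace
open AlgebraicGeometry.Scheme (Modules)

noncomputable section

namespace M21.E3

section aux

variable {X : Scheme.{0}}

theorem resF_mul_GenHom {U V : X.Opens} (h : V ≤ U) (a b : Γ(X, U)) :
    resF h (a * b) = resF h a * resF h b := map_mul _ _ _

theorem resF_pow_GenHom {U V : X.Opens} (h : V ≤ U) (a : Γ(X, U)) (n : ℕ) :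
    resF h (a ^ n) = resF h a ^ n := map_pow _ _ _

theorem resF_one_GenHom {U V : X.Opens} (h : V ≤ U) : resF h (1 : Γ(X, U)) = 1 := map_one _

theorem res_smul_GenHom {M : X.Modules} {U V : X.Opens} (h : V ≤ U) (r : Γ(X, U)) (s : Γ(M, U)) :
    res M h (r • s) = resF h r • res M h s := res_smul h r s

end aux

variable {X : Scheme.{0}} [IsIntegral X] (G : BiP X)

/-- two nonempty opens of an integral scheme meet -/
theorem exists_mem_inf_GenHom {U V : X.Opens} {p q : X} (hp : p ∈ U) (hq : q ∈ V) :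
    ∃ r, r ∈ U ⊓ V := by
  obtain ⟨z, hz⟩ : ((U ⊓ V : X.Opens) : Set X).Nonempty :=
    nonempty_preirreducible_inter U.2 V.2 ⟨p, hp⟩ ⟨q, hq⟩
  exact ⟨z, hz⟩

theorem ne_zero_of_mem_basicOpen_GenHom {U : X.Opens} {a : Γ(X, U)} {q : X}
    (hq : q ∈ X.basicOpen a) : a ≠ 0 := by
  rintro rfl
  rw [X.basicOpen_zero U] at hq
  exact hq

theorem toK_ne_zero_GenHom {U : X.Opens} {p : X} (hp : p ∈ U) {a : Γ(X, U)} (ha : a ≠ 0) :
    toK hp a ≠ 0 := by
  intro h
  exact ha (toK_inj hp (h.trans (map_zero _).symm))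

/-- the ring of sections over a nonempty open is a domain -/
theorem mul_ne_zero_GenHom {U : X.Opens} {p : X} (hp : p ∈ U) {a b : Γ(X, U)} (ha : a ≠ 0)
    (hb : b ≠ 0) : a * b ≠ 0 := by
  intro h
  have h1 := congrArg (toK hp) h
  rw [map_mul, map_zero] at h1
  exact mul_ne_zero (toK_ne_zero_GenHom hp ha) (toK_ne_zero_GenHom hp hb) h1

theorem pow_ne_zero_GenHom {U : X.Opens} {p : X} (hp : p ∈ U) {a : Γ(X, U)} (ha : a ≠ 0)
    (n : ℕ) : a ^ n ≠ 0 := by
  intro h
  have h1 := congrArg (toK hp) h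
  rw [map_pow, map_zero] at h1
  exact pow_ne_zero n (toK_ne_zero_GenHom hp ha) h1

/-- A small nonempty basic open of `UU`, with the extension of a section. -/
theorem exists_ext_GenHom {M : X.Modules} (hM : QC M) {O : X.Opens} {p : X} (hp : p ∈ O)
    (y : Γ(M, O)) : ∃ (a : Γ(X, G.UU)) (q : X) (_ : q ∈ X.basicOpen a) (h : X.basicOpen a ≤ O)
      (n : ℕ) (y' : Γ(M, G.UU)),
      res M (X.basicOpen_le a) y' = resF (X.basicOpen_le a) a ^ n • res M h y := by
  obtain ⟨q, hq⟩ := exists_mem_inf_GenHom hp G.pt_mem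
  obtain ⟨a, ha, hqa⟩ := G.aff_UU.exists_basicOpen_le (V := O) ⟨q, hq.1⟩ hq.2
  obtain ⟨n, y', hy'⟩ := hM.ext G.UU G.aff_UU a (res M ha y)
  exact ⟨a, q, hqa, ha, n, y', hy'⟩

/-- The extension of a function. -/
theorem exists_extF_GenHom {O : X.Opens} (a : Γ(X, G.UU)) (h : X.basicOpen a ≤ O)
    (r : Γ(X, O)) : ∃ (n : ℕ) (r' : Γ(X, G.UU)),
      resF (X.basicOpen_le a) r' = resF (X.basicOpen_le a) a ^ n * resF h r := by
  have hloc := G.aff_UU.isLocalization_basicOpen a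
  obtain ⟨⟨r', ⟨_, n, rfl⟩⟩, hr'⟩ := IsLocalization.surj (M := Submonoid.powers a)
    (S := Γ(X, X.basicOpen a)) (resF h r)
  refine ⟨n, r', ?_⟩
  have e : resF h r * resF (X.basicOpen_le a) (a ^ n) = resF (X.basicOpen_le a) r' := hr'
  rw [resF_pow_GenHom] at e
  rw [mul_comm]
  exact e.symm

/-- A morphism from a quasi-coherent `M` to a fractional sheaf `N` is determined by its values
on `Γ(M, UU)` (for `y ∈ Γ(M, O)`, `O` nonempty, choose a nonempty `D(a) ⊆ UU ∩ O`, `a ∈ Γ(X, UU)`: the restriction of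
`y` to `D(a)` is `y' / a^n` with `y' ∈ Γ(M, UU)`). -/
theorem hom_ext_UU {M : X.Modules} (hM : QC M) {N : Frac X} {φ ψ : M ⟶ N.mod}
    (h : ∀ y : Γ(M, G.UU), N.val G.pt_mem (φ.app _ y) = N.val G.pt_mem (ψ.app _ y)) : φ = ψ := by
  apply hom_ext_app
  intro O y
  refine Subtype.ext (funext fun x => ?_)
  change N.val x.2 (φ.app O y) = N.val x.2 (ψ.app O y)
  obtain ⟨a, q, hqa, hle, n, y', hy'⟩ := exists_ext_GenHom G hM x.2 y
  have key : ∀ χ : M ⟶ N.mod, N.val G.pt_mem (χ.app _ y') =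
      toK G.pt_mem a ^ n * N.val x.2 (χ.app O y) := by
    intro χ
    have h1 := congrArg (fun s => N.val hqa (χ.app _ s)) hy'
    simp only [Modules.Hom.app_smul] at h1
    rw [app_res, app_res, N.val_smul, N.val_res, N.val_res, map_pow, toK_res] at h1
    rw [N.val_eq x.2 (hle hqa)]
    exact (N.val_eq _ _ _).trans h1
  have h2 := (key φ).symm.trans ((h y').trans (key ψ))
  exact mul_left_cancel₀ (pow_ne_zero n (toK_ne_zero_GenHom G.pt_mem
    (ne_zero_of_mem_basicOpen_GenHom hqa))) h2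

/-- `k` is the value of the section `y` over `O`. -/
def ValP {M : X.Modules} (κ : Γ(M, G.UU) → X.functionField) (O : X.Opens) (y : Γ(M, O))
    (k : X.functionField) : Prop :=
  ∃ (W : X.Opens) (_ : (W : Set X).Nonempty) (h1 : W ≤ O) (h2 : W ≤ G.UU) (c : Γ(X, G.UU))
    (y' : Γ(M, G.UU)), c ≠ 0 ∧ res M h2 y' = resF h2 c • res M h1 y ∧
      toK G.pt_mem c * k = κ y'

section val

variable {M : X.Modules} (hM : QC M) (κ : Γ(M, G.UU) → X.functionField)
  (hadd : ∀ y y', κ (y + y') = κ y + κ y')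
  (hsmul : ∀ (a : Γ(X, G.UU)) y, κ (a • y) = toK G.pt_mem a * κ y)

include hM hadd hsmul

theorem kappa_zero_GenHom : κ 0 = 0 := by
  have := hsmul 0 0
  rwa [zero_smul, map_zero, zero_mul] at this

theorem kappa_sub_GenHom (y y' : Γ(M, G.UU)) : κ (y - y') = κ y - κ y' := by
  have := hadd (y - y') y'
  rw [sub_add_cancel] at this
  rw [this, add_sub_cancel_right]

theorem kappa_eq_zero_GenHom {W : X.Opens} (hW : (W : Set X).Nonempty) (h : W ≤ G.UU)
    (z : Γ(M, G.UU)) (hz : res M h z = 0) : κ z = 0 := by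
  obtain ⟨q, hq⟩ := hW
  obtain ⟨a, ha, hqa⟩ := G.aff_UU.exists_basicOpen_le (V := W) ⟨q, hq⟩ (h hq)
  obtain ⟨n, hn⟩ := hM.tors G.UU G.aff_UU a z (by
    rw [← res_res h ha, hz, res_zero])
  have h1 := hsmul (a ^ n) z
  rw [hn, kappa_zero_GenHom G hM κ hadd hsmul, map_pow] at h1
  rcases mul_eq_zero.1 h1.symm with h2 | h2
  · exact absurd h2 (pow_ne_zero n (toK_ne_zero_GenHom G.pt_mem
      (ne_zero_of_mem_basicOpen_GenHom hqa)))
  · exact h2

theorem ValP_unique {O : X.Opens} {y : Γ(M, O)} {k k' : X.functionField}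
    (h : ValP G κ O y k) (h' : ValP G κ O y k') : k = k' := by
  obtain ⟨W, hW, h1, h2, c, y1, hc, e, hk⟩ := h
  obtain ⟨W', hW', h1', h2', c', y1', hc', e', hk'⟩ := h'
  obtain ⟨r, hr⟩ := exists_mem_inf_GenHom hW.some_mem hW'.some_mem
  have hz : κ (c' • y1 - c • y1') = 0 := by
    refine kappa_eq_zero_GenHom G hM κ hadd hsmul ⟨r, hr⟩
      ((inf_le_left : W ⊓ W' ≤ W).trans h2) _ ?_
    have e1 := congrArg (res M (inf_le_left : W ⊓ W' ≤ W)) e
    have e1' := congrArg (res M (inf_le_right : W ⊓ W' ≤ W')) e'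
    rw [res_res, res_smul, res_res] at e1 e1'
    have f1 : resF (inf_le_left : W ⊓ W' ≤ W) (resF h2 c) =
      resF ((inf_le_left : W ⊓ W' ≤ W).trans h2) c := resF_resF _ _ _
    have f1' : resF (inf_le_right : W ⊓ W' ≤ W') (resF h2' c') =
      resF ((inf_le_left : W ⊓ W' ≤ W).trans h2) c' := resF_resF _ _ _
    have e2 : res M ((inf_le_left : W ⊓ W' ≤ W).trans h2) y1 =
      resF ((inf_le_left : W ⊓ W' ≤ W).trans h2) c • res M (inf_le_left.trans h1) y := by
      rw [← f1]; exact e1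
    have e2' : res M ((inf_le_left : W ⊓ W' ≤ W).trans h2) y1' =
      resF ((inf_le_left : W ⊓ W' ≤ W).trans h2) c' • res M (inf_le_left.trans h1) y := by
      rw [← f1']; exact e1'
    rw [res_sub, res_smul, res_smul]
    erw [e2, e2']
    rw [smul_smul, smul_smul, mul_comm, sub_self]
  rw [kappa_sub_GenHom G hM κ hadd hsmul, hsmul, hsmul, ← hk, ← hk'] at hz
  have h3 : toK G.pt_mem (c * c') * k = toK G.pt_mem (c * c') * k' := by
    rw [map_mul]
    linear_combination hz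
  exact mul_left_cancel₀ (toK_ne_zero_GenHom G.pt_mem (mul_ne_zero_GenHom G.pt_mem hc hc')) h3

theorem exists_ValP {O : X.Opens} {p : X} (hp : p ∈ O) (y : Γ(M, O)) :
    ∃ k, ValP G κ O y k := by
  obtain ⟨a, q, hqa, hle, n, y', hy'⟩ := exists_ext_GenHom G hM hp y
  have ha := ne_zero_of_mem_basicOpen_GenHom hqa
  refine ⟨(toK G.pt_mem (a ^ n))⁻¹ * κ y', X.basicOpen a, ⟨q, hqa⟩, hle, X.basicOpen_le a, a ^ n, y',
    pow_ne_zero_GenHom G.pt_mem ha n, ?_, ?_⟩
  · rw [hy', resF_pow_GenHom]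
  · rw [mul_inv_cancel_left₀ (toK_ne_zero_GenHom G.pt_mem (pow_ne_zero_GenHom G.pt_mem ha n))]

theorem ValP_add {O : X.Opens} {y y2 : Γ(M, O)} {k k' : X.functionField}
    (h : ValP G κ O y k) (h' : ValP G κ O y2 k') : ValP G κ O (y + y2) (k + k') := by
  obtain ⟨W, hW, h1, h2, c, y1, hc, e, hk⟩ := h
  obtain ⟨W', hW', h1', h2', c', y1', hc', e', hk'⟩ := h'
  obtain ⟨r, hr⟩ := exists_mem_inf_GenHom hW.some_mem hW'.some_mem
  refine ⟨W ⊓ W', ⟨r, hr⟩, inf_le_left.trans h1, inf_le_left.trans h2, c * c', c' • y1 + c • y1',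
    mul_ne_zero_GenHom G.pt_mem hc hc', ?_, ?_⟩
  · have e1 := congrArg (res M (inf_le_left : W ⊓ W' ≤ W)) e
    have e1' := congrArg (res M (inf_le_right : W ⊓ W' ≤ W')) e'
    rw [res_res, res_smul, res_res] at e1 e1'
    have f1 : resF (inf_le_left : W ⊓ W' ≤ W) (resF h2 c) =
      resF ((inf_le_left : W ⊓ W' ≤ W).trans h2) c := resF_resF _ _ _
    have f1' : resF (inf_le_right : W ⊓ W' ≤ W') (resF h2' c') =
      resF ((inf_le_left : W ⊓ W' ≤ W).trans h2) c' := resF_resF _ _ _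
    have e2 : res M ((inf_le_left : W ⊓ W' ≤ W).trans h2) y1 =
      resF ((inf_le_left : W ⊓ W' ≤ W).trans h2) c • res M (inf_le_left.trans h1) y := by
      rw [← f1]; exact e1
    have e2' : res M ((inf_le_left : W ⊓ W' ≤ W).trans h2) y1' =
      resF ((inf_le_left : W ⊓ W' ≤ W).trans h2) c' • res M (inf_le_left.trans h1) y2 := by
      rw [← f1']; exact e1'
    rw [res_add, res_smul_GenHom, res_smul_GenHom, res_add]
    erw [e2, e2']
    rw [smul_smul, smul_smul, smul_add, resF_mul_GenHom, mul_comm (resF _ c') (resF _ c)]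
  · rw [hadd, hsmul, hsmul, ← hk, ← hk', map_mul]
    ring

theorem ValP_smul {O : X.Opens} {p : X} (hp : p ∈ O) {y : Γ(M, O)} {k : X.functionField}
    (r : Γ(X, O)) (h : ValP G κ O y k) : ValP G κ O (r • y) (toK hp r * k) := by
  obtain ⟨W, hW, h1, h2, c, y1, hc, e, hk⟩ := h
  obtain ⟨q, hq⟩ := hW
  obtain ⟨a, ha, hqa⟩ := G.aff_UU.exists_basicOpen_le (V := W) ⟨q, hq⟩ (h2 hq)
  obtain ⟨n, r', hr'⟩ := exists_extF_GenHom G a (ha.trans h1) r
  have ha0 := ne_zero_of_mem_basicOpen_GenHom hqa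
  refine ⟨X.basicOpen a, ⟨q, hqa⟩, ha.trans h1, X.basicOpen_le a, c * a ^ n, r' • y1,
    mul_ne_zero_GenHom G.pt_mem hc (pow_ne_zero_GenHom G.pt_mem ha0 n), ?_, ?_⟩
  · have e1 := congrArg (res M ha) e
    rw [res_res, res_smul, res_res] at e1
    have f1 : resF ha (resF h2 c) = resF (X.basicOpen_le a) c := resF_resF _ _ _
    have e2 : res M (X.basicOpen_le a) y1 =
      resF (X.basicOpen_le a) c • res M (ha.trans h1) y := by
      rw [← f1]; exact e1
    rw [res_smul_GenHom, e2, hr', res_smul_GenHom, smul_smul, smul_smul, resF_mul_GenHom,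
      resF_pow_GenHom]
    congr 1
    ring
  · have e3 := congrArg (toK hqa) hr'
    rw [map_mul, map_pow, toK_res, toK_res, toK_res] at e3
    have e4 : toK G.pt_mem r' = toK G.pt_mem a ^ n * toK hp r := e3
    rw [hsmul, ← hk, e4, map_mul, map_pow]
    ring

theorem ValP_of_res {U V : X.Opens} (hVU : V ≤ U) {y : Γ(M, U)} {k : X.functionField}
    (h : ValP G κ V (res M hVU y) k) : ValP G κ U y k := by
  obtain ⟨W, hW, h1, h2, c, y1, hc, e, hk⟩ := h
  refine ⟨W, hW, h1.trans hVU, h2, c, y1, hc, ?_, hk⟩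
  rw [e, res_res]

theorem ValP_UU (y : Γ(M, G.UU)) : ValP G κ G.UU y (κ y) := by
  refine ⟨G.UU, ⟨G.pt, G.pt_mem⟩, le_rfl, le_rfl, 1, y, ?_, ?_, ?_⟩
  · intro h
    have := congrArg (toK G.pt_mem) h
    rw [map_one, map_zero] at this
    exact one_ne_zero this
  · rw [resF_one_GenHom, one_smul]
  · rw [map_one, one_mul]

end val

/-- Existence of morphisms from a quasi-coherent `M` to a fractional sheaf `N`: an additive
`Γ(X, UU)`-linear map `κ : Γ(M, UU) → K` which maps `Γ(M, U s t)` to the sections of `N` over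
`U s t`. Proof: for a nonempty open `O` and `y ∈ Γ(M, O)` the value `κ_O(y) ∈ K` is `κ(y') / a^n` as in
`hom_ext_UU`; it is well defined, additive, linear, compatible with restrictions, and equals `κ(y|UU)` if
`O ⊇ UU`; for `p ∈ O`, choose a chart `U s t ∋ p` and `f ∈ Γ(X, U s t)` with
`p ∈ D(f) ⊆ O`; `y|D(f) = y'/f^n`, `y' ∈ Γ(M, U s t)`, so `κ_O(y) = κ(y'|UU)/f^n ∈ N_p`. Use
`Frac.homMk`. -/
theorem exists_hom_frac {M : X.Modules} (hM : QC M) (N : Frac X)
    (κ : Γ(M, G.UU) → X.functionField) (hadd : ∀ y y', κ (y + y') = κ y + κ y')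
    (hsmul : ∀ (a : Γ(X, G.UU)) y, κ (a • y) = toK G.pt_mem a * κ y)
    (hmem : ∀ (s t : Bool) (y : Γ(M, G.U s t)), ∀ p ∈ G.U s t,
      N.mem p (κ (res M (G.UU_le s t) y))) :
    ∃ φ : M ⟶ N.mod, ∀ y : Γ(M, G.UU), N.val G.pt_mem (φ.app _ y) = κ y := by
  classical
  let v : ∀ {U : X.Opens} {p : X}, p ∈ U → Γ(M, U) → X.functionField :=
    fun {U p} hp y => (exists_ValP G hM κ hadd hsmul hp y).choose
  have hv : ∀ {U : X.Opens} {p : X} (hp : p ∈ U) (y : Γ(M, U)), ValP G κ U y (v hp y) :=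
    fun {U p} hp y => (exists_ValP G hM κ hadd hsmul hp y).choose_spec
  have uniq : ∀ {U : X.Opens} {p : X} (hp : p ∈ U) (y : Γ(M, U)) (k : X.functionField),
      ValP G κ U y k → v hp y = k :=
    fun {U p} hp y k hk => ValP_unique G hM κ hadd hsmul (hv hp y) hk
  have hres : ∀ {U V : X.Opens} (h : V ≤ U) {p : X} (hp : p ∈ V) (s : Γ(M, U)),
      v hp (res M h s) = v (h hp) s := fun {U V} h {p} hp s =>
    (uniq (h hp) s _ (ValP_of_res G hM κ hadd hsmul h (hv hp _))).symm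
  have hsm : ∀ {U : X.Opens} {p : X} (hp : p ∈ U) (a : Γ(X, U)) (s : Γ(M, U)),
      v hp (a • s) = toK hp a * v hp s := fun {U p} hp a s =>
    uniq hp _ _ (ValP_smul G hM κ hadd hsmul hp a (hv hp s))
  have hc : ∀ {U : X.Opens} {p q : X} (hp : p ∈ U) (hq : q ∈ U) (s : Γ(M, U)),
      v hp s = v hq s := fun {U p q} hp hq s => uniq hp s _ (hv hq s)
  refine ⟨N.homMk M v hc ?_ ?_ hsm hres, fun y => ?_⟩
  · intro U p hp y
    obtain ⟨s, t, hst⟩ := G.exists_mem_U p
    obtain ⟨f, hf, hpf⟩ := (G.aff s t).exists_basicOpen_le (V := U) ⟨p, hp⟩ hst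
    obtain ⟨n, y', hy'⟩ := hM.ext (G.U s t) (G.aff s t) f (res M hf y)
    have hpf' : p ∈ X.basicOpen f := hpf
    have e0 : v hpf' (res M (X.basicOpen_le f) y') = toK hpf' (resF (X.basicOpen_le f) f) ^ n *
        v hp y := by
      rw [hy']
      refine (hsm hpf' _ _).trans ?_
      rw [map_pow]
      exact congrArg (toK hpf' (resF (X.basicOpen_le f) f) ^ n * ·) (hres hf hpf' y)
    have e1 : v (G.pt_mem_U s t) y' = toK hpf' (resF (X.basicOpen_le f) f) ^ n * v hp y :=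
      ((hres (X.basicOpen_le f) hpf' y').trans (hc hst (G.pt_mem_U s t) y')).symm.trans e0
    have e2 : v (G.pt_mem_U s t) y' = κ (res M (G.UU_le s t) y') :=
      uniq (G.pt_mem_U s t) y' _
        (ValP_of_res G hM κ hadd hsmul (G.UU_le s t) (ValP_UU G hM κ hadd hsmul _))
    have hm := hmem s t y' p hst
    rw [← e2, e1] at hm
    have hu : IsUnit (resF (X.basicOpen_le f) f) := X.toRingedSpace.isUnit_res_basicOpen f
    obtain ⟨g, hg⟩ := hu.exists_left_inv
    have h1 : v hp y = toK hpf' (g ^ n) * (toK hpf' (resF (X.basicOpen_le f) f) ^ n * v hp y) := by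
      rw [map_pow, ← mul_assoc, ← mul_pow, ← map_mul, hg, map_one, one_pow, one_mul]
    rw [h1]
    exact N.smul p _ _ (Reg.toK' hpf' _) hm
  · intro U p hp s t
    exact uniq hp _ _ (ValP_add G hM κ hadd hsmul (hv hp s) (hv hp t))
  · rw [Frac.val_homMk]
    exact uniq G.pt_mem y _ (ValP_UU G hM κ hadd hsmul y)

end M21.E3
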