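import Pool.Agent.H.MP_21b43d_ag.E3.G.QCf

/-!
# M21, existence part, C5a: spans of monomials in the function field
-/

open CategoryTheory CategoryTheory.Limits AlgebraicGeometry TopologicalSpace

noncomputable section

namespace M21.E3

section absSpan

variable {K : Type} [Field K] [Algebra ℂ K] {J : Type}

theorem inf_span_Span {v : J → K} (h : LinearIndependent ℂ v) (s t : Set J) :
    Submodule.span ℂ (v '' s) ⊓ Submodule.span ℂ (v '' t) = Submodule.span ℂ (v '' (s ∩ t)) := by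
  rw [Finsupp.span_image_eq_map_linearCombination, Finsupp.span_image_eq_map_linearCombination,
    Finsupp.span_image_eq_map_linearCombination, Finsupp.supported_inter]
  exact (Submodule.map_inf _ h).symm

theorem mem_span_Span {v : J → K} (h : LinearIndependent ℂ v) (s : Set J)
    (g : Submodule.span ℂ (Set.range v)) :
    (g : K) ∈ Submodule.span ℂ (v '' s) ↔ ∀ x, h.linearCombinationEquiv.symm g x ≠ 0 → x ∈ s := by
  rw [Finsupp.span_image_eq_map_linearCombination]
  constructor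
  · rintro ⟨f, hf, hfg⟩ x hx
    have e1 : h.linearCombinationEquiv.symm g = f := by
      rw [LinearEquiv.symm_apply_eq]
      apply Subtype.ext
      rw [LinearIndependent.linearCombinationEquiv_apply_coe]
      exact hfg.symm
    rw [e1] at hx
    exact (Finsupp.mem_supported _ _).1 hf (Finsupp.mem_support_iff.2 hx)
  · intro hx
    refine ⟨h.linearCombinationEquiv.symm g, ?_, ?_⟩
    · refine (Finsupp.mem_supported _ _).2 ?_
      intro x hx'
      exact hx x (Finsupp.mem_support_iff.1 hx')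
    · rw [← LinearIndependent.linearCombinationEquiv_apply_coe h, LinearEquiv.apply_symm_apply]

theorem finrank_Span {v : J → K} (h : LinearIndependent ℂ v) (A : Finset J) :
    FiniteDimensional ℂ (Submodule.span ℂ (v '' (A : Set J))) ∧
      Module.finrank ℂ (Submodule.span ℂ (v '' (A : Set J))) = A.card := by
  classical
  refine ⟨FiniteDimensional.span_of_finite ℂ ((Finset.finite_toSet A).image v), ?_⟩
  have h2 : LinearIndependent ℂ (fun x : (A : Set J) => v x) := h.comp _ Subtype.val_injective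
  have h3 : v '' (A : Set J) = Set.range (fun x : (A : Set J) => v x) := by
    ext y
    simp
  rw [h3]
  rw [finrank_span_eq_card h2]
  simp

theorem mul_mem_span_Span {S : Set K} {c : K} (hc : c ≠ 0) (g : K) :
    c * g ∈ Submodule.span ℂ S ↔ g ∈ Submodule.span ℂ {x | c * x ∈ S} := by
  have h1 : Submodule.span ℂ S = (Submodule.span ℂ {x | c * x ∈ S}).map (LinearMap.mulLeft ℂ c) := by
    rw [Submodule.map_span]
    congr 1
    ext y
    constructor
    · intro hy
      refine ⟨c⁻¹ * y, ?_, ?_⟩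
      · change c * (c⁻¹ * y) ∈ S
        rw [mul_inv_cancel_left₀ hc]
        exact hy
      · simp only [LinearMap.mulLeft_apply]
        rw [mul_inv_cancel_left₀ hc]
    · rintro ⟨x, hx, rfl⟩
      exact hx
  rw [h1]
  constructor
  · rintro ⟨x, hx, hxg⟩
    simp only [LinearMap.mulLeft_apply] at hxg
    rw [← mul_left_cancel₀ hc hxg]
    exact hx
  · intro hg
    exact ⟨g, hg, rfl⟩

end absSpan

/-- `0 ≤ p` on chart `0`, `p ≤ a` on chart `1` -/
def Rg (s : Bool) (a p : ℤ) : Prop := if s then p ≤ a else 0 ≤ p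

variable {X : Scheme.{0}} [IsIntegral X] [CX X]

namespace BiP

variable (G : BiP X)

/-- the span of the monomials `B^p Z^q e_l` with `Q l p q` -/
def spanR {ι : Type} (e : ι → X.functionField) (Q : ι → ℤ → ℤ → Prop) :
    Submodule ℂ X.functionField :=
  Submodule.span ℂ {g | ∃ l p q, Q l p q ∧ g = G.B ^ p * G.Z ^ q * e l}

variable {G} {ι : Type} {e : ι → X.functionField}

theorem spanR_eq_Span (Q : ι → ℤ → ℤ → Prop) :
    G.spanR e Q = Submodule.span ℂ ((fun x : ι × ℤ × ℤ => G.B ^ x.2.1 * G.Z ^ x.2.2 * e x.1) ''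
      {x | Q x.1 x.2.1 x.2.2}) := by
  unfold spanR
  congr 1
  ext g
  constructor
  · rintro ⟨l, p, q, h, rfl⟩
    exact ⟨(l, p, q), h, rfl⟩
  · rintro ⟨⟨l, p, q⟩, h, rfl⟩
    exact ⟨l, p, q, h, rfl⟩

theorem spanR_mono {Q Q' : ι → ℤ → ℤ → Prop} (h : ∀ l p q, Q l p q → Q' l p q) :
    G.spanR e Q ≤ G.spanR e Q' := by
  apply Submodule.span_mono
  rintro g ⟨l, p, q, h1, h2⟩
  exact ⟨l, p, q, h _ _ _ h1, h2⟩

theorem spanR_sup (Q Q' : ι → ℤ → ℤ → Prop) :
    G.spanR e Q ⊔ G.spanR e Q' = G.spanR e (fun l p q => Q l p q ∨ Q' l p q) := by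
  unfold spanR
  rw [← Submodule.span_union]
  congr 1
  ext g
  constructor
  · rintro (⟨l, p, q, h1, h2⟩ | ⟨l, p, q, h1, h2⟩)
    · exact ⟨l, p, q, Or.inl h1, h2⟩
    · exact ⟨l, p, q, Or.inr h1, h2⟩
  · rintro ⟨l, p, q, h1 | h1, h2⟩
    · exact Or.inl ⟨l, p, q, h1, h2⟩
    · exact Or.inr ⟨l, p, q, h1, h2⟩

theorem spanR_inf (h : LinearIndependent ℂ (fun x : ι × ℤ × ℤ => G.B ^ x.2.1 * G.Z ^ x.2.2 * e x.1))
    (Q Q' : ι → ℤ → ℤ → Prop) :
    G.spanR e Q ⊓ G.spanR e Q' = G.spanR e (fun l p q => Q l p q ∧ Q' l p q) := by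
  rw [spanR_eq_Span, spanR_eq_Span, spanR_eq_Span, inf_span_Span h]
  rfl

theorem mul_mem_spanR_iff (Q : ι → ℤ → ℤ → Prop) (i j : ℤ) (g : X.functionField) :
    G.B ^ i * G.Z ^ j * g ∈ G.spanR e Q ↔ g ∈ G.spanR e (fun l p q => Q l (p + i) (q + j)) := by
  have hB := G.B_ne
  have hZ := G.Z_ne
  have hc : G.B ^ i * G.Z ^ j ≠ 0 := mul_ne_zero (zpow_ne_zero _ hB) (zpow_ne_zero _ hZ)
  unfold spanR
  rw [mul_mem_span_Span hc]
  have : {x | G.B ^ i * G.Z ^ j * x ∈ {g | ∃ l p q, Q l p q ∧ g = G.B ^ p * G.Z ^ q * e l}}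
      = {g | ∃ l p q, Q l (p + i) (q + j) ∧ g = G.B ^ p * G.Z ^ q * e l} := by
    ext y
    constructor
    · rintro ⟨l, p, q, h1, h2⟩
      refine ⟨l, p - i, q - j, by simpa using h1, ?_⟩
      apply mul_left_cancel₀ hc
      rw [h2, zpow_sub₀ hB, zpow_sub₀ hZ]
      have e1 : G.B ^ i ≠ 0 := zpow_ne_zero _ hB
      have e2 : G.Z ^ j ≠ 0 := zpow_ne_zero _ hZ
      field_simp
    · rintro ⟨l, p, q, h1, rfl⟩
      refine ⟨l, p + i, q + j, h1, ?_⟩
      rw [zpow_add₀ hB, zpow_add₀ hZ]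
      ring
  rw [this]

/-- the span of all monomials -/
abbrev spanAll (G : BiP X) {ι : Type} (e : ι → X.functionField) : Submodule ℂ X.functionField :=
  Submodule.span ℂ (Set.range fun x : ι × ℤ × ℤ => G.B ^ x.2.1 * G.Z ^ x.2.2 * e x.1)

/-- the coordinates of an element of the span of all monomials -/
def coord (h : LinearIndependent ℂ (fun x : ι × ℤ × ℤ => G.B ^ x.2.1 * G.Z ^ x.2.2 * e x.1)) :
    G.spanAll e ≃ₗ[ℂ] (ι × ℤ × ℤ →₀ ℂ) := h.linearCombinationEquiv.symm

theorem spanR_le (Q : ι → ℤ → ℤ → Prop) : G.spanR e Q ≤ G.spanAll e := by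
  rw [spanR_eq_Span]
  exact Submodule.span_mono (Set.image_subset_range _ _)

/-- An element is in `spanR e Q` iff its coordinates are supported in `Q`. -/
theorem mem_spanR_iff
    (h : LinearIndependent ℂ (fun x : ι × ℤ × ℤ => G.B ^ x.2.1 * G.Z ^ x.2.2 * e x.1))
    (Q : ι → ℤ → ℤ → Prop) (g : G.spanAll e) :
    (g : X.functionField) ∈ G.spanR e Q ↔ ∀ x, coord h g x ≠ 0 → Q x.1 x.2.1 x.2.2 := by
  rw [spanR_eq_Span]
  exact mem_span_Span h _ g

/-- The dimension of the span of finitely many monomials. -/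
theorem finrank_spanR
    (h : LinearIndependent ℂ (fun x : ι × ℤ × ℤ => G.B ^ x.2.1 * G.Z ^ x.2.2 * e x.1))
    (A : Finset (ι × ℤ × ℤ)) :
    FiniteDimensional ℂ (G.spanR e (fun l p q => (l, p, q) ∈ A)) ∧
      Module.finrank ℂ (G.spanR e (fun l p q => (l, p, q) ∈ A)) = A.card := by
  have h1 : G.spanR e (fun l p q => (l, p, q) ∈ A) =
      Submodule.span ℂ ((fun x : ι × ℤ × ℤ => G.B ^ x.2.1 * G.Z ^ x.2.2 * e x.1) ''
        (A : Set (ι × ℤ × ℤ))) := by
    rw [spanR_eq_Span]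
    rfl
  rw [h1]
  exact finrank_Span h A

end BiP

end M21.E3
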