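import Pool.Agent.H.MP_21b43d_ag.E3.G.QCf
import Pool.Agent.H.MP_21b43d_ag.E3.G.Span

/-!
# M21, existence part, C15: fractional sheaves from submodules of the function field over the charts
-/

open CategoryTheory CategoryTheory.Limits AlgebraicGeometry TopologicalSpace

noncomputable section

namespace M21.E3

section aux_Glue

variable {X : Scheme.{0}}

/-- A power of `f` is in the ideal `I` if the members of `I` have no common zero on `D(f)`. -/
theorem pow_mem_Glue {U : X.Opens} (hU : IsAffineOpen U) (I : Ideal Γ(X, U)) (f : Γ(X, U))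
    (h : ∀ q ∈ X.basicOpen f, ∃ a ∈ I, q ∈ X.basicOpen a) : ∃ n : ℕ, f ^ n ∈ I := by
  have h1 : f ∈ I.radical := by
    rw [Ideal.radical_eq_sInf, Ideal.mem_sInf]
    rintro P ⟨hIP, hP⟩
    by_contra hf
    let r : PrimeSpectrum Γ(X, U) := ⟨P, hP⟩
    have key : ∀ g : Γ(X, U), hU.fromSpec r ∈ X.basicOpen g ↔ g ∉ P := by
      intro g
      have h2 : hU.fromSpec r ∈ X.basicOpen g ↔ r ∈ PrimeSpectrum.basicOpen g := by
        rw [← hU.fromSpec_preimage_basicOpen]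
        rfl
      rw [h2]
      exact Iff.rfl
    obtain ⟨a, haI, ha⟩ := h _ ((key f).mpr hf)
    exact (key a).mp ha (hIP haI)
  exact h1

variable [IsIntegral X]

theorem exists_ext_Glue {U W : X.Opens} (hU : IsAffineOpen U) (f : Γ(X, U)) (hWU : W ≤ U)
    (hW : W = X.basicOpen f) {p : X} (hp : p ∈ W) (a : Γ(X, W)) :
    ∃ (n : ℕ) (c : Γ(X, U)), toK (hWU hp) c = toK (hWU hp) f ^ n * toK hp a := by
  subst hW
  have := hU.isLocalization_basicOpen f
  obtain ⟨⟨c, ⟨_, l, rfl⟩⟩, hc⟩ := IsLocalization.surj (Submonoid.powers f) a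
  have hc' : a * resF (X.basicOpen_le f) (f ^ l) = resF (X.basicOpen_le f) c := hc
  refine ⟨l, c, ?_⟩
  have h1 := congrArg (toK hp) hc'
  rw [map_mul, toK_res, toK_res, map_pow] at h1
  rw [← h1, mul_comm]

/-- `p ∈ D(f)` in terms of the value of `f` in the function field. -/
theorem mem_basicOpen_iff_Glue {U : X.Opens} {p : X} (hp : p ∈ U) (f : Γ(X, U)) :
    p ∈ X.basicOpen f ↔ toK hp f ≠ 0 ∧ Reg p (toK hp f)⁻¹ := by
  constructor
  · intro h
    obtain ⟨u, hu⟩ : IsUnit (resF (X.basicOpen_le f) f) := X.toRingedSpace.isUnit_res_basicOpen f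
    have h1 : toK h (resF (X.basicOpen_le f) f) * toK h ((u⁻¹ : (Γ(X, X.basicOpen f))ˣ) :
        Γ(X, X.basicOpen f)) = 1 := by
      rw [← map_mul, ← hu, Units.mul_inv, map_one]
    rw [toK_res] at h1
    have h2 : toK hp f ≠ 0 := left_ne_zero_of_mul_eq_one h1
    exact ⟨h2, X.basicOpen f, h, ((u⁻¹ : (Γ(X, X.basicOpen f))ˣ) : Γ(X, X.basicOpen f)),
      eq_inv_of_mul_eq_one_right h1⟩
  · rintro ⟨h0, V, hV, a, ha⟩
    have hpUV : p ∈ U ⊓ V := ⟨hp, hV⟩
    have h1 : resF (inf_le_left : U ⊓ V ≤ U) f * resF (inf_le_right : U ⊓ V ≤ V) a = 1 := by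
      apply toK_inj hpUV
      rw [map_mul, toK_res, toK_res, map_one, ha]
      exact mul_inv_cancel₀ h0
    have h2 : IsUnit (resF (inf_le_left : U ⊓ V ≤ U) f) := IsUnit.of_mul_eq_one _ h1
    have h3 : X.basicOpen (resF (inf_le_left : U ⊓ V ≤ U) f) = U ⊓ V :=
      X.basicOpen_of_isUnit h2
    have h4 : X.basicOpen (resF (inf_le_left : U ⊓ V ≤ U) f) = (U ⊓ V) ⊓ X.basicOpen f :=
      X.basicOpen_res f (homOfLE inf_le_left).op
    have h5 : p ∈ (U ⊓ V) ⊓ X.basicOpen f := by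
      rw [← h4, h3]
      exact hpUV
    exact h5.2

theorem reg_pow_Glue {p : X} {g : X.functionField} (h : Reg p g) (n : ℕ) : Reg p (g ^ n) := by
  induction n with
  | zero => rw [pow_zero]; exact Reg.one p
  | succ n ih => rw [pow_succ]; exact ih.mul h

theorem mem_basicOpen_mul_Glue {U : X.Opens} {p : X} (hp : p ∈ U) {f g : Γ(X, U)}
    (hf : p ∈ X.basicOpen f) (hg : p ∈ X.basicOpen g) : p ∈ X.basicOpen (f * g) := by
  rw [X.basicOpen_mul]
  exact ⟨hf, hg⟩

theorem mem_basicOpen_pow_Glue {U : X.Opens} {p : X} (hp : p ∈ U) {f : Γ(X, U)}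
    (hf : p ∈ X.basicOpen f) (n : ℕ) : p ∈ X.basicOpen (f ^ n) := by
  rw [mem_basicOpen_iff_Glue hp] at hf ⊢
  rw [map_pow]
  refine ⟨pow_ne_zero _ hf.1, ?_⟩
  rw [← inv_pow]
  exact reg_pow_Glue hf.2 n

end aux_Glue

variable {X : Scheme.{0}} [IsIntegral X] [CX X]

/-- Submodules `N s t` of the function field over `Γ(X, U s t)` which agree on the overlaps. -/
structure CF (G : BiP X) where
  /-- the submodules -/
  N : Bool → Bool → Submodule ℂ X.functionField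
  smul : ∀ s t (a : Γ(X, G.U s t)) g, g ∈ N s t → G.k s t a * g ∈ N s t
  hB : ∀ s t g, g ∈ N s t → ∃ n : ℕ, G.B ^ (BiP.sg (!s) * n) * g ∈ N (!s) t
  hZ : ∀ s t g, g ∈ N s t → ∃ n : ℕ, G.Z ^ (BiP.sg (!t) * n) * g ∈ N s (!t)

namespace CF

variable {G : BiP X} (C : CF G)

/-- `g` is in the localization of `N s t` at `p` -/
def At (s t : Bool) (p : X) (g : X.functionField) : Prop :=
  ∃ a : Γ(X, G.U s t), p ∈ X.basicOpen a ∧ G.k s t a * g ∈ C.N s t

theorem mem_V01_Glue {s : Bool} {p : X} (h : p ∈ G.V s) (h' : p ∈ G.V (!s)) : p ∈ G.V01 := by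
  cases s
  · exact ⟨h, h'⟩
  · exact ⟨h', h⟩

theorem mem_W01_Glue {t : Bool} {p : X} (h : p ∈ G.W t) (h' : p ∈ G.W (!t)) : p ∈ G.W01 := by
  cases t
  · exact ⟨h, h'⟩
  · exact ⟨h', h⟩

/-- The step `(s, t) → (!s, t)`. -/
theorem indepB_Glue {s t : Bool} {p : X} (hp : p ∈ G.U s t) (hp' : p ∈ G.U (!s) t)
    (g : X.functionField) (h : C.At s t p g) : C.At (!s) t p g := by
  obtain ⟨a, hpa, ha⟩ := h
  obtain ⟨m, hm⟩ := C.hB s t _ ha
  have hpW : p ∈ G.UB t := ⟨mem_V01_Glue hp.1 hp'.1, hp.2⟩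
  have hbas : p ∈ X.basicOpen (G.bc (!s) (inf_le_left : G.U (!s) t ≤ G.V (!s))) := by
    rw [G.basicOpen_bc]
    exact hpW
  obtain ⟨n, c, hc⟩ := exists_ext_Glue (G.aff (!s) t)
    (G.bc (!s) (inf_le_left : G.U (!s) t ≤ G.V (!s))) (G.UB_le (!s) t)
    (G.basicOpen_bc (!s) t).symm hpW (resF (G.UB_le s t) a)
  have hb : toK (G.UB_le (!s) t hpW) (G.bc (!s) (inf_le_left : G.U (!s) t ≤ G.V (!s))) =
      G.B ^ BiP.sg (!s) := G.toK_bc _ _ _
  have hc' : toK (G.UB_le (!s) t hpW) c = toK (G.UB_le (!s) t hpW)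
      (G.bc (!s) (inf_le_left : G.U (!s) t ≤ G.V (!s))) ^ n * toK hp a := by
    rw [hc, toK_res]
  refine ⟨G.bc (!s) (inf_le_left : G.U (!s) t ≤ G.V (!s)) ^ m * c,
    mem_basicOpen_mul_Glue hp' (mem_basicOpen_pow_Glue hp' hbas m) ?_, ?_⟩
  · rw [mem_basicOpen_iff_Glue hp'] at hbas ⊢
    rw [mem_basicOpen_iff_Glue hp] at hpa
    have e : toK hp' c = toK hp' (G.bc (!s) (inf_le_left : G.U (!s) t ≤ G.V (!s))) ^ n *
        toK hp a := hc'
    rw [e]
    refine ⟨mul_ne_zero (pow_ne_zero _ hbas.1) hpa.1, ?_⟩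
    rw [mul_inv, ← inv_pow]
    exact (reg_pow_Glue hbas.2 n).mul hpa.2
  · have h2 := C.smul (!s) t (G.bc (!s) (inf_le_left : G.U (!s) t ≤ G.V (!s)) ^ n) _ hm
    have h3 : G.k (!s) t (G.bc (!s) (inf_le_left : G.U (!s) t ≤ G.V (!s)) ^ m * c) * g =
        G.k (!s) t (G.bc (!s) (inf_le_left : G.U (!s) t ≤ G.V (!s)) ^ n) *
          (G.B ^ (BiP.sg (!s) * (m : ℤ)) * (G.k s t a * g)) := by
      have e1 : G.k (!s) t c = G.k (!s) t (G.bc (!s)
        (inf_le_left : G.U (!s) t ≤ G.V (!s))) ^ n * G.k s t a := hc'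
      have e2 : G.k (!s) t (G.bc (!s) (inf_le_left : G.U (!s) t ≤ G.V (!s))) =
        G.B ^ BiP.sg (!s) := hb
      rw [map_mul, map_pow, map_pow, e1, e2, zpow_mul, zpow_natCast]
      ring
    rwa [h3]

/-- The step `(s, t) → (s, !t)`. -/
theorem indepZ_Glue {s t : Bool} {p : X} (hp : p ∈ G.U s t) (hp' : p ∈ G.U s (!t))
    (g : X.functionField) (h : C.At s t p g) : C.At s (!t) p g := by
  obtain ⟨a, hpa, ha⟩ := h
  obtain ⟨m, hm⟩ := C.hZ s t _ ha
  have hpW : p ∈ G.UZ s := ⟨hp.1, mem_W01_Glue hp.2 hp'.2⟩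
  have hbas : p ∈ X.basicOpen (G.zc (!t) (inf_le_right : G.U s (!t) ≤ G.W (!t))) := by
    rw [G.basicOpen_zc]
    exact hpW
  obtain ⟨n, c, hc⟩ := exists_ext_Glue (G.aff s (!t))
    (G.zc (!t) (inf_le_right : G.U s (!t) ≤ G.W (!t))) (G.UZ_le s (!t))
    (G.basicOpen_zc s (!t)).symm hpW (resF (G.UZ_le s t) a)
  have hb : toK (G.UZ_le s (!t) hpW) (G.zc (!t) (inf_le_right : G.U s (!t) ≤ G.W (!t))) =
      G.Z ^ BiP.sg (!t) := G.toK_zc _ _ _
  have hc' : toK (G.UZ_le s (!t) hpW) c = toK (G.UZ_le s (!t) hpW)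
      (G.zc (!t) (inf_le_right : G.U s (!t) ≤ G.W (!t))) ^ n * toK hp a := by
    rw [hc, toK_res]
  refine ⟨G.zc (!t) (inf_le_right : G.U s (!t) ≤ G.W (!t)) ^ m * c,
    mem_basicOpen_mul_Glue hp' (mem_basicOpen_pow_Glue hp' hbas m) ?_, ?_⟩
  · rw [mem_basicOpen_iff_Glue hp'] at hbas ⊢
    rw [mem_basicOpen_iff_Glue hp] at hpa
    have e : toK hp' c = toK hp' (G.zc (!t) (inf_le_right : G.U s (!t) ≤ G.W (!t))) ^ n *
        toK hp a := hc'
    rw [e]
    refine ⟨mul_ne_zero (pow_ne_zero _ hbas.1) hpa.1, ?_⟩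
    rw [mul_inv, ← inv_pow]
    exact (reg_pow_Glue hbas.2 n).mul hpa.2
  · have h2 := C.smul s (!t) (G.zc (!t) (inf_le_right : G.U s (!t) ≤ G.W (!t)) ^ n) _ hm
    have h3 : G.k s (!t) (G.zc (!t) (inf_le_right : G.U s (!t) ≤ G.W (!t)) ^ m * c) * g =
        G.k s (!t) (G.zc (!t) (inf_le_right : G.U s (!t) ≤ G.W (!t)) ^ n) *
          (G.Z ^ (BiP.sg (!t) * (m : ℤ)) * (G.k s t a * g)) := by
      have e1 : G.k s (!t) c = G.k s (!t) (G.zc (!t)
        (inf_le_right : G.U s (!t) ≤ G.W (!t))) ^ n * G.k s t a := hc'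
      have e2 : G.k s (!t) (G.zc (!t) (inf_le_right : G.U s (!t) ≤ G.W (!t))) =
        G.Z ^ BiP.sg (!t) := hb
      rw [map_mul, map_pow, map_pow, e1, e2, zpow_mul, zpow_natCast]
      ring
    rwa [h3]

/-- Independence of the chart. For `(s, t)` and `(!s, t)` (the general case is a composition, since
`U s t ∩ U s' t' ⊆ U s' t`): `a g ∈ N s t`; for large `n`, `b^n a` is (the restriction of)
a function `a'` on `U (!s) t`, where `b` is the coordinate of `U (!s) t`, and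
`b^m (a g) ∈ N (!s) t` for large `m`, so `b^m a' g ∈ N (!s) t`. -/
theorem indep {s t s' t' : Bool} {p : X} (hp : p ∈ G.U s t) (hp' : p ∈ G.U s' t')
    (g : X.functionField) (h : C.At s t p g) : C.At s' t' p g := by
  have hp1 : p ∈ G.U s' t := ⟨hp'.1, hp.2⟩
  have h1 : C.At s' t p g := by
    by_cases hs : s' = s
    · subst hs
      exact h
    · have hs' : s' = !s := by
        cases s <;> cases s' <;> simp_all
      subst hs'
      exact C.indepB_Glue hp hp1 g h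
  by_cases ht : t' = t
  · subst ht
    exact h1
  · have ht' : t' = !t := by
      cases t <;> cases t' <;> simp_all
    subst ht'
    exact C.indepZ_Glue hp1 hp' g h1

theorem at_add {s t : Bool} {p : X} {g h : X.functionField} (hg : C.At s t p g)
    (hh : C.At s t p h) : C.At s t p (g + h) := by
  obtain ⟨a, hpa, ha⟩ := hg
  obtain ⟨b, hpb, hb⟩ := hh
  refine ⟨a * b, mem_basicOpen_mul_Glue (X.basicOpen_le a hpa) hpa hpb, ?_⟩
  have h1 : G.k s t (a * b) * (g + h) =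
      G.k s t b * (G.k s t a * g) + G.k s t a * (G.k s t b * h) := by
    rw [map_mul]
    ring
  rw [h1]
  exact add_mem (C.smul s t b _ ha) (C.smul s t a _ hb)

/-- a function regular at `p ∈ U s t` is `c'/b^n` with `c', b ∈ Γ(X, U s t)`, `b(p) ≠ 0` -/
theorem at_smul {s t : Bool} {p : X} (hp : p ∈ G.U s t) {a g : X.functionField} (ha : Reg p a)
    (hg : C.At s t p g) : C.At s t p (a * g) := by
  obtain ⟨V, hV, a, rfl⟩ := ha
  obtain ⟨c, hpc, hc⟩ := hg
  obtain ⟨f, hf, hpf⟩ := (G.aff s t).exists_basicOpen_le ⟨p, hV⟩ hp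
  obtain ⟨n, d, hd⟩ := exists_ext_Glue (G.aff s t) f (X.basicOpen_le f) rfl hpf (resF hf a)
  rw [toK_res] at hd
  have hd' : G.k s t d = G.k s t f ^ n * toK hV a := hd
  refine ⟨f ^ n * c, mem_basicOpen_mul_Glue hp (mem_basicOpen_pow_Glue hp hpf n) hpc, ?_⟩
  have h1 : G.k s t (f ^ n * c) * (toK hV a * g) = G.k s t d * (G.k s t c * g) := by
    rw [map_mul, map_pow, hd']
    ring
  rw [h1]
  exact C.smul s t d _ hc

/-- the fractional sheaf -/
def frac : Frac X where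
  mem p g := ∀ s t, p ∈ G.U s t → C.At s t p g
  zero p s t hp := ⟨1, by simpa using hp, by rw [mul_zero]; exact zero_mem _⟩
  add p g h hg hh s t hp := C.at_add (hg s t hp) (hh s t hp)
  smul p a g ha hg s t hp := C.at_smul hp ha (hg s t hp)
  opn p g hg := by
    obtain ⟨s, t, hp⟩ := G.exists_mem_U p
    obtain ⟨a, ha, h⟩ := hg s t hp
    exact ⟨X.basicOpen a, ha, fun q hq s' t' hq' => C.indep (X.basicOpen_le a hq) hq' g
      ⟨a, hq, h⟩⟩

theorem mem_iff {p : X} {s t : Bool} (hp : p ∈ G.U s t) (g : X.functionField) :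
    C.frac.mem p g ↔ C.At s t p g :=
  ⟨fun h => h s t hp, fun h s' t' hp' => C.indep hp hp' g h⟩

/-- The ideal of the `a` with `a g ∈ N s t`. -/
def ideal_Glue (s t : Bool) (g : X.functionField) : Ideal Γ(X, G.U s t) where
  carrier := {a | G.k s t a * g ∈ C.N s t}
  add_mem' {a b} ha hb := by
    change G.k s t (a + b) * g ∈ C.N s t
    rw [map_add, add_mul]
    exact add_mem ha hb
  zero_mem' := by
    change G.k s t 0 * g ∈ C.N s t
    rw [map_zero, zero_mul]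
    exact zero_mem _
  smul_mem' c a ha := by
    change G.k s t (c * a) * g ∈ C.N s t
    rw [map_mul, mul_assoc]
    exact C.smul s t c _ ha

theorem mem_ideal_Glue (s t : Bool) (g : X.functionField) (a : Γ(X, G.U s t)) :
    a ∈ C.ideal_Glue s t g ↔ G.k s t a * g ∈ C.N s t := Iff.rfl

/-- The sections over the charts are the given submodules (the ideal of the `a` with `a g ∈ N s t` is the
unit ideal). -/
theorem secs_eq (s t : Bool) : C.frac.secs (G.U s t) = C.N s t := by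
  apply le_antisymm
  · intro g hg
    obtain ⟨n, hn⟩ := pow_mem_Glue (G.aff s t) (C.ideal_Glue s t g) 1 fun q hq => by
      obtain ⟨a, hqa, ha⟩ := (C.mem_iff (X.basicOpen_le _ hq) g).mp (hg q (X.basicOpen_le _ hq))
      exact ⟨a, ha, hqa⟩
    rw [one_pow, mem_ideal_Glue, map_one, one_mul] at hn
    exact hn
  · intro g hg p hp
    refine (C.mem_iff hp g).mpr ⟨1, by simpa using hp, ?_⟩
    rw [map_one, one_mul]
    exact hg

/-- The fractional sheaf is quasi-coherent (`Frac.qc_of_cover`): if `g ∈ N_q` for all `q ∈ D(f)`, the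
ideal of the `a` with `a g ∈ N s t` has no zero in `D(f)`, so it contains a power of `f`. -/
theorem qc : QC C.frac.mod := by
  refine Frac.qc_of_cover C.frac (fun i : Bool × Bool => G.U i.1 i.2)
    (fun i => G.aff i.1 i.2) (charts_QCf G) ?_
  rintro ⟨s, t⟩ p hp f g hg
  change p ∈ G.U s t at hp
  change Γ(X, G.U s t) at f
  obtain ⟨n, hn⟩ := pow_mem_Glue (G.aff s t) (C.ideal_Glue s t g) f fun q hq => by
    obtain ⟨a, hqa, ha⟩ := (C.mem_iff (s := s) (t := t) (X.basicOpen_le _ hq) g).mp (hg q hq)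
    exact ⟨a, ha, hqa⟩
  refine ⟨n, ?_⟩
  rw [mem_ideal_Glue, ← C.secs_eq, map_pow] at hn
  exact hn

end CF

end M21.E3
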