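import Pool.Agent.H.MP_21b43d_ag.E3.G.DualB
import Pool.Agent.H.MP_21b43d_ag.E3.G.Glue

/-!
# M21, existence part, C17: the dualizing sheaf
-/

open CategoryTheory CategoryTheory.Limits AlgebraicGeometry TopologicalSpace

noncomputable section

namespace M21.E3

section aux_Omega

theorem Rg_add_Omega (s : Bool) (a p p' : ℤ) (h : Rg s (-a - 2) p) (h' : Rg s a p') :
    Rg s (-2) (p + p') := by
  cases s
  · simp only [Rg, Bool.false_eq_true, if_false] at h h' ⊢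
    omega
  · simp only [Rg, if_true] at h h' ⊢
    omega

theorem Rg_tw_Omega (s : Bool) (a p : ℤ) (h : Rg s (-2) (p + BiP.tw s a)) :
    Rg s (-a - 2) p := by
  cases s
  · simp only [Rg, BiP.tw, Bool.false_eq_true, if_false] at h ⊢
    omega
  · simp only [Rg, BiP.tw, if_true] at h ⊢
    omega

theorem Rg_tw_self_Omega (s : Bool) (a : ℤ) : Rg s a (BiP.tw s a) := by
  cases s <;> simp [Rg, BiP.tw]

theorem Rg_step_Omega (s : Bool) (a p : ℤ) (n : ℕ) (h : Rg s a p) : Rg s a (p + BiP.sg s * n) := by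
  cases s
  · simp only [Rg, BiP.sg, Bool.false_eq_true, if_false] at h ⊢
    omega
  · simp only [Rg, BiP.sg, if_true] at h ⊢
    omega

theorem exists_Rg_Omega (s : Bool) (a p : ℤ) : ∃ n : ℕ, Rg s a (p + BiP.sg s * n) := by
  cases s
  · refine ⟨p.natAbs, ?_⟩
    simp only [Rg, BiP.sg, Bool.false_eq_true, if_false]
    omega
  · refine ⟨(p - a).natAbs, ?_⟩
    simp only [Rg, BiP.sg, if_true]
    omega

variable {X : Scheme.{0}} [IsIntegral X] [CX X] {G : BiP X} {ι : Type}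
  {e : ι → X.functionField}

theorem stepB_Omega (s : Bool) (Q : ι → ℤ → Prop) (a : ι → ℤ) (n m : ℕ) (h : n ≤ m)
    (g : X.functionField)
    (hg : G.B ^ (BiP.sg s * n) * g ∈ G.spanR e (fun l p q => Rg s (a l) p ∧ Q l q)) :
    G.B ^ (BiP.sg s * m) * g ∈ G.spanR e (fun l p q => Rg s (a l) p ∧ Q l q) := by
  have h1 : G.B ^ (BiP.sg s * m) * g = G.B ^ (BiP.sg s * ((m - n : ℕ) : ℤ)) * G.Z ^ (0 : ℤ) *
      (G.B ^ (BiP.sg s * n) * g) := by
    rw [zpow_zero, mul_one, ← mul_assoc, ← zpow_add₀ G.B_ne, Nat.cast_sub h]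
    congr 2
    ring
  rw [h1, BiP.mul_mem_spanR_iff]
  refine BiP.spanR_mono (fun l p q h2 => ⟨Rg_step_Omega s _ _ _ h2.1, ?_⟩) hg
  rw [add_zero]
  exact h2.2

theorem existsB_Omega (s : Bool) (Q : ι → ℤ → Prop) (a : ι → ℤ) (P : ι → ℤ → Prop)
    (g : X.functionField) (hg : g ∈ G.spanR e (fun l p q => P l p ∧ Q l q)) :
    ∃ n : ℕ, G.B ^ (BiP.sg s * n) * g ∈ G.spanR e (fun l p q => Rg s (a l) p ∧ Q l q) := by
  unfold BiP.spanR at hg
  induction hg using Submodule.span_induction with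
  | mem g hg =>
    obtain ⟨l, p, q, ⟨_, h2⟩, rfl⟩ := hg
    obtain ⟨n, hn⟩ := exists_Rg_Omega s (a l) p
    refine ⟨n, Submodule.subset_span ⟨l, p + BiP.sg s * n, q, ⟨hn, h2⟩, ?_⟩⟩
    rw [zpow_add₀ G.B_ne]
    ring
  | zero => exact ⟨0, by rw [mul_zero]; exact zero_mem _⟩
  | add u v _ _ hu hv =>
    obtain ⟨n, hn⟩ := hu
    obtain ⟨m, hm⟩ := hv
    refine ⟨max n m, ?_⟩
    rw [mul_add]
    exact add_mem (stepB_Omega s Q a _ _ (le_max_left _ _) _ hn)
      (stepB_Omega s Q a _ _ (le_max_right _ _) _ hm)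
  | smul c v _ hv =>
    obtain ⟨n, hn⟩ := hv
    refine ⟨n, ?_⟩
    rw [mul_smul_comm]
    exact Submodule.smul_mem _ c hn

theorem stepZ_Omega (t : Bool) (P : ι → ℤ → Prop) (b : ι → ℤ) (n m : ℕ) (h : n ≤ m)
    (g : X.functionField)
    (hg : G.Z ^ (BiP.sg t * n) * g ∈ G.spanR e (fun l p q => P l p ∧ Rg t (b l) q)) :
    G.Z ^ (BiP.sg t * m) * g ∈ G.spanR e (fun l p q => P l p ∧ Rg t (b l) q) := by
  have h1 : G.Z ^ (BiP.sg t * m) * g = G.B ^ (0 : ℤ) * G.Z ^ (BiP.sg t * ((m - n : ℕ) : ℤ)) *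
      (G.Z ^ (BiP.sg t * n) * g) := by
    rw [zpow_zero, one_mul, ← mul_assoc, ← zpow_add₀ G.Z_ne, Nat.cast_sub h]
    congr 2
    ring
  rw [h1, BiP.mul_mem_spanR_iff]
  refine BiP.spanR_mono (fun l p q h2 => ⟨?_, Rg_step_Omega t _ _ _ h2.2⟩) hg
  rw [add_zero]
  exact h2.1

theorem existsZ_Omega (t : Bool) (P : ι → ℤ → Prop) (b : ι → ℤ) (Q : ι → ℤ → Prop)
    (g : X.functionField) (hg : g ∈ G.spanR e (fun l p q => P l p ∧ Q l q)) :
    ∃ n : ℕ, G.Z ^ (BiP.sg t * n) * g ∈ G.spanR e (fun l p q => P l p ∧ Rg t (b l) q) := by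
  unfold BiP.spanR at hg
  induction hg using Submodule.span_induction with
  | mem g hg =>
    obtain ⟨l, p, q, ⟨h1, _⟩, rfl⟩ := hg
    obtain ⟨n, hn⟩ := exists_Rg_Omega t (b l) q
    refine ⟨n, Submodule.subset_span ⟨l, p, q + BiP.sg t * n, ⟨h1, hn⟩, ?_⟩⟩
    rw [zpow_add₀ G.Z_ne]
    ring
  | zero => exact ⟨0, by rw [mul_zero]; exact zero_mem _⟩
  | add u v _ _ hu hv =>
    obtain ⟨n, hn⟩ := hu
    obtain ⟨m, hm⟩ := hv
    refine ⟨max n m, ?_⟩
    rw [mul_add]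
    exact add_mem (stepZ_Omega t P b _ _ (le_max_left _ _) _ hn)
      (stepZ_Omega t P b _ _ (le_max_right _ _) _ hm)
  | smul c v _ hv =>
    obtain ⟨n, hn⟩ := hv
    refine ⟨n, ?_⟩
    rw [mul_smul_comm]
    exact Submodule.smul_mem _ c hn

end aux_Omega

variable {X : Scheme.{0}} [IsIntegral X] [CX X] {G : BiP X} {ι : Type} [Fintype ι] [DecidableEq ι]
  {S : G.Split (FO X) ι} (d : DualB S)

namespace DualB

/-- the basis `B Z f_l` of the dualizing sheaf -/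
def e' (l : ι) : X.functionField := G.B * G.Z * d.f l

theorem mon_e'_Omega (p q : ℤ) (l : ι) :
    G.B ^ p * G.Z ^ q * d.e' l = G.B ^ (p + 1) * G.Z ^ (q + 1) * d.f l := by
  rw [e', zpow_add_one₀ G.B_ne, zpow_add_one₀ G.Z_ne]
  ring

theorem indep' : LinearIndependent ℂ
    (fun x : ι × ℤ × ℤ => G.B ^ x.2.1 * G.Z ^ x.2.2 * d.e' x.1) := by
  have h1 : (fun x : ι × ℤ × ℤ => G.B ^ x.2.1 * G.Z ^ x.2.2 * d.e' x.1) =
      (fun x : ι × ℤ × ℤ => G.B ^ x.2.1 * G.Z ^ x.2.2 * d.f x.1) ∘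
        (fun x : ι × ℤ × ℤ => (x.1, x.2.1 + 1, x.2.2 + 1)) := by
    funext x
    exact d.mon_e'_Omega _ _ _
  rw [h1]
  refine d.indep.comp _ ?_
  rintro ⟨l, p, q⟩ ⟨l', p', q'⟩ h
  simp only [Prod.mk.injEq, add_left_inj] at h
  obtain ⟨rfl, rfl, rfl⟩ := h
  rfl

/-- the sections over the charts -/
def NN (s t : Bool) : Submodule ℂ X.functionField :=
  G.spanR d.e' (fun l p q => Rg s (- S.a l - 2) p ∧ Rg t (- S.b l - 2) q)

/-- the value of `τ` on products of monomials -/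
theorem tau_mon_Omega (k l : ι) (p q p' q' : ℤ) :
    d.τ (G.B ^ p' * G.Z ^ q' * S.e k * (G.B ^ p * G.Z ^ q * d.e' l)) =
      if k = l then G.B ^ (p + p' + 1) * G.Z ^ (q + q' + 1) else 0 := by
  have h1 : G.B ^ p' * G.Z ^ q' * S.e k * (G.B ^ p * G.Z ^ q * d.e' l) =
      G.B ^ (p + p' + 1) * G.Z ^ (q + q' + 1) * (S.e k * d.f l) := by
    rw [e', zpow_add_one₀ G.B_ne, zpow_add_one₀ G.Z_ne, zpow_add₀ G.B_ne, zpow_add₀ G.Z_ne]
    ring
  rw [h1, d.mon, d.dual]
  split_ifs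
  · rw [mul_one]
  · rw [mul_zero]

theorem tau_mem_Omega (s t : Bool) (w : X.functionField) (hw : w ∈ d.NN s t)
    (h : X.functionField) (hh : h ∈ (FO X).secs (G.U s t)) :
    d.τ (h * w) ∈ G.spanR (fun _ : Unit => (1 : X.functionField))
        (fun _ p q => Rg s (-2) (p - 1) ∧ Rg t (-2) (q - 1)) := by
  rw [S.secs s t] at hh
  unfold BiP.spanR at hh
  induction hh using Submodule.span_induction with
  | mem h hh =>
    obtain ⟨k, p', q', ⟨h1, h2⟩, rfl⟩ := hh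
    unfold NN BiP.spanR at hw
    induction hw using Submodule.span_induction with
    | mem w hw =>
      obtain ⟨l, p, q, ⟨h3, h4⟩, rfl⟩ := hw
      rw [d.tau_mon_Omega]
      split_ifs with hkl
      · subst hkl
        refine Submodule.subset_span ⟨(), p + p' + 1, q + q' + 1, ⟨?_, ?_⟩, by rw [mul_one]⟩
        · rw [add_sub_cancel_right]
          exact Rg_add_Omega s _ _ _ h3 h1
        · rw [add_sub_cancel_right]
          exact Rg_add_Omega t _ _ _ h4 h2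
      · exact zero_mem _
    | zero => rw [mul_zero, map_zero]; exact zero_mem _
    | add u v _ _ hu hv => rw [mul_add, map_add]; exact add_mem hu hv
    | smul c v _ hv => rw [mul_smul_comm, map_smul]; exact Submodule.smul_mem _ c hv
  | zero => rw [zero_mul, map_zero]; exact zero_mem _
  | add u v _ _ hu hv => rw [add_mul, map_add]; exact add_mem hu hv
  | smul c v _ hv => rw [smul_mul_assoc, map_smul]; exact Submodule.smul_mem _ c hv

/-- `w ∈ NN s t` iff `τ(h w)` is a combination of `B^p Z^q` with `1 ≤ p` (`s = 0`), `p ≤ -1`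
(`s = 1`), `1 ≤ q` (`t = 0`), `q ≤ -1` (`t = 1`) for all `h ∈ O(U s t)`. (If `w ∈ NN s t`:
`h = B^p Z^q e_k` with `Rg s (a_k) p`, `Rg t (b_k) q`. Conversely take
`h = B^(tw s a_k) Z^(tw t b_k) e_k` and use `expand`.) -/
theorem mem_NN_iff (s t : Bool) (w : X.functionField) :
    w ∈ d.NN s t ↔ ∀ h ∈ (FO X).secs (G.U s t),
      d.τ (h * w) ∈ G.spanR (fun _ : Unit => (1 : X.functionField))
        (fun _ p q => Rg s (-2) (p - 1) ∧ Rg t (-2) (q - 1)) := by
  refine ⟨fun hw h hh => d.tau_mem_Omega s t w hw h hh, fun H => ?_⟩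
  rw [d.expand w]
  refine Submodule.sum_mem _ fun k _ => ?_
  have hk := H _ (BiP.mem_secs_of_Split S s t k _ _ (Rg_tw_self_Omega s (S.a k))
    (Rg_tw_self_Omega t (S.b k)))
  rw [mul_assoc, d.mon, BiP.mul_mem_spanR_iff] at hk
  unfold BiP.spanR at hk
  generalize d.τ (S.e k * w) = u at hk
  induction hk using Submodule.span_induction with
  | mem u hu =>
    obtain ⟨_, p, q, ⟨h1, h2⟩, rfl⟩ := hu
    refine Submodule.subset_span ⟨k, p - 1, q - 1, ⟨Rg_tw_Omega s _ _ ?_, Rg_tw_Omega t _ _ ?_⟩, ?_⟩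
    · rwa [sub_add_eq_add_sub]
    · rwa [sub_add_eq_add_sub]
    · rw [d.mon_e'_Omega, sub_add_cancel, sub_add_cancel, mul_one]
  | zero => rw [zero_mul]; exact zero_mem _
  | add u v _ _ hu hv => rw [add_mul]; exact add_mem hu hv
  | smul c v _ hv => rw [smul_mul_assoc]; exact Submodule.smul_mem _ c hv

/-- the chart data of the dualizing sheaf (`smul` from `mem_NN_iff`) -/
def cf : CF G where
  N := d.NN
  smul := fun s t a g hg => by
    rw [mem_NN_iff] at hg ⊢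
    intro h hh
    have h1 : h * (G.k s t a * g) = G.k s t a * h * g := by ring
    rw [h1]
    exact hg _ fun p hp => (FO X).smul p _ _ (Reg.toK' hp a) (hh p hp)
  hB := fun s t g hg => existsB_Omega (!s) (fun l q => Rg t (- S.b l - 2) q)
    (fun l => - S.a l - 2) (fun l p => Rg s (- S.a l - 2) p) g hg
  hZ := fun s t g hg => existsZ_Omega (!t) (fun l p => Rg s (- S.a l - 2) p)
    (fun l => - S.b l - 2) (fun l q => Rg t (- S.b l - 2) q) g hg

/-- the dualizing sheaf -/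
def Om : Frac X := d.cf.frac

theorem qc_Om : QC d.Om.mod := d.cf.qc

/-- the dualizing sheaf is split -/
def splitOm : G.Split d.Om ι where
  e := d.e'
  a l := - S.a l - 2
  b l := - S.b l - 2
  indep := d.indep'
  secs s t := d.cf.secs_eq s t

end DualB

end M21.E3
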