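import Pool.Agent.H.MP_21b43d_ag.E3.G.DualMb
import Pool.Agent.H.MP_21b43d_ag.E3.G.DualMc
import Pool.Agent.H.MP_21b43d_ag.E3.G.Omega
import Pool.Agent.H.MP_21b43d_ag.E3.G.GenHom
import Pool.Agent.H.MP_21b43d_ag.E3.G.Cech

/-!
# M21, existence part, C19: duality: `H^2(M)^*` embeds into `Hom(M, Ω)`
-/

open CategoryTheory CategoryTheory.Limits CategoryTheory.Pretriangulated AlgebraicGeometry
  TopologicalSpace

noncomputable section

namespace M21.E3

variable {X : Scheme.{0}} [IsIntegral X] [CX X] {G : BiP X} {ι : Type} [Fintype ι] [DecidableEq ι]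
  {S : G.Split (FO X) ι} (d : DualB S)

namespace DualB

/-- The morphism `M → Ω` of a linear form (`exists_hom_frac`). -/
theorem exists_hom {M : X.Modules} (hM : QC M) {u : Module.Dual ℂ Γ(M, G.UU)} (hu : u ∈ G.VV M) :
    ∃ φ : M ⟶ d.Om.mod, ∀ y : Γ(M, G.UU), d.Om.val G.pt_mem (φ.app _ y) = d.kap u y := by
  refine exists_hom_frac G hM d.Om (d.kap u) (d.kap_add hM hu) (d.kap_smul hM hu) ?_
  intro s t y p hp
  have h1 : d.kap u (res M (G.UU_le s t) y) ∈ d.cf.frac.secs (G.U s t) := by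
    rw [d.cf.secs_eq s t]
    exact d.kap_mem hM hu s t y
  exact h1 p hp

/-- linear and injective -/
theorem exists_linear {M : X.Modules} (hM : QC M) :
    ∃ D : G.VV M →ₗ[ℂ] (M ⟶ d.Om.mod), Function.Injective D := by
  choose φ hφ using fun u : G.VV M => d.exists_hom hM u.2
  refine ⟨{ toFun := φ, map_add' := ?_, map_smul' := ?_ }, ?_⟩
  · intro u v
    apply hom_ext_UU G hM
    intro y
    have h1 : (φ u + φ v).app G.UU y = (φ u).app G.UU y + (φ v).app G.UU y := by
      rw [Scheme.Modules.Hom.add_app]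
      rfl
    rw [h1, d.Om.val_add, hφ, hφ, hφ]
    exact d.kap_add_left hM u.2 v.2 y
  · intro c u
    apply hom_ext_UU G hM
    intro y
    have h1 : d.Om.val G.pt_mem ((c • φ u).app G.UU y)
        = c • d.Om.val G.pt_mem ((φ u).app G.UU y) := by
      rw [smul_app_CX]
      exact (d.Om.valL G.pt_mem).map_smul c _
    rw [RingHom.id_apply]
    refine Eq.trans ?_ h1.symm
    rw [hφ, hφ]
    exact d.kap_smul_left c u.1 y
  · rw [injective_iff_map_eq_zero]
    intro u h0
    apply Subtype.ext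
    apply LinearMap.ext
    intro y
    have h1 : φ u = 0 := h0
    have h2 := hφ u y
    rw [h1] at h2
    have h3 : d.kap u.1 y = 0 := h2.symm
    exact d.eq_zero_of_kap hM u.2 y h3

/-- `H^2(M)^* → VV M` (composition with `exists_H2` for `m = n = 0`; it is injective as
`Γ(M, UU) → H^2` is surjective). -/
theorem exists_dual_inj {M : X.Modules} (hM : QC M) :
    ∃ D : Module.Dual ℂ (G.LL 0 0 ⟶ (SS M)⟦(2 : ℤ)⟧) →ₗ[ℂ] (M ⟶ d.Om.mod),
      Function.Injective D := by
  obtain ⟨D, hD⟩ := d.exists_linear hM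
  obtain ⟨c, hc, hc'⟩ := G.exists_H2 hM 0 0
  have hB : ∀ t (x : Γ(M, G.UB t)), c (res M (G.UU_leB t) x) = 0 := by
    intro t x
    rw [hc']
    cases t
    · exact ⟨x, 0, 0, 0, by rw [res_zero, res_zero, res_zero, smul_zero, smul_zero, add_zero,
        add_zero, add_zero]⟩
    · exact ⟨0, x, 0, 0, by rw [res_zero, res_zero, res_zero, smul_zero, G.zp_zero, one_smul,
        zero_add, add_zero, add_zero]⟩
  have hZ : ∀ s (x : Γ(M, G.UZ s)), c (res M (G.UU_leZ s) x) = 0 := by
    intro s x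
    rw [hc']
    cases s
    · exact ⟨0, 0, x, 0, by rw [res_zero, res_zero, res_zero, smul_zero, smul_zero, zero_add,
        zero_add, add_zero]⟩
    · exact ⟨0, 0, 0, x, by rw [res_zero, res_zero, res_zero, smul_zero, G.bp_zero, one_smul,
        zero_add, zero_add, zero_add]⟩
  have hmem : ∀ u : Module.Dual ℂ (G.LL 0 0 ⟶ (SS M)⟦(2 : ℤ)⟧), c.dualMap u ∈ G.VV M := by
    intro u
    refine ⟨fun t x => ?_, fun s x => ?_⟩
    · rw [LinearMap.dualMap_apply, hB, map_zero]
    · rw [LinearMap.dualMap_apply, hZ, map_zero]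
  refine ⟨D ∘ₗ LinearMap.codRestrict (G.VV M) c.dualMap hmem, ?_⟩
  rw [LinearMap.coe_comp]
  apply hD.comp
  intro u v huv
  have h1 : c.dualMap u = c.dualMap v := congrArg Subtype.val huv
  exact LinearMap.dualMap_injective_of_surjective hc h1

end DualB

end M21.E3
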