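import Pool.Agent.H.MP_21b43d_ag.E3.G.DualB

/-!
# M21, existence part, C18a: the `K`-valued map of a linear form on the top Čech cohomology
-/

open CategoryTheory CategoryTheory.Limits AlgebraicGeometry TopologicalSpace

noncomputable section

namespace M21.E3

variable {X : Scheme.{0}} [IsIntegral X] [CX X] {G : BiP X} {ι : Type} [Fintype ι] [DecidableEq ι]

namespace BiP

/-- The basis elements are functions on `UU`. -/
theorem Split.exists_E (S : G.Split (FO X) ι) (l : ι) :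
    ∃ a : Γ(X, G.UU), toK G.pt_mem a = S.e l := by
  refine exists_of_reg G.pt_mem (S.e l) fun x hx => ?_
  have h1 : G.B ^ (0 : ℤ) * G.Z ^ (0 : ℤ) * S.e l ∈ (FO X).secs (G.U false false) := by
    rw [S.secs]
    exact Submodule.subset_span ⟨l, 0, 0, ⟨le_refl (0 : ℤ), le_refl (0 : ℤ)⟩, rfl⟩
  rw [zpow_zero, zpow_zero, one_mul, one_mul] at h1
  exact h1 x (G.UU_le false false hx)

/-- the function `e_l` on `UU` -/
def Split.E (S : G.Split (FO X) ι) (l : ι) : Γ(X, G.UU) := (S.exists_E l).choose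

theorem Split.toK_E (S : G.Split (FO X) ι) (l : ι) : toK G.pt_mem (S.E l) = S.e l :=
  (S.exists_E l).choose_spec

/-- the function `B^i Z^j e_l` on `UU` -/
def Split.mo (S : G.Split (FO X) ι) (l : ι) (i j : ℤ) : Γ(X, G.UU) :=
  G.bp i (inf_le_left : G.UU ≤ G.V01) * G.zp j (inf_le_right : G.UU ≤ G.W01) * S.E l

theorem Split.toK_mo (S : G.Split (FO X) ι) (l : ι) (i j : ℤ) :
    toK G.pt_mem (S.mo l i j) = G.B ^ i * G.Z ^ j * S.e l := by
  unfold Split.mo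
  rw [map_mul, map_mul, toK_bp, toK_zp, S.toK_E]

/-- Every function on `UU` is a combination of the `B^i Z^j e_l`. -/
theorem Split.span_mo (S : G.Split (FO X) ι) :
    Submodule.span ℂ (Set.range fun x : ι × ℤ × ℤ => S.mo x.1 x.2.1 x.2.2) = ⊤ := by
  rw [eq_top_iff]
  intro h _
  have h1 : toK G.pt_mem h ∈ (FO X).secs G.UU := fun p hp => ⟨G.UU, hp, h, rfl⟩
  rw [S.secs_UU (qc_FO_DualB G)] at h1
  have h2 : toK G.pt_mem h ∈ (Submodule.span ℂ
      (Set.range fun x : ι × ℤ × ℤ => S.mo x.1 x.2.1 x.2.2)).map (toKA G.pt_mem).toLinearMap := by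
    rw [Submodule.map_span, ← Set.range_comp]
    have e : (⇑(toKA G.pt_mem).toLinearMap ∘ fun x : ι × ℤ × ℤ => S.mo x.1 x.2.1 x.2.2) =
        fun x : ι × ℤ × ℤ => G.B ^ x.2.1 * G.Z ^ x.2.2 * S.e x.1 :=
      funext fun x => S.toK_mo x.1 x.2.1 x.2.2
    rw [e]
    exact h1
  obtain ⟨h', hh', he⟩ := h2
  have h3 : h' = h := toK_inj G.pt_mem he
  rwa [← h3]

variable (G) in
/-- the linear forms on `M(UU)` which vanish on the images of `M(UB_t)` and `M(UZ_s)` -/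
def VV (M : X.Modules) : Submodule ℂ (Module.Dual ℂ Γ(M, G.UU)) where
  carrier := {u | (∀ t (x : Γ(M, G.UB t)), u (res M (G.UU_leB t) x) = 0) ∧
    ∀ s (x : Γ(M, G.UZ s)), u (res M (G.UU_leZ s) x) = 0}
  add_mem' {u v} hu hv := ⟨fun t x => by
      rw [LinearMap.add_apply, hu.1, hv.1, add_zero], fun s x => by
      rw [LinearMap.add_apply, hu.2, hv.2, add_zero]⟩
  zero_mem' := ⟨fun t x => rfl, fun s x => rfl⟩
  smul_mem' c u hu := ⟨fun t x => by
      rw [LinearMap.smul_apply, hu.1, smul_zero], fun s x => by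
      rw [LinearMap.smul_apply, hu.2, smul_zero]⟩

section aux_DualMa

variable (S : G.Split (FO X) ι)

omit [Fintype ι] [DecidableEq ι] in
theorem reg_UB_DualMa (l : ι) (p q : ℤ) (t : Bool) (h : Rg t (S.b l) q) {x : X} (hx : x ∈ G.UB t) :
    Reg x (G.B ^ p * G.Z ^ q * S.e l) := by
  have h1 : G.B ^ (0 : ℤ) * G.Z ^ q * S.e l ∈ (FO X).secs (G.U false t) := by
    rw [S.secs]
    exact Submodule.subset_span ⟨l, 0, q, ⟨le_refl (0 : ℤ), h⟩, rfl⟩
  have h2 : Reg x (G.B ^ (0 : ℤ) * G.Z ^ q * S.e l) := h1 x (G.UB_le false t hx)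
  have h3 : G.B ^ p * G.Z ^ q * S.e l = G.B ^ p * (G.B ^ (0 : ℤ) * G.Z ^ q * S.e l) := by
    rw [zpow_zero, one_mul, mul_assoc]
  rw [h3]
  exact (G.reg_B p hx.1).mul h2

omit [Fintype ι] [DecidableEq ι] in
theorem reg_UZ_DualMa (l : ι) (p q : ℤ) (s : Bool) (h : Rg s (S.a l) p) {x : X} (hx : x ∈ G.UZ s) :
    Reg x (G.B ^ p * G.Z ^ q * S.e l) := by
  have h1 : G.B ^ p * G.Z ^ (0 : ℤ) * S.e l ∈ (FO X).secs (G.U s false) := by
    rw [S.secs]
    exact Submodule.subset_span ⟨l, p, 0, ⟨h, le_refl (0 : ℤ)⟩, rfl⟩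
  have h2 : Reg x (G.B ^ p * G.Z ^ (0 : ℤ) * S.e l) := h1 x (G.UZ_le s false hx)
  have h3 : G.B ^ p * G.Z ^ q * S.e l = G.Z ^ q * (G.B ^ p * G.Z ^ (0 : ℤ) * S.e l) := by
    rw [zpow_zero, mul_one]
    ring
  rw [h3]
  exact (G.reg_Z q hx.2).mul h2

theorem mo_B_DualMa {M : X.Modules} {u : Module.Dual ℂ Γ(M, G.UU)} (hu : u ∈ G.VV M)
    (s t : Bool) (l : ι) (p q : ℤ) (h : Rg t (S.b l) q) (y : Γ(M, G.U s t)) :
    u (S.mo l p q • res M (G.UU_le s t) y) = 0 := by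
  obtain ⟨a, ha⟩ := exists_of_reg (G.UU_leB t G.pt_mem) (G.B ^ p * G.Z ^ q * S.e l)
    (fun _ hx => reg_UB_DualMa S l p q t h hx)
  have ha' : resF (G.UU_leB t) a = S.mo l p q := toK_inj G.pt_mem (by rw [toK_res, ha, S.toK_mo])
  have h1 : S.mo l p q • res M (G.UU_le s t) y =
      res M (G.UU_leB t) (a • res M (G.UB_le s t) y) := by
    rw [res_smul', ha', res_res]
  rw [h1]
  exact hu.1 t _

theorem mo_Z_DualMa {M : X.Modules} {u : Module.Dual ℂ Γ(M, G.UU)} (hu : u ∈ G.VV M)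
    (s t : Bool) (l : ι) (p q : ℤ) (h : Rg s (S.a l) p) (y : Γ(M, G.U s t)) :
    u (S.mo l p q • res M (G.UU_le s t) y) = 0 := by
  obtain ⟨a, ha⟩ := exists_of_reg (G.UU_leZ s G.pt_mem) (G.B ^ p * G.Z ^ q * S.e l)
    (fun _ hx => reg_UZ_DualMa S l p q s h hx)
  have ha' : resF (G.UU_leZ s) a = S.mo l p q := toK_inj G.pt_mem (by rw [toK_res, ha, S.toK_mo])
  have h1 : S.mo l p q • res M (G.UU_le s t) y =
      res M (G.UU_leZ s) (a • res M (G.UZ_le s t) y) := by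
    rw [res_smul', ha', res_res]
  rw [h1]
  exact hu.2 s _

omit [CX X] [IsIntegral X] in
/-- Extension of a section over `UU` to the chart `U s t` after multiplication by monomials. -/
theorem exists_ext_DualMa {M : X.Modules} (hM : QC M) (s t : Bool) (y : Γ(M, G.UU)) :
    ∃ (n : ℕ) (x : Γ(M, G.U s t)), res M (G.UU_le s t) x =
      (G.bp (sg s * n) (inf_le_left : G.UU ≤ G.V01) *
        G.zp (sg t * n) (inf_le_right : G.UU ≤ G.W01)) • y := by
  obtain ⟨n, x, hx⟩ := hM.ext' (G.aff s t)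
    (G.bc s (inf_le_left : G.U s t ≤ G.V s) * G.zc t (inf_le_right : G.U s t ≤ G.W t))
    (G.UU_le s t) (G.basicOpen_bc_zc s t).symm y
  refine ⟨n, x, ?_⟩
  rw [hx]
  congr 1
  have h1 : resF (G.UU_le s t) (G.bc s (inf_le_left : G.U s t ≤ G.V s) *
      G.zc t (inf_le_right : G.U s t ≤ G.W t)) =
      G.bc s ((inf_le_left : G.UU ≤ G.V01).trans (G.V01_le s)) *
        G.zc t ((inf_le_right : G.UU ≤ G.W01).trans (G.W01_le t)) := by
    rw [← G.bc_res s (inf_le_left : G.U s t ≤ G.V s) (G.UU_le s t),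
      ← G.zc_res t (inf_le_right : G.U s t ≤ G.W t) (G.UU_le s t)]
    exact map_mul (X.presheaf.map (homOfLE (G.UU_le s t)).op).hom _ _
  rw [h1, mul_pow, G.bc_pow, G.zc_pow]

theorem range_DualMa {M : X.Modules} (hM : QC M) {u : Module.Dual ℂ Γ(M, G.UU)} (hu : u ∈ G.VV M)
    (y : Γ(M, G.UU)) (s t : Bool) :
    ∃ n : ℕ, ∀ l p q, u (S.mo l p q • y) ≠ 0 →
      ¬ Rg s (S.a l) (p - sg s * n) ∧ ¬ Rg t (S.b l) (q - sg t * n) := by
  obtain ⟨n, x, hx⟩ := exists_ext_DualMa hM s t y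
  refine ⟨n, fun l p q h => ?_⟩
  have h0 : S.mo l (p - sg s * n) (q - sg t * n) *
      (G.bp (sg s * n) (inf_le_left : G.UU ≤ G.V01) *
        G.zp (sg t * n) (inf_le_right : G.UU ≤ G.W01)) = S.mo l p q := by
    apply toK_inj G.pt_mem
    rw [map_mul, map_mul, S.toK_mo, S.toK_mo, G.toK_bp, G.toK_zp, zpow_sub₀ G.B_ne,
      zpow_sub₀ G.Z_ne]
    have e1 : G.B ^ (sg s * (n : ℤ)) ≠ 0 := zpow_ne_zero _ G.B_ne
    have e2 : G.Z ^ (sg t * (n : ℤ)) ≠ 0 := zpow_ne_zero _ G.Z_ne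
    field_simp
  have h1 : S.mo l p q • y = S.mo l (p - sg s * n) (q - sg t * n) • res M (G.UU_le s t) x := by
    rw [hx, smul_smul, h0]
  rw [h1] at h
  exact ⟨fun h2 => h (mo_Z_DualMa S hu s t l _ _ h2 x), fun h2 => h (mo_B_DualMa S hu s t l _ _ h2 x)⟩

end aux_DualMa

/-- Finite support: for `y ∈ M(UU)` there is `n` with `B^n y ∈ M(UZ_0)`, `B^{-n} y ∈ M(UZ_1)`,
`Z^n y ∈ M(UB_0)`, `Z^{-n} y ∈ M(UB_1)` (quasi-coherence), and these are stable under multiplication by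
`B^i` (`i ≥ 0`), `Z^j` (all `j`), `e_l` (after enlarging `n`) etc. -/
theorem finite_VV (S : G.Split (FO X) ι) {M : X.Modules} (hM : QC M)
    {u : Module.Dual ℂ Γ(M, G.UU)} (hu : u ∈ G.VV M) (y : Γ(M, G.UU)) :
    {x : ι × ℤ × ℤ | u (S.mo x.1 x.2.1 x.2.2 • y) ≠ 0}.Finite := by
  obtain ⟨n, hn⟩ := range_DualMa S hM hu y false false
  obtain ⟨n', hn'⟩ := range_DualMa S hM hu y true true
  refine Set.Finite.subset (Set.finite_iUnion fun l : ι => ((Set.finite_singleton l).prod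
    ((Set.finite_Ioo (S.a l - n') (n : ℤ)).prod (Set.finite_Ioo (S.b l - n') (n : ℤ))))) ?_
  rintro ⟨l, p, q⟩ hx
  obtain ⟨h1, h2⟩ := hn l p q hx
  obtain ⟨h3, h4⟩ := hn' l p q hx
  simp only [Rg, sg, Bool.false_eq_true, if_true, if_false] at h1 h2 h3 h4
  rw [Set.mem_iUnion]
  refine ⟨l, rfl, ⟨?_, ?_⟩, ⟨?_, ?_⟩⟩ <;> dsimp only <;> lia

end BiP

namespace DualB

variable {S : G.Split (FO X) ι} (d : DualB S)

/-- the `K`-valued map of a linear form: `∑ u(B^i Z^j e_l y) B^{-i} Z^{-j} f_l` -/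
def kap {M : X.Modules} (u : Module.Dual ℂ Γ(M, G.UU)) (y : Γ(M, G.UU)) : X.functionField :=
  ∑ᶠ x : ι × ℤ × ℤ, u (S.mo x.1 x.2.1 x.2.2 • y) • (G.B ^ (-x.2.1) * G.Z ^ (-x.2.2) * d.f x.1)

theorem supp_DualMa {M : X.Modules} (hM : QC M) {u : Module.Dual ℂ Γ(M, G.UU)} (hu : u ∈ G.VV M)
    (y : Γ(M, G.UU)) : (Function.support fun x : ι × ℤ × ℤ =>
      u (S.mo x.1 x.2.1 x.2.2 • y) • (G.B ^ (-x.2.1) * G.Z ^ (-x.2.2) * d.f x.1)).Finite := by
  refine (BiP.finite_VV S hM hu y).subset fun x hx => ?_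
  intro h0
  apply hx
  simp only
  rw [h0, zero_smul]

theorem kap_add {M : X.Modules} (hM : QC M) {u : Module.Dual ℂ Γ(M, G.UU)} (hu : u ∈ G.VV M)
    (y y' : Γ(M, G.UU)) : d.kap u (y + y') = d.kap u y + d.kap u y' := by
  unfold kap
  rw [← finsum_add_distrib (d.supp_DualMa hM hu y) (d.supp_DualMa hM hu y')]
  refine finsum_congr fun x => ?_
  rw [smul_add, map_add, add_smul]

theorem kap_add_left {M : X.Modules} (hM : QC M) {u v : Module.Dual ℂ Γ(M, G.UU)}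
    (hu : u ∈ G.VV M) (hv : v ∈ G.VV M) (y : Γ(M, G.UU)) :
    d.kap (u + v) y = d.kap u y + d.kap v y := by
  unfold kap
  rw [← finsum_add_distrib (d.supp_DualMa hM hu y) (d.supp_DualMa hM hv y)]
  refine finsum_congr fun x => ?_
  rw [LinearMap.add_apply, add_smul]

theorem kap_smul_left {M : X.Modules} (c : ℂ) (u : Module.Dual ℂ Γ(M, G.UU)) (y : Γ(M, G.UU)) :
    d.kap (c • u) y = c • d.kap u y := by
  unfold kap
  rw [smul_finsum]
  refine finsum_congr fun x => ?_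
  rw [LinearMap.smul_apply, smul_assoc]

end DualB

end M21.E3
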