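import Pool.Agent.H.MP_21b43d_ag.E3.G.DualMa

/-!
# M21, existence part, C18b: the `K`-valued map of a linear form, linearity over the functions
-/

open CategoryTheory CategoryTheory.Limits AlgebraicGeometry TopologicalSpace

noncomputable section

namespace M21.E3

variable {X : Scheme.{0}} [IsIntegral X] [CX X] {G : BiP X} {ι : Type} [Fintype ι] [DecidableEq ι]

namespace DualB

variable {S : G.Split (FO X) ι} (d : DualB S)

include d in
theorem nonempty_Mb : Nonempty ι := by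
  by_contra hne
  rw [not_nonempty_iff] at hne
  have h1 := d.expand 1
  rw [Fintype.sum_empty] at h1
  exact one_ne_zero h1

include d in
theorem indep_BZ_Mb : LinearIndependent ℂ (fun x : ℤ × ℤ => G.B ^ x.1 * G.Z ^ x.2) := by
  obtain ⟨l⟩ := d.nonempty_Mb
  have h1 := d.indep.comp (fun x : ℤ × ℤ => (l, x.1, x.2)) (by
    intro x y hxy
    simp only [Prod.mk.injEq, true_and] at hxy
    exact Prod.ext hxy.1 hxy.2)
  exact LinearIndependent.of_comp (LinearMap.mulRight ℂ (d.f l)) h1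

include d in
/-- the constant coefficient, extended to the function field -/
theorem exists_C_Mb : ∃ C : X.functionField →ₗ[ℂ] ℂ,
    ∀ p q : ℤ, C (G.B ^ p * G.Z ^ q) = if p = 0 ∧ q = 0 then 1 else 0 := by
  have h := d.indep_BZ_Mb
  obtain ⟨C, hC⟩ := LinearMap.exists_extend
    ((Finsupp.lapply ((0 : ℤ), (0 : ℤ))).comp (h.repr : _ →ₗ[ℂ] (ℤ × ℤ →₀ ℂ)))
  refine ⟨C, fun p q => ?_⟩
  have hm : G.B ^ p * G.Z ^ q ∈ Submodule.span ℂ
      (Set.range fun x : ℤ × ℤ => G.B ^ x.1 * G.Z ^ x.2) :=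
    Submodule.subset_span ⟨(p, q), rfl⟩
  have h1 := LinearMap.congr_fun hC ⟨_, hm⟩
  simp only [LinearMap.comp_apply, Submodule.subtype_apply, Finsupp.lapply_apply] at h1
  rw [h1]
  have h2 : h.repr ⟨_, hm⟩ = Finsupp.single (p, q) 1 := h.repr_eq_single (p, q) _ rfl
  have h3 : ((h.repr : _ →ₗ[ℂ] (ℤ × ℤ →₀ ℂ)) ⟨_, hm⟩) = Finsupp.single (p, q) 1 := h2
  rw [h3, Finsupp.single_apply]
  simp only [Prod.mk.injEq]

theorem tau_mo_Mb (k l : ι) (i j p q : ℤ) :
    d.τ (G.B ^ i * G.Z ^ j * S.e k * (G.B ^ (-p) * G.Z ^ (-q) * d.f l))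
      = G.B ^ (i - p) * G.Z ^ (j - q) * (if k = l then 1 else 0) := by
  have hB := G.B_ne
  have hZ := G.Z_ne
  have h1 : G.B ^ i * G.Z ^ j * S.e k * (G.B ^ (-p) * G.Z ^ (-q) * d.f l)
      = G.B ^ (i - p) * G.Z ^ (j - q) * (S.e k * d.f l) := by
    rw [sub_eq_add_neg, sub_eq_add_neg, zpow_add₀ hB, zpow_add₀ hZ]
    ring
  rw [h1, d.mon, d.dual]

theorem kap_eq_Mb {M : X.Modules} (hM : QC M) {u : Module.Dual ℂ Γ(M, G.UU)} (hu : u ∈ G.VV M)
    (y : Γ(M, G.UU)) : d.kap u y = ∑ x ∈ (BiP.finite_VV S hM hu y).toFinset,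
      u (S.mo x.1 x.2.1 x.2.2 • y) • (G.B ^ (-x.2.1) * G.Z ^ (-x.2.2) * d.f x.1) := by
  unfold kap
  apply finsum_eq_sum_of_support_subset
  intro x hx
  rw [Finset.mem_coe, Set.Finite.mem_toFinset]
  intro h0
  apply hx
  simp only
  rw [h0, zero_smul]

theorem tau_kap_Mb {M : X.Modules} (hM : QC M) {u : Module.Dual ℂ Γ(M, G.UU)} (hu : u ∈ G.VV M)
    (y : Γ(M, G.UU)) (k : ι) (i j : ℤ) :
    d.τ (toK G.pt_mem (S.mo k i j) * d.kap u y) = ∑ x ∈ (BiP.finite_VV S hM hu y).toFinset,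
      u (S.mo x.1 x.2.1 x.2.2 • y) •
        (G.B ^ (i - x.2.1) * G.Z ^ (j - x.2.2) * (if k = x.1 then 1 else 0)) := by
  rw [d.kap_eq_Mb hM hu, BiP.Split.toK_mo, Finset.mul_sum, map_sum]
  apply Finset.sum_congr rfl
  intro x _
  rw [mul_smul_comm, map_smul, d.tau_mo_Mb]

/-- the functions act on the values of `kap` with values of `τ` in the span of the monomials -/
theorem tau_mem_Mb {M : X.Modules} (hM : QC M) {u : Module.Dual ℂ Γ(M, G.UU)} (hu : u ∈ G.VV M)
    (y : Γ(M, G.UU)) (h : Γ(X, G.UU)) :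
    d.τ (toK G.pt_mem h * d.kap u y) ∈ Submodule.span ℂ
      (Set.range fun x : ℤ × ℤ => G.B ^ x.1 * G.Z ^ x.2) := by
  have hh : h ∈ Submodule.span ℂ (Set.range fun x : ι × ℤ × ℤ => S.mo x.1 x.2.1 x.2.2) := by
    rw [S.span_mo]; trivial
  refine Submodule.span_induction ?_ ?_ ?_ ?_ hh
  · rintro _ ⟨⟨k, i, j⟩, rfl⟩
    rw [d.tau_kap_Mb hM hu]
    apply Submodule.sum_mem
    intro x _
    apply Submodule.smul_mem
    by_cases hk : k = x.1
    · rw [if_pos hk, mul_one]
      exact Submodule.subset_span ⟨(i - x.2.1, j - x.2.2), rfl⟩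
    · rw [if_neg hk, mul_zero]
      exact Submodule.zero_mem _
  · rw [map_zero, zero_mul, map_zero]
    exact Submodule.zero_mem _
  · intro a b _ _ ha hb
    rw [map_add, add_mul, map_add]
    exact Submodule.add_mem _ ha hb
  · intro c a _ ha
    have h1 : toK G.pt_mem (c • a) = c • toK G.pt_mem a := map_smul (toKA G.pt_mem) c a
    rw [h1, smul_mul_assoc, map_smul]
    exact Submodule.smul_mem _ _ ha

theorem C_kap_Mb {M : X.Modules} (hM : QC M) {u : Module.Dual ℂ Γ(M, G.UU)} (hu : u ∈ G.VV M)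
    (y : Γ(M, G.UU)) (h : Γ(X, G.UU)) {C : X.functionField →ₗ[ℂ] ℂ}
    (hC : ∀ p q : ℤ, C (G.B ^ p * G.Z ^ q) = if p = 0 ∧ q = 0 then 1 else 0) :
    C (d.τ (toK G.pt_mem h * d.kap u y)) = u (h • y) := by
  have hh : h ∈ Submodule.span ℂ (Set.range fun x : ι × ℤ × ℤ => S.mo x.1 x.2.1 x.2.2) := by
    rw [S.span_mo]; trivial
  refine Submodule.span_induction ?_ ?_ ?_ ?_ hh
  · rintro _ ⟨⟨k, i, j⟩, rfl⟩
    simp only
    rw [d.tau_kap_Mb hM hu, map_sum]
    have h1 : ∀ x ∈ (BiP.finite_VV S hM hu y).toFinset,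
        C (u (S.mo x.1 x.2.1 x.2.2 • y) •
          (G.B ^ (i - x.2.1) * G.Z ^ (j - x.2.2) * (if k = x.1 then 1 else 0)))
        = if x = (k, i, j) then u (S.mo k i j • y) else 0 := by
      intro x _
      rw [map_smul]
      by_cases hx : x = (k, i, j)
      · subst hx
        rw [if_pos rfl, if_pos rfl, mul_one, sub_self, sub_self, hC, if_pos ⟨rfl, rfl⟩, smul_eq_mul,
          mul_one]
      · rw [if_neg hx]
        by_cases hk : k = x.1
        · rw [if_pos hk, mul_one, hC, if_neg, smul_zero]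
          rintro ⟨h2, h3⟩
          apply hx
          exact Prod.ext hk.symm (Prod.ext (by linarith) (by linarith))
        · rw [if_neg hk, mul_zero, map_zero, smul_zero]
    rw [Finset.sum_congr rfl h1, Finset.sum_ite_eq']
    split_ifs with h2
    · rfl
    · rw [Set.Finite.mem_toFinset] at h2
      exact (not_not.1 h2).symm
  · rw [map_zero, zero_mul, map_zero, map_zero, zero_smul, map_zero]
  · intro a b _ _ ha hb
    rw [map_add, add_mul, map_add, map_add, add_smul, map_add, ha, hb]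
  · intro c a _ ha
    have h1 : toK G.pt_mem (c • a) = c • toK G.pt_mem a := map_smul (toKA G.pt_mem) c a
    rw [h1, smul_mul_assoc, map_smul, map_smul, ha, smul_assoc]
    exact (map_smul u c (a • y)).symm

theorem eq_zero_Mb {C : X.functionField →ₗ[ℂ] ℂ}
    (hC : ∀ p q : ℤ, C (G.B ^ p * G.Z ^ q) = if p = 0 ∧ q = 0 then 1 else 0)
    (v : X.functionField)
    (hv : v ∈ Submodule.span ℂ (Set.range fun x : ℤ × ℤ => G.B ^ x.1 * G.Z ^ x.2))
    (h0 : ∀ i j : ℤ, C (G.B ^ i * G.Z ^ j * v) = 0) : v = 0 := by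
  have hB := G.B_ne
  have hZ := G.Z_ne
  obtain ⟨c, rfl⟩ := (Finsupp.mem_span_range_iff_exists_finsupp).1 hv
  have hc : c = 0 := by
    ext ⟨p, q⟩
    have h1 := h0 (-p) (-q)
    rw [Finsupp.sum, Finset.mul_sum, map_sum] at h1
    have h2 : ∀ x ∈ c.support, C (G.B ^ (-p) * G.Z ^ (-q) * (c x • (G.B ^ x.1 * G.Z ^ x.2)))
        = if x = (p, q) then c (p, q) else 0 := by
      intro x _
      have h3 : G.B ^ (-p) * G.Z ^ (-q) * (c x • (G.B ^ x.1 * G.Z ^ x.2))
          = c x • (G.B ^ (x.1 - p) * G.Z ^ (x.2 - q)) := by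
        rw [mul_smul_comm, sub_eq_add_neg, sub_eq_add_neg, zpow_add₀ hB, zpow_add₀ hZ]
        congr 1
        ring
      rw [h3, map_smul, hC]
      by_cases hx : x = (p, q)
      · subst hx
        simp
      · rw [if_neg hx, if_neg, smul_zero]
        rintro ⟨h4, h5⟩
        exact hx (Prod.ext (by simp only; linarith) (by simp only; linarith))
    rw [Finset.sum_congr rfl h2, Finset.sum_ite_eq'] at h1
    split_ifs at h1 with h4
    · exact h1
    · exact Finsupp.notMem_support_iff.1 h4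
  rw [hc, Finsupp.sum_zero_index]

/-- Linearity over `Γ(X, UU)`. For `a = B^i Z^j` it is a shift of the sum. For general `a`: let
`w = kap u (a y) - a kap u y`. For `h ∈ Γ(X, UU)` let `r(h, w) ∈ ℂ` be the constant coefficient of
`τ(h w) ∈ ℂ[B^±1, Z^±1]` (`dual`, `mon`). For `w = kap u y` one gets `r(h, kap u y) = u(h y)` (check it
for `h = B^i Z^j e_l`, `Split.span_mo`), so `r(h, w) = u(h a y) - r(h a, kap u y) = 0` for all `h`, which
means that all coefficients of `w` with respect to the `B^p Z^q f_l` vanish. -/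
theorem kap_smul {M : X.Modules} (hM : QC M) {u : Module.Dual ℂ Γ(M, G.UU)} (hu : u ∈ G.VV M)
    (a : Γ(X, G.UU)) (y : Γ(M, G.UU)) : d.kap u (a • y) = toK G.pt_mem a * d.kap u y := by
  obtain ⟨C, hC⟩ := d.exists_C_Mb
  rw [← sub_eq_zero]
  rw [d.expand (d.kap u (a • y) - toK G.pt_mem a * d.kap u y)]
  apply Finset.sum_eq_zero
  intro l _
  have h1 : d.τ (S.e l * (d.kap u (a • y) - toK G.pt_mem a * d.kap u y)) = 0 := by
    apply eq_zero_Mb hC
    · have h2 : S.e l * (d.kap u (a • y) - toK G.pt_mem a * d.kap u y)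
          = toK G.pt_mem (S.E l) * d.kap u (a • y) - toK G.pt_mem (S.E l * a) * d.kap u y := by
        rw [map_mul, S.toK_E]
        ring
      rw [h2, map_sub]
      exact Submodule.sub_mem _ (d.tau_mem_Mb hM hu _ _) (d.tau_mem_Mb hM hu _ _)
    · intro i j
      rw [← d.mon]
      have h3 : G.B ^ i * G.Z ^ j * (S.e l * (d.kap u (a • y) - toK G.pt_mem a * d.kap u y))
          = toK G.pt_mem (S.mo l i j) * d.kap u (a • y)
            - toK G.pt_mem (S.mo l i j * a) * d.kap u y := by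
        rw [map_mul, S.toK_mo]
        ring
      rw [h3, map_sub, map_sub, d.C_kap_Mb hM hu _ _ hC, d.C_kap_Mb hM hu _ _ hC, mul_smul, sub_self]
  rw [h1, zero_mul]

/-- If `kap u y = 0` then `u y = 0`: the coefficients `u(B^i Z^j e_l y)` all vanish and
`1` is a combination of the `B^i Z^j e_l`. -/
theorem eq_zero_of_kap {M : X.Modules} (hM : QC M) {u : Module.Dual ℂ Γ(M, G.UU)}
    (hu : u ∈ G.VV M) (y : Γ(M, G.UU)) (h : d.kap u y = 0) : u y = 0 := by
  obtain ⟨C, hC⟩ := d.exists_C_Mb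
  have h1 := d.C_kap_Mb hM hu y 1 hC
  rw [h, mul_zero, map_zero, map_zero, one_smul] at h1
  exact h1.symm

end DualB

end M21.E3
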