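import Pool.Agent.H.MP_21b43d_ag.E3.G.Ample

/-!
# M21, existence part, C14a: torsion-free modules over domains, bounded poles
-/

open CategoryTheory CategoryTheory.Limits AlgebraicGeometry TopologicalSpace

noncomputable section

namespace M21.E3

variable {X : Scheme.{0}} [IsIntegral X] [CX X]

namespace BiP

variable {G : BiP X}

/-- A finitely generated torsion-free module over a domain embeds into a finite dimensional vector
space over a field containing the domain. -/
theorem exists_embed_alg {R K M : Type} [CommRing R] [IsDomain R] [Field K] [Algebra R K]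
    [FaithfulSMul R K] [AddCommGroup M] [Module R M] [Module.Finite R M]
    (htf : ∀ (a : R) (y : M), a ≠ 0 → a • y = 0 → y = 0) :
    ∃ (n : ℕ) (κ : Fin n → (M →ₗ[R] K)), ∀ y, (∀ i, κ i y = 0) → y = 0 := by
  have hinj : Function.Injective (algebraMap R K) := FaithfulSMul.algebraMap_injective R K
  let L : Type := FractionRing R
  let V : Type := TensorProduct R L M
  let b := Module.finBasis L V
  let φ : M →ₗ[R] V := TensorProduct.mk R L M 1
  have : IsLocalizedModule (nonZeroDivisors R) φ :=
    (isLocalizedModule_iff_isBaseChange (nonZeroDivisors R) L φ).mpr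
      (TensorProduct.isBaseChange R M L)
  let g : L →ₐ[R] K := IsFractionRing.liftAlgHom (g := Algebra.ofId R K) hinj
  refine ⟨_, fun i => g.toLinearMap ∘ₗ ((b.coord i).restrictScalars R) ∘ₗ φ, fun y hy => ?_⟩
  have h1 : φ y = 0 := by
    apply b.ext_elem
    intro i
    have h2 : g (b.repr (φ y) i) = 0 := hy i
    rw [map_zero, Finsupp.zero_apply]
    exact (map_eq_zero_iff g g.toRingHom.injective).mp h2
  obtain ⟨c, hc⟩ := (IsLocalizedModule.eq_zero_iff (nonZeroDivisors R) φ).mp h1
  exact htf c.1 y (nonZeroDivisors.ne_zero c.2) hc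

omit [CX X] in
/-- A function on the chart `U 0 0` is a section of `O(k, k)` for large `k`. -/
theorem exists_k_EmbA (a : Γ(X, G.U false false)) :
    ∃ k0 : ℤ, ∀ k, k0 ≤ k → ∀ s t, ∀ p ∈ G.U s t,
      (G.OF k k).mem p (toK (G.pt_mem_U false false) a) := by
  obtain ⟨k0, hk⟩ := G.exists_ext_Ample (QC.of_isQuasicoherent _ (isCoh_unit X).qcoh) false false
    (show Γ(unitMod X, G.U false false) from a)
  refine ⟨k0, fun k hk0 => ?_⟩
  obtain ⟨k, rfl⟩ := Int.eq_ofNat_of_zero_le ((Int.natCast_nonneg k0).trans hk0)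
  have hk1 : k0 ≤ k := by exact_mod_cast hk0
  obtain ⟨x10, x01, x11, e1, e2, e3, e4⟩ := hk k k hk1 hk1
  have f1 : resF (G.UB_le true false) (show Γ(X, G.U true false) from x10) =
      G.bc true ((inf_le_left : G.UB false ≤ G.V01).trans (G.V01_le true)) ^ k *
        resF (G.UB_le false false) a := e1
  have f2 : resF (G.UB_le true true) (show Γ(X, G.U true true) from x11) =
      G.bc true ((inf_le_left : G.UB true ≤ G.V01).trans (G.V01_le true)) ^ k *
        resF (G.UB_le false true) (show Γ(X, G.U false true) from x01) := e2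
  have f3 : resF (G.UZ_le false true) (show Γ(X, G.U false true) from x01) =
      G.zc true ((inf_le_right : G.UZ false ≤ G.W01).trans (G.W01_le true)) ^ k *
        resF (G.UZ_le false false) a := e3
  have hB : ∀ t, G.pt ∈ G.UB t := fun t => ⟨G.pt_mem.1, G.W01_le t G.pt_mem.2⟩
  have hZ : ∀ s, G.pt ∈ G.UZ s := fun s => ⟨G.V01_le s G.pt_mem.1, G.pt_mem.2⟩
  have g1 := congrArg (toK (hB false)) f1
  have g2 := congrArg (toK (hB true)) f2
  have g3 := congrArg (toK (hZ false)) f3
  rw [map_mul, map_pow, toK_res, toK_res, toK_bc] at g1 g2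
  rw [map_mul, map_pow, toK_res, toK_res, toK_zc] at g3
  have s1 : sg true = -1 := rfl
  rw [s1, zpow_neg_one, inv_pow] at g1 g2 g3
  intro s t p hp
  rw [OF_mem_iff _ _ _ hp]
  cases s <;> cases t
  · have h : toK (G.pt_mem_U false false) a * G.B ^ (-tw false (k : ℤ)) *
        G.Z ^ (-tw false (k : ℤ)) = toK (G.pt_mem_U false false) a := by
      simp [tw]
    rw [h]
    exact Reg.toK' hp a
  · have h : toK (G.pt_mem_U false false) a * G.B ^ (-tw false (k : ℤ)) *
        G.Z ^ (-tw true (k : ℤ)) = toK hp (show Γ(X, G.U false true) from x01) := by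
      refine Eq.trans ?_ g3.symm
      simp only [tw, if_true, Bool.false_eq_true, if_false, neg_zero, zpow_zero, mul_one,
        zpow_neg, zpow_natCast]
      exact mul_comm _ _
    rw [h]
    exact Reg.toK' hp _
  · have h : toK (G.pt_mem_U false false) a * G.B ^ (-tw true (k : ℤ)) *
        G.Z ^ (-tw false (k : ℤ)) = toK hp (show Γ(X, G.U true false) from x10) := by
      refine Eq.trans ?_ g1.symm
      simp only [tw, if_true, Bool.false_eq_true, if_false, neg_zero, zpow_zero, mul_one,
        zpow_neg, zpow_natCast]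
      exact mul_comm _ _
    rw [h]
    exact Reg.toK' hp _
  · have h : toK (G.pt_mem_U false false) a * G.B ^ (-tw true (k : ℤ)) *
        G.Z ^ (-tw true (k : ℤ)) = toK hp (show Γ(X, G.U true true) from x11) := by
      refine Eq.trans ?_ g2.symm
      have g3' : toK (G.UB_le false true (hB true)) (show Γ(X, G.U false true) from x01) =
          (G.Z ^ k)⁻¹ * toK (G.pt_mem_U false false) a := g3
      rw [g3']
      simp only [tw, if_true, zpow_neg, zpow_natCast]
      ring
    rw [h]
    exact Reg.toK' hp _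

/-- Bounded poles: for a coherent `M` and an additive `Γ(X, UU)`-linear `κ : M(UU) → K` there are `c ≠ 0` in
`K` and `k` such that `c κ` maps `M(U s t)` to the sections of `O(k, k)` over `U s t`. Proof:
`M(U 0 0)` is finitely generated, so `c κ(M(U 0 0)) ⊆ O(U 0 0)` for some `c ≠ 0`. For a
generator `y` of `M(U s t)`, `c κ(y)` is `B^i Z^j` times an element of `O(U 0 0)` if both
`s = t = 1`, `B^i` times an element of `O(U 0 0)` for `(1, 0)`, `Z^j` times an element of
`O(U 0 0)` for `(0, 1)`; now `O(U 0 0) ⊆ O(UB 0) = ⋃ B^k O(U 1 0)` etc. Larger `k` are allowed. -/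
theorem exists_bounded {M : X.Modules} (hM : IsCoh M)
    (κ : Γ(M, G.UU) → X.functionField) (hadd : ∀ y y', κ (y + y') = κ y + κ y')
    (hsmul : ∀ (a : Γ(X, G.UU)) y, κ (a • y) = toK G.pt_mem a * κ y) :
    ∃ (c : X.functionField) (k0 : ℤ), c ≠ 0 ∧ ∀ k, k0 ≤ k → ∀ (s t : Bool) (y : Γ(M, G.U s t)),
      ∀ p ∈ G.U s t, (G.OF k k).mem p (c * κ (res M (G.UU_le s t) y)) := by
  have hfin : ∀ s t, ∃ T : Finset Γ(M, G.U s t),
      Submodule.span Γ(X, G.U s t) (T : Set Γ(M, G.U s t)) = ⊤ := fun s t =>
    Submodule.fg_def.mp (hM.finite _ (G.aff s t)).fg_top |>.elim fun T hT =>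
      ⟨hT.1.toFinset, by rw [Set.Finite.coe_toFinset]; exact hT.2⟩
  choose T hT using hfin
  let J := Σ st : Bool × Bool, T st.1 st.2
  let v : J → X.functionField := fun y => κ (res M (G.UU_le y.1.1 y.1.2) y.2.1)
  -- common denominators
  have : Nonempty (G.U false false) := ⟨⟨G.pt, G.pt_mem_U false false⟩⟩
  have := functionField_isFractionRing_of_isAffineOpen X (G.U false false) (G.aff false false)
  obtain ⟨b, hb⟩ := IsLocalization.exist_integer_multiples_of_finite
    (nonZeroDivisors Γ(X, G.U false false)) v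
  have hb0 : toK (G.pt_mem_U false false) b.1 ≠ 0 := fun h0 =>
    nonZeroDivisors.ne_zero b.2 (toK_inj (G.pt_mem_U false false) (by rw [h0, map_zero]))
  have hb1 : ∀ j : J, ∃ a : Γ(X, G.U false false),
      toK (G.pt_mem_U false false) a = toK (G.pt_mem_U false false) b.1 * v j := fun j => by
    obtain ⟨a, ha⟩ := hb j
    refine ⟨a, ?_⟩
    rw [Algebra.smul_def] at ha
    exact ha
  choose a ha using hb1
  choose k1 hk1 using fun j : J => exists_k_EmbA (a j)
  obtain ⟨k0, hk0⟩ := (Set.finite_range k1).bddAbove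
  refine ⟨_, k0, hb0, fun k hk s t y p hp => ?_⟩
  have hy : y ∈ Submodule.span Γ(X, G.U s t) (T s t : Set Γ(M, G.U s t)) := by
    rw [hT s t]; trivial
  have hκ0 : κ 0 = 0 := by
    have := hsmul 0 0
    rwa [zero_smul, map_zero, zero_mul] at this
  induction hy using Submodule.span_induction with
  | mem x hx =>
    have h1 := hk1 ⟨(s, t), ⟨x, hx⟩⟩ k ((hk0 ⟨_, rfl⟩).trans hk) s t p hp
    rw [ha] at h1
    exact h1
  | zero => rw [res_zero, hκ0, mul_zero]; exact Frac.zero _ p
  | add x y _ _ hx hy => rw [res_add, hadd, mul_add]; exact Frac.add _ p _ _ hx hy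
  | smul r x _ hx =>
    have h1 : κ (res M (G.UU_le s t) (r • x)) = toK hp r * κ (res M (G.UU_le s t) x) := by
      rw [res_smul, hsmul]
      congr 1
      exact toK_res (G.UU_le s t) G.pt_mem r
    rw [h1, mul_left_comm]
    exact Frac.smul _ p _ _ (Reg.toK' hp r) hx

end BiP

end M21.E3
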