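import Pool.Agent.H.MP_21b43d_ag.E3.G.Rkg
import Pool.Agent.H.MP_21b43d_ag.E3.G.GenHom
import Pool.Agent.H.MP_21b43d_ag.E3.G.EmbA

/-!
# M21, existence part, C14b: torsion-free sheaves embed into sums of copies of `O(k, k)`
-/

open CategoryTheory CategoryTheory.Limits AlgebraicGeometry TopologicalSpace

noncomputable section

namespace M21.E3

variable {X : Scheme.{0}} [IsIntegral X] [CX X]

namespace BiP

variable {G : BiP X} {ι : Type}

omit [CX X] in
/-- (aux) the functions `bc * zc` on the charts are not zero. -/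
theorem bczc_ne_Embed (G : BiP X) (s t : Bool) :
    G.bc s (inf_le_left : G.U s t ≤ G.V s) * G.zc t (inf_le_right : G.U s t ≤ G.W t) ≠ 0 := by
  intro h
  have h1 := congrArg (toK (G.pt_mem_U s t)) h
  rw [map_mul, map_zero, G.toK_bc, G.toK_zc] at h1
  exact mul_ne_zero (zpow_ne_zero _ G.B_ne) (zpow_ne_zero _ G.Z_ne) h1

variable [IsLocallyNoetherian X] [Fintype ι]

/-- Torsion-free objects have torsion-free sections: if `a y = 0`, `a ≠ 0`, `y ∈ M(U s t)`, then a morphism
`O(-m,-n) → M` with value `y` on the generator (`exists_hom_val`) has nonzero kernel (it contains `a gen`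
locally), so its image has rank `0` (`Split.rk1` for `O(-m,-n)`), so it is zero. -/
theorem torsionfree_sections (S : G.Split (FO X) ι) {M : X.Modules} (hM : (rdx S).Tf M)
    (s t : Bool) (a : Γ(X, G.U s t)) (y : Γ(M, G.U s t)) (ha : a ≠ 0) (h : a • y = 0) : y = 0 := by
  have hW := wserre_isCoh X
  have hMc : IsCoh M := hM.1
  obtain ⟨k, hk⟩ := G.exists_hom_val hMc.qc s t y
  obtain ⟨φ, hφ⟩ := hk k k le_rfl le_rfl
  have hO : IsCoh (G.OO (-k) (-k)) := isCoh_OO G _ _
  obtain ⟨T, -, -⟩ := S.exists_OF (G := G) (-k) (-k)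
  have hrk : Rk1 (rdx S) (G.OO (-k) (-k)) := Split.rk1 S T hO.qc
  have hI : IsCoh (Abelian.image φ) := W_im_Rk1b hW φ hO hMc
  have hK : IsCoh (kernel φ) := hW.kernel φ hO hMc
  have hKz : ¬ IsZero (kernel φ) := by
    intro hz
    have hm : Mono φ := Preadditive.mono_of_kernel_zero (hz.eq_of_src _ _)
    have h1 : φ.app _ (a • G.gen k k s t) = φ.app (G.U s t) 0 := by
      rw [Scheme.Modules.Hom.app_smul, hφ, h, app_zero]
    have h2 := injective_of_mono φ (G.U s t) h1
    have h3 : toK (G.pt_mem_U s t) a * (G.B ^ (-tw s k) * G.Z ^ (-tw t k)) = 0 :=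
      congrArg ((G.OF (-k) (-k)).val (G.pt_mem_U s t)) h2
    exact mul_ne_zero (toK_ne_zero_GenHom (G.pt_mem_U s t) ha)
      (mul_ne_zero (zpow_ne_zero _ G.B_ne) (zpow_ne_zero _ G.Z_ne)) h3
  have h5 := ((rdx S).add _ (se_im_Rk1b φ) hK hO hI).1
  dsimp only at h5
  have h6 := hrk.sub _ (kernel.ι φ) inferInstance hK hKz
  have h7 : (rdx S).r (Abelian.image φ) = 0 := by omega
  have h8 : IsZero (Abelian.image φ) := hM.2 _ (Abelian.image.ι φ) inferInstance hI h7
  have h9 : φ = 0 := by
    rw [← Abelian.image.fac φ, h8.eq_of_src (Abelian.image.ι φ) 0, comp_zero]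
  rw [← hφ, h9]
  rfl

/-- The same over `UU` (sections over `UU` are `(B Z)^{-n}` times sections over `U 0 0`); and the
restriction from the charts to `UU` is injective. -/
theorem torsionfree_UU (S : G.Split (FO X) ι) {M : X.Modules} (hM : (rdx S).Tf M)
    (a : Γ(X, G.UU)) (y : Γ(M, G.UU)) (ha : a ≠ 0) (h : a • y = 0) : y = 0 := by
  have hMc : IsCoh M := hM.1
  set f : Γ(X, G.U false false) := G.bc false (inf_le_left : G.U false false ≤ G.V false) *
    G.zc false (inf_le_right : G.U false false ≤ G.W false) with hf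
  have hf0 : f ≠ 0 := G.bczc_ne_Embed false false
  have hbo : G.UU = X.basicOpen f := (G.basicOpen_bc_zc false false).symm
  obtain ⟨n, y', hy'⟩ := hMc.qc.ext' (G.aff false false) f (G.UU_le false false) hbo y
  obtain ⟨k, a', ha'⟩ := (QC.of_isQuasicoherent _ (isCoh_unit X).qcoh).ext'
    (G.aff false false) f (G.UU_le false false) hbo (show Γ(unitMod X, G.UU) from a)
  have ha'' : resF (G.UU_le false false) (show Γ(X, G.U false false) from a') =
      resF (G.UU_le false false) f ^ k * a := ha'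
  have hu : IsUnit (resF (G.UU_le false false) f) := by
    have h1 : ∀ {W : X.Opens} (hW : W = X.basicOpen f) (hle : W ≤ G.U false false),
        IsUnit (resF hle f) := by
      intro W hW hle
      subst hW
      exact X.toRingedSpace.isUnit_res_basicOpen f
    exact h1 hbo _
  have h1 : res M (G.UU_le false false) ((show Γ(X, G.U false false) from a') • y') = 0 := by
    rw [res_smul_GenHom, hy', ha'', smul_smul, mul_comm, ← mul_assoc, mul_smul, h, smul_zero]
  obtain ⟨l, hl⟩ := hMc.qc.tors' (G.aff false false) f (G.UU_le false false) hbo _ h1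
  rw [smul_smul] at hl
  have ha0 : (show Γ(X, G.U false false) from a') ≠ 0 := by
    intro h0
    rw [h0] at ha''
    have h2 := congrArg (toK G.pt_mem) ha''
    rw [toK_res, map_zero, map_mul, map_pow] at h2
    refine mul_ne_zero (pow_ne_zero k ?_) (toK_ne_zero_GenHom G.pt_mem ha) h2.symm
    rw [toK_res]
    exact toK_ne_zero_GenHom _ hf0
  have h3 : f ^ l * (show Γ(X, G.U false false) from a') ≠ 0 :=
    mul_ne_zero_GenHom (G.pt_mem_U false false)
      (pow_ne_zero_GenHom (G.pt_mem_U false false) hf0 l) ha0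
  have h4 := torsionfree_sections S hM false false _ y' h3 hl
  rw [h4, res_zero] at hy'
  have h5 : IsUnit (resF (G.UU_le false false) f ^ n) := hu.pow n
  exact (h5.smul_eq_zero).1 hy'.symm

theorem res_UU_injective (S : G.Split (FO X) ι) {M : X.Modules} (hM : (rdx S).Tf M) (s t : Bool) :
    Function.Injective (res M (G.UU_le s t)) := by
  have hMc : IsCoh M := hM.1
  intro y y' hyy
  have h1 : res M (G.UU_le s t) (y - y') = 0 := by
    rw [res_sub, hyy, sub_self]
  obtain ⟨n, hn⟩ := hMc.qc.tors' (G.aff s t) _ (G.UU_le s t) (G.basicOpen_bc_zc s t).symm _ h1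
  have h2 := torsionfree_sections S hM s t _ _
    (pow_ne_zero_GenHom (G.pt_mem_U s t) (G.bczc_ne_Embed s t) n) hn
  exact sub_eq_zero.1 h2

/-- Torsion-free sheaves embed into sums of copies of `O(k, k)`. -/
theorem exists_embed (S : G.Split (FO X) ι) {M : X.Modules} (hM : (rdx S).Tf M) :
    ∃ (k : ℤ) (n : ℕ) (j : M ⟶ (⨁ (fun _ : Fin n => G.OO k k))), Mono j := by
  have hW := wserre_isCoh X
  have hMc : IsCoh M := hM.1
  let _ : Algebra Γ(X, G.UU) X.functionField := (toK G.pt_mem).toAlgebra
  have hfs : FaithfulSMul Γ(X, G.UU) X.functionField :=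
    (faithfulSMul_iff_algebraMap_injective _ _).2 (toK_inj G.pt_mem)
  have hne : Nonempty G.UU := ⟨⟨G.pt, G.pt_mem⟩⟩
  have hfin : Module.Finite Γ(X, G.UU) Γ(M, G.UU) := hMc.finite _ G.aff_UU
  obtain ⟨n, κ, hκ⟩ := exists_embed_alg (R := Γ(X, G.UU)) (K := X.functionField)
    (M := Γ(M, G.UU)) (fun a y ha h => torsionfree_UU S hM a y ha h)
  choose c k0 hc0 hk0 using fun i : Fin n => exists_bounded hMc (fun y => κ i y)
    (fun y y' => map_add _ _ _) (fun a y => by
      rw [map_smul, Algebra.smul_def]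
      rfl)
  obtain ⟨k, hk⟩ := (Set.finite_range k0).bddAbove
  have hk' : ∀ i, k0 i ≤ k := fun i => hk ⟨i, rfl⟩
  choose φ hφ using fun i : Fin n => exists_hom_frac G hMc.qc (G.OF k k)
    (fun y => c i * κ i y) (fun y y' => by rw [map_add, mul_add])
    (fun a y => by
      rw [map_smul, Algebra.smul_def, mul_left_comm]
      rfl)
    (fun s t y p hp => hk0 i k (hk' i) s t y p hp)
  refine ⟨k, n, biproduct.lift φ, ?_⟩
  have hP : IsCoh (⨁ (fun _ : Fin n => G.OO k k)) := hW.pow (isCoh_OO G k k) n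
  have hKc : IsCoh (kernel (biproduct.lift φ)) := hW.kernel _ hMc hP
  set ι' := kernel.ι (biproduct.lift φ) with hι'
  have hm : Mono ι' := by rw [hι']; infer_instance
  have hKtf : (rdx S).Tf (kernel (biproduct.lift φ)) := (rdx S).Tf_sub_Wk2 ι' hm hKc hM
  have hz : IsZero (kernel (biproduct.lift φ)) := by
    refine isZero_of_charts G hKc.qc fun s t x => ?_
    apply res_UU_injective S hKtf s t
    rw [res_zero]
    apply injective_of_mono ι' G.UU
    rw [app_zero]
    apply hκ
    intro i
    have h1 : ι' ≫ φ i = 0 := by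
      have h2 := congrArg (fun z => z ≫ biproduct.π _ i) (kernel.condition (biproduct.lift φ))
      rw [Category.assoc, biproduct.lift_π, zero_comp] at h2
      exact h2
    have h3 := hφ i (ι'.app _ (res _ (G.UU_le s t) x))
    rw [← comp_app_apply, h1] at h3
    have h4 : c i * κ i (ι'.app _ (res _ (G.UU_le s t) x)) = 0 := h3.symm
    exact (mul_eq_zero.1 h4).resolve_left (hc0 i)
  exact Preadditive.mono_of_kernel_zero (hz.eq_of_src _ _)

end BiP

end M21.E3
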