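import Pool.Agent.H.MP_21b43d_ag.E3.G.QCf

/-!
# M21, existence part, C12b: extension of maps to the function field over monomorphisms with torsion cokernel
-/

open CategoryTheory CategoryTheory.Limits AlgebraicGeometry TopologicalSpace

noncomputable section

namespace M21.E3

variable {X : Scheme.{0}} [IsIntegral X] (G : BiP X)

/-- Sections of `M'` which die in the cokernel of a monomorphism `i : M → M'` come from `M`. -/
theorem exists_of_cokernel {M M' : X.Modules} (i : M ⟶ M') [Mono i] {U : X.Opens} (y : Γ(M', U))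
    (h : (cokernel.π i).app U y = 0) : ∃ x : Γ(M, U), i.app U x = y := by
  have hS : (ShortComplex.mk i (cokernel.π i) (cokernel.condition i)).Exact :=
    ShortComplex.exact_of_g_is_cokernel _ (cokernelIsCokernel i)
  have : Mono (ShortComplex.mk i (cokernel.π i) (cokernel.condition i)).f :=
    inferInstanceAs (Mono i)
  exact exists_of_app_eq_zero (ShortComplex.mk i (cokernel.π i) (cokernel.condition i)) hS y h

/-- Extension of `K`-valued linear maps over a monomorphism `M → M'` of quasi-coherent sheaves such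
that every section of `M'` over `UU` is killed by some `a ≠ 0` modulo `M`:
`κ'(y) = κ(a y) / a`. -/
theorem exists_ext_UU {M M' : X.Modules} (i : M ⟶ M') [Mono i]
    (htors : ∀ y : Γ(M', G.UU), ∃ a : Γ(X, G.UU), toK G.pt_mem a ≠ 0 ∧
      ∃ x : Γ(M, G.UU), i.app _ x = a • y)
    (κ : Γ(M, G.UU) → X.functionField) (hadd : ∀ y y', κ (y + y') = κ y + κ y')
    (hsmul : ∀ (a : Γ(X, G.UU)) y, κ (a • y) = toK G.pt_mem a * κ y) :
    ∃ κ' : Γ(M', G.UU) → X.functionField, (∀ y y', κ' (y + y') = κ' y + κ' y') ∧
      (∀ (a : Γ(X, G.UU)) y, κ' (a • y) = toK G.pt_mem a * κ' y) ∧ ∀ x, κ' (i.app _ x) = κ x := by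
  choose a ha x hx using htors
  have hinj := injective_of_mono i G.UU
  -- independence of the choice
  have key : ∀ (y : Γ(M', G.UU)) (b : Γ(X, G.UU)) (z : Γ(M, G.UU)), toK G.pt_mem b ≠ 0 →
      i.app _ z = b • y → κ (x y) / toK G.pt_mem (a y) = κ z / toK G.pt_mem b := by
    intro y b z hb hz
    have h1 : b • x y = a y • z := by
      apply hinj
      rw [Scheme.Modules.Hom.app_smul, Scheme.Modules.Hom.app_smul, hx, hz, smul_smul, smul_smul, mul_comm]
    have h2 := congrArg κ h1
    rw [hsmul, hsmul] at h2
    rw [div_eq_div_iff (ha y) hb]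
    linear_combination h2
  refine ⟨fun y => κ (x y) / toK G.pt_mem (a y), fun y y' => ?_, fun b y => ?_, fun z => ?_⟩
  · have h1 := key (y + y') (a y * a y') (a y' • x y + a y • x y')
      (by rw [map_mul]; exact mul_ne_zero (ha y) (ha y')) (by
        rw [app_add, Scheme.Modules.Hom.app_smul, Scheme.Modules.Hom.app_smul, hx, hx, smul_smul, smul_smul,
          smul_add, mul_comm (a y') (a y)])
    change κ (x (y + y')) / toK G.pt_mem (a (y + y')) = _
    rw [h1, hadd, hsmul, hsmul, map_mul]
    have := ha y
    have := ha y'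
    field_simp
  · have h1 := key (b • y) (a y) (b • x y) (ha y) (by
      rw [Scheme.Modules.Hom.app_smul, hx, smul_smul, smul_smul, mul_comm])
    change κ (x (b • y)) / toK G.pt_mem (a (b • y)) = _
    rw [h1, hsmul, mul_div_assoc]
  · have h1 := key (i.app _ z) 1 z (by rw [map_one]; exact one_ne_zero) (by rw [one_smul])
    change κ (x (i.app _ z)) / toK G.pt_mem (a (i.app _ z)) = _
    rw [h1, map_one, div_one]

end M21.E3
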