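import Pool.Agent.H.MP_21b43d_ag.B.Coh3

/-!
# M21 (C9): the functors `Ez V = j_! j^*` on the modules of `X` for the opens `V` of `X`

`Ez V N` is the subsheaf of `N` of the sections which vanish near every point outside of `V`.

* `Ez V` is an additive exact functor; `ezI V : Ez V ⟶ 𝟭` is a monomorphism;
  `ezLE : V ≤ V' → (Ez V ⟶ Ez V')`;
* `mvShortExact` : the Mayer–Vietoris sequence
  `0 → Ez (V₀ ⊓ V₁) N → Ez V₀ N ⊞ Ez V₁ N → Ez (V₀ ⊔ V₁) N → 0` is exact;
* `homEz : (Ez V 𝒪 ⟶ M) ≃+ Γ(M, V)`.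
-/

open CategoryTheory CategoryTheory.Limits AlgebraicGeometry TopologicalSpace Opposite
open AlgebraicGeometry.Scheme (Modules)

noncomputable section

namespace M21

variable {X : Scheme.{0}} {M N K : X.Modules} {U V W V' : X.Opens}

/-- `s` vanishes near every point outside of `V` -/
def ezSub (V : X.Opens) (N : X.Modules) : LocSub N where
  mem {U} s := ∀ x ∈ U, x ∉ V → ∃ (W : X.Opens) (hW : W ≤ U), x ∈ W ∧ res N hW s = 0
  zero' U := fun x hx _ => ⟨U, le_rfl, hx, res_zero _⟩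
  add' {U s t} hs ht := by
    intro x hx hxj
    obtain ⟨V, hV, hxV, h1⟩ := hs x hx hxj
    obtain ⟨V', hV', hxV', h2⟩ := ht x hx hxj
    refine ⟨V ⊓ V', inf_le_left.trans hV, ⟨hxV, hxV'⟩, ?_⟩
    rw [res_add, ← res_res hV inf_le_left, ← res_res hV' inf_le_right, h1, h2, res_zero, res_zero,
      add_zero]
  smul' {U} r s hs := by
    intro x hx hxj
    obtain ⟨V, hV, hxV, h1⟩ := hs x hx hxj
    exact ⟨V, hV, hxV, by rw [res_smul, h1, smul_zero]⟩
  res' {U V} h s hs := by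
    intro x hx hxj
    obtain ⟨V', hV', hxV', h1⟩ := hs x (h hx) hxj
    refine ⟨V' ⊓ V, inf_le_right, ⟨hxV', hx⟩, ?_⟩
    rw [res_res, ← res_res hV' inf_le_left, h1, res_zero]
  loc' {U} s hs := by
    intro x hx hxj
    obtain ⟨V, hV, hxV, h1⟩ := hs x hx
    obtain ⟨V', hV', hxV', h2⟩ := h1 x hxV hxj
    exact ⟨V', hV'.trans hV, hxV', by rw [← h2, res_res]⟩

theorem ezSub_of_le (h : U ≤ V) (s : Γ(N, U)) : (ezSub V N).mem s :=
  fun _ hx hxj => absurd (h hx) hxj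

theorem ezSub_mono (h : V ≤ V') {s : Γ(N, U)} (hs : (ezSub V N).mem s) : (ezSub V' N).mem s :=
  fun x hx hxj => hs x hx fun hxV => hxj (h hxV)

theorem ezSub_map (φ : M ⟶ N) {s : Γ(M, U)} (hs : (ezSub V M).mem s) :
    (ezSub V N).mem (φ.app U s) := by
  intro x hx hxV
  obtain ⟨W, hW, hxW, h1⟩ := hs x hx hxV
  exact ⟨W, hW, hxW, by rw [← app_res, h1, app_zero]⟩

/-- `Ez V = j_! j^*` for the inclusion `j` of the open `V`. -/
def Ez (V : X.Opens) : X.Modules ⥤ X.Modules where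
  obj N := (ezSub V N).sheaf
  map {M N} φ := (ezSub V N).lift ((ezSub V M).incl ≫ φ)
    (fun _ s => ezSub_map φ ((ezSub V M).mem_incl s))
  map_id N := hom_ext_app fun U _ => (ezSub V N).incl_injective U rfl
  map_comp {_ _ N''} _ _ := hom_ext_app fun U _ => (ezSub V N'').incl_injective U rfl

/-- The value of a section of `Ez V N` as a section of `N`. -/
def ezVal (s : Γ((Ez V).obj N, U)) : Γ(N, U) := (ezSub V N).incl.app U s

/-- The section of `Ez V N` given by a section of `N`. -/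
def ezSec (s : Γ(N, U)) (hs : (ezSub V N).mem s) : Γ((Ez V).obj N, U) :=
  (ezSub V N).sec s hs

theorem ezVal_injective {s t : Γ((Ez V).obj N, U)} (h : ezVal s = ezVal t) : s = t :=
  (ezSub V N).incl_injective U h

theorem ezVal_sec (s : Γ(N, U)) (hs : (ezSub V N).mem s) : ezVal (ezSec s hs) = s := rfl

theorem mem_ezVal (s : Γ((Ez V).obj N, U)) : (ezSub V N).mem (ezVal s) :=
  (ezSub V N).mem_incl s

theorem ezVal_res (h : W ≤ U) (s : Γ((Ez V).obj N, U)) :
    ezVal (res _ h s) = res N h (ezVal s) := rfl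

theorem ezVal_zero : ezVal (0 : Γ((Ez V).obj N, U)) = 0 := rfl

theorem ezVal_add (s t : Γ((Ez V).obj N, U)) : ezVal (s + t) = ezVal s + ezVal t := rfl

theorem ezVal_neg (s : Γ((Ez V).obj N, U)) : ezVal (-s) = -ezVal s := rfl

theorem ezVal_smul (r : Γ(X, U)) (s : Γ((Ez V).obj N, U)) : ezVal (r • s) = r • ezVal s := rfl

theorem ezVal_map (φ : M ⟶ N) (s : Γ((Ez V).obj M, U)) :
    ezVal (((Ez V).map φ).app U s) = φ.app U (ezVal s) := rfl

instance (V : X.Opens) : (Ez V).Additive where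
  map_add := hom_ext_app fun _ _ => ezVal_injective rfl

/-- The inclusion `Ez V N ⟶ N`. -/
def ezI (V : X.Opens) : Ez V ⟶ 𝟭 X.Modules where
  app N := (ezSub V N).incl
  naturality _ _ _ := LocSub.lift_incl _ _ _

theorem ezI_app_app (s : Γ((Ez V).obj N, U)) : ((ezI V).app N).app U s = ezVal s := rfl

instance mono_ezI (V : X.Opens) (N : X.Modules) : Mono ((ezI V).app N) :=
  mono_of_injective _ (ezSub V N).incl_injective

/-- The inclusion `Ez V N ⟶ Ez V' N` for `V ≤ V'`. -/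
def ezLE (h : V ≤ V') : Ez V ⟶ Ez V' where
  app N := (ezSub V' N).lift (ezSub V N).incl
    (fun _ s => ezSub_mono h ((ezSub V N).mem_incl s))
  naturality _ _ _ := hom_ext_app fun _ _ => ezVal_injective rfl

theorem ezVal_LE (h : V ≤ V') (s : Γ((Ez V).obj N, U)) :
    ezVal (((ezLE h).app N).app U s) = ezVal s := rfl

@[reassoc (attr := simp)]
theorem ezLE_ezI (h : V ≤ V') (N : X.Modules) :
    (ezLE h).app N ≫ (ezI V').app N = (ezI V).app N := hom_ext_app fun _ _ => rfl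

@[reassoc (attr := simp)]
theorem ezLE_ezLE {V'' : X.Opens} (h : V ≤ V') (h' : V' ≤ V'') (N : X.Modules) :
    (ezLE h).app N ≫ (ezLE h').app N = (ezLE (h.trans h')).app N := hom_ext_app fun _ _ => rfl

theorem ezLE_self (h : V ≤ V) (N : X.Modules) : (ezLE h).app N = 𝟙 _ :=
  hom_ext_app fun _ _ => rfl

instance mono_ezLE (h : V ≤ V') (N : X.Modules) : Mono ((ezLE h).app N) := by
  have : Mono ((ezLE h).app N ≫ (ezI V').app N) := by rw [ezLE_ezI]; infer_instance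
  exact mono_of_mono _ ((ezI V').app N)

/-- `Ez ⊤ = id` -/
instance isIso_ezI_top (N : X.Modules) : IsIso ((ezI (⊤ : X.Opens)).app N) :=
  isIso_of_bijective _ fun U => ⟨(ezSub ⊤ N).incl_injective U, fun s =>
    ⟨ezSec s (ezSub_of_le le_top s), rfl⟩⟩

theorem isIso_ezI_of_eq_top (h : V = ⊤) (N : X.Modules) : IsIso ((ezI V).app N) := by
  subst h; infer_instance

/-- `Ez ⊥ = 0` -/
theorem isZero_ez_bot (N : X.Modules) : IsZero ((Ez (⊥ : X.Opens)).obj N) := by
  rw [IsZero.iff_id_eq_zero]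
  refine hom_ext_app fun U s => ezVal_injective ?_
  change ezVal s = ezVal (0 : Γ((Ez (⊥ : X.Opens)).obj N, U))
  rw [ezVal_zero]
  refine sec_ext N fun x hx => ?_
  obtain ⟨W, hW, hxW, h⟩ := mem_ezVal s x hx (fun h => h)
  exact ⟨W, hW, hxW, by rw [h, res_zero]⟩

/-! ### exactness -/

theorem ez_lift {N₁ N₂ N₃ : X.Modules} (f : N₁ ⟶ N₂) (g : N₂ ⟶ N₃) (V : X.Opens)
    (h : ∀ (U : X.Opens) (s : Γ(N₂, U)), g.app U s = 0 → ∀ x ∈ U,
      ∃ (V : X.Opens) (hV : V ≤ U), x ∈ V ∧ ∃ t : Γ(N₁, V), f.app V t = res N₂ hV s)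
    (U : X.Opens) (s : Γ((Ez V).obj N₂, U)) (hs : ((Ez V).map g).app U s = 0)
    (x : X) (hx : x ∈ U) :
    ∃ (W : X.Opens) (hW : W ≤ U), x ∈ W ∧ ∃ t : Γ((Ez V).obj N₁, W),
      ((Ez V).map f).app W t = res _ hW s := by
  by_cases hxV : x ∈ V
  · obtain ⟨W, hW, hxW, t, ht⟩ := h U (ezVal s) (by rw [← ezVal_map, hs, ezVal_zero]) x hx
    refine ⟨W ⊓ V, inf_le_left.trans hW, ⟨hxW, hxV⟩,
      ezSec (res N₁ inf_le_left t) (ezSub_of_le inf_le_right _), ezVal_injective ?_⟩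
    rw [ezVal_map, ezVal_sec, app_res, ht, res_res, ezVal_res]
  · obtain ⟨W, hW, hxW, h1⟩ := mem_ezVal s x hx hxV
    exact ⟨W, hW, hxW, 0, ezVal_injective (by rw [app_zero, ezVal_zero, ezVal_res, h1])⟩

theorem ez_exact (V : X.Opens) (S : ShortComplex X.Modules) (hS : S.Exact) :
    (S.map (Ez V)).Exact := by
  rw [exact_iff_lift] at hS ⊢
  exact ez_lift S.f S.g V hS

theorem ez_exact' (V : X.Opens) :
    PreservesFiniteLimits (Ez V) ∧ PreservesFiniteColimits (Ez V) := by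
  have h : ∀ S : ShortComplex X.Modules, S.Exact → (S.map (Ez V)).Exact := ez_exact V
  exact ((Ez V).exact_tfae.out 1 3).mp h

instance (V : X.Opens) : PreservesFiniteLimits (Ez V) := (ez_exact' V).1

instance (V : X.Opens) : PreservesFiniteColimits (Ez V) := (ez_exact' V).2

/-! ### Mayer–Vietoris -/

section MV

variable (V₀ V₁ : X.Opens)

/-- `Ez (V₀ ⊓ V₁) N → Ez V₀ N ⊞ Ez V₁ N` -/
def mvF (N : X.Modules) : (Ez (V₀ ⊓ V₁)).obj N ⟶ (Ez V₀).obj N ⊞ (Ez V₁).obj N :=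
  biprod.lift ((ezLE inf_le_left).app N) ((ezLE inf_le_right).app N)

/-- `Ez V₀ N ⊞ Ez V₁ N → Ez (V₀ ⊔ V₁) N` (difference) -/
def mvG (N : X.Modules) : (Ez V₀).obj N ⊞ (Ez V₁).obj N ⟶ (Ez (V₀ ⊔ V₁)).obj N :=
  biprod.desc ((ezLE le_sup_left).app N) (-(ezLE le_sup_right).app N)

theorem mvF_mvG (N : X.Modules) : mvF V₀ V₁ N ≫ mvG V₀ V₁ N = 0 := by
  unfold mvF mvG
  rw [biprod.lift_desc, Preadditive.comp_neg, ezLE_ezLE, ezLE_ezLE, add_neg_cancel]

/-- The Mayer–Vietoris sequence. -/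
def mvS (N : X.Modules) : ShortComplex X.Modules :=
  ShortComplex.mk (mvF V₀ V₁ N) (mvG V₀ V₁ N) (mvF_mvG V₀ V₁ N)

variable {V₀ V₁}

/-- The section of a biproduct with the given components. -/
theorem biprod_section {A B : X.Modules} (a : Γ(A, U)) (b : Γ(B, U)) :
    ∃ s : Γ(A ⊞ B, U), (biprod.fst : A ⊞ B ⟶ A).app U s = a ∧
      (biprod.snd : A ⊞ B ⟶ B).app U s = b := by
  refine ⟨(biprod.inl : A ⟶ A ⊞ B).app U a + (biprod.inr : B ⟶ A ⊞ B).app U b, ?_, ?_⟩
  · rw [app_add, ← comp_app_apply, ← comp_app_apply, biprod.inl_fst, biprod.inr_fst]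
    change a + 0 = a
    rw [add_zero]
  · rw [app_add, ← comp_app_apply, ← comp_app_apply, biprod.inl_snd, biprod.inr_snd]
    change 0 + b = b
    rw [zero_add]

theorem biprod_section_ext {A B : X.Modules} {s t : Γ(A ⊞ B, U)}
    (h1 : (biprod.fst : A ⊞ B ⟶ A).app U s = (biprod.fst : A ⊞ B ⟶ A).app U t)
    (h2 : (biprod.snd : A ⊞ B ⟶ B).app U s = (biprod.snd : A ⊞ B ⟶ B).app U t) : s = t := by
  have key : ∀ s : Γ(A ⊞ B, U), s = (biprod.inl : A ⟶ A ⊞ B).app U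
      ((biprod.fst : A ⊞ B ⟶ A).app U s) + (biprod.inr : B ⟶ A ⊞ B).app U
      ((biprod.snd : A ⊞ B ⟶ B).app U s) := by
    intro s
    have h : (𝟙 (A ⊞ B)) = biprod.fst ≫ biprod.inl + biprod.snd ≫ biprod.inr :=
      biprod.total.symm
    exact congrArg (fun φ : A ⊞ B ⟶ A ⊞ B => φ.app U s) h
  rw [key s, key t, h1, h2]

theorem desc_app {A B C : X.Modules} (f : A ⟶ C) (g : B ⟶ C) (s : Γ(A ⊞ B, U)) :
    (biprod.desc f g).app U s = f.app U ((biprod.fst : A ⊞ B ⟶ A).app U s) +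
      g.app U ((biprod.snd : A ⊞ B ⟶ B).app U s) := by
  have h : biprod.desc f g = biprod.fst ≫ f + biprod.snd ≫ g := by
    apply biprod.hom_ext' <;> simp
  exact congrArg (fun φ : A ⊞ B ⟶ C => φ.app U s) h

theorem ezVal_mvG (N : X.Modules) (s : Γ((Ez V₀).obj N ⊞ (Ez V₁).obj N, U)) :
    ezVal ((mvG V₀ V₁ N).app U s) =
      ezVal ((biprod.fst : (Ez V₀).obj N ⊞ (Ez V₁).obj N ⟶ _).app U s) -
      ezVal ((biprod.snd : (Ez V₀).obj N ⊞ (Ez V₁).obj N ⟶ _).app U s) := by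
  unfold mvG
  rw [desc_app, ezVal_add, sub_eq_add_neg]
  rfl

variable (V₀ V₁)

theorem mono_mvF (N : X.Modules) : Mono (mvF V₀ V₁ N) := by
  have h : mvF V₀ V₁ N ≫ (biprod.fst : (Ez V₀).obj N ⊞ (Ez V₁).obj N ⟶ _) =
      (ezLE inf_le_left).app N := biprod.lift_fst _ _
  have : Mono (mvF V₀ V₁ N ≫ (biprod.fst : (Ez V₀).obj N ⊞ (Ez V₁).obj N ⟶ _)) := by
    rw [h]; infer_instance
  exact mono_of_mono _ (biprod.fst : (Ez V₀).obj N ⊞ (Ez V₁).obj N ⟶ _)

theorem locSurj_mvG (N : X.Modules) : LocSurj (mvG V₀ V₁ N) := by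
  intro U s x hx
  by_cases h0 : x ∈ V₀
  · obtain ⟨t, ht1, ht2⟩ := biprod_section
      (ezSec (V := V₀) (res N (inf_le_left : U ⊓ V₀ ≤ U) (ezVal s)) (ezSub_of_le inf_le_right _))
      (0 : Γ((Ez V₁).obj N, U ⊓ V₀))
    refine ⟨U ⊓ V₀, inf_le_left, ⟨hx, h0⟩, t, ezVal_injective ?_⟩
    rw [ezVal_mvG, ht1, ht2, ezVal_sec, ezVal_zero, sub_zero, ezVal_res]
  by_cases h1 : x ∈ V₁
  · obtain ⟨t, ht1, ht2⟩ := biprod_section (0 : Γ((Ez V₀).obj N, U ⊓ V₁))
      (-ezSec (V := V₁) (res N (inf_le_left : U ⊓ V₁ ≤ U) (ezVal s))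
        (ezSub_of_le inf_le_right _))
    refine ⟨U ⊓ V₁, inf_le_left, ⟨hx, h1⟩, t, ezVal_injective ?_⟩
    rw [ezVal_mvG, ht1, ht2, ezVal_neg, ezVal_sec, ezVal_zero, zero_sub, neg_neg, ezVal_res]
  · obtain ⟨W, hW, hxW, h⟩ := mem_ezVal s x hx (fun h => h.elim h0 h1)
    refine ⟨W, hW, hxW, 0, ezVal_injective ?_⟩
    rw [app_zero, ezVal_zero, ezVal_res, h]

theorem exists_mvF (N : X.Modules) (s : Γ((Ez V₀).obj N ⊞ (Ez V₁).obj N, U))
    (hs : (mvG V₀ V₁ N).app U s = 0) :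
    ∃ t : Γ((Ez (V₀ ⊓ V₁)).obj N, U), (mvF V₀ V₁ N).app U t = s := by
  have h1 := ezVal_mvG N s
  rw [hs, ezVal_zero, eq_comm, sub_eq_zero] at h1
  set a := (biprod.fst : (Ez V₀).obj N ⊞ (Ez V₁).obj N ⟶ _).app U s with ha
  set b := (biprod.snd : (Ez V₀).obj N ⊞ (Ez V₁).obj N ⟶ _).app U s with hb
  have hmem : (ezSub (V₀ ⊓ V₁) N).mem (ezVal a) := by
    intro y hy hyV
    by_cases hy0 : y ∈ V₀
    · have hy1 : y ∉ V₁ := fun h => hyV ⟨hy0, h⟩
      rw [h1]
      exact mem_ezVal b y hy hy1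
    · exact mem_ezVal a y hy hy0
  refine ⟨ezSec (ezVal a) hmem, biprod_section_ext (ezVal_injective ?_) (ezVal_injective ?_)⟩
  · rw [← comp_app_apply]
    unfold mvF
    rw [biprod.lift_fst, ezVal_LE, ezVal_sec]
  · rw [← comp_app_apply]
    unfold mvF
    rw [biprod.lift_snd, ezVal_LE, ezVal_sec, h1]

/-- The Mayer–Vietoris sequence is exact. -/
theorem mvShortExact (N : X.Modules) : (mvS V₀ V₁ N).ShortExact where
  mono_f := mono_mvF V₀ V₁ N
  exact := by
    rw [exact_iff_lift]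
    intro U s hs x hx
    obtain ⟨t, ht⟩ := exists_mvF V₀ V₁ N s hs
    exact ⟨U, le_rfl, hx, t, ht.trans (res_self _ _).symm⟩
  epi_g := epi_of_locSurj _ (locSurj_mvG V₀ V₁ N)

end MV

/-! ### the unit section and `Hom(Ez V 𝒪, M) = Γ(M, V)` -/

/-- `t` is the extension by zero of the section `s` of `M` over `U ⊓ V`. -/
structure IsExt0 (V : X.Opens) (M : X.Modules) {U : X.Opens} (s : Γ(M, U ⊓ V)) (t : Γ(M, U)) :
    Prop where
  res_eq : res M inf_le_left t = s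
  van : (ezSub V M).mem t

theorem IsExt0.unique {s : Γ(M, U ⊓ V)} {t t' : Γ(M, U)} (h : IsExt0 V M s t)
    (h' : IsExt0 V M s t') : t = t' := by
  refine sec_ext M fun x hx => ?_
  by_cases hxj : x ∈ V
  · exact ⟨_, inf_le_left, ⟨hx, hxj⟩, by rw [h.res_eq, h'.res_eq]⟩
  · obtain ⟨W, hW, hxW, h1⟩ := h.van x hx hxj
    obtain ⟨W', hW', hxW', h2⟩ := h'.van x hx hxj
    refine ⟨W ⊓ W', inf_le_left.trans hW, ⟨hxW, hxW'⟩, ?_⟩
    rw [← res_res hW inf_le_left, h1, res_zero, ← res_res hW' inf_le_right, h2, res_zero]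

theorem exists_isExt0 (M : X.Modules) {U : X.Opens} (s : Γ(M, U ⊓ V))
    (hs : ∀ x ∈ U, x ∉ V → ∃ (W : X.Opens) (hW : W ≤ U), x ∈ W ∧
      res M (inf_le_inf_right V hW) s = 0) : ∃ t, IsExt0 V M s t := by
  classical
  choose W hW hxW hres using hs
  obtain ⟨t, ht⟩ := exists_glue M (U := U)
    (ι := Option {x : X // x ∈ U ∧ x ∉ V})
    (fun o => Option.casesOn o (U ⊓ V) (fun x => W x.1 x.2.1 x.2.2))
    (fun o => by
      cases o with
      | none => exact inf_le_left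
      | some x => exact hW x.1 x.2.1 x.2.2)
    (by
      intro x hx
      rw [Opens.mem_iSup]
      by_cases hxj : x ∈ V
      · exact ⟨none, hx, hxj⟩
      · exact ⟨some ⟨x, hx, hxj⟩, hxW x hx hxj⟩)
    (fun o => by
      cases o with
      | none => exact s
      | some x => exact 0)
    (by
      have key : ∀ x : {x : X // x ∈ U ∧ x ∉ V},
          res M (inf_le_left : (U ⊓ V) ⊓ W x.1 x.2.1 x.2.2 ≤ _) s = 0 := by
        intro x
        have h1 : (U ⊓ V) ⊓ W x.1 x.2.1 x.2.2 ≤ W x.1 x.2.1 x.2.2 ⊓ V :=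
          le_inf inf_le_right (inf_le_left.trans inf_le_right)
        rw [← res_res (inf_le_inf_right V (hW x.1 x.2.1 x.2.2)) h1, hres, res_zero]
      intro o o'
      cases o with
      | none =>
        cases o' with
        | none => rfl
        | some x' => exact (key x').trans (res_zero _).symm
      | some x =>
        cases o' with
        | none =>
          have h2 : W x.1 x.2.1 x.2.2 ⊓ (U ⊓ V) ≤ (U ⊓ V) ⊓ W x.1 x.2.1 x.2.2 :=
            le_inf inf_le_right inf_le_left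
          have h3 : res M (inf_le_right : W x.1 x.2.1 x.2.2 ⊓ (U ⊓ V) ≤ _) s = 0 := by
            rw [← res_res (inf_le_left : (U ⊓ V) ⊓ W x.1 x.2.1 x.2.2 ≤ _) h2, key, res_zero]
          exact (res_zero _).trans h3.symm
        | some x' => exact (res_zero _).trans (res_zero _).symm)
  refine ⟨t, ⟨ht none, fun x hx hxj => ⟨W x hx hxj, hW x hx hxj, hxW x hx hxj, ?_⟩⟩⟩
  exact ht (some ⟨x, hx, hxj⟩)

/-- The section `1` of `Ez V 𝒪` over an open `U` contained in `V`. -/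
def ezOne (h : U ≤ V) : Γ((Ez V).obj (unitMod X), U) :=
  ezSec (show Γ(unitMod X, U) from (1 : Γ(X, U))) (ezSub_of_le h _)

theorem ezVal_one (h : U ≤ V) : ezVal (ezOne h) = (1 : Γ(X, U)) := rfl

theorem res_ezOne (h : U ≤ V) (h' : W ≤ U) : res _ h' (ezOne h) = ezOne (h'.trans h) :=
  ezVal_injective (by
    rw [ezVal_res]
    exact map_one (X.presheaf.map (homOfLE h').op).hom)

theorem ezLE_one (h : U ≤ V) (h' : V ≤ V') :
    ((ezLE h').app (unitMod X)).app U (ezOne h) = ezOne (h.trans h') := rfl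

/-- A section of `Ez V 𝒪` over an open contained in `V` is a multiple of `1`. -/
theorem eq_smul_ezOne (h : U ≤ V) (s : Γ((Ez V).obj (unitMod X), U)) :
    s = (show Γ(X, U) from ezVal s) • ezOne h :=
  ezVal_injective (by
    rw [ezVal_smul]
    exact (mul_one (show Γ(X, U) from ezVal s)).symm)

/-- The restriction of the function given by a section of `Ez V 𝒪`. -/
def ezFn (h : W ≤ U) (s : Γ((Ez V).obj (unitMod X), U)) : Γ(X, W) := res (unitMod X) h (ezVal s)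

theorem ezFn_add (h : W ≤ U) (s t : Γ((Ez V).obj (unitMod X), U)) :
    ezFn h (s + t) = ezFn h s + ezFn h t := res_add (M := unitMod X) h _ _

theorem ezFn_smul (h : W ≤ U) (r : Γ(X, U)) (s : Γ((Ez V).obj (unitMod X), U)) :
    ezFn h (r • s) = resF h r * ezFn h s :=
  map_mul (X.presheaf.map (homOfLE h).op).hom r (show Γ(X, U) from ezVal s)

theorem ezFn_res {W' : X.Opens} (h : W ≤ U) (h' : W' ≤ W) (s : Γ((Ez V).obj (unitMod X), U)) :
    ezFn h' (res _ h s) = ezFn (h'.trans h) s := by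
  unfold ezFn
  rw [ezVal_res, res_res]

theorem resF_ezFn {W' : X.Opens} (h : W ≤ U) (h' : W' ≤ W) (s : Γ((Ez V).obj (unitMod X), U)) :
    resF h' (ezFn h s) = ezFn (h'.trans h) s :=
  res_res (M := unitMod X) h h' (ezVal s)

theorem ezFn_eq_zero (h : U ≤ U) (s : Γ((Ez V).obj (unitMod X), U)) (hs : ezVal s = 0) :
    ezFn h s = 0 := by
  unfold ezFn
  rw [hs, res_zero]
  rfl

theorem ezFn_one (h : U ≤ V) (h' : W ≤ U) : ezFn h' (ezOne h) = 1 :=
  map_one (X.presheaf.map (homOfLE h').op).hom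

theorem resF_zero (h : W ≤ U) : resF h (0 : Γ(X, U)) = 0 :=
  map_zero (X.presheaf.map (homOfLE h).op).hom

/-- The product of a section of `Ez V 𝒪` with a section of `M` over `V`: the condition. -/
theorem smul_van (m : Γ(M, V)) (s : Γ((Ez V).obj (unitMod X), U)) : ∀ x ∈ U, x ∉ V →
    ∃ (W : X.Opens) (hW : W ≤ U), x ∈ W ∧
      res M (inf_le_inf_right V hW) (ezFn (inf_le_left : U ⊓ V ≤ U) s •
        res M (inf_le_right : U ⊓ V ≤ V) m) = 0 := by
  intro x hx hxV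
  obtain ⟨W, hW, hxW, h⟩ := mem_ezVal s x hx hxV
  refine ⟨W, hW, hxW, ?_⟩
  have h0 : ezFn (le_rfl : W ≤ W) (res _ hW s) = 0 := ezFn_eq_zero le_rfl _ h
  rw [res_smul', resF_ezFn, ← ezFn_res hW inf_le_left,
    ← resF_ezFn (le_rfl : W ≤ W) (inf_le_left : W ⊓ V ≤ W), h0, resF_zero, zero_smul]

/-- The product of a section of `Ez V 𝒪` with a section of `M` over `V`. -/
def ezMul (m : Γ(M, V)) (s : Γ((Ez V).obj (unitMod X), U)) : Γ(M, U) :=
  (exists_isExt0 M _ (smul_van m s)).choose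

theorem isExt_ezMul (m : Γ(M, V)) (s : Γ((Ez V).obj (unitMod X), U)) :
    IsExt0 V M (ezFn (inf_le_left : U ⊓ V ≤ U) s • res M (inf_le_right : U ⊓ V ≤ V) m)
      (ezMul m s) :=
  (exists_isExt0 M _ (smul_van m s)).choose_spec

theorem ezMul_eq {m : Γ(M, V)} {s : Γ((Ez V).obj (unitMod X), U)} {t : Γ(M, U)}
    (h : IsExt0 V M (ezFn (inf_le_left : U ⊓ V ≤ U) s •
      res M (inf_le_right : U ⊓ V ≤ V) m) t) : ezMul m s = t :=
  (isExt_ezMul m s).unique h

/-- The morphism `Ez V 𝒪 ⟶ M` given by a section of `M` over `V`. -/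
def ezHom (m : Γ(M, V)) : (Ez V).obj (unitMod X) ⟶ M :=
  mkHom (fun _ s => ezMul m s)
    (fun U s t => ezMul_eq
      { res_eq := by
          rw [res_add, (isExt_ezMul m s).res_eq, (isExt_ezMul m t).res_eq, ← add_smul, ezFn_add]
        van := (ezSub V M).add' (isExt_ezMul m s).van (isExt_ezMul m t).van })
    (fun U r s => ezMul_eq
      { res_eq := by
          rw [res_smul', (isExt_ezMul m s).res_eq, smul_smul, ezFn_smul]
        van := (ezSub V M).smul' r (isExt_ezMul m s).van })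
    (fun {U U'} h s => ezMul_eq
      { res_eq := by
          have h1 := congrArg (res M (inf_le_inf_right V h : U' ⊓ V ≤ U ⊓ V))
            (isExt_ezMul m s).res_eq
          rw [res_res] at h1
          rw [res_res, h1, res_smul', res_res, resF_ezFn, ezFn_res]
        van := (ezSub V M).res' h (isExt_ezMul m s).van })

theorem ezHom_app (m : Γ(M, V)) (s : Γ((Ez V).obj (unitMod X), U)) :
    (ezHom m).app U s = ezMul m s := rfl

theorem ezHom_one (m : Γ(M, V)) (h : U ≤ V) : (ezHom m).app U (ezOne h) = res M h m := by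
  rw [ezHom_app]
  refine ezMul_eq ⟨?_, ezSub_of_le h _⟩
  rw [res_res, ezFn_one, one_smul]

/-- A morphism from `Ez V 𝒪` is determined by the value at `1`. -/
theorem ez_hom_ext {φ ψ : (Ez V).obj (unitMod X) ⟶ M}
    (h : φ.app V (ezOne le_rfl) = ψ.app V (ezOne le_rfl)) : φ = ψ := by
  refine hom_ext_app fun U s => sec_ext M fun x hx => ?_
  by_cases hxV : x ∈ V
  · refine ⟨U ⊓ V, inf_le_left, ⟨hx, hxV⟩, ?_⟩
    rw [← app_res, ← app_res,
      eq_smul_ezOne inf_le_right (res ((Ez V).obj (unitMod X)) (inf_le_left : U ⊓ V ≤ U) s),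
      Modules.Hom.app_smul, Modules.Hom.app_smul,
      ← res_ezOne le_rfl (inf_le_right : U ⊓ V ≤ V), app_res, app_res, h]
  · obtain ⟨W, hW, hxW, h1⟩ := mem_ezVal s x hx hxV
    refine ⟨W, hW, hxW, ?_⟩
    have h2 : res ((Ez V).obj (unitMod X)) hW s = 0 := ezVal_injective (by rw [ezVal_res, h1, ezVal_zero])
    rw [← app_res, ← app_res, h2, app_zero, app_zero]

/-- `Hom(Ez V 𝒪, M) = Γ(M, V)` -/
def homEz (V : X.Opens) (M : X.Modules) : ((Ez V).obj (unitMod X) ⟶ M) ≃+ Γ(M, V) where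
  toFun φ := φ.app V (ezOne le_rfl)
  invFun m := ezHom m
  left_inv φ := ez_hom_ext (by rw [ezHom_one, res_self])
  right_inv m := (ezHom_one m le_rfl).trans (res_self _ _)
  map_add' φ ψ := rfl

theorem homEz_apply (φ : (Ez V).obj (unitMod X) ⟶ M) :
    homEz V M φ = φ.app V (ezOne le_rfl) := rfl

theorem homEz_symm_apply (m : Γ(M, V)) : (homEz V M).symm m = ezHom m := rfl

theorem homEz_comp (φ : (Ez V).obj (unitMod X) ⟶ M) (ψ : M ⟶ N) :
    homEz V N (φ ≫ ψ) = ψ.app V (homEz V M φ) := rfl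

theorem homEz_LE (h : V ≤ V') (φ : (Ez V').obj (unitMod X) ⟶ M) :
    homEz V M ((ezLE h).app (unitMod X) ≫ φ) = res M h (homEz V' M φ) := by
  rw [homEz_apply, homEz_apply, comp_app_apply, ezLE_one, ← app_res, res_ezOne]

theorem ezLE_ezHom (h : V ≤ V') (m : Γ(M, V')) :
    (ezLE h).app (unitMod X) ≫ ezHom m = ezHom (res M h m) := by
  apply (homEz V M).injective
  rw [homEz_LE, homEz_apply, homEz_apply, ezHom_one, ezHom_one, res_self, res_self]

/-! ### modules which are trivial on `V` -/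

/-- `e` is a basis of `N` over `V`. -/
def IsBasisOn (N : X.Modules) {V : X.Opens} (e : Γ(N, V)) : Prop :=
  ∀ (W : X.Opens) (hW : W ≤ V), Function.Bijective fun a : Γ(X, W) => a • res N hW e

/-- `Ez V 𝒪 ⟶ Ez V N` given by a section of `N` over `V`. -/
def ezTriv (e : Γ(N, V)) : (Ez V).obj (unitMod X) ⟶ (Ez V).obj N :=
  (ezSub V N).lift (ezHom e) (fun _ s => (isExt_ezMul e s).van)

theorem ezTriv_ezI (e : Γ(N, V)) : ezTriv e ≫ (ezI V).app N = ezHom e :=
  (ezSub V N).lift_incl _ _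

theorem ezVal_triv (e : Γ(N, V)) (s : Γ((Ez V).obj (unitMod X), U)) :
    ezVal ((ezTriv e).app U s) = ezMul e s := rfl

theorem isIso_ezTriv {e : Γ(N, V)} (he : IsBasisOn N e) : IsIso (ezTriv e) := by
  refine isIso_of_bijective _ fun U => ⟨?_, ?_⟩
  · rw [injective_iff_map_eq_zero]
    intro s hs
    have h0 : ezMul e s = 0 := by
      rw [← ezVal_triv, hs, ezVal_zero]
    have h1 := (isExt_ezMul e s).res_eq
    rw [h0, res_zero] at h1
    have h2 : ezFn (inf_le_left : U ⊓ V ≤ U) s = 0 := by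
      apply (he (U ⊓ V) inf_le_right).1
      change ezFn (inf_le_left : U ⊓ V ≤ U) s • _ = (0 : Γ(X, U ⊓ V)) • _
      rw [← h1, zero_smul]
    refine ezVal_injective (IsExt0.unique (V := V) (M := unitMod X) (s := 0)
      ⟨h2, mem_ezVal s⟩ ⟨?_, (ezSub V _).zero' U⟩)
    exact res_zero _
  · intro t
    obtain ⟨a, ha⟩ := (he (U ⊓ V) inf_le_right).2 (res N inf_le_left (ezVal t))
    have ha' : a • res N (inf_le_right : U ⊓ V ≤ V) e = res N inf_le_left (ezVal t) := ha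
    obtain ⟨s, hs⟩ := exists_isExt0 (unitMod X) (V := V) (U := U) a (by
      intro x hx hxV
      obtain ⟨W, hW, hxW, h⟩ := mem_ezVal t x hx hxV
      refine ⟨W, hW, hxW, ?_⟩
      apply (he (W ⊓ V) inf_le_right).1
      change resF (inf_le_inf_right V hW) a • _ = (0 : Γ(X, W ⊓ V)) • _
      have h1 := congrArg (res N (inf_le_inf_right V hW)) ha'
      rw [res_smul', res_res, res_res, ← res_res hW inf_le_left, h, res_zero] at h1
      rw [h1, zero_smul])
    refine ⟨ezSec s hs.van, ezVal_injective ?_⟩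
    rw [ezVal_triv]
    refine ezMul_eq ⟨?_, mem_ezVal t⟩
    have h3 : ezFn (inf_le_left : U ⊓ V ≤ U) (ezSec s hs.van) = a := hs.res_eq
    rw [h3, ha']

/-- `Ez V N ≅ Ez V 𝒪` if `N` is trivial on `V`. -/
def ezTrivIso {e : Γ(N, V)} (he : IsBasisOn N e) : (Ez V).obj (unitMod X) ≅ (Ez V).obj N :=
  have := isIso_ezTriv he
  asIso (ezTriv e)

end M21
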