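import Pool.Agent.H.MP_21b43d_ag.E3.G.Der

/-!
# M21, existence part, C7: Koszul sequences, the Euler form as a function of `(m, n)`
-/

open CategoryTheory CategoryTheory.Limits CategoryTheory.Pretriangulated AlgebraicGeometry
  TopologicalSpace

noncomputable section

namespace M21.E3

variable {X : Scheme.{0}} [IsIntegral X]

section Kz

omit [IsIntegral X] in
/-- sections of a biproduct: existence -/
theorem biprod_section_Koszul {U : X.Opens} {A B : X.Modules} (a : Γ(A, U)) (b : Γ(B, U)) :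
    ∃ s : Γ(A ⊞ B, U), (biprod.fst : A ⊞ B ⟶ A).app U s = a ∧
      (biprod.snd : A ⊞ B ⟶ B).app U s = b := by
  refine ⟨(biprod.inl : A ⟶ A ⊞ B).app U a + (biprod.inr : B ⟶ A ⊞ B).app U b, ?_, ?_⟩
  · rw [app_add, ← comp_app_apply, ← comp_app_apply, biprod.inl_fst, biprod.inr_fst]
    change a + 0 = a
    rw [add_zero]
  · rw [app_add, ← comp_app_apply, ← comp_app_apply, biprod.inl_snd, biprod.inr_snd]
    change 0 + b = b
    rw [zero_add]

omit [IsIntegral X] in
/-- sections of a biproduct: uniqueness -/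
theorem biprod_section_ext_Koszul {U : X.Opens} {A B : X.Modules} {s t : Γ(A ⊞ B, U)}
    (h1 : (biprod.fst : A ⊞ B ⟶ A).app U s = (biprod.fst : A ⊞ B ⟶ A).app U t)
    (h2 : (biprod.snd : A ⊞ B ⟶ B).app U s = (biprod.snd : A ⊞ B ⟶ B).app U t) : s = t := by
  have key : ∀ s : Γ(A ⊞ B, U), s = (biprod.inl : A ⟶ A ⊞ B).app U
      ((biprod.fst : A ⊞ B ⟶ A).app U s) + (biprod.inr : B ⟶ A ⊞ B).app U
      ((biprod.snd : A ⊞ B ⟶ B).app U s) := by
    intro s
    have h : 𝟙 (A ⊞ B) = biprod.fst ≫ biprod.inl + biprod.snd ≫ biprod.inr := by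
      apply biprod.hom_ext' <;> simp
    exact congrArg (fun φ : A ⊞ B ⟶ A ⊞ B => φ.app U s) h
  rw [key s, key t, h1, h2]

omit [IsIntegral X] in
theorem desc_app_Koszul {U : X.Opens} {A B C : X.Modules} (f : A ⟶ C) (g : B ⟶ C)
    (s : Γ(A ⊞ B, U)) :
    (biprod.desc f g).app U s = f.app U ((biprod.fst : A ⊞ B ⟶ A).app U s) +
      g.app U ((biprod.snd : A ⊞ B ⟶ B).app U s) := by
  have h : biprod.desc f g = biprod.fst ≫ f + biprod.snd ≫ g := by
    apply biprod.hom_ext' <;> simp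
  exact congrArg (fun φ : A ⊞ B ⟶ C => φ.app U s) h

variable {N₀ N₁ N₂ : Frac X} {b : X.functionField}

/-- The Koszul sequence `0 → N₀ → N₁ ⊞ N₁ → N₂ → 0`, `g ↦ (-b g, g)`, `(x, y) ↦ x + b y`, of fractional
sheaves. -/
theorem shortExact_Koszul
    (h0 : ∀ p g, N₀.mem p g ↔ N₁.mem p g ∧ N₁.mem p (b * g))
    (h1 : ∀ p g, N₁.mem p g → N₂.mem p g)
    (h1' : ∀ p g, N₁.mem p g → N₂.mem p (b * g))
    (h2 : ∀ p, (∀ g, N₂.mem p g → N₁.mem p g) ∨ ∀ g, N₂.mem p g → ∃ y, N₁.mem p y ∧ b * y = g) :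
    ∃ (f : N₀.mod ⟶ N₁.mod ⊞ N₁.mod) (g : N₁.mod ⊞ N₁.mod ⟶ N₂.mod) (w : f ≫ g = 0),
      (ShortComplex.mk f g w).ShortExact := by
  have e1 : ∀ p g, N₀.mem p g → N₁.mem p (-b * g) := fun p g hg => by
    rw [neg_mul]
    exact N₁.neg_mem _ _ ((h0 p g).1 hg).2
  have e2 : ∀ p g, N₀.mem p g → N₁.mem p (1 * g) := fun p g hg => by
    rw [one_mul]
    exact ((h0 p g).1 hg).1
  have e3 : ∀ p g, N₁.mem p g → N₂.mem p (1 * g) := fun p g hg => by
    rw [one_mul]
    exact h1 p g hg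
  let f : N₀.mod ⟶ N₁.mod ⊞ N₁.mod :=
    biprod.lift (Frac.mulK N₀ N₁ (-b) e1) (Frac.mulK N₀ N₁ 1 e2)
  let g : N₁.mod ⊞ N₁.mod ⟶ N₂.mod :=
    biprod.desc (Frac.mulK N₁ N₂ 1 e3) (Frac.mulK N₁ N₂ b h1')
  have hg : ∀ {U : X.Opens} {p : X} (hp : p ∈ U) (s : Γ(N₁.mod ⊞ N₁.mod, U)),
      N₂.val hp (g.app U s) = N₁.val hp ((biprod.fst : N₁.mod ⊞ N₁.mod ⟶ N₁.mod).app U s) +
        b * N₁.val hp ((biprod.snd : N₁.mod ⊞ N₁.mod ⟶ N₁.mod).app U s) := by
    intro U p hp s
    have h3 : g.app U s = _ := desc_app_Koszul _ _ s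
    rw [h3, Frac.val_add, Frac.val_mulK, Frac.val_mulK, one_mul]
  have hf1 : ∀ {U : X.Opens} (s : Γ(N₀.mod, U)),
      (biprod.fst : N₁.mod ⊞ N₁.mod ⟶ N₁.mod).app U (f.app U s) =
        (Frac.mulK N₀ N₁ (-b) e1).app U s := by
    intro U s
    rw [← comp_app_apply]
    exact congrArg (fun φ : N₀.mod ⟶ N₁.mod => φ.app U s) (biprod.lift_fst _ _)
  have hf2 : ∀ {U : X.Opens} (s : Γ(N₀.mod, U)),
      (biprod.snd : N₁.mod ⊞ N₁.mod ⟶ N₁.mod).app U (f.app U s) =
        (Frac.mulK N₀ N₁ 1 e2).app U s := by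
    intro U s
    rw [← comp_app_apply]
    exact congrArg (fun φ : N₀.mod ⟶ N₁.mod => φ.app U s) (biprod.lift_snd _ _)
  have w : f ≫ g = 0 := by
    apply hom_ext_app
    intro U s
    refine sec_ext _ fun x hx => ⟨U, le_rfl, hx, ?_⟩
    rw [res_self, res_self]
    apply N₂.val_inj hx
    rw [comp_app_apply, hg hx, hf1, hf2, Frac.val_mulK, Frac.val_mulK]
    change _ = (0 : X.functionField)
    ring
  refine ⟨f, g, w, { exact := ?_, mono_f := ?_, epi_g := ?_ }⟩
  · rw [exact_iff_lift]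
    intro U s hs x hx
    have hs' : g.app U s = 0 := hs
    have h3 := hg hx s
    rw [hs'] at h3
    have h4 : N₁.val hx ((biprod.fst : N₁.mod ⊞ N₁.mod ⟶ N₁.mod).app U s) =
        -b * N₁.val hx ((biprod.snd : N₁.mod ⊞ N₁.mod ⟶ N₁.mod).app U s) := by
      have h5 : (0 : X.functionField) = _ := h3
      rw [neg_mul]
      exact eq_neg_of_add_eq_zero_left h5.symm
    set y := (biprod.snd : N₁.mod ⊞ N₁.mod ⟶ N₁.mod).app U s with hy
    have hmem : ∀ q ∈ U, N₀.mem q (N₁.val hx y) := by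
      intro q hq
      refine (h0 q _).2 ⟨N₁.val_mem hx hq y, ?_⟩
      have h6 := N₁.neg_mem _ _ (N₁.val_mem hx hq
        ((biprod.fst : N₁.mod ⊞ N₁.mod ⟶ N₁.mod).app U s))
      rw [h4, neg_mul, neg_neg] at h6
      exact h6
    refine ⟨U, le_rfl, hx, N₀.sec (N₁.val hx y) hmem, ?_⟩
    rw [res_self]
    refine biprod_section_ext_Koszul ?_ ?_
    · refine (hf1 _).trans ?_
      apply N₁.val_inj hx
      rw [Frac.val_mulK, h4, Frac.val_sec]
    · refine (hf2 _).trans ?_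
      apply N₁.val_inj hx
      rw [Frac.val_mulK, Frac.val_sec, one_mul]
  · refine mono_of_injective _ fun U s t hst => ?_
    refine sec_ext _ fun x hx => ⟨U, le_rfl, hx, ?_⟩
    rw [res_self, res_self]
    apply N₀.val_inj hx
    have h3 : f.app U s = f.app U t := hst
    have h4 := hf2 s
    rw [h3, hf2 t] at h4
    have h5 := congrArg (N₁.val hx) h4
    rw [Frac.val_mulK, Frac.val_mulK, one_mul, one_mul] at h5
    exact h5.symm
  · refine epi_of_locSurj _ fun U s x hx => ?_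
    rcases h2 x with h | h
    · obtain ⟨O, hO, h3⟩ := N₁.opn x _ (h _ (N₂.val_mem hx hx s))
      have hxV : x ∈ O ⊓ U := ⟨hO, hx⟩
      obtain ⟨t, ht1, ht2⟩ := biprod_section_Koszul
        (N₁.sec (U := O ⊓ U) (N₂.val hx s) fun p hp => h3 p hp.1) (0 : Γ(N₁.mod, O ⊓ U))
      refine ⟨O ⊓ U, inf_le_right, hxV, t, ?_⟩
      apply N₂.val_inj hxV
      refine (hg hxV t).trans ?_
      rw [ht1, ht2, Frac.val_sec, Frac.val_zero, mul_zero, add_zero, Frac.val_res]
    · obtain ⟨y, hy, hby⟩ := h _ (N₂.val_mem hx hx s)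
      obtain ⟨O, hO, h3⟩ := N₁.opn x _ hy
      have hxV : x ∈ O ⊓ U := ⟨hO, hx⟩
      obtain ⟨t, ht1, ht2⟩ := biprod_section_Koszul (0 : Γ(N₁.mod, O ⊓ U))
        (N₁.sec (U := O ⊓ U) y fun p hp => h3 p hp.1)
      refine ⟨O ⊓ U, inf_le_right, hxV, t, ?_⟩
      apply N₂.val_inj hxV
      refine (hg hxV t).trans ?_
      rw [ht1, ht2, Frac.val_sec, Frac.val_zero, zero_add, Frac.val_res]
      exact hby

end Kz

namespace BiP

variable (G : BiP X)

/-- `B` is regular on `V 0`, `B⁻¹` is regular on `V 1`. -/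
theorem reg_B_false_Koszul {p : X} (hp : p ∈ G.V false) : Reg p G.B := by
  have h := G.toK_b_Geo2 false hp
  rw [show sg false = 1 from rfl, zpow_one] at h
  rw [← h]
  exact Reg.toK' _ _

theorem reg_B_true_Koszul {p : X} (hp : p ∈ G.V true) : Reg p (G.B ^ (-1 : ℤ)) := by
  have h := G.toK_b_Geo2 true hp
  rw [show sg true = -1 from rfl] at h
  rw [← h]
  exact Reg.toK' _ _

theorem reg_Z_false_Koszul {p : X} (hp : p ∈ G.W false) : Reg p G.Z := by
  have h := G.toK_z_Geo2 false hp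
  rw [show sg false = 1 from rfl, zpow_one] at h
  rw [← h]
  exact Reg.toK' _ _

theorem reg_Z_true_Koszul {p : X} (hp : p ∈ G.W true) : Reg p (G.Z ^ (-1 : ℤ)) := by
  have h := G.toK_z_Geo2 true hp
  rw [show sg true = -1 from rfl] at h
  rw [← h]
  exact Reg.toK' _ _

/-- `0 → O(m-2, n) → O(m-1, n)² → O(m, n) → 0`, `g ↦ (-B g, g)`, `(x, y) ↦ x + B y`
(all maps are multiplications `Frac.mulK` in the function field; locally surjective: the inclusion
is onto on `V 0`, the multiplication by `B` is onto on `V 1`). -/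
theorem koszul_B (m n : ℤ) :
    ∃ (f : G.OO (m - 2) n ⟶ G.OO (m - 1) n ⊞ G.OO (m - 1) n)
      (g : G.OO (m - 1) n ⊞ G.OO (m - 1) n ⟶ G.OO m n) (w : f ≫ g = 0),
      (ShortComplex.mk f g w).ShortExact := by
  have hB := G.B_ne
  have eB : ∀ (g : X.functionField) (i j : ℤ) (z : X.functionField),
      G.B ^ i * (g * G.B ^ j * z) = g * G.B ^ (i + j) * z := by
    intro g i j z
    rw [zpow_add₀ hB]
    ring
  refine shortExact_Koszul (b := G.B) (fun p g => ?_) (fun p g hg => ?_) (fun p g hg => ?_)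
    (fun p => ?_)
  · obtain ⟨s, t, hp⟩ := G.exists_mem_U p
    rw [G.OF_mem_iff _ _ hp, G.OF_mem_iff _ _ hp, G.OF_mem_iff _ _ hp]
    cases s
    · have h1 : -tw false (m - 2) = 0 := rfl
      have h2 : -tw false (m - 1) = 0 := rfl
      rw [h1, h2]
      constructor
      · intro h
        refine ⟨h, ?_⟩
        have h3 := (G.reg_B_false_Koszul hp.1).mul h
        convert h3 using 1
        ring
      · exact fun h => h.1
    · have h1 : -tw true (m - 2) = 2 - m := by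
        change -(m - 2) = _
        ring
      have h2 : -tw true (m - 1) = 1 - m := by
        change -(m - 1) = _
        ring
      rw [h1, h2]
      have h3 : G.B * g * G.B ^ (1 - m) * G.Z ^ (-tw t n) = g * G.B ^ (2 - m) * G.Z ^ (-tw t n) := by
        rw [show (2 - m : ℤ) = 1 + (1 - m) by ring, zpow_add₀ hB, zpow_one]
        ring
      rw [h3]
      constructor
      · intro h
        refine ⟨?_, h⟩
        have h4 := (G.reg_B_true_Koszul hp.1).mul h
        rw [eB] at h4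
        rw [show (1 - m : ℤ) = -1 + (2 - m) by ring]
        exact h4
      · exact fun h => h.2
  · obtain ⟨s, t, hp⟩ := G.exists_mem_U p
    rw [G.OF_mem_iff _ _ hp] at hg ⊢
    cases s
    · exact hg
    · have h1 : -tw true m = -1 + -tw true (m - 1) := by
        change -m = -1 + -(m - 1)
        ring
      rw [h1, ← eB]
      exact (G.reg_B_true_Koszul hp.1).mul hg
  · obtain ⟨s, t, hp⟩ := G.exists_mem_U p
    rw [G.OF_mem_iff _ _ hp] at hg ⊢
    cases s
    · have h3 := (G.reg_B_false_Koszul hp.1).mul hg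
      have h1 : -tw false m = 0 := rfl
      have h2 : -tw false (m - 1) = 0 := rfl
      rw [h2] at h3
      rw [h1]
      convert h3 using 1
      ring
    · have h1 : -tw true (m - 1) = 1 + -tw true m := by
        change -(m - 1) = 1 + -m
        ring
      rw [h1, zpow_add₀ hB, zpow_one] at hg
      convert hg using 1
      ring
  · obtain ⟨s, t, hp⟩ := G.exists_mem_U p
    cases s
    · left
      intro g hg
      rw [G.OF_mem_iff _ _ hp] at hg ⊢
      exact hg
    · right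
      intro g hg
      refine ⟨G.B⁻¹ * g, ?_, mul_inv_cancel_left₀ hB g⟩
      rw [G.OF_mem_iff _ _ hp] at hg ⊢
      have h1 : -tw true (m - 1) = 1 + -tw true m := by
        change -(m - 1) = 1 + -m
        ring
      rw [h1, zpow_add₀ hB, zpow_one]
      convert hg using 1
      field_simp

theorem koszul_Z (m n : ℤ) :
    ∃ (f : G.OO m (n - 2) ⟶ G.OO m (n - 1) ⊞ G.OO m (n - 1))
      (g : G.OO m (n - 1) ⊞ G.OO m (n - 1) ⟶ G.OO m n) (w : f ≫ g = 0),
      (ShortComplex.mk f g w).ShortExact := by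
  have hZ := G.Z_ne
  have eZ : ∀ (g : X.functionField) (i j : ℤ),
      G.Z ^ i * (g * G.Z ^ j) = g * G.Z ^ (i + j) := by
    intro g i j
    rw [zpow_add₀ hZ]
    ring
  refine shortExact_Koszul (b := G.Z) (fun p g => ?_) (fun p g hg => ?_) (fun p g hg => ?_)
    (fun p => ?_)
  · obtain ⟨s, t, hp⟩ := G.exists_mem_U p
    rw [G.OF_mem_iff _ _ hp, G.OF_mem_iff _ _ hp, G.OF_mem_iff _ _ hp]
    cases t
    · have h1 : -tw false (n - 2) = 0 := rfl
      have h2 : -tw false (n - 1) = 0 := rfl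
      rw [h1, h2]
      constructor
      · intro h
        refine ⟨h, ?_⟩
        have h3 := (G.reg_Z_false_Koszul hp.2).mul h
        convert h3 using 1
        ring
      · exact fun h => h.1
    · have h1 : -tw true (n - 2) = 2 - n := by
        change -(n - 2) = _
        ring
      have h2 : -tw true (n - 1) = 1 - n := by
        change -(n - 1) = _
        ring
      rw [h1, h2]
      have h3 : G.Z * g * G.B ^ (-tw s m) * G.Z ^ (1 - n) = g * G.B ^ (-tw s m) * G.Z ^ (2 - n) := by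
        rw [show (2 - n : ℤ) = 1 + (1 - n) by ring, zpow_add₀ hZ, zpow_one]
        ring
      rw [h3]
      constructor
      · intro h
        refine ⟨?_, h⟩
        have h4 := (G.reg_Z_true_Koszul hp.2).mul h
        rw [eZ] at h4
        rw [show (1 - n : ℤ) = -1 + (2 - n) by ring]
        exact h4
      · exact fun h => h.2
  · obtain ⟨s, t, hp⟩ := G.exists_mem_U p
    rw [G.OF_mem_iff _ _ hp] at hg ⊢
    cases t
    · exact hg
    · have h1 : -tw true n = -1 + -tw true (n - 1) := by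
        change -n = -1 + -(n - 1)
        ring
      rw [h1, ← eZ]
      exact (G.reg_Z_true_Koszul hp.2).mul hg
  · obtain ⟨s, t, hp⟩ := G.exists_mem_U p
    rw [G.OF_mem_iff _ _ hp] at hg ⊢
    cases t
    · have h3 := (G.reg_Z_false_Koszul hp.2).mul hg
      have h1 : -tw false n = 0 := rfl
      have h2 : -tw false (n - 1) = 0 := rfl
      rw [h2] at h3
      rw [h1]
      convert h3 using 1
      ring
    · have h1 : -tw true (n - 1) = 1 + -tw true n := by
        change -(n - 1) = 1 + -n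
        ring
      rw [h1, zpow_add₀ hZ, zpow_one] at hg
      convert hg using 1
      ring
  · obtain ⟨s, t, hp⟩ := G.exists_mem_U p
    cases t
    · left
      intro g hg
      rw [G.OF_mem_iff _ _ hp] at hg ⊢
      exact hg
    · right
      intro g hg
      refine ⟨G.Z⁻¹ * g, ?_, mul_inv_cancel_left₀ hZ g⟩
      rw [G.OF_mem_iff _ _ hp] at hg ⊢
      have h1 : -tw true (n - 1) = 1 + -tw true n := by
        change -(n - 1) = 1 + -n
        ring
      rw [h1, zpow_add₀ hZ, zpow_one]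
      convert hg using 1
      field_simp

theorem exists_triangle_B (m n : ℤ) :
    ∃ T ∈ distTriang (DMod X), Nonempty (T.obj₁ ≅ G.LL (m + 2) n) ∧
      Nonempty (T.obj₂ ≅ G.LL (m + 1) n ⊞ G.LL (m + 1) n) ∧ Nonempty (T.obj₃ ≅ G.LL m n) := by
  obtain ⟨f, g, w, h⟩ := G.koszul_B (-m) (-n)
  obtain ⟨d, hd⟩ := exists_triangle_SS _ h
  have e1 : -m - 2 = -(m + 2) := by ring
  have e2 : -m - 1 = -(m + 1) := by ring
  refine ⟨_, hd, ?_, ?_, ⟨Iso.refl _⟩⟩
  · exact ⟨eqToIso (by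
      change SS (G.OO (-m - 2) (-n)) = SS (G.OO (-(m + 2)) (-n))
      rw [e1])⟩
  · have e3 : SS (G.OO (-m - 1) (-n)) = G.LL (m + 1) n := by
      change SS (G.OO (-m - 1) (-n)) = SS (G.OO (-(m + 1)) (-n))
      rw [e2]
    rw [← e3]
    have : PreservesBinaryBiproducts (DerivedCategory.singleFunctor X.Modules 0) :=
      preservesBinaryBiproducts_of_preservesBiproducts _
    exact ⟨(DerivedCategory.singleFunctor X.Modules 0).mapBiprod _ _⟩

theorem exists_triangle_Z (m n : ℤ) :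
    ∃ T ∈ distTriang (DMod X), Nonempty (T.obj₁ ≅ G.LL m (n + 2)) ∧
      Nonempty (T.obj₂ ≅ G.LL m (n + 1) ⊞ G.LL m (n + 1)) ∧ Nonempty (T.obj₃ ≅ G.LL m n) := by
  obtain ⟨f, g, w, h⟩ := G.koszul_Z (-m) (-n)
  obtain ⟨d, hd⟩ := exists_triangle_SS _ h
  have e1 : -n - 2 = -(n + 2) := by ring
  have e2 : -n - 1 = -(n + 1) := by ring
  refine ⟨_, hd, ?_, ?_, ⟨Iso.refl _⟩⟩
  · exact ⟨eqToIso (by
      change SS (G.OO (-m) (-n - 2)) = SS (G.OO (-m) (-(n + 2)))
      rw [e1])⟩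
  · have e3 : SS (G.OO (-m) (-n - 1)) = G.LL m (n + 1) := by
      change SS (G.OO (-m) (-n - 1)) = SS (G.OO (-m) (-(n + 1)))
      rw [e2]
    rw [← e3]
    have : PreservesBinaryBiproducts (DerivedCategory.singleFunctor X.Modules 0) :=
      preservesBinaryBiproducts_of_preservesBiproducts _
    exact ⟨(DerivedCategory.singleFunctor X.Modules 0).mapBiprod _ _⟩

variable [CX X]

/-- downward induction in the first variable -/
theorem homFin_down_B_Koszul (E : DMod X) (n k : ℤ)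
    (h : ∀ m, k ≤ m → HomFin ℂ (G.LL m n) E) (m : ℤ) : HomFin ℂ (G.LL m n) E := by
  have key : ∀ j : ℕ, ∀ m, k - j ≤ m → HomFin ℂ (G.LL m n) E := by
    intro j
    induction j with
    | zero =>
      intro m hm
      refine h m ?_
      push_cast at hm
      omega
    | succ j ih =>
      intro m hm
      push_cast at hm
      obtain ⟨T, hT, ⟨i1⟩, ⟨i2⟩, ⟨i3⟩⟩ := G.exists_triangle_B m n
      have h1 : HomFin ℂ T.obj₁ E := (ih (m + 2) (by omega)).of_iso i1.symm
      have h2 : HomFin ℂ T.obj₂ E :=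
        (homFin_prod (ih (m + 1) (by omega)) (ih (m + 1) (by omega))).of_iso i2.symm
      exact (HomFin.right hT h1 h2).of_iso i3
  exact key (k - m).toNat m (by omega)

theorem homFin_down_Z_Koszul (E : DMod X) (m k : ℤ)
    (h : ∀ n, k ≤ n → HomFin ℂ (G.LL m n) E) (n : ℤ) : HomFin ℂ (G.LL m n) E := by
  have key : ∀ j : ℕ, ∀ n, k - j ≤ n → HomFin ℂ (G.LL m n) E := by
    intro j
    induction j with
    | zero =>
      intro n hn
      refine h n ?_
      push_cast at hn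
      omega
    | succ j ih =>
      intro n hn
      push_cast at hn
      obtain ⟨T, hT, ⟨i1⟩, ⟨i2⟩, ⟨i3⟩⟩ := G.exists_triangle_Z m n
      have h1 : HomFin ℂ T.obj₁ E := (ih (n + 2) (by omega)).of_iso i1.symm
      have h2 : HomFin ℂ T.obj₂ E :=
        (homFin_prod (ih (n + 1) (by omega)) (ih (n + 1) (by omega))).of_iso i2.symm
      exact (HomFin.right hT h1 h2).of_iso i3
  exact key (k - n).toNat n (by omega)

/-- Finiteness for large `m, n` implies finiteness for all `m, n`. -/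
theorem homFin_all (E : DMod X) (k : ℤ)
    (h : ∀ m n, k ≤ m → k ≤ n → HomFin ℂ (G.LL m n) E) (m n : ℤ) : HomFin ℂ (G.LL m n) E :=
  G.homFin_down_Z_Koszul E m k (fun n hn =>
    G.homFin_down_B_Koszul E n k (fun m hm => h m n hm hn) m) n

theorem eulF_B (E : DMod X) (h : ∀ m n, HomFin ℂ (G.LL m n) E) (m n : ℤ) :
    eulF ℂ (G.LL (m + 2) n) E + eulF ℂ (G.LL m n) E = 2 * eulF ℂ (G.LL (m + 1) n) E := by
  obtain ⟨T, hT, ⟨i1⟩, ⟨i2⟩, ⟨i3⟩⟩ := G.exists_triangle_B m n
  have h1 : HomFin ℂ T.obj₁ E := (h (m + 2) n).of_iso i1.symm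
  have h2 : HomFin ℂ T.obj₂ E := (homFin_prod (h (m + 1) n) (h (m + 1) n)).of_iso i2.symm
  have h3 : HomFin ℂ T.obj₃ E := (h m n).of_iso i3.symm
  have h4 := eulF_add hT h1 h2 h3
  rw [eulF_iso i1, eulF_iso i2, eulF_iso i3, eulF_prod (h (m + 1) n) (h (m + 1) n)] at h4
  omega

theorem eulF_Z (E : DMod X) (h : ∀ m n, HomFin ℂ (G.LL m n) E) (m n : ℤ) :
    eulF ℂ (G.LL m (n + 2)) E + eulF ℂ (G.LL m n) E = 2 * eulF ℂ (G.LL m (n + 1)) E := by
  obtain ⟨T, hT, ⟨i1⟩, ⟨i2⟩, ⟨i3⟩⟩ := G.exists_triangle_Z m n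
  have h1 : HomFin ℂ T.obj₁ E := (h m (n + 2)).of_iso i1.symm
  have h2 : HomFin ℂ T.obj₂ E := (homFin_prod (h m (n + 1)) (h m (n + 1))).of_iso i2.symm
  have h3 : HomFin ℂ T.obj₃ E := (h m n).of_iso i3.symm
  have h4 := eulF_add hT h1 h2 h3
  rw [eulF_iso i1, eulF_iso i2, eulF_iso i3, eulF_prod (h m (n + 1)) (h m (n + 1))] at h4
  omega

/-- The numbers of an object: `(r, d₁, d₂, χ)` with `χ(O(-m,-n), E) = r m n + d₁ m + d₂ n + χ`. -/
def nr (E : DMod X) : ℤ := eulF ℂ (G.LL 1 1) E - eulF ℂ (G.LL 1 0) E - eulF ℂ (G.LL 0 1) E +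
  eulF ℂ (G.LL 0 0) E

def nd1 (E : DMod X) : ℤ := eulF ℂ (G.LL 1 0) E - eulF ℂ (G.LL 0 0) E

def nd2 (E : DMod X) : ℤ := eulF ℂ (G.LL 0 1) E - eulF ℂ (G.LL 0 0) E

def nx (E : DMod X) : ℤ := eulF ℂ (G.LL 0 0) E

/-- a sequence with vanishing second difference is affine -/
theorem affine_Koszul (a : ℤ → ℤ) (h : ∀ m, a (m + 2) + a m = 2 * a (m + 1)) (m : ℤ) :
    a m = (a 1 - a 0) * m + a 0 := by
  have key : ∀ m, a (m + 1) - a m = a 1 - a 0 := by
    intro m
    induction m using Int.induction_on with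
    | zero => simp
    | succ i ih =>
      have h1 := h i
      rw [show (i : ℤ) + 1 + 1 = i + 2 by ring]
      omega
    | pred i ih =>
      have h1 := h (-(i : ℤ) - 1)
      rw [show -(i : ℤ) - 1 + 2 = -i + 1 by ring, show -(i : ℤ) - 1 + 1 = -i by ring] at h1
      rw [show -(i : ℤ) - 1 + 1 = -i by ring]
      omega
  induction m using Int.induction_on with
  | zero => simp
  | succ i ih =>
    have h1 := key i
    rw [mul_add, mul_one]
    omega
  | pred i ih =>
    have h1 := key (-(i : ℤ) - 1)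
    rw [show -(i : ℤ) - 1 + 1 = -i by ring] at h1
    rw [mul_sub, mul_one]
    omega

theorem eulF_eq (E : DMod X) (h : ∀ m n, HomFin ℂ (G.LL m n) E) (m n : ℤ) :
    eulF ℂ (G.LL m n) E = G.nr E * m * n + G.nd1 E * m + G.nd2 E * n + G.nx E := by
  have h1 := affine_Koszul (fun m => eulF ℂ (G.LL m n) E) (fun m => G.eulF_B E h m n) m
  have h2 := affine_Koszul (fun n => eulF ℂ (G.LL 1 n) E) (fun n => G.eulF_Z E h 1 n) n
  have h3 := affine_Koszul (fun n => eulF ℂ (G.LL 0 n) E) (fun n => G.eulF_Z E h 0 n) n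
  rw [h1, h2, h3]
  unfold nr nd1 nd2 nx
  ring

end BiP

end M21.E3
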