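import Pool.Agent.H.MP_21b43d_ag.E3.G.SplitH
import Pool.Agent.H.MP_21b43d_ag.E3.G.Koszul

/-!
# M21, existence part, C9a: finite dimensionality and Euler form of split sheaves

Hypothesis: the structure sheaf is split (`S : G.Split (FO X) ι`, `ι` finite).
-/

open CategoryTheory CategoryTheory.Limits CategoryTheory.Pretriangulated AlgebraicGeometry
  TopologicalSpace

noncomputable section

namespace M21.E3

variable {X : Scheme.{0}} [IsIntegral X] [CX X]

namespace BiP

variable {G : BiP X} {ι : Type} [Fintype ι]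

theorem exists_bound_FinA (a b : ι → ℤ) :
    ∃ k : ℤ, ∀ l, -1 ≤ a l + k ∧ -1 ≤ b l + k := by
  refine ⟨∑ l, (|a l| + |b l|), fun l => ?_⟩
  have h : |a l| + |b l| ≤ ∑ l, (|a l| + |b l|) :=
    Finset.single_le_sum (f := fun l => |a l| + |b l|)
      (fun i _ => add_nonneg (abs_nonneg _) (abs_nonneg _)) (Finset.mem_univ l)
  have h1 := neg_abs_le (a l)
  have h2 := neg_abs_le (b l)
  have h3 := abs_nonneg (a l)
  have h4 := abs_nonneg (b l)
  constructor <;> linarith

/-- All split sheaves: finiteness for all twists (`homFin_large`, `homFin_all`). -/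
theorem Split.homFin {N : Frac X} (S : G.Split N ι) (hN : QC N.mod) (m n : ℤ) :
    HomFin ℂ (G.LL m n) (SS N.mod) := by
  obtain ⟨k, hk⟩ := exists_bound_FinA S.a S.b
  refine G.homFin_all (SS N.mod) k (fun m n hm hn => S.homFin_large hN m n fun l => ?_) m n
  exact ⟨(hk l).1.trans (by linarith), (hk l).2.trans (by linarith)⟩

theorem sum_FinA (a b : ι → ℤ) (m n : ℤ) :
    ∑ l, (a l + m + 1) * (b l + n + 1) =
      (Fintype.card ι : ℤ) * m * n + (∑ l, (b l + 1)) * m + (∑ l, (a l + 1)) * n +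
        ∑ l, (a l + 1) * (b l + 1) := by
  have h : ∀ l, (a l + m + 1) * (b l + n + 1) =
      m * n + (b l + 1) * m + (a l + 1) * n + (a l + 1) * (b l + 1) := fun l => by ring
  rw [Finset.sum_congr rfl fun l _ => h l]
  rw [Finset.sum_add_distrib, Finset.sum_add_distrib, Finset.sum_add_distrib, Finset.sum_const,
    ← Finset.sum_mul, ← Finset.sum_mul, Finset.card_univ, nsmul_eq_mul]
  ring

theorem bilin_FinA (r d e x r' d' e' x' k : ℤ)
    (h : ∀ m n : ℤ, k ≤ m → k ≤ n →
      r * m * n + d * m + e * n + x = r' * m * n + d' * m + e' * n + x') (m n : ℤ) :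
    r * m * n + d * m + e * n + x = r' * m * n + d' * m + e' * n + x' := by
  have h1 := h k k le_rfl le_rfl
  have h2 := h (k + 1) k (by linarith) le_rfl
  have h3 := h k (k + 1) le_rfl (by linarith)
  have h4 := h (k + 1) (k + 1) (by linarith) (by linarith)
  have hr : r = r' := by linear_combination h4 - h3 - h2 + h1
  subst hr
  have hd : d = d' := by linear_combination h2 - h1
  have he : e = e' := by linear_combination h3 - h1
  subst hd he
  have hx : x = x' := by linear_combination h1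
  rw [hx]

/-- The Euler form of split sheaves for all twists (both sides are bilinear: `eulF_eq`). -/
theorem Split.eulF {N : Frac X} (S : G.Split N ι) (hN : QC N.mod) (m n : ℤ) :
    M21.eulF ℂ (G.LL m n) (SS N.mod) = ∑ l, (S.a l + m + 1) * (S.b l + n + 1) := by
  obtain ⟨k, hk⟩ := exists_bound_FinA S.a S.b
  rw [G.eulF_eq (SS N.mod) (S.homFin hN) m n, sum_FinA]
  refine bilin_FinA _ _ _ _ _ _ _ _ k (fun m n hm hn => ?_) m n
  rw [← G.eulF_eq (SS N.mod) (S.homFin hN) m n, ← sum_FinA]
  refine S.eulF_large hN m n fun l => ?_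
  exact ⟨(hk l).1.trans (by linarith), (hk l).2.trans (by linarith)⟩

theorem Split.numbers {N : Frac X} (S : G.Split N ι) (hN : QC N.mod) :
    G.nr (SS N.mod) = Fintype.card ι ∧ G.nd1 (SS N.mod) = ∑ l, (S.b l + 1) ∧
      G.nd2 (SS N.mod) = ∑ l, (S.a l + 1) ∧
      G.nx (SS N.mod) = ∑ l, (S.a l + 1) * (S.b l + 1) := by
  have h00 := S.eulF hN 0 0
  have h10 := S.eulF hN 1 0
  have h01 := S.eulF hN 0 1
  have h11 := S.eulF hN 1 1
  rw [sum_FinA] at h00 h10 h01 h11
  unfold nr nd1 nd2 nx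
  rw [h00, h10, h01, h11]
  refine ⟨?_, ?_, ?_, ?_⟩ <;> ring

/-- `O(a, b)` is split. -/
theorem Split.exists_OF (S : G.Split (FO X) ι) (m n : ℤ) :
    ∃ T : G.Split (G.OF m n) ι, (∀ l, T.a l = S.a l + m) ∧ ∀ l, T.b l = S.b l + n := by
  obtain ⟨T, -, ha, hb⟩ := S.twist m n
  exact ⟨T, ha, hb⟩

end BiP

end M21.E3
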