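import Pool.Agent.H.MP_21b43d_ag.E3.G.FinA
import Pool.Agent.H.MP_21b43d_ag.E3.G.Ample

/-!
# M21, existence part, C9b: finite dimensionality and vanishing for coherent sheaves

Hypothesis: the structure sheaf is split (`S : G.Split (FO X) ι`, `ι` finite).
-/

open CategoryTheory CategoryTheory.Limits CategoryTheory.Pretriangulated AlgebraicGeometry
  TopologicalSpace

noncomputable section

namespace M21.E3

variable {X : Scheme.{0}}

/-- the additive functor `F ↦ F[i]` -/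
abbrev shF_FinB (X : Scheme.{0}) (i : ℤ) : X.Modules ⥤ DMod X :=
  DerivedCategory.singleFunctor X.Modules 0 ⋙ shiftFunctor (DMod X) i

/-- maps into a biproduct are determined by the components -/
theorem zero_of_comp_π_FinB {n : ℕ} (f : Fin n → X.Modules) (L : DMod X) (i : ℤ)
    (φ : L ⟶ (SS (⨁ f))⟦i⟧) (h : ∀ j, φ ≫ (shF_FinB X i).map (biproduct.π f j) = 0) : φ = 0 := by
  have h1 : 𝟙 ((SS (⨁ f))⟦i⟧) = ∑ j, (shF_FinB X i).map (biproduct.π f j) ≫
      (shF_FinB X i).map (biproduct.ι f j) := by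
    have h2 : (shF_FinB X i).map (𝟙 (⨁ f)) = 𝟙 ((SS (⨁ f))⟦i⟧) := (shF_FinB X i).map_id _
    rw [← h2, ← biproduct.total, Functor.map_sum]
    exact Finset.sum_congr rfl fun j _ => (shF_FinB X i).map_comp _ _
  rw [← Category.comp_id φ, h1, Preadditive.comp_sum]
  refine Finset.sum_eq_zero fun j _ => ?_
  rw [← Category.assoc, h j, zero_comp]

variable [IsIntegral X] [CX X]

/-- the components as a linear map -/
def comps_FinB {n : ℕ} (f : Fin n → X.Modules) (L : DMod X) (i : ℤ) :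
    (L ⟶ (SS (⨁ f))⟦i⟧) →ₗ[ℂ] ((j : Fin n) → (L ⟶ (SS (f j))⟦i⟧)) where
  toFun φ j := φ ≫ (shF_FinB X i).map (biproduct.π f j)
  map_add' φ ψ := by
    funext j
    exact Preadditive.add_comp _ _ _ _ _ _
  map_smul' c φ := by
    funext j
    exact Linear.smul_comp _ _ _ _ _ _

omit [IsIntegral X] in
theorem comps_injective_FinB {n : ℕ} (f : Fin n → X.Modules) (L : DMod X) (i : ℤ) :
    Function.Injective (comps_FinB f L i) := by
  rw [injective_iff_map_eq_zero]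
  intro φ h
  exact zero_of_comp_π_FinB f L i φ fun j => congrFun h j

omit [IsIntegral X] in
theorem fd_sum_FinB {n : ℕ} (f : Fin n → X.Modules) (L : DMod X) (i : ℤ)
    (h : ∀ j, FiniteDimensional ℂ (L ⟶ (SS (f j))⟦i⟧)) :
    FiniteDimensional ℂ (L ⟶ (SS (⨁ f))⟦i⟧) := by
  have := h
  exact Module.Finite.of_injective (comps_FinB f L i) (comps_injective_FinB f L i)

namespace BiP

variable {G : BiP X} {ι : Type} [Fintype ι]

variable [IsLocallyNoetherian X]

omit [Fintype ι] in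
/-- the exact sequence `0 → K → O(-k,-k)^n → F → 0` as a triangle -/
theorem exists_res_FinB (G : BiP X) {F : X.Modules} (hF : IsCoh F) :
    ∃ (k : ℤ) (n : ℕ) (K : X.Modules) (_ : IsCoh K) (a : SS K ⟶ SS (⨁ (fun _ : Fin n => G.OO (-k) (-k))))
      (b : SS (⨁ (fun _ : Fin n => G.OO (-k) (-k))) ⟶ SS F) (c : SS F ⟶ (SS K)⟦(1 : ℤ)⟧),
      Triangle.mk a b c ∈ distTriang (DMod X) := by
  obtain ⟨k, n, φ, hφ⟩ := G.exists_epi hF
  have hsum : IsCoh (⨁ (fun _ : Fin n => G.OO (-k) (-k))) :=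
    (wserre_isCoh X).pow (isCoh_OO G (-k) (-k)) n
  have hK : IsCoh (kernel φ) := (weakSerre_isCoh X).kernel φ hsum hF
  have hS : (ShortComplex.mk (kernel.ι φ) φ (kernel.condition φ)).ShortExact :=
    { exact := ShortComplex.exact_of_f_is_kernel _ (kernelIsKernel φ)
      mono_f := inferInstance
      epi_g := hφ }
  obtain ⟨d, hd⟩ := exists_triangle_SS _ hS
  exact ⟨k, n, kernel φ, hK, _, _, d, hd⟩

/-- Finite dimensionality. Descending induction on `i` (for `i ≥ 3` the space is `0`): a surjection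
`O(-k,-k)^n → F` with kernel `K` gives the exact sequence
`Hom(L, O(-k,-k)^n[i]) → Hom(L, F[i]) → Hom(L, K[i+1])`. -/
theorem fd_coh (S : G.Split (FO X) ι) {F : X.Modules} (hF : IsCoh F) (i m n : ℤ) :
    FiniteDimensional ℂ (G.LL m n ⟶ (SS F)⟦i⟧) := by
  suffices H : ∀ (d : ℕ) (i : ℤ), 3 ≤ i + d → ∀ F : X.Modules, IsCoh F →
      FiniteDimensional ℂ (G.LL m n ⟶ (SS F)⟦i⟧) by
    exact H (3 - i).toNat i (by omega) F hF
  intro d
  induction d with
  | zero =>
    intro i hi F hF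
    have : Subsingleton (G.LL m n ⟶ (SS F)⟦i⟧) := ⟨fun φ ψ => by
      rw [G.hom_zero_cech hF.qc m n i (Or.inr (by omega)) φ,
        G.hom_zero_cech hF.qc m n i (Or.inr (by omega)) ψ]⟩
    infer_instance
  | succ d ih =>
    intro i hi F hF
    obtain ⟨k, N, K, hK, a, b, c, hT⟩ := exists_res_FinB G hF
    obtain ⟨T, -, -⟩ := S.exists_OF (-k) (-k)
    have h2 : FiniteDimensional ℂ
        (G.LL m n ⟶ (SS (⨁ (fun _ : Fin N => G.OO (-k) (-k))))⟦i⟧) :=
      fd_sum_FinB _ _ _ fun _ => (T.homFin (isCoh_OO G (-k) (-k)).qc m n).fin i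
    have h1 : FiniteDimensional ℂ (G.LL m n ⟶ (SS K)⟦i + 1⟧) :=
      ih (i + 1) (by push_cast at hi ⊢; linarith) K hK
    exact @hom_fd₃ X _ (G.LL m n) (Triangle.mk a b c) hT i h2 h1

theorem homFin_coh (S : G.Split (FO X) ι) {F : X.Modules} (hF : IsCoh F) (m n : ℤ) :
    HomFin ℂ (G.LL m n) (SS F) := by
  refine ⟨fun i => fd_coh S hF i m n, (Set.finite_Icc (0 : ℤ) 2).subset fun i hi => ?_⟩
  rw [Function.mem_support] at hi
  by_contra hc
  have hc' : i < 0 ∨ 2 < i := by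
    rw [Set.mem_Icc] at hc
    omega
  have : Subsingleton (G.LL m n ⟶ (SS F)⟦i⟧) := ⟨fun φ ψ => by
    rw [G.hom_zero_cech hF.qc m n i hc' φ, G.hom_zero_cech hF.qc m n i hc' ψ]⟩
  exact hi Module.finrank_zero_of_subsingleton

/-- Vanishing of higher cohomology for large `m, n`; same induction. -/
theorem van_coh (S : G.Split (FO X) ι) {F : X.Modules} (hF : IsCoh F) :
    ∃ k : ℤ, ∀ m n i : ℤ, k ≤ m → k ≤ n → i ≠ 0 → ∀ φ : G.LL m n ⟶ (SS F)⟦i⟧, φ = 0 := by
  have H : ∀ (d : ℕ) (i : ℤ), 3 ≤ i + d → 1 ≤ i → ∀ F : X.Modules, IsCoh F →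
      ∃ k : ℤ, ∀ m n : ℤ, k ≤ m → k ≤ n → ∀ φ : G.LL m n ⟶ (SS F)⟦i⟧, φ = 0 := by
    intro d
    induction d with
    | zero =>
      intro i hi _ F hF
      exact ⟨0, fun m n _ _ φ => G.hom_zero_cech hF.qc m n i (Or.inr (by omega)) φ⟩
    | succ d ih =>
      intro i hi hi1 F hF
      obtain ⟨k, N, K, hK, a, b, c, hT⟩ := exists_res_FinB G hF
      obtain ⟨T, -, -⟩ := S.exists_OF (-k) (-k)
      obtain ⟨k1, hk1⟩ := ih (i + 1) (by push_cast at hi ⊢; linarith) (by linarith) K hK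
      obtain ⟨k2, hk2⟩ := exists_bound_FinA T.a T.b
      refine ⟨max k1 k2, fun m n hm hn φ => ?_⟩
      have h2 : ∀ φ : G.LL m n ⟶ (SS (⨁ (fun _ : Fin N => G.OO (-k) (-k))))⟦i⟧, φ = 0 := by
        intro φ
        refine zero_of_comp_π_FinB _ _ _ φ fun j => ?_
        have hsub := T.sub_SplitH (isCoh_OO G (-k) (-k)).qc m n (fun l =>
          ⟨(hk2 l).1.trans (by linarith [(le_max_right k1 k2).trans hm]),
            (hk2 l).2.trans (by linarith [(le_max_right k1 k2).trans hn])⟩) i (by omega)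
        exact hsub.elim _ _
      have h1 : ∀ φ : G.LL m n ⟶ (SS K)⟦i + 1⟧, φ = 0 :=
        hk1 m n ((le_max_left _ _).trans hm) ((le_max_left _ _).trans hn)
      exact hom_zero₃ (G.LL m n) (Triangle.mk a b c) hT i h2 h1 φ
  obtain ⟨k1, hk1⟩ := H 2 1 (by norm_num) le_rfl F hF
  obtain ⟨k2, hk2⟩ := H 1 2 (by norm_num) (by norm_num) F hF
  refine ⟨max k1 k2, fun m n i hm hn hi φ => ?_⟩
  rcases lt_or_ge i 0 with h | h
  · exact G.hom_zero_cech hF.qc m n i (Or.inl h) φ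
  rcases eq_or_ne i 1 with h1 | h1
  · subst h1
    exact hk1 m n ((le_max_left _ _).trans hm) ((le_max_left _ _).trans hn) φ
  rcases eq_or_ne i 2 with h2 | h2
  · subst h2
    exact hk2 m n ((le_max_right _ _).trans hm) ((le_max_right _ _).trans hn) φ
  exact G.hom_zero_cech hF.qc m n i (Or.inr (by omega)) φ

/-- For large `m, n` the Euler form is the dimension of `Hom(O(-m,-n), F)`. -/
theorem eulF_eq_finrank (S : G.Split (FO X) ι) {F : X.Modules} (hF : IsCoh F) :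
    ∃ k : ℤ, ∀ m n, k ≤ m → k ≤ n → M21.eulF ℂ (G.LL m n) (SS F) =
      Module.finrank ℂ (G.OO (-m) (-n) ⟶ F) ∧ FiniteDimensional ℂ (G.OO (-m) (-n) ⟶ F) := by
  obtain ⟨k, hk⟩ := van_coh S hF
  refine ⟨k, fun m n hm hn => ⟨?_, ?_⟩⟩
  · unfold M21.eulF altSum
    rw [finsum_eq_single _ (0 : ℤ) (fun i hi => by
      have : Subsingleton (G.LL m n ⟶ (SS F)⟦i⟧) := ⟨fun φ ψ => by
        rw [hk m n i hm hn hi φ, hk m n i hm hn hi ψ]⟩
      have h0 : Module.finrank ℂ (G.LL m n ⟶ (SS F)⟦i⟧) = 0 :=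
        Module.finrank_zero_of_subsingleton
      change (i.negOnePow : ℤ) * ((Module.finrank ℂ (G.LL m n ⟶ (SS F)⟦i⟧) : ℕ) : ℤ) = 0
      rw [h0, Nat.cast_zero, mul_zero])]
    have h1 : Module.finrank ℂ (G.LL m n ⟶ (SS F)⟦(0 : ℤ)⟧) =
        Module.finrank ℂ (G.OO (-m) (-n) ⟶ F) :=
      (homSS (G.OO (-m) (-n)) F).finrank_eq.symm
    rw [← h1]
    simp
  · have := fd_coh S hF 0 m n
    exact Module.Finite.equiv (homSS (G.OO (-m) (-n)) F).symm

end BiP

end M21.E3
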