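import Pool.Agent.H.MP_21b43d_ag.Mk
import Pool.Agent.H.MP_21b43d_ag.Lin

/-!
# M21, existence part, C1: sheaves of submodules of the function field

`X` integral, `K = X.functionField`. `Frac X`: a family of submodules `N_p ⊆ K` (`p ∈ X`) over the
local rings, such that membership is an open condition; `N.mod : X.Modules` is the sheaf
`U ↦ {g ∈ K : g ∈ N_p for all p ∈ U}` (`0` for empty `U`), realised as constant functions `U → K`.
-/

open CategoryTheory CategoryTheory.Limits AlgebraicGeometry TopologicalSpace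

noncomputable section

namespace M21.E3

variable {X : Scheme.{0}} [IsIntegral X]

/-- the value in the function field of a function on a neighbourhood `U` of `p` -/
def toK {U : X.Opens} {p : X} (hp : p ∈ U) : Γ(X, U) →+* X.functionField :=
  haveI : Nonempty U := ⟨⟨p, hp⟩⟩
  (X.germToFunctionField U).hom

theorem toK_inj {U : X.Opens} {p : X} (hp : p ∈ U) : Function.Injective (toK hp) := by
  haveI : Nonempty U := ⟨⟨p, hp⟩⟩
  exact X.germToFunctionField_injective U

theorem toK_eq {U : X.Opens} {p q : X} (hp : p ∈ U) (hq : q ∈ U) : toK hp = toK hq := rfl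

theorem toK_res {U V : X.Opens} (h : V ≤ U) {p : X} (hp : p ∈ V) (a : Γ(X, U)) :
    toK hp (resF h a) = toK (h hp) a := by
  exact congrArg (fun φ => CommRingCat.Hom.hom φ a)
    (X.presheaf.germ_res (homOfLE h) (genericPoint X) _)

/-- `g ∈ K` is regular at `p` -/
def Reg (p : X) (g : X.functionField) : Prop :=
  ∃ (U : X.Opens) (hp : p ∈ U) (a : Γ(X, U)), toK hp a = g

/-- `g` regular at all points of a nonempty open `U` is (the value of) a function on `U` -/
theorem exists_of_reg {U : X.Opens} {p : X} (hp : p ∈ U) (g : X.functionField)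
    (h : ∀ q ∈ U, Reg q g) : ∃ a : Γ(X, U), toK hp a = g := by
  have h' : ∀ y : U, ∃ (V : X.Opens) (hy : y.1 ∈ V) (_ : V ≤ U) (s : Γ(X, V)), toK hy s = g := by
    rintro ⟨y, hyU⟩
    obtain ⟨W, hW, a, ha⟩ := h y hyU
    have hyV : y ∈ W ⊓ U := ⟨hW, hyU⟩
    exact ⟨W ⊓ U, hyV, inf_le_right, resF inf_le_left a, (toK_res inf_le_left hyV a).trans ha⟩
  choose V hy hVU s hs using h'
  have hcov : U ≤ iSup V := fun y hyU => by
    rw [Opens.mem_iSup]
    exact ⟨⟨y, hyU⟩, hy ⟨y, hyU⟩⟩
  have hcomp : TopCat.Presheaf.IsCompatible X.sheaf.1 V s := by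
    intro i j
    obtain ⟨z, hz⟩ : ((V i ⊓ V j : X.Opens) : Set X).Nonempty :=
      nonempty_preirreducible_inter (V i).2 (V j).2 ⟨i.1, hy i⟩ ⟨j.1, hy j⟩
    have hz' : z ∈ V i ⊓ V j := hz
    apply toK_inj (U := V i ⊓ V j) hz'
    have e1 := toK_res (U := V i) (V := V i ⊓ V j) inf_le_left hz' (s i)
    have e2 := toK_res (U := V j) (V := V i ⊓ V j) inf_le_right hz' (s j)
    exact (e1.trans (hs i)).trans (e2.trans (hs j)).symm
  obtain ⟨t, ht, -⟩ := X.sheaf.existsUnique_gluing' V U (fun i => homOfLE (hVU i)) hcov s hcomp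
  refine ⟨t, ?_⟩
  have h1 := ht ⟨p, hp⟩
  have h2 := toK_res (U := U) (V := V ⟨p, hp⟩) (hVU ⟨p, hp⟩) (hy ⟨p, hp⟩) t
  exact h2.symm.trans ((congrArg (toK (hy ⟨p, hp⟩)) h1).trans (hs ⟨p, hp⟩))

variable (X) in
/-- a sheaf of submodules of the function field -/
structure Frac where
  /-- `mem p g`: `g ∈ N_p` -/
  mem : X → X.functionField → Prop
  zero : ∀ p, mem p 0
  add : ∀ p g h, mem p g → mem p h → mem p (g + h)
  smul : ∀ p a g, Reg p a → mem p g → mem p (a * g)
  opn : ∀ p g, mem p g → ∃ U : X.Opens, p ∈ U ∧ ∀ q ∈ U, mem q g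

theorem Reg.toK' {U : X.Opens} {p : X} (hp : p ∈ U) (a : Γ(X, U)) : Reg p (toK hp a) :=
  ⟨U, hp, a, rfl⟩

theorem Reg.one (p : X) : Reg p 1 := ⟨⊤, trivial, 1, map_one _⟩

theorem Reg.neg_one (p : X) : Reg p (-1) := ⟨⊤, trivial, -1, by rw [map_neg, map_one]⟩

namespace Frac

variable (N : Frac X)

theorem neg_mem (p : X) (g : X.functionField) (h : N.mem p g) : N.mem p (-g) := by
  have := N.smul p (-1) g (Reg.neg_one p) h
  rwa [neg_one_mul] at this

/-- The group of sections of a fractional sheaf: constant functions with values in `N_p`. -/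
def SG (U : X.Opens) : AddSubgroup (U → X.functionField) where
  carrier := {s | (∀ x y, s x = s y) ∧ ∀ x : U, N.mem x.1 (s x)}
  add_mem' := fun {a b} ha hb => ⟨fun x y => congrArg₂ (· + ·) (ha.1 x y) (hb.1 x y),
    fun x => N.add _ _ _ (ha.2 x) (hb.2 x)⟩
  zero_mem' := ⟨fun _ _ => rfl, fun x => N.zero _⟩
  neg_mem' := fun {a} ha => ⟨fun x y => congrArg (- ·) (ha.1 x y), fun x => N.neg_mem _ _ (ha.2 x)⟩

/-- The sections of a fractional sheaf. -/
def S (U : X.Opens) : Type := N.SG U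

instance (U : X.Opens) : AddCommGroup (N.S U) := inferInstanceAs (AddCommGroup (N.SG U))

/-- The module structure: `(a s)(x) = a(x) s(x)`, `a(x)` the value of `a` in `K`. -/
instance (U : X.Opens) : Module Γ(X, U) (N.S U) where
  smul a s := ⟨fun x => toK x.2 a * s.1 x, fun x y => congrArg (toK x.2 a * ·) (s.2.1 x y),
    fun x => N.smul _ _ _ (Reg.toK' x.2 a) (s.2.2 x)⟩
  one_smul s := Subtype.ext (funext fun x => by
    change toK x.2 1 * s.1 x = s.1 x
    rw [map_one, one_mul])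
  mul_smul a b s := Subtype.ext (funext fun x => by
    change toK x.2 (a * b) * s.1 x = toK x.2 a * (toK x.2 b * s.1 x)
    rw [map_mul, mul_assoc])
  smul_zero a := Subtype.ext (funext fun x => mul_zero _)
  smul_add a s t := Subtype.ext (funext fun x => mul_add _ _ _)
  add_smul a b s := Subtype.ext (funext fun x => by
    change toK x.2 (a + b) * s.1 x = toK x.2 a * s.1 x + toK x.2 b * s.1 x
    rw [map_add, add_mul])
  zero_smul s := Subtype.ext (funext fun x => by
    change toK x.2 0 * s.1 x = 0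
    rw [map_zero, zero_mul])

/-- the sheaf data -/
def data : SecData X where
  S := N.S
  grp := inferInstance
  mod := inferInstance
  r h s := ⟨fun x => s.1 ⟨x.1, h x.2⟩, fun x y => s.2.1 _ _, fun x => s.2.2 ⟨x.1, h x.2⟩⟩
  r_self U h s := rfl
  r_r h h' s := rfl
  r_add h s t := rfl
  r_smul {U V} h a s := Subtype.ext (funext fun x => by
    change toK (h x.2) a * s.1 ⟨x.1, h x.2⟩ = toK x.2 (resF h a) * s.1 ⟨x.1, h x.2⟩
    rw [toK_res])
  loc {U} s t hst := Subtype.ext (funext fun x => by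
    obtain ⟨V, h, hx, e⟩ := hst x.1 x.2
    exact congrFun (congrArg Subtype.val e) ⟨x.1, hx⟩)
  glue {ι} U W hU hc s hs := by
    choose i hi using fun x : W => hc x.1 x.2
    have key : ∀ (j k : ι) (x : X) (hj : x ∈ U j) (y : X) (hk : y ∈ U k),
        (s j).1 ⟨x, hj⟩ = (s k).1 ⟨y, hk⟩ := by
      intro j k x hj y hk
      obtain ⟨z, hz⟩ : ((U j ⊓ U k : X.Opens) : Set X).Nonempty :=
        nonempty_preirreducible_inter (U j).2 (U k).2 ⟨x, hj⟩ ⟨y, hk⟩
      have h1 := congrFun (congrArg Subtype.val (hs j k)) ⟨z, hz⟩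
      exact ((s j).2.1 ⟨x, hj⟩ ⟨z, hz.1⟩).trans (h1.trans ((s k).2.1 ⟨z, hz.2⟩ ⟨y, hk⟩))
    refine ⟨⟨fun x => (s (i x)).1 ⟨x.1, hi x⟩, fun x y => key _ _ _ _ _ _,
      fun x => (s (i x)).2.2 ⟨x.1, hi x⟩⟩, fun j => Subtype.ext (funext fun x => ?_)⟩
    exact key _ _ _ _ _ _

/-- the sheaf of modules of a fractional sheaf -/
def mod : X.Modules := N.data.toMod

/-- the value in `K` of a section over `U ∋ p` -/
def val {U : X.Opens} {p : X} (hp : p ∈ U) (s : Γ(N.mod, U)) : X.functionField :=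
  (show N.S U from s).1 ⟨p, hp⟩

theorem val_eq {U : X.Opens} {p q : X} (hp : p ∈ U) (hq : q ∈ U) (s : Γ(N.mod, U)) :
    N.val hp s = N.val hq s := (show N.S U from s).2.1 _ _

theorem val_mem {U : X.Opens} {p q : X} (hp : p ∈ U) (hq : q ∈ U) (s : Γ(N.mod, U)) :
    N.mem q (N.val hp s) := by
  rw [N.val_eq hp hq]
  exact (show N.S U from s).2.2 ⟨q, hq⟩

theorem val_add {U : X.Opens} {p : X} (hp : p ∈ U) (s t : Γ(N.mod, U)) :
    N.val hp (s + t) = N.val hp s + N.val hp t := rfl

theorem val_zero {U : X.Opens} {p : X} (hp : p ∈ U) : N.val hp (0 : Γ(N.mod, U)) = 0 := rfl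

theorem val_smul {U : X.Opens} {p : X} (hp : p ∈ U) (a : Γ(X, U)) (s : Γ(N.mod, U)) :
    N.val hp (a • s) = toK hp a * N.val hp s := rfl

theorem val_res {U V : X.Opens} (h : V ≤ U) {p : X} (hp : p ∈ V) (s : Γ(N.mod, U)) :
    N.val hp (res N.mod h s) = N.val (h hp) s := rfl

theorem val_inj {U : X.Opens} {p : X} (hp : p ∈ U) : Function.Injective (N.val hp) := by
  intro s t h
  refine Subtype.ext (funext fun x => ?_)
  exact ((N.val_eq x.2 hp s).trans h).trans (N.val_eq hp x.2 t)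

/-- the section with a given value -/
def sec {U : X.Opens} (g : X.functionField) (h : ∀ p ∈ U, N.mem p g) : Γ(N.mod, U) :=
  (show N.S U from ⟨fun _ => g, fun _ _ => rfl, fun x => h x.1 x.2⟩)

theorem val_sec {U : X.Opens} {p : X} (hp : p ∈ U) (g : X.functionField)
    (h : ∀ p ∈ U, N.mem p g) : N.val hp (N.sec g h) = g := rfl

/-- Multiplication by `k ∈ K` as a morphism `N → N'`. -/
def mulK (N N' : Frac X) (k : X.functionField) (h : ∀ p g, N.mem p g → N'.mem p (k * g)) :
    N.mod ⟶ N'.mod :=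
  mkHom (fun U s => (show N'.S U from ⟨fun x => k * (show N.S U from s).1 x,
      fun x y => congrArg (k * ·) ((show N.S U from s).2.1 x y),
      fun x => h x.1 _ ((show N.S U from s).2.2 x)⟩))
    (fun U s t => Subtype.ext (funext fun x => mul_add _ _ _))
    (fun U a s => Subtype.ext (funext fun x => mul_left_comm _ _ _))
    (fun {U V} h s => rfl)

theorem val_mulK {N N' : Frac X} (k : X.functionField) (h : ∀ p g, N.mem p g → N'.mem p (k * g))
    {U : X.Opens} {p : X} (hp : p ∈ U) (s : Γ(N.mod, U)) :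
    N'.val hp ((mulK N N' k h).app U s) = k * N.val hp s := rfl

/-- Multiplication by `k ≠ 0` is a monomorphism. -/
theorem mono_mulK {N N' : Frac X} (k : X.functionField) (h : ∀ p g, N.mem p g → N'.mem p (k * g))
    (hk : k ≠ 0) : Mono (mulK N N' k h) := by
  refine mono_of_injective _ fun U s t e => Subtype.ext (funext fun x => ?_)
  have h1 := congrArg (N'.val x.2) e
  rw [val_mulK, val_mulK] at h1
  exact mul_left_cancel₀ hk h1

/-- Morphisms out of an arbitrary module into a fractional sheaf: a family of maps to `K`. -/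
def homMk (F : X.Modules) (φ : ∀ {U : X.Opens} {p : X}, p ∈ U → Γ(F, U) → X.functionField)
    (hconst : ∀ {U : X.Opens} {p q : X} (hp : p ∈ U) (hq : q ∈ U) (s : Γ(F, U)), φ hp s = φ hq s)
    (hmem : ∀ {U : X.Opens} {p : X} (hp : p ∈ U) (s : Γ(F, U)), N.mem p (φ hp s))
    (hadd : ∀ {U : X.Opens} {p : X} (hp : p ∈ U) (s t : Γ(F, U)), φ hp (s + t) = φ hp s + φ hp t)
    (hsmul : ∀ {U : X.Opens} {p : X} (hp : p ∈ U) (a : Γ(X, U)) (s : Γ(F, U)),
      φ hp (a • s) = toK hp a * φ hp s)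
    (hres : ∀ {U V : X.Opens} (h : V ≤ U) {p : X} (hp : p ∈ V) (s : Γ(F, U)),
      φ hp (res F h s) = φ (h hp) s) : F ⟶ N.mod :=
  mkHom (fun U s => (show N.S U from ⟨fun x => φ x.2 s, fun x y => hconst _ _ s,
      fun x => hmem x.2 s⟩))
    (fun U s t => Subtype.ext (funext fun x => hadd _ _ _))
    (fun U a s => Subtype.ext (funext fun x => hsmul _ _ _))
    (fun {U V} h s => Subtype.ext (funext fun x => hres h x.2 s))

theorem val_homMk (F : X.Modules) (φ : ∀ {U : X.Opens} {p : X}, p ∈ U → Γ(F, U) → X.functionField)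
    (hconst hmem hadd hsmul hres) {U : X.Opens} {p : X} (hp : p ∈ U) (s : Γ(F, U)) :
    N.val hp ((N.homMk F φ hconst hmem hadd hsmul hres).app U s) = φ hp s := rfl

end Frac

end M21.E3
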