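import Pool.Agent.H.MP_21b43d_ag.E3.G.CLin
import Pool.Agent.H.MP_21b43d_ag.B.Coh3

/-!
# M21, existence part, C2a: the geometric input: two covers by two opens (a map to `ℙ¹ × ℙ¹`)

`BiP X`: opens `V 0, V 1` and `W 0, W 1` (indexed by `Bool`, `false = 0`) with
`X = V 0 ∪ V 1 = W 0 ∪ W 1`, all `V s ∩ W t` affine, a function `b 0 = B` on `V 0` and `b 1 = B⁻¹`
on `V 1`, invertible exactly on `V 0 ∩ V 1`, and the same for `z t` on `W t`.
-/

open CategoryTheory CategoryTheory.Limits AlgebraicGeometry TopologicalSpace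

noncomputable section

namespace M21.E3

/-- Two covers of `X` by two opens (a map to `ℙ¹ × ℙ¹`). -/
structure BiP (X : Scheme.{0}) where
  /-- the first cover -/
  V : Bool → X.Opens
  /-- the second cover -/
  W : Bool → X.Opens
  hV : V false ⊔ V true = ⊤
  hW : W false ⊔ W true = ⊤
  aff : ∀ s t, IsAffineOpen (V s ⊓ W t)
  /-- the first coordinate on `V 0`, its inverse on `V 1` -/
  b : ∀ s, Γ(X, V s)
  /-- the second coordinate on `W 0`, its inverse on `W 1` -/
  z : ∀ t, Γ(X, W t)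
  hb : ∀ s, X.basicOpen (b s) = V false ⊓ V true
  hz : ∀ t, X.basicOpen (z t) = W false ⊓ W true
  bb : resF (inf_le_left : V false ⊓ V true ≤ V false) (b false) *
    resF (inf_le_right : V false ⊓ V true ≤ V true) (b true) = 1
  zz : resF (inf_le_left : W false ⊓ W true ≤ W false) (z false) *
    resF (inf_le_right : W false ⊓ W true ≤ W true) (z true) = 1
  /-- a point in all charts -/
  pt : X
  pt_mem : pt ∈ (V false ⊓ V true) ⊓ (W false ⊓ W true)

variable {X : Scheme.{0}}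

theorem resF_pow_Geo1 {U V : X.Opens} (h : V ≤ U) (r : Γ(X, U)) (n : ℕ) :
    resF h (r ^ n) = resF h r ^ n := map_pow _ _ _

theorem basicOpen_resF_Geo1 {U V : X.Opens} (h : V ≤ U) (r : Γ(X, U)) :
    X.basicOpen (resF h r) = V ⊓ X.basicOpen r := X.basicOpen_res r (homOfLE h).op

namespace BiP

variable (G : BiP X)

/-- the four charts -/
abbrev U (s t : Bool) : X.Opens := G.V s ⊓ G.W t
/-- `V 0 ∩ V 1` -/
abbrev V01 : X.Opens := G.V false ⊓ G.V true
/-- `W 0 ∩ W 1` -/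
abbrev W01 : X.Opens := G.W false ⊓ G.W true
/-- `V 0 ∩ V 1 ∩ W t` -/
abbrev UB (t : Bool) : X.Opens := G.V01 ⊓ G.W t
/-- `V s ∩ W 0 ∩ W 1` -/
abbrev UZ (s : Bool) : X.Opens := G.V s ⊓ G.W01
/-- `V 0 ∩ V 1 ∩ W 0 ∩ W 1` -/
abbrev UU : X.Opens := G.V01 ⊓ G.W01

theorem V01_le (s : Bool) : G.V01 ≤ G.V s := by
  cases s
  · exact inf_le_left
  · exact inf_le_right

theorem W01_le (t : Bool) : G.W01 ≤ G.W t := by
  cases t
  · exact inf_le_left
  · exact inf_le_right

theorem UB_le (s t : Bool) : G.UB t ≤ G.U s t := inf_le_inf_right _ (G.V01_le s)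
theorem UZ_le (s t : Bool) : G.UZ s ≤ G.U s t := inf_le_inf_left _ (G.W01_le t)
theorem UU_leB (t : Bool) : G.UU ≤ G.UB t := inf_le_inf_left _ (G.W01_le t)
theorem UU_leZ (s : Bool) : G.UU ≤ G.UZ s := inf_le_inf_right _ (G.V01_le s)
theorem UU_le (s t : Bool) : G.UU ≤ G.U s t := (G.UU_leB t).trans (G.UB_le s t)

theorem pt_mem_U (s t : Bool) : G.pt ∈ G.U s t := G.UU_le s t G.pt_mem

/-- the charts cover -/
theorem exists_mem_U (p : X) : ∃ s t, p ∈ G.U s t := by
  have h1 : p ∈ G.V false ⊔ G.V true := by rw [G.hV]; trivial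
  have h2 : p ∈ G.W false ⊔ G.W true := by rw [G.hW]; trivial
  rcases h1 with h1 | h1 <;> rcases h2 with h2 | h2
  · exact ⟨false, false, h1, h2⟩
  · exact ⟨false, true, h1, h2⟩
  · exact ⟨true, false, h1, h2⟩
  · exact ⟨true, true, h1, h2⟩

/-- the first coordinate as a unit on `V 0 ∩ V 1` -/
def bU : (Γ(X, G.V01))ˣ :=
  ⟨resF (G.V01_le false) (G.b false), resF (G.V01_le true) (G.b true), G.bb, by
    rw [mul_comm]; exact G.bb⟩

/-- the second coordinate as a unit on `W 0 ∩ W 1` -/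
def zU : (Γ(X, G.W01))ˣ :=
  ⟨resF (G.W01_le false) (G.z false), resF (G.W01_le true) (G.z true), G.zz, by
    rw [mul_comm]; exact G.zz⟩

/-- `B ^ m` on an open contained in `V 0 ∩ V 1` -/
def bp (m : ℤ) {U : X.Opens} (h : U ≤ G.V01) : Γ(X, U) :=
  resF h ((G.bU ^ m : (Γ(X, G.V01))ˣ) : Γ(X, G.V01))

/-- `Z ^ n` on an open contained in `W 0 ∩ W 1` -/
def zp (n : ℤ) {U : X.Opens} (h : U ≤ G.W01) : Γ(X, U) :=
  resF h ((G.zU ^ n : (Γ(X, G.W01))ˣ) : Γ(X, G.W01))

/-- the coordinate `b s` on a smaller open -/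
def bc (s : Bool) {U : X.Opens} (h : U ≤ G.V s) : Γ(X, U) := resF h (G.b s)

/-- the coordinate `z t` on a smaller open -/
def zc (t : Bool) {U : X.Opens} (h : U ≤ G.W t) : Γ(X, U) := resF h (G.z t)

theorem bp_res (m : ℤ) {U U' : X.Opens} (h : U ≤ G.V01) (h' : U' ≤ U) :
    resF h' (G.bp m h) = G.bp m (h'.trans h) := resF_resF _ _ _

theorem zp_res (n : ℤ) {U U' : X.Opens} (h : U ≤ G.W01) (h' : U' ≤ U) :
    resF h' (G.zp n h) = G.zp n (h'.trans h) := resF_resF _ _ _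

theorem bc_res (s : Bool) {U U' : X.Opens} (h : U ≤ G.V s) (h' : U' ≤ U) :
    resF h' (G.bc s h) = G.bc s (h'.trans h) := resF_resF _ _ _

theorem zc_res (t : Bool) {U U' : X.Opens} (h : U ≤ G.W t) (h' : U' ≤ U) :
    resF h' (G.zc t h) = G.zc t (h'.trans h) := resF_resF _ _ _

/-- The sign `+1` for chart `0`, `-1` for chart `1`: `b s = B ^ sg s` on the overlap. -/
def sg (s : Bool) : ℤ := if s then -1 else 1

theorem bp_add (m m' : ℤ) {U : X.Opens} (h : U ≤ G.V01) :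
    G.bp (m + m') h = G.bp m h * G.bp m' h := by
  unfold bp
  rw [zpow_add, Units.val_mul]
  exact map_mul _ _ _

theorem zp_add (m m' : ℤ) {U : X.Opens} (h : U ≤ G.W01) :
    G.zp (m + m') h = G.zp m h * G.zp m' h := by
  unfold zp
  rw [zpow_add, Units.val_mul]
  exact map_mul _ _ _

theorem bp_zero {U : X.Opens} (h : U ≤ G.V01) : G.bp 0 h = 1 := by
  unfold bp
  rw [zpow_zero, Units.val_one]
  exact map_one _

theorem zp_zero {U : X.Opens} (h : U ≤ G.W01) : G.zp 0 h = 1 := by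
  unfold zp
  rw [zpow_zero, Units.val_one]
  exact map_one _

theorem bc_pow (s : Bool) (n : ℕ) {U : X.Opens} (h : U ≤ G.V01) :
    G.bc s (h.trans (G.V01_le s)) ^ n = G.bp (sg s * n) h := by
  have h1 : G.bc s (h.trans (G.V01_le s)) = resF h (resF (G.V01_le s) (G.b s)) :=
    (resF_resF _ _ _).symm
  rw [h1, ← resF_pow_Geo1, ← resF_pow_Geo1]
  unfold bp
  congr 1
  cases s
  · change _ = ((G.bU ^ (1 * (n : ℤ)) : (Γ(X, G.V01))ˣ) : Γ(X, G.V01))
    rw [one_mul, zpow_natCast, Units.val_pow_eq_pow_val, resF_pow_Geo1]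
    rfl
  · change _ = ((G.bU ^ (-1 * (n : ℤ)) : (Γ(X, G.V01))ˣ) : Γ(X, G.V01))
    rw [neg_one_mul, zpow_neg, ← inv_zpow, zpow_natCast, Units.val_pow_eq_pow_val, resF_pow_Geo1]
    rfl

theorem zc_pow (t : Bool) (n : ℕ) {U : X.Opens} (h : U ≤ G.W01) :
    G.zc t (h.trans (G.W01_le t)) ^ n = G.zp (sg t * n) h := by
  have h1 : G.zc t (h.trans (G.W01_le t)) = resF h (resF (G.W01_le t) (G.z t)) :=
    (resF_resF _ _ _).symm
  rw [h1, ← resF_pow_Geo1, ← resF_pow_Geo1]
  unfold zp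
  congr 1
  cases t
  · change _ = ((G.zU ^ (1 * (n : ℤ)) : (Γ(X, G.W01))ˣ) : Γ(X, G.W01))
    rw [one_mul, zpow_natCast, Units.val_pow_eq_pow_val, resF_pow_Geo1]
    rfl
  · change _ = ((G.zU ^ (-1 * (n : ℤ)) : (Γ(X, G.W01))ˣ) : Γ(X, G.W01))
    rw [neg_one_mul, zpow_neg, ← inv_zpow, zpow_natCast, Units.val_pow_eq_pow_val, resF_pow_Geo1]
    rfl

/-- The overlaps are basic opens of the charts. -/
theorem basicOpen_bc (s t : Bool) :
    X.basicOpen (G.bc s (inf_le_left : G.U s t ≤ G.V s)) = G.UB t := by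
  unfold bc
  rw [basicOpen_resF_Geo1, G.hb]
  apply le_antisymm
  · exact le_inf inf_le_right (inf_le_left.trans inf_le_right)
  · exact le_inf (G.UB_le s t) inf_le_left

theorem basicOpen_zc (s t : Bool) :
    X.basicOpen (G.zc t (inf_le_right : G.U s t ≤ G.W t)) = G.UZ s := by
  unfold zc
  rw [basicOpen_resF_Geo1, G.hz]
  apply le_antisymm
  · exact le_inf (inf_le_left.trans inf_le_left) inf_le_right
  · exact le_inf (G.UZ_le s t) inf_le_right

theorem basicOpen_bc_zc (s t : Bool) :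
    X.basicOpen (G.bc s (inf_le_left : G.U s t ≤ G.V s) * G.zc t (inf_le_right : G.U s t ≤ G.W t)) =
      G.UU := by
  rw [Scheme.basicOpen_mul, basicOpen_bc, basicOpen_zc]
  apply le_antisymm
  · exact le_inf (inf_le_left.trans inf_le_left) (inf_le_right.trans inf_le_right)
  · exact le_inf (G.UU_leB t) (G.UU_leZ s)

/-- all intersections of the charts are affine -/
theorem aff_UB (t : Bool) : IsAffineOpen (G.UB t) := by
  rw [← G.basicOpen_bc false t]
  exact (G.aff false t).basicOpen _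

theorem aff_UZ (s : Bool) : IsAffineOpen (G.UZ s) := by
  rw [← G.basicOpen_zc s false]
  exact (G.aff s false).basicOpen _

theorem aff_UU : IsAffineOpen G.UU := by
  rw [← G.basicOpen_bc_zc false false]
  exact (G.aff false false).basicOpen _

end BiP

end M21.E3
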