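import Pool.Agent.H.MP_21b43d_ag.E3.G.Geo1

/-!
# M21, existence part, C2b: the coordinates in the function field, twists of fractional sheaves
-/

open CategoryTheory CategoryTheory.Limits AlgebraicGeometry TopologicalSpace

noncomputable section

namespace M21.E3

variable {X : Scheme.{0}}

namespace BiP

variable (G : BiP X)

variable [IsIntegral X]

/-- values in the function field of functions on the charts -/
abbrev k (s t : Bool) : Γ(X, G.U s t) →+* X.functionField := toK (G.pt_mem_U s t)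

/-- the first coordinate in the function field -/
def B : X.functionField := toK (p := G.pt) (G.pt_mem.1.1) (G.b false)

/-- the second coordinate in the function field -/
def Z : X.functionField := toK (p := G.pt) (G.pt_mem.2.1) (G.z false)

theorem toK_bU_Geo2 {p : X} (hp : p ∈ G.V01) :
    toK hp (G.bU : Γ(X, G.V01)) = G.B :=
  toK_res (G.V01_le false) hp (G.b false)

theorem toK_bUinv_Geo2 {p : X} (hp : p ∈ G.V01) :
    toK hp ((G.bU⁻¹ : (Γ(X, G.V01))ˣ) : Γ(X, G.V01)) = toK (G.V01_le true hp) (G.b true) :=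
  toK_res (G.V01_le true) hp (G.b true)

theorem toK_zU_Geo2 {p : X} (hp : p ∈ G.W01) :
    toK hp (G.zU : Γ(X, G.W01)) = G.Z :=
  toK_res (G.W01_le false) hp (G.z false)

theorem toK_zUinv_Geo2 {p : X} (hp : p ∈ G.W01) :
    toK hp ((G.zU⁻¹ : (Γ(X, G.W01))ˣ) : Γ(X, G.W01)) = toK (G.W01_le true hp) (G.z true) :=
  toK_res (G.W01_le true) hp (G.z true)

theorem B_ne : G.B ≠ 0 := by
  rw [← G.toK_bU_Geo2 G.pt_mem.1]
  exact (G.bU.isUnit.map (toK G.pt_mem.1)).ne_zero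

theorem Z_ne : G.Z ≠ 0 := by
  rw [← G.toK_zU_Geo2 G.pt_mem.2]
  exact (G.zU.isUnit.map (toK G.pt_mem.2)).ne_zero

theorem toK_zpow_Geo2 {U : X.Opens} {p : X} (hp : p ∈ U) (u : (Γ(X, U))ˣ) (m : ℤ) :
    toK hp ((u ^ m : (Γ(X, U))ˣ) : Γ(X, U)) = toK hp (u : Γ(X, U)) ^ m := by
  have h := congrArg Units.val (map_zpow (Units.map (toK hp).toMonoidHom) u m)
  rw [Units.val_zpow_eq_zpow_val] at h
  exact h

theorem toK_bp (m : ℤ) {U : X.Opens} (h : U ≤ G.V01) {p : X} (hp : p ∈ U) :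
    toK hp (G.bp m h) = G.B ^ m := by
  refine (toK_res h hp _).trans ?_
  rw [toK_zpow_Geo2, toK_bU_Geo2]

theorem toK_zp (n : ℤ) {U : X.Opens} (h : U ≤ G.W01) {p : X} (hp : p ∈ U) :
    toK hp (G.zp n h) = G.Z ^ n := by
  refine (toK_res h hp _).trans ?_
  rw [toK_zpow_Geo2, toK_zU_Geo2]

theorem toK_b_Geo2 (s : Bool) {p : X} (hp : p ∈ G.V s) : toK hp (G.b s) = G.B ^ sg s := by
  cases s
  · rw [show sg false = 1 from rfl, zpow_one]
    rfl
  · rw [show sg true = -1 from rfl, ← toK_bU_Geo2 G G.pt_mem.1, ← toK_zpow_Geo2, zpow_neg_one,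
      toK_bUinv_Geo2]
    rfl

theorem toK_z_Geo2 (t : Bool) {p : X} (hp : p ∈ G.W t) : toK hp (G.z t) = G.Z ^ sg t := by
  cases t
  · rw [show sg false = 1 from rfl, zpow_one]
    rfl
  · rw [show sg true = -1 from rfl, ← toK_zU_Geo2 G G.pt_mem.2, ← toK_zpow_Geo2, zpow_neg_one,
      toK_zUinv_Geo2]
    rfl

theorem toK_bc (s : Bool) {U : X.Opens} (h : U ≤ G.V s) {p : X} (hp : p ∈ U) :
    toK hp (G.bc s h) = G.B ^ sg s :=
  (toK_res h hp _).trans (G.toK_b_Geo2 s (h hp))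

theorem toK_zc (t : Bool) {U : X.Opens} (h : U ≤ G.W t) {p : X} (hp : p ∈ U) :
    toK hp (G.zc t h) = G.Z ^ sg t :=
  (toK_res h hp _).trans (G.toK_z_Geo2 t (h hp))

/-- `m` on chart `1`, `0` on chart `0` -/
def tw (s : Bool) (m : ℤ) : ℤ := if s then m else 0

/-- `B^j` is a unit at the points of `V 0 ∩ V 1` -/
theorem reg_B (j : ℤ) {p : X} (hp : p ∈ G.V01) : Reg p (G.B ^ j) :=
  ⟨G.V01, hp, G.bp j le_rfl, G.toK_bp j le_rfl hp⟩

theorem reg_Z (j : ℤ) {p : X} (hp : p ∈ G.W01) : Reg p (G.Z ^ j) :=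
  ⟨G.W01, hp, G.zp j le_rfl, G.toK_zp j le_rfl hp⟩

/-- the change of the twisting factor between two charts of the first cover -/
theorem reg_tw_B_Geo2 (m : ℤ) {p : X} {s s' : Bool} (hp : p ∈ G.V s) (hp' : p ∈ G.V s') :
    Reg p (G.B ^ (tw s m - tw s' m)) := by
  cases s <;> cases s'
  · rw [sub_self, zpow_zero]
    exact Reg.one p
  · exact G.reg_B _ ⟨hp, hp'⟩
  · exact G.reg_B _ ⟨hp', hp⟩
  · rw [sub_self, zpow_zero]
    exact Reg.one p

/-- the change of the twisting factor between two charts of the second cover -/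
theorem reg_tw_Z_Geo2 (n : ℤ) {p : X} {t t' : Bool} (hp : p ∈ G.W t) (hp' : p ∈ G.W t') :
    Reg p (G.Z ^ (tw t n - tw t' n)) := by
  cases t <;> cases t'
  · rw [sub_self, zpow_zero]
    exact Reg.one p
  · exact G.reg_Z _ ⟨hp, hp'⟩
  · exact G.reg_Z _ ⟨hp', hp⟩
  · rw [sub_self, zpow_zero]
    exact Reg.one p

/-- The twist condition does not depend on the chart. -/
theorem tw_indep (N : Frac X) (m n : ℤ) {p : X} {s t s' t' : Bool} (hp : p ∈ G.U s t)
    (hp' : p ∈ G.U s' t') (g : X.functionField) (h : N.mem p (g * G.B ^ (-tw s m) * G.Z ^ (-tw t n))) :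
    N.mem p (g * G.B ^ (-tw s' m) * G.Z ^ (-tw t' n)) := by
  have h1 := N.smul p _ _ (G.reg_tw_B_Geo2 m hp.1 hp'.1) h
  have h2 := N.smul p _ _ (G.reg_tw_Z_Geo2 n hp.2 hp'.2) h1
  have e1 : G.B ^ (-tw s' m) = G.B ^ (tw s m - tw s' m) * G.B ^ (-tw s m) := by
    rw [← zpow_add₀ G.B_ne]
    congr 1
    ring
  have e2 : G.Z ^ (-tw t' n) = G.Z ^ (tw t n - tw t' n) * G.Z ^ (-tw t n) := by
    rw [← zpow_add₀ G.Z_ne]
    congr 1
    ring
  rw [e1, e2]
  convert h2 using 1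
  ring

/-- The twist `N(m, n)` of a fractional sheaf: `g ∈ N(m,n)_p` iff `g B^{-tw s m} Z^{-tw t n} ∈ N_p` for
all `s, t` with `p ∈ U s t` (one is enough: `tw_indep`). -/
def twist (N : Frac X) (m n : ℤ) : Frac X where
  mem p g := ∀ s t, p ∈ G.U s t → N.mem p (g * G.B ^ (-tw s m) * G.Z ^ (-tw t n))
  zero p s t _ := by simpa using N.zero p
  add p g h hg hh s t hp := by
    rw [add_mul, add_mul]
    exact N.add p _ _ (hg s t hp) (hh s t hp)
  smul p a g ha hg s t hp := by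
    rw [mul_assoc a, mul_assoc a]
    exact N.smul p _ _ ha (hg s t hp)
  opn p g hg := by
    obtain ⟨s, t, hp⟩ := G.exists_mem_U p
    obtain ⟨O, hO, h⟩ := N.opn p _ (hg s t hp)
    exact ⟨O ⊓ G.U s t, ⟨hO, hp⟩, fun q hq s' t' hq' => G.tw_indep N m n hq.2 hq' g (h q hq.1)⟩

theorem twist_mem_iff (N : Frac X) (m n : ℤ) {p : X} {s t : Bool} (hp : p ∈ G.U s t)
    (g : X.functionField) :
    (G.twist N m n).mem p g ↔ N.mem p (g * G.B ^ (-tw s m) * G.Z ^ (-tw t n)) :=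
  ⟨fun h => h s t hp, fun h s' t' hp' => G.tw_indep N m n hp hp' g h⟩

end BiP

theorem Reg.zero (p : X) [IsIntegral X] : Reg p 0 := ⟨⊤, trivial, 0, map_zero _⟩

theorem Reg.add {p : X} [IsIntegral X] {g h : X.functionField} (hg : Reg p g) (hh : Reg p h) :
    Reg p (g + h) := by
  obtain ⟨U, hU, a, rfl⟩ := hg
  obtain ⟨V, hV, b, rfl⟩ := hh
  refine ⟨U ⊓ V, ⟨hU, hV⟩, resF inf_le_left a + resF inf_le_right b, ?_⟩
  rw [map_add, toK_res, toK_res]

theorem Reg.mul {p : X} [IsIntegral X] {g h : X.functionField} (hg : Reg p g) (hh : Reg p h) :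
    Reg p (g * h) := by
  obtain ⟨U, hU, a, rfl⟩ := hg
  obtain ⟨V, hV, b, rfl⟩ := hh
  refine ⟨U ⊓ V, ⟨hU, hV⟩, resF inf_le_left a * resF inf_le_right b, ?_⟩
  rw [map_mul, toK_res, toK_res]

variable (X) in
/-- the structure sheaf as a fractional sheaf -/
def FO [IsIntegral X] : Frac X where
  mem := Reg
  zero p := Reg.zero p
  add p g h hg hh := hg.add hh
  smul p a g ha hg := ha.mul hg
  opn p g hg := by
    obtain ⟨U, hU, a, rfl⟩ := hg
    exact ⟨U, hU, fun q hq => ⟨U, hq, a, rfl⟩⟩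

end M21.E3
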