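import Pool.Agent.H.MP_21b43d_ag.E3.G.Geo2

/-!
# M21, existence part, C2c: the sheaves `O(m, n)`, their generators, morphisms `O(-m, -n) → F` as families
-/

open CategoryTheory CategoryTheory.Limits AlgebraicGeometry TopologicalSpace

noncomputable section

namespace M21.E3

variable {X : Scheme.{0}}

namespace BiP

variable (G : BiP X) [IsIntegral X]

/-- the fractional sheaves `O(m, n)` -/
def OF (m n : ℤ) : Frac X := G.twist (FO X) m n

/-- the sheaves `O(m, n)` -/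
def OO (m n : ℤ) : X.Modules := (G.OF m n).mod

theorem OF_mem_iff (m n : ℤ) {p : X} {s t : Bool} (hp : p ∈ G.U s t) (g : X.functionField) :
    (G.OF m n).mem p g ↔ Reg p (g * G.B ^ (-tw s m) * G.Z ^ (-tw t n)) :=
  G.twist_mem_iff (FO X) m n hp g

theorem tw_zero_Geo3 (s : Bool) : tw s 0 = 0 := by
  cases s <;> rfl

theorem tw_neg_Geo3 (s : Bool) (m : ℤ) : tw s (-m) = -tw s m := by
  cases s
  · exact (neg_zero).symm
  · rfl

theorem mem_zero_iff_Geo3 {p : X} (g : X.functionField) : (G.OF 0 0).mem p g ↔ Reg p g := by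
  obtain ⟨s, t, hp⟩ := G.exists_mem_U p
  rw [G.OF_mem_iff 0 0 hp, tw_zero_Geo3, tw_zero_Geo3, neg_zero, zpow_zero, zpow_zero, mul_one,
    mul_one]

theorem res_smul_Geo3 {M : X.Modules} {U V : X.Opens} (h : V ≤ U) (r : Γ(X, U)) (s : Γ(M, U)) :
    res M h (r • s) = resF h r • res M h s := res_smul h r s

/-- functions with the same values are equal -/
theorem fun_ext_Geo3 {U : X.Opens} {a b : Γ(X, U)} (h : ∀ (p : X) (hp : p ∈ U), toK hp a = toK hp b) :
    a = b :=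
  sec_ext (unitMod X) (s := (show Γ(unitMod X, U) from a)) (t := (show Γ(unitMod X, U) from b))
    fun p hp => ⟨U, le_rfl, hp, congrArg (res (unitMod X) le_rfl) (toK_inj hp (h p hp))⟩

/-- The morphism from the structure sheaf to `O(0, 0)`. -/
def unitTo_Geo3 : unitMod X ⟶ G.OO 0 0 :=
  mkHom (fun U a => (show (G.OF 0 0).S U from ⟨fun x => toK x.2 (show Γ(X, U) from a),
      fun _ _ => rfl, fun x => (G.mem_zero_iff_Geo3 _).mpr (Reg.toK' x.2 _)⟩))
    (fun _ _ _ => Subtype.ext (funext fun _ => map_add _ _ _))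
    (fun _ _ _ => Subtype.ext (funext fun _ => map_mul _ _ _))
    (fun {_ _} h _ => Subtype.ext (funext fun x => toK_res h x.2 _))

theorem val_unitTo_Geo3 {U : X.Opens} {p : X} (hp : p ∈ U) (a : Γ(unitMod X, U)) :
    (G.OF 0 0).val hp (G.unitTo_Geo3.app U a) = toK hp (show Γ(X, U) from a) := rfl

/-- sections with the same values are equal -/
theorem val_ext_Geo3 (N : Frac X) {U : X.Opens} {a b : Γ(N.mod, U)}
    (h : ∀ (p : X) (hp : p ∈ U), N.val hp a = N.val hp b) : a = b :=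
  Subtype.ext (funext fun x => h x.1 x.2)

/-- `O(0, 0)` is the structure sheaf. -/
theorem nonempty_OO_zero : Nonempty (G.OO 0 0 ≅ unitMod X) := by
  have : IsIso G.unitTo_Geo3 := by
    refine isIso_of_bijective _ fun U => ⟨fun a b h => ?_, fun b => ?_⟩
    · exact fun_ext_Geo3 fun p hp => by
        have h1 := congrArg ((G.OF 0 0).val hp) h
        exact h1
    · by_cases hU : ∃ p, p ∈ U
      · obtain ⟨p, hp⟩ := hU
        obtain ⟨a, ha⟩ := exists_of_reg hp ((G.OF 0 0).val hp b) fun q hq =>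
          (G.mem_zero_iff_Geo3 _).mp ((G.OF 0 0).val_mem hp hq b)
        exact ⟨a, (G.OF 0 0).val_inj hp ha⟩
      · exact ⟨0, val_ext_Geo3 _ fun p hp => (hU ⟨p, hp⟩).elim⟩
  exact ⟨(asIso G.unitTo_Geo3).symm⟩

theorem gen_mem (m n : ℤ) (s t : Bool) :
    ∀ p ∈ G.U s t, (G.OF (-m) (-n)).mem p (G.B ^ (-tw s m) * G.Z ^ (-tw t n)) := by
  intro p hp
  rw [G.OF_mem_iff _ _ hp]
  have h1 : G.B ^ (-tw s m) * G.Z ^ (-tw t n) * G.B ^ (-tw s (-m)) * G.Z ^ (-tw t (-n)) = 1 := by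
    rw [tw_neg_Geo3, tw_neg_Geo3, neg_neg, neg_neg, zpow_neg, zpow_neg]
    have h2 : G.B ^ tw s m ≠ 0 := zpow_ne_zero _ G.B_ne
    have h3 : G.Z ^ tw t n ≠ 0 := zpow_ne_zero _ G.Z_ne
    field_simp
  rw [h1]
  exact Reg.one p

/-- The generator `B^{-tw s m} Z^{-tw t n}` of `O(-m, -n)` on `U s t`. -/
def gen (m n : ℤ) (s t : Bool) : Γ(G.OO (-m) (-n), G.U s t) :=
  (G.OF (-m) (-n)).sec (G.B ^ (-tw s m) * G.Z ^ (-tw t n)) (G.gen_mem m n s t)

theorem val_gen (m n : ℤ) (s t : Bool) {p : X} (hp : p ∈ G.U s t) :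
    (G.OF (-m) (-n)).val hp (G.gen m n s t) = G.B ^ (-tw s m) * G.Z ^ (-tw t n) := rfl

/-- The generator is a free generator of `O(-m, -n)` over every open contained in `U s t`. -/
theorem existsUnique_gen (m n : ℤ) (s t : Bool) {O : X.Opens} (h : O ≤ G.U s t)
    (x : Γ(G.OO (-m) (-n), O)) :
    ∃! a : Γ(X, O), x = a • res (G.OO (-m) (-n)) h (G.gen m n s t) := by
  have hne : G.B ^ (-tw s m) * G.Z ^ (-tw t n) ≠ 0 :=
    mul_ne_zero (zpow_ne_zero _ G.B_ne) (zpow_ne_zero _ G.Z_ne)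
  have hv : ∀ (p : X) (hp : p ∈ O) (a : Γ(X, O)), (G.OF (-m) (-n)).val hp
      (a • res (G.OO (-m) (-n)) h (G.gen m n s t)) =
      toK hp a * (G.B ^ (-tw s m) * G.Z ^ (-tw t n)) := fun p hp a => rfl
  have hu : ∀ a b : Γ(X, O), x = a • res (G.OO (-m) (-n)) h (G.gen m n s t) →
      x = b • res (G.OO (-m) (-n)) h (G.gen m n s t) → a = b := by
    intro a b ha hb
    refine fun_ext_Geo3 fun p hp => ?_
    have h1 := congrArg ((G.OF (-m) (-n)).val hp) (ha.symm.trans hb)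
    rw [hv, hv] at h1
    exact mul_right_cancel₀ hne h1
  by_cases hO : ∃ p, p ∈ O
  · obtain ⟨p, hp⟩ := hO
    obtain ⟨a, ha⟩ := exists_of_reg hp
      ((G.OF (-m) (-n)).val hp x * (G.B ^ (-tw s m) * G.Z ^ (-tw t n))⁻¹) fun q hq => by
        have h1 := (G.OF (-m) (-n)).val_mem hp hq x
        rw [G.OF_mem_iff _ _ (h hq), tw_neg_Geo3, tw_neg_Geo3, neg_neg, neg_neg, mul_assoc] at h1
        have h2 : (G.B ^ (-tw s m) * G.Z ^ (-tw t n))⁻¹ = G.B ^ tw s m * G.Z ^ tw t n := by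
          rw [mul_inv, zpow_neg, zpow_neg, inv_inv, inv_inv]
        rw [h2]
        exact h1
    have ha' : x = a • res (G.OO (-m) (-n)) h (G.gen m n s t) := by
      apply (G.OF (-m) (-n)).val_inj hp
      rw [hv, ha]
      exact (inv_mul_cancel_right₀ hne _).symm
    exact ⟨a, ha', fun b hb => hu b a hb ha'⟩
  · refine ⟨0, ?_, fun b hb => fun_ext_Geo3 fun p hp => (hO ⟨p, hp⟩).elim⟩
    exact val_ext_Geo3 _ fun p hp => (hO ⟨p, hp⟩).elim

/-- The generators on the overlaps: `gen_0t = B^m gen_1t`. -/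
theorem gen_B (m n : ℤ) (t : Bool) :
    res (G.OO (-m) (-n)) (G.UB_le false t) (G.gen m n false t) =
      G.bp m (inf_le_left : G.UB t ≤ G.V01) •
        res (G.OO (-m) (-n)) (G.UB_le true t) (G.gen m n true t) := by
  refine val_ext_Geo3 _ fun p hp => ?_
  change G.B ^ (-tw false m) * G.Z ^ (-tw t n) =
    toK hp (G.bp m (inf_le_left : G.UB t ≤ G.V01)) * (G.B ^ (-tw true m) * G.Z ^ (-tw t n))
  have h1 : G.B ^ m ≠ 0 := zpow_ne_zero _ G.B_ne
  rw [G.toK_bp, ← mul_assoc]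
  congr 1
  change G.B ^ (-(0 : ℤ)) = G.B ^ m * G.B ^ (-m)
  rw [neg_zero, zpow_zero, zpow_neg, mul_inv_cancel₀ h1]

theorem gen_Z (m n : ℤ) (s : Bool) :
    res (G.OO (-m) (-n)) (G.UZ_le s false) (G.gen m n s false) =
      G.zp n (inf_le_right : G.UZ s ≤ G.W01) •
        res (G.OO (-m) (-n)) (G.UZ_le s true) (G.gen m n s true) := by
  refine val_ext_Geo3 _ fun p hp => ?_
  change G.B ^ (-tw s m) * G.Z ^ (-tw false n) =
    toK hp (G.zp n (inf_le_right : G.UZ s ≤ G.W01)) * (G.B ^ (-tw s m) * G.Z ^ (-tw true n))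
  have h1 : G.Z ^ n ≠ 0 := zpow_ne_zero _ G.Z_ne
  rw [G.toK_zp, mul_left_comm]
  congr 1
  change G.Z ^ (-(0 : ℤ)) = G.Z ^ n * G.Z ^ (-n)
  rw [neg_zero, zpow_zero, zpow_neg, mul_inv_cancel₀ h1]

section fam

variable [CX X]

/-- A family of sections of `F` on the four charts which is a section of `F(m, n)`:
`s_0t = B^m s_1t` and `s_s0 = Z^n s_s1` on the overlaps. -/
def Fam (F : X.Modules) (m n : ℤ) : Submodule ℂ (∀ s t : Bool, Γ(F, G.U s t)) where
  carrier := {a | (∀ t, res F (G.UB_le false t) (a false t) =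
      G.bp m (inf_le_left : G.UB t ≤ G.V01) • res F (G.UB_le true t) (a true t)) ∧
    ∀ s, res F (G.UZ_le s false) (a s false) =
      G.zp n (inf_le_right : G.UZ s ≤ G.W01) • res F (G.UZ_le s true) (a s true)}
  add_mem' {a b} ha hb := ⟨fun t => by
      have h1 := ha.1 t
      have h2 := hb.1 t
      change res F _ (a false t + b false t) = _ • res F _ (a true t + b true t)
      rw [res_add, res_add, h1, h2, smul_add], fun s => by
      have h1 := ha.2 s
      have h2 := hb.2 s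
      change res F _ (a s false + b s false) = _ • res F _ (a s true + b s true)
      rw [res_add, res_add, h1, h2, smul_add]⟩
  zero_mem' := ⟨fun t => by
      change res F _ 0 = _ • res F _ 0
      rw [res_zero, res_zero, smul_zero], fun s => by
      change res F _ 0 = _ • res F _ 0
      rw [res_zero, res_zero, smul_zero]⟩
  smul_mem' c a ha := ⟨fun t => by
      have h1 := ha.1 t
      change resL F _ (c • a false t) = _ • resL F _ (c • a true t)
      rw [map_smul, map_smul, smul_comm]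
      exact congrArg (c • ·) h1, fun s => by
      have h1 := ha.2 s
      change resL F _ (c • a s false) = _ • resL F _ (c • a s true)
      rw [map_smul, map_smul, smul_comm]
      exact congrArg (c • ·) h1⟩

/-- The values of a morphism `O(-m, -n) → F` on the generators. -/
def famL (F : X.Modules) (m n : ℤ) : (G.OO (-m) (-n) ⟶ F) →ₗ[ℂ] (∀ s t : Bool, Γ(F, G.U s t)) :=
  LinearMap.pi fun s => LinearMap.pi fun t => evC F (G.gen m n s t)

theorem famL_apply (F : X.Modules) (m n : ℤ) (φ : G.OO (-m) (-n) ⟶ F) (s t : Bool) :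
    G.famL F m n φ s t = φ.app _ (G.gen m n s t) := rfl

/-- The transition from `U true t` to `U false t` and back on an open contained in both charts. -/
theorem relB_Geo3 (F : X.Modules) (m n : ℤ) (a : ∀ s t : Bool, Γ(F, G.U s t))
    (ha : a ∈ G.Fam F m n) (s s' t : Bool) {O : X.Opens} (h : O ≤ G.U s t) (h' : O ≤ G.U s' t) :
    ∃ u : Γ(X, O), res (G.OO (-m) (-n)) h (G.gen m n s t) =
      u • res (G.OO (-m) (-n)) h' (G.gen m n s' t) ∧ res F h (a s t) = u • res F h' (a s' t) := by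
  have key : ∀ (h0 : O ≤ G.U false t) (h1 : O ≤ G.U true t) (hO : O ≤ G.V01),
      res (G.OO (-m) (-n)) h0 (G.gen m n false t) =
        G.bp m hO • res (G.OO (-m) (-n)) h1 (G.gen m n true t) ∧
      res F h0 (a false t) = G.bp m hO • res F h1 (a true t) := by
    intro h0 h1 hO
    have hOB : O ≤ G.UB t := le_inf hO (h0.trans inf_le_right)
    have e1 := congrArg (res (G.OO (-m) (-n)) hOB) (G.gen_B m n t)
    have e2 := congrArg (res F hOB) (ha.1 t)
    rw [res_smul_Geo3, res_res, res_res] at e1 e2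
    have e3 : resF hOB (G.bp m (inf_le_left : G.UB t ≤ G.V01)) = G.bp m hO := G.bp_res m _ _
    rw [e3] at e1 e2
    exact ⟨e1, e2⟩
  cases s <;> cases s'
  · exact ⟨1, by rw [one_smul], by rw [one_smul]⟩
  · exact ⟨_, key h h' (le_inf (h.trans inf_le_left) (h'.trans inf_le_left))⟩
  · obtain ⟨e1, e2⟩ := key h' h (le_inf (h'.trans inf_le_left) (h.trans inf_le_left))
    have e3 : G.bp (-m) (le_inf (h'.trans inf_le_left) (h.trans inf_le_left)) *
        G.bp m (le_inf (h'.trans inf_le_left) (h.trans inf_le_left)) = 1 := by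
      rw [← G.bp_add, neg_add_cancel, G.bp_zero]
    refine ⟨G.bp (-m) (le_inf (h'.trans inf_le_left) (h.trans inf_le_left)), ?_, ?_⟩
    · rw [e1, smul_smul, e3, one_smul]
    · rw [e2, smul_smul, e3, one_smul]
  · exact ⟨1, by rw [one_smul], by rw [one_smul]⟩

theorem relZ_Geo3 (F : X.Modules) (m n : ℤ) (a : ∀ s t : Bool, Γ(F, G.U s t))
    (ha : a ∈ G.Fam F m n) (s t t' : Bool) {O : X.Opens} (h : O ≤ G.U s t) (h' : O ≤ G.U s t') :
    ∃ u : Γ(X, O), res (G.OO (-m) (-n)) h (G.gen m n s t) =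
      u • res (G.OO (-m) (-n)) h' (G.gen m n s t') ∧ res F h (a s t) = u • res F h' (a s t') := by
  have key : ∀ (h0 : O ≤ G.U s false) (h1 : O ≤ G.U s true) (hO : O ≤ G.W01),
      res (G.OO (-m) (-n)) h0 (G.gen m n s false) =
        G.zp n hO • res (G.OO (-m) (-n)) h1 (G.gen m n s true) ∧
      res F h0 (a s false) = G.zp n hO • res F h1 (a s true) := by
    intro h0 h1 hO
    have hOB : O ≤ G.UZ s := le_inf (h0.trans inf_le_left) hO
    have e1 := congrArg (res (G.OO (-m) (-n)) hOB) (G.gen_Z m n s)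
    have e2 := congrArg (res F hOB) (ha.2 s)
    rw [res_smul_Geo3, res_res, res_res] at e1 e2
    have e3 : resF hOB (G.zp n (inf_le_right : G.UZ s ≤ G.W01)) = G.zp n hO := G.zp_res n _ _
    rw [e3] at e1 e2
    exact ⟨e1, e2⟩
  cases t <;> cases t'
  · exact ⟨1, by rw [one_smul], by rw [one_smul]⟩
  · exact ⟨_, key h h' (le_inf (h.trans inf_le_right) (h'.trans inf_le_right))⟩
  · obtain ⟨e1, e2⟩ := key h' h (le_inf (h'.trans inf_le_right) (h.trans inf_le_right))
    have e3 : G.zp (-n) (le_inf (h'.trans inf_le_right) (h.trans inf_le_right)) *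
        G.zp n (le_inf (h'.trans inf_le_right) (h.trans inf_le_right)) = 1 := by
      rw [← G.zp_add, neg_add_cancel, G.zp_zero]
    refine ⟨G.zp (-n) (le_inf (h'.trans inf_le_right) (h.trans inf_le_right)), ?_, ?_⟩
    · rw [e1, smul_smul, e3, one_smul]
    · rw [e2, smul_smul, e3, one_smul]
  · exact ⟨1, by rw [one_smul], by rw [one_smul]⟩

/-- The transition between two charts on an open contained in both. -/
theorem rel_Geo3 (F : X.Modules) (m n : ℤ) (a : ∀ s t : Bool, Γ(F, G.U s t))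
    (ha : a ∈ G.Fam F m n) (s t s' t' : Bool) {O : X.Opens} (h : O ≤ G.U s t)
    (h' : O ≤ G.U s' t') :
    ∃ u : Γ(X, O), res (G.OO (-m) (-n)) h (G.gen m n s t) =
      u • res (G.OO (-m) (-n)) h' (G.gen m n s' t') ∧ res F h (a s t) = u • res F h' (a s' t') := by
  have h1 : O ≤ G.U s' t := le_inf (h'.trans inf_le_left) (h.trans inf_le_right)
  obtain ⟨u, hu1, hu2⟩ := G.relB_Geo3 F m n a ha s s' t h h1
  obtain ⟨v, hv1, hv2⟩ := G.relZ_Geo3 F m n a ha s' t t' h1 h'
  exact ⟨u * v, by rw [hu1, hv1, mul_smul], by rw [hu2, hv2, mul_smul]⟩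

/-- `y` is the image of `x` under the morphism defined by the family `a`. -/
def Img_Geo3 (F : X.Modules) (m n : ℤ) (a : ∀ s t : Bool, Γ(F, G.U s t)) {O : X.Opens}
    (x : Γ(G.OO (-m) (-n), O)) (y : Γ(F, O)) : Prop :=
  ∀ (W : X.Opens) (hW : W ≤ O) (s t : Bool) (h : W ≤ G.U s t), ∃ c : Γ(X, W),
    res (G.OO (-m) (-n)) hW x = c • res (G.OO (-m) (-n)) h (G.gen m n s t) ∧
      res F hW y = c • res F h (a s t)

theorem img_unique_Geo3 {F : X.Modules} {m n : ℤ} {a : ∀ s t : Bool, Γ(F, G.U s t)} {O : X.Opens}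
    {x : Γ(G.OO (-m) (-n), O)} {y y' : Γ(F, O)} (h : G.Img_Geo3 F m n a x y)
    (h' : G.Img_Geo3 F m n a x y') : y = y' := by
  refine sec_ext F fun p hp => ?_
  obtain ⟨s, t, hst⟩ := G.exists_mem_U p
  refine ⟨O ⊓ G.U s t, inf_le_left, ⟨hp, hst⟩, ?_⟩
  obtain ⟨c, hc1, hc2⟩ := h _ inf_le_left s t (inf_le_right : O ⊓ G.U s t ≤ G.U s t)
  obtain ⟨c', hc1', hc2'⟩ := h' _ inf_le_left s t (inf_le_right : O ⊓ G.U s t ≤ G.U s t)
  have e : c = c' := (G.existsUnique_gen m n s t _ _).unique hc1 hc1'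
  rw [hc2, hc2', e]

theorem exists_img_Geo3 {F : X.Modules} {m n : ℤ} {a : ∀ s t : Bool, Γ(F, G.U s t)}
    (ha : a ∈ G.Fam F m n) {O : X.Opens} (x : Γ(G.OO (-m) (-n), O)) :
    ∃ y : Γ(F, O), G.Img_Geo3 F m n a x y := by
  choose c hc _ using fun i : Bool × Bool => G.existsUnique_gen m n i.1 i.2
    (inf_le_right : O ⊓ G.U i.1 i.2 ≤ G.U i.1 i.2)
    (res (G.OO (-m) (-n)) (inf_le_left : O ⊓ G.U i.1 i.2 ≤ O) x)
  have hc' : ∀ (i : Bool × Bool) (W : X.Opens) (hW : W ≤ O) (h : W ≤ G.U i.1 i.2),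
      res (G.OO (-m) (-n)) hW x =
        resF (le_inf hW h) (c i) • res (G.OO (-m) (-n)) h (G.gen m n i.1 i.2) := by
    intro i W hW h
    have e := congrArg (res (G.OO (-m) (-n)) (le_inf hW h)) (hc i)
    rw [res_smul_Geo3, res_res, res_res] at e
    exact e
  obtain ⟨y, hy⟩ := exists_glue F (U := O) (fun i : Bool × Bool => O ⊓ G.U i.1 i.2)
    (fun i => inf_le_left) (fun p hp => by
      obtain ⟨s, t, hst⟩ := G.exists_mem_U p
      exact Opens.mem_iSup.mpr ⟨(s, t), hp, hst⟩)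
    (fun i => c i • res F inf_le_right (a i.1 i.2)) (fun i j => by
      have hi : (O ⊓ G.U i.1 i.2) ⊓ (O ⊓ G.U j.1 j.2) ≤ G.U i.1 i.2 :=
        inf_le_left.trans inf_le_right
      have hj : (O ⊓ G.U i.1 i.2) ⊓ (O ⊓ G.U j.1 j.2) ≤ G.U j.1 j.2 :=
        inf_le_right.trans inf_le_right
      have hO : (O ⊓ G.U i.1 i.2) ⊓ (O ⊓ G.U j.1 j.2) ≤ O := inf_le_left.trans inf_le_left
      obtain ⟨u, hu1, hu2⟩ := G.rel_Geo3 F m n a ha i.1 i.2 j.1 j.2 hi hj
      have e1 := hc' i _ hO hi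
      have e2 := hc' j _ hO hj
      rw [hu1, smul_smul] at e1
      have e3 := (G.existsUnique_gen m n j.1 j.2 hj _).unique e1 e2
      rw [res_smul_Geo3, res_smul_Geo3, res_res, res_res]
      change resF (le_inf hO hi) (c i) • res F hi (a i.1 i.2) =
        resF (le_inf hO hj) (c j) • res F hj (a j.1 j.2)
      rw [hu2, smul_smul, e3])
  refine ⟨y, fun W hW s t h => ⟨resF (le_inf hW h) (c (s, t)), hc' (s, t) W hW h, ?_⟩⟩
  have e := congrArg (res F (le_inf hW h)) (hy (s, t))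
  rw [res_smul_Geo3, res_res, res_res] at e
  exact e

theorem img_add_Geo3 {F : X.Modules} {m n : ℤ} {a : ∀ s t : Bool, Γ(F, G.U s t)} {O : X.Opens}
    {x x' : Γ(G.OO (-m) (-n), O)} {y y' : Γ(F, O)} (h : G.Img_Geo3 F m n a x y)
    (h' : G.Img_Geo3 F m n a x' y') : G.Img_Geo3 F m n a (x + x') (y + y') := by
  intro W hW s t hst
  obtain ⟨c, hc1, hc2⟩ := h W hW s t hst
  obtain ⟨c', hc1', hc2'⟩ := h' W hW s t hst
  exact ⟨c + c', by rw [res_add, hc1, hc1', add_smul], by rw [res_add, hc2, hc2', add_smul]⟩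

theorem img_smul_Geo3 {F : X.Modules} {m n : ℤ} {a : ∀ s t : Bool, Γ(F, G.U s t)} {O : X.Opens}
    {x : Γ(G.OO (-m) (-n), O)} {y : Γ(F, O)} (h : G.Img_Geo3 F m n a x y) (r : Γ(X, O)) :
    G.Img_Geo3 F m n a (r • x) (r • y) := by
  intro W hW s t hst
  obtain ⟨c, hc1, hc2⟩ := h W hW s t hst
  exact ⟨resF hW r * c, by rw [res_smul_Geo3, hc1, mul_smul],
    by rw [res_smul_Geo3, hc2, mul_smul]⟩

theorem img_res_Geo3 {F : X.Modules} {m n : ℤ} {a : ∀ s t : Bool, Γ(F, G.U s t)} {O O' : X.Opens}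
    {x : Γ(G.OO (-m) (-n), O)} {y : Γ(F, O)} (h : G.Img_Geo3 F m n a x y) (hO : O' ≤ O) :
    G.Img_Geo3 F m n a (res (G.OO (-m) (-n)) hO x) (res F hO y) := by
  intro W hW s t hst
  obtain ⟨c, hc1, hc2⟩ := h W (hW.trans hO) s t hst
  exact ⟨c, by rw [res_res, hc1], by rw [res_res, hc2]⟩

/-- Morphisms `O(-m, -n) → F` are the families `Fam F m n` (values on the generators). -/
theorem range_famL (F : X.Modules) (m n : ℤ) : LinearMap.range (G.famL F m n) = G.Fam F m n := by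
  apply le_antisymm
  · rintro _ ⟨φ, rfl⟩
    refine ⟨fun t => ?_, fun s => ?_⟩
    · change res F _ (φ.app _ (G.gen m n false t)) = _ • res F _ (φ.app _ (G.gen m n true t))
      rw [← app_res, ← app_res, G.gen_B, Scheme.Modules.Hom.app_smul]
    · change res F _ (φ.app _ (G.gen m n s false)) = _ • res F _ (φ.app _ (G.gen m n s true))
      rw [← app_res, ← app_res, G.gen_Z, Scheme.Modules.Hom.app_smul]
  · intro a ha
    choose f hf using fun (O : X.Opens) (x : Γ(G.OO (-m) (-n), O)) => G.exists_img_Geo3 ha x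
    refine ⟨mkHom f (fun O x x' => G.img_unique_Geo3 (hf O _) (G.img_add_Geo3 (hf O x) (hf O x')))
      (fun O r x => G.img_unique_Geo3 (hf O _) (G.img_smul_Geo3 (hf O x) r))
      (fun {O O'} h x => G.img_unique_Geo3 (hf O' _) (G.img_res_Geo3 (hf O x) h)), ?_⟩
    funext s t
    change f _ (G.gen m n s t) = a s t
    exact G.img_unique_Geo3 (hf _ _) fun W hW s' t' h => G.rel_Geo3 F m n a ha s t s' t' hW h

theorem famL_injective (F : X.Modules) (m n : ℤ) : Function.Injective (G.famL F m n) := by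
  intro φ ψ h
  refine hom_ext_app fun O x => sec_ext F fun p hp => ?_
  obtain ⟨s, t, hst⟩ := G.exists_mem_U p
  refine ⟨O ⊓ G.U s t, inf_le_left, ⟨hp, hst⟩, ?_⟩
  obtain ⟨c, hc, -⟩ := G.existsUnique_gen m n s t (inf_le_right : O ⊓ G.U s t ≤ G.U s t)
    (res (G.OO (-m) (-n)) (inf_le_left : O ⊓ G.U s t ≤ O) x)
  have e : φ.app _ (G.gen m n s t) = ψ.app _ (G.gen m n s t) := congrFun (congrFun h s) t
  rw [← app_res, ← app_res, hc, Scheme.Modules.Hom.app_smul, Scheme.Modules.Hom.app_smul, app_res,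
    app_res, e]

/-- Morphisms `O(-m, -n) → F` as families. -/
def famEquiv (F : X.Modules) (m n : ℤ) : (G.OO (-m) (-n) ⟶ F) ≃ₗ[ℂ] G.Fam F m n :=
  (LinearEquiv.ofInjective (G.famL F m n) (G.famL_injective F m n)).trans
    (LinearEquiv.ofEq _ _ (G.range_famL F m n))

theorem famEquiv_apply (F : X.Modules) (m n : ℤ) (φ : G.OO (-m) (-n) ⟶ F) (s t : Bool) :
    (G.famEquiv F m n φ).1 s t = φ.app _ (G.gen m n s t) := rfl

/-- A family gives a morphism. -/
theorem exists_hom_of_fam (F : X.Modules) (m n : ℤ) (a : ∀ s t : Bool, Γ(F, G.U s t))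
    (ha : a ∈ G.Fam F m n) : ∃ φ : G.OO (-m) (-n) ⟶ F, ∀ s t, φ.app _ (G.gen m n s t) = a s t := by
  rw [← G.range_famL F m n] at ha
  obtain ⟨φ, rfl⟩ := ha
  exact ⟨φ, fun s t => rfl⟩

end fam

end BiP

end M21.E3
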