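import Pool.Agent.H.MP_21b43d_ag.E3.G.Split

/-!
# M21, existence part, C13a: Hartogs for sections of split sheaves
-/

open CategoryTheory CategoryTheory.Limits AlgebraicGeometry TopologicalSpace

noncomputable section

namespace M21.E3

section alg

open Polynomial

theorem indep_tower_HartA {R S A κ ι : Type} [CommRing R] [CommRing S] [Algebra R S]
    [AddCommGroup A] [Module R A] [Module S A] [IsScalarTower R S A] (b : Module.Basis κ R S)
    (c : ι → A) (h : LinearIndependent R (fun p : κ × ι => b p.1 • c p.2)) :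
    LinearIndependent S c := by
  classical
  rw [linearIndependent_iff'] at h ⊢
  intro s g hg
  let T : Finset κ := s.biUnion fun l => (b.repr (g l)).support
  have h1 : ∀ l ∈ s, g l = ∑ k ∈ T, b.repr (g l) k • b k := by
    intro l hl
    conv_lhs => rw [← b.linearCombination_repr (g l)]
    rw [Finsupp.linearCombination_apply, Finsupp.sum]
    refine Finset.sum_subset (Finset.subset_biUnion_of_mem (fun l => (b.repr (g l)).support) hl) ?_
    intro k _ hk
    rw [Finsupp.notMem_support_iff.1 hk, zero_smul]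
  have h2 : ∑ p ∈ T ×ˢ s, b.repr (g p.2) p.1 • (b p.1 • c p.2) = 0 := by
    rw [Finset.sum_product_right, ← hg]
    refine Finset.sum_congr rfl fun l hl => ?_
    conv_rhs => rw [h1 l hl]
    rw [Finset.sum_smul]
    refine Finset.sum_congr rfl fun k _ => ?_
    rw [smul_assoc]
  have h3 := h _ (fun p => b.repr (g p.2) p.1) h2
  intro l hl
  rw [h1 l hl]
  refine Finset.sum_eq_zero fun k hk => ?_
  rw [h3 (k, l) (Finset.mem_product.2 ⟨hk, hl⟩), zero_smul]

theorem isRelPrime_HartA {p q : Polynomial ℂ} (hp : p ≠ 0) (hq : q ≠ 0) :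
    IsRelPrime (p.map C) (C q : (Polynomial (Polynomial ℂ))) := by
  intro d h1 h2
  have h3 : d.natDegree = 0 := by
    have := natDegree_le_of_dvd h2 (C_ne_zero.2 hq)
    rw [natDegree_C] at this
    omega
  obtain ⟨d0, rfl⟩ := natDegree_eq_zero.1 h3
  rw [C_dvd_iff_dvd_coeff] at h1
  have h4 := h1 p.natDegree
  rw [coeff_map] at h4
  have h5 : IsUnit (C (p.coeff p.natDegree) : (Polynomial ℂ)) := by
    rw [isUnit_C, isUnit_iff_ne_zero]
    exact leadingCoeff_ne_zero.2 hp
  exact (isUnit_of_dvd_unit h4 h5).map C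

/-- Abstract Hartogs lemma. -/
theorem hartogs_abs_HartA {A K ι : Type} [CommRing A] [IsDomain A] [DecompositionMonoid A] [Field K]
    [Algebra A K] (f : ι → K) (hf : LinearIndependent A f) (p q : A) (hpq : IsRelPrime p q)
    (hp : algebraMap A K p ≠ 0) (g : K) (h1 : p • g ∈ Submodule.span A (Set.range f))
    (h2 : q • g ∈ Submodule.span A (Set.range f)) : g ∈ Submodule.span A (Set.range f) := by
  rw [Finsupp.mem_span_range_iff_exists_finsupp] at h1 h2
  obtain ⟨Y, hY⟩ := h1
  obtain ⟨H, hH⟩ := h2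
  have h3 : q • Y = p • H := by
    apply hf
    rw [map_smul, map_smul, Finsupp.linearCombination_apply, Finsupp.linearCombination_apply, hY, hH,
      smul_smul, smul_smul, mul_comm]
  have h4 : ∀ l, p ∣ Y l := by
    intro l
    have h5 := DFunLike.congr_fun h3 l
    simp only [Finsupp.smul_apply, smul_eq_mul] at h5
    exact hpq.dvd_of_dvd_mul_left ⟨H l, h5⟩
  choose W hW using h4
  have hp0 : p ≠ 0 := by
    rintro rfl
    exact hp (map_zero _)
  have hsupp : ∀ l, W l ≠ 0 → l ∈ Y.support := by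
    intro l hl
    rw [Finsupp.mem_support_iff, hW]
    exact mul_ne_zero hp0 hl
  let W' : ι →₀ A := Finsupp.onFinset Y.support W hsupp
  have h5 : p • W' = Y := by
    ext l
    rw [Finsupp.smul_apply, Finsupp.onFinset_apply, smul_eq_mul, ← hW]
  have h6 : algebraMap A K p * g = algebraMap A K p * Finsupp.linearCombination A f W' := by
    rw [← Algebra.smul_def, ← Algebra.smul_def, ← map_smul, h5, Finsupp.linearCombination_apply, hY]
  rw [mul_left_cancel₀ hp h6]
  exact (Finsupp.mem_span_range_iff_exists_finsupp).2 ⟨W', rfl⟩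

/-- the values of bivariate polynomials -/
def ev_HartA {K : Type} [Field K] [Algebra ℂ K] (β ζ : K) : (Polynomial (Polynomial ℂ)) →ₐ[ℂ] K := aevalAeval ζ β

theorem ev_C_HartA {K : Type} [Field K] [Algebra ℂ K] (β ζ : K) (q : (Polynomial ℂ)) :
    ev_HartA β ζ (C q) = aeval ζ q := by
  rw [ev_HartA, aevalAeval_C]

theorem ev_map_HartA {K : Type} [Field K] [Algebra ℂ K] (β ζ : K) (p : (Polynomial ℂ)) :
    ev_HartA β ζ (p.map C) = aeval β p := by
  rw [ev_HartA, ← Bivariate.swap_C, Bivariate.aevalAeval_swap, aevalAeval_C]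

theorem ev_monomial_HartA {K : Type} [Field K] [Algebra ℂ K] (β ζ : K) (i j : ℕ) (c : ℂ) :
    ev_HartA β ζ (monomial i (monomial j c)) = algebraMap ℂ K c * (β ^ i * ζ ^ j) := by
  rw [← C_mul_X_pow_eq_monomial, map_mul, map_pow, ev_C_HartA, ← C_mul_X_pow_eq_monomial, map_mul,
    map_pow, aeval_C, aeval_X, ev_HartA, aevalAeval_Y]
  ring

section

variable {K ι : Type} [Field K] [Algebra ℂ K]

/-- `K` as an algebra over the polynomials -/
abbrev alg_HartA (β ζ : K) : Algebra (Polynomial (Polynomial ℂ)) K := (ev_HartA β ζ).toRingHom.toAlgebra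

theorem indep_HartA (β ζ : K) (f : ι → K)
    (h : LinearIndependent ℂ (fun x : ι × ℕ × ℕ => β ^ x.2.1 * ζ ^ x.2.2 * f x.1)) :
    letI := alg_HartA β ζ
    LinearIndependent (Polynomial (Polynomial ℂ)) f := by
  let _ := alg_HartA β ζ
  have : IsScalarTower ℂ (Polynomial (Polynomial ℂ)) K :=
    IsScalarTower.of_algebraMap_eq' (ev_HartA β ζ).comp_algebraMap.symm
  refine indep_tower_HartA ((Polynomial.basisMonomials ℂ).smulTower (Polynomial.basisMonomials (Polynomial ℂ)))
    f ?_
  have h1 := h.comp (fun p : (ℕ × ℕ) × ι => (p.2, p.1.2, p.1.1)) (by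
    rintro ⟨⟨a, b⟩, c⟩ ⟨⟨a', b'⟩, c'⟩ e
    simp only [Prod.mk.injEq] at e
    obtain ⟨rfl, rfl, rfl⟩ := e
    rfl)
  have e : (fun p : (ℕ × ℕ) × ι => ((Polynomial.basisMonomials ℂ).smulTower
      (Polynomial.basisMonomials (Polynomial ℂ))) p.1 • f p.2) =
      (fun x : ι × ℕ × ℕ => β ^ x.2.1 * ζ ^ x.2.2 * f x.1) ∘
        fun p : (ℕ × ℕ) × ι => (p.2, p.1.2, p.1.1) := by
    funext p
    rw [Module.Basis.smulTower_apply, Function.comp_apply, coe_basisMonomials, coe_basisMonomials,
      smul_monomial, smul_eq_mul, mul_one]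
    change ev_HartA β ζ _ * _ = _
    rw [ev_monomial_HartA, map_one, one_mul]
  rw [e]
  exact h1

theorem span_HartA (β ζ : K) (f : ι → K) (g : K) :
    letI := alg_HartA β ζ
    g ∈ Submodule.span (Polynomial (Polynomial ℂ)) (Set.range f) ↔
      g ∈ Submodule.span ℂ (Set.range (fun x : ι × ℕ × ℕ => β ^ x.2.1 * ζ ^ x.2.2 * f x.1)) := by
  let _ := alg_HartA β ζ
  have : IsScalarTower ℂ (Polynomial (Polynomial ℂ)) K :=
    IsScalarTower.of_algebraMap_eq' (ev_HartA β ζ).comp_algebraMap.symm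
  constructor
  · intro h
    induction h using Submodule.span_induction with
    | mem x hx =>
      obtain ⟨l, rfl⟩ := hx
      refine Submodule.subset_span ⟨(l, 0, 0), ?_⟩
      simp
    | zero => exact zero_mem _
    | add x y _ _ hx hy => exact add_mem hx hy
    | smul F x hx0 hx =>
      clear hx0
      change ev_HartA β ζ F * x ∈ _
      induction F using Polynomial.induction_on' with
      | add F F' hF hF' =>
        rw [map_add, add_mul]
        exact add_mem hF hF'
      | monomial i a =>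
        induction a using Polynomial.induction_on' with
        | add a a' ha ha' =>
          rw [map_add, map_add, add_mul]
          exact add_mem ha ha'
        | monomial j c =>
          rw [ev_monomial_HartA, mul_assoc, ← Algebra.smul_def]
          apply Submodule.smul_mem
          induction hx using Submodule.span_induction with
          | mem x hx =>
            obtain ⟨⟨l, i', j'⟩, rfl⟩ := hx
            refine Submodule.subset_span ⟨(l, i + i', j + j'), ?_⟩
            simp only [pow_add]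
            ring
          | zero => rw [mul_zero]; exact zero_mem _
          | add x y _ _ hx hy => rw [mul_add]; exact add_mem hx hy
          | smul c x _ hx => rw [mul_smul_comm]; exact Submodule.smul_mem _ _ hx
  · intro h
    induction h using Submodule.span_induction with
    | mem x hx =>
      obtain ⟨⟨l, i, j⟩, rfl⟩ := hx
      have h1 := Submodule.smul_mem (Submodule.span (Polynomial (Polynomial ℂ)) (Set.range f)) (monomial i (monomial j 1))
        (Submodule.subset_span (Set.mem_range_self l))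
      have h2 : (monomial i (monomial j 1) : (Polynomial (Polynomial ℂ))) • f l = β ^ i * ζ ^ j * f l := by
        change ev_HartA β ζ _ * _ = _
        rw [ev_monomial_HartA, map_one, one_mul]
      rw [h2] at h1
      exact h1
    | zero => exact zero_mem _
    | add x y _ _ hx hy => exact add_mem hx hy
    | smul c x _ hx =>
      rw [← algebraMap_smul (Polynomial (Polynomial ℂ)) c x]
      exact Submodule.smul_mem _ _ hx

/-- Hartogs for free modules -/
theorem hartogs_HartA (β ζ : K) (f : ι → K)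
    (h : LinearIndependent ℂ (fun x : ι × ℕ × ℕ => β ^ x.2.1 * ζ ^ x.2.2 * f x.1))
    (g : K) (p q : (Polynomial ℂ)) (hp : aeval β p ≠ 0) (hq : q ≠ 0)
    (h1 : aeval β p * g ∈
      Submodule.span ℂ (Set.range (fun x : ι × ℕ × ℕ => β ^ x.2.1 * ζ ^ x.2.2 * f x.1)))
    (h2 : aeval ζ q * g ∈
      Submodule.span ℂ (Set.range (fun x : ι × ℕ × ℕ => β ^ x.2.1 * ζ ^ x.2.2 * f x.1))) :
    g ∈ Submodule.span ℂ (Set.range (fun x : ι × ℕ × ℕ => β ^ x.2.1 * ζ ^ x.2.2 * f x.1)) := by
  let _ := alg_HartA β ζ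
  have hp0 : p ≠ 0 := by
    rintro rfl
    exact hp (map_zero _)
  rw [← span_HartA] at h1 h2 ⊢
  refine hartogs_abs_HartA f (indep_HartA β ζ f h) (p.map C) (C q)
    (isRelPrime_HartA hp0 hq) ?_ g ?_ ?_
  · change ev_HartA β ζ _ ≠ 0
    rwa [ev_map_HartA]
  · change ev_HartA β ζ _ * _ ∈ _
    rwa [ev_map_HartA]
  · change ev_HartA β ζ _ * _ ∈ _
    rwa [ev_C_HartA]

theorem ne_HartA (β ζ : K) (f : ι → K) (l : ι)
    (h : LinearIndependent ℂ (fun x : ι × ℕ × ℕ => β ^ x.2.1 * ζ ^ x.2.2 * f x.1))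
    (F : (Polynomial (Polynomial ℂ))) (hF : F ≠ 0) : ev_HartA β ζ F ≠ 0 := by
  let _ := alg_HartA β ζ
  intro e
  have h1 := indep_HartA β ζ f h
  apply hF
  have h2 := (linearIndependent_iff.1 h1) (Finsupp.single l F) (by
    rw [Finsupp.linearCombination_single]
    change ev_HartA β ζ F * _ = 0
    rw [e, zero_mul])
  rwa [Finsupp.single_eq_zero] at h2

end

end alg

variable {X : Scheme.{0}} [IsIntegral X] [CX X]

namespace BiP

variable {G : BiP X} {ι : Type}

/-- the generators over a chart -/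
def gen_HartA {N : Frac X} (T : G.Split N ι) (s t : Bool) (l : ι) : X.functionField :=
  G.B ^ tw s (T.a l) * G.Z ^ tw t (T.b l) * T.e l

theorem mon_HartA {N : Frac X} (T : G.Split N ι) (s t : Bool) (l : ι) (i j : ℕ) :
    (G.B ^ sg s) ^ i * (G.Z ^ sg t) ^ j * gen_HartA T s t l =
      G.B ^ (sg s * i + tw s (T.a l)) * G.Z ^ (sg t * j + tw t (T.b l)) * T.e l := by
  rw [gen_HartA, zpow_add₀ G.B_ne, zpow_add₀ G.Z_ne, zpow_mul, zpow_mul, zpow_natCast, zpow_natCast]
  ring

theorem Rg_HartA (s : Bool) (a : ℤ) (i : ℕ) : Rg s a (sg s * i + tw s a) := by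
  cases s
  · simp [Rg, sg, tw]
  · simp [Rg, sg, tw]

theorem sg_inj_HartA (s : Bool) (a : ℤ) (i j : ℕ) (h : sg s * i + tw s a = sg s * j + tw s a) :
    i = j := by
  cases s
  · simpa [sg, tw] using h
  · simpa [sg, tw] using h

theorem secs_eq_HartA {N : Frac X} (T : G.Split N ι) (s t : Bool) :
    N.secs (G.U s t) = Submodule.span ℂ (Set.range (fun x : ι × ℕ × ℕ =>
      (G.B ^ sg s) ^ x.2.1 * (G.Z ^ sg t) ^ x.2.2 * gen_HartA T s t x.1)) := by
  rw [T.secs s t, spanR]
  congr 1
  ext g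
  constructor
  · rintro ⟨l, p, q, ⟨h1, h2⟩, rfl⟩
    obtain ⟨i, rfl⟩ := exists_nat_Split s _ p h1
    obtain ⟨j, rfl⟩ := exists_nat_Split t _ q h2
    exact ⟨(l, i, j), mon_HartA T s t l i j⟩
  · rintro ⟨⟨l, i, j⟩, rfl⟩
    exact ⟨l, _, _, ⟨Rg_HartA s _ i, Rg_HartA t _ j⟩, mon_HartA T s t l i j⟩

theorem indep_geo_HartA {N : Frac X} (T : G.Split N ι) (s t : Bool) :
    LinearIndependent ℂ (fun x : ι × ℕ × ℕ =>
      (G.B ^ sg s) ^ x.2.1 * (G.Z ^ sg t) ^ x.2.2 * gen_HartA T s t x.1) := by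
  have h := T.indep.comp (fun x : ι × ℕ × ℕ =>
    (x.1, sg s * (x.2.1 : ℤ) + tw s (T.a x.1), sg t * (x.2.2 : ℤ) + tw t (T.b x.1))) (by
      rintro ⟨l, i, j⟩ ⟨l', i', j'⟩ e
      simp only [Prod.mk.injEq] at e
      obtain ⟨rfl, e1, e2⟩ := e
      rw [sg_inj_HartA s _ _ _ e1, sg_inj_HartA t _ _ _ e2])
  have e : (fun x : ι × ℕ × ℕ =>
      (G.B ^ sg s) ^ x.2.1 * (G.Z ^ sg t) ^ x.2.2 * gen_HartA T s t x.1) =
      (fun x : ι × ℤ × ℤ => G.B ^ x.2.1 * G.Z ^ x.2.2 * T.e x.1) ∘ fun x : ι × ℕ × ℕ =>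
    (x.1, sg s * (x.2.1 : ℤ) + tw s (T.a x.1), sg t * (x.2.2 : ℤ) + tw t (T.b x.1)) := by
    funext x
    exact mon_HartA T s t x.1 x.2.1 x.2.2
  rw [e]
  exact h

/-- Powers: polynomials in a transcendental element are nonzero. -/
theorem Split.aeval_B_ne {N : Frac X} (T : G.Split N ι) [Nonempty ι] (s : Bool)
    (p : Polynomial ℂ) (hp : p ≠ 0) : Polynomial.aeval (G.B ^ sg s) p ≠ 0 := by
  obtain ⟨l⟩ := ‹Nonempty ι›
  rw [← ev_map_HartA _ (G.Z ^ sg false) p]
  exact ne_HartA _ _ _ l (indep_geo_HartA T s false) _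
    ((Polynomial.map_ne_zero_iff Polynomial.C_injective).2 hp)

theorem Split.aeval_Z_ne {N : Frac X} (T : G.Split N ι) [Nonempty ι] (t : Bool)
    (p : Polynomial ℂ) (hp : p ≠ 0) : Polynomial.aeval (G.Z ^ sg t) p ≠ 0 := by
  obtain ⟨l⟩ := ‹Nonempty ι›
  rw [← ev_C_HartA (G.B ^ sg false) _ p]
  exact ne_HartA _ _ _ l (indep_geo_HartA T false t) _ (Polynomial.C_ne_zero.2 hp)

/-- Hartogs for split sheaves: if `p(b) g` and `q(z) g` are sections over `U s t`, with `p(b) ≠ 0` in
the function field and `q ≠ 0`, then `g` is a section. -/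
theorem Split.hartogs_of_ne {N : Frac X} (T : G.Split N ι) (s t : Bool) (g : X.functionField)
    (p q : Polynomial ℂ) (hp : Polynomial.aeval (G.B ^ sg s) p ≠ 0) (hq : q ≠ 0)
    (h1 : Polynomial.aeval (G.B ^ sg s) p * g ∈ N.secs (G.U s t))
    (h2 : Polynomial.aeval (G.Z ^ sg t) q * g ∈ N.secs (G.U s t)) : g ∈ N.secs (G.U s t) := by
  rw [secs_eq_HartA T] at h1 h2 ⊢
  exact hartogs_HartA _ _ _ (indep_geo_HartA T s t) g p q hp hq h1 h2

/-- Hartogs for split sheaves: if `p(b) g` and `q(z) g` are sections over `U s t` with nonzero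
polynomials `p`, `q` in the coordinates `b`, `z` of the chart, then `g` is a section: `N(U s t)`
is a free `ℂ[b, z]`-module, and `p(b)`, `q(z)` are relatively prime in the factorial ring
`ℂ[b, z]`. -/
theorem Split.hartogs {N : Frac X} (T : G.Split N ι) [Nonempty ι] (s t : Bool)
    (g : X.functionField) (p q : Polynomial ℂ) (hp : p ≠ 0) (hq : q ≠ 0)
    (h1 : Polynomial.aeval (G.B ^ sg s) p * g ∈ N.secs (G.U s t))
    (h2 : Polynomial.aeval (G.Z ^ sg t) q * g ∈ N.secs (G.U s t)) : g ∈ N.secs (G.U s t) :=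
  T.hartogs_of_ne s t g p q (T.aeval_B_ne s p hp) hq h1 h2

/-- An element of a module over a `ℂ`-algebra with finite dimensional quotient: for every `b` in the
algebra a nonzero polynomial in `b` moves `y` into the submodule. -/
theorem exists_poly_mem {R M : Type} [CommRing R] [Algebra ℂ R] [AddCommGroup M] [Module R M]
    [Module ℂ M] [IsScalarTower ℂ R M] (P : Submodule R M) {Q : Type} [AddCommGroup Q] [Module R Q]
    [Module ℂ Q] [IsScalarTower ℂ R Q] [FiniteDimensional ℂ Q] (π : M →ₗ[R] Q)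
    (hπ : ∀ y, π y = 0 → y ∈ P) (b : R) (y : M) :
    ∃ p : Polynomial ℂ, p ≠ 0 ∧ Polynomial.aeval b p • y ∈ P := by
  let T : Module.End ℂ Q := Algebra.lsmul ℂ ℂ Q b
  refine ⟨T.charpoly, T.charpoly_monic.ne_zero, hπ _ ?_⟩
  have h1 : Algebra.lsmul ℂ ℂ Q (Polynomial.aeval b T.charpoly) = 0 := by
    rw [← Polynomial.aeval_algHom_apply]
    exact T.aeval_self_charpoly
  have h2 := LinearMap.congr_fun h1 (π y)
  rw [map_smul]
  exact h2

end BiP

end M21.E3
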