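import Pool.Agent.H.MP_21b43d_ag.E3.G.Rkg
import Pool.Agent.H.MP_21b43d_ag.E3.G.GenHom
import Pool.Agent.H.MP_21b43d_ag.E3.G.ExtUU
import Pool.Agent.H.MP_21b43d_ag.E3.G.HartA

/-!
# M21, existence part, C13b: the Hartogs property of split sheaves
-/

open CategoryTheory CategoryTheory.Limits AlgebraicGeometry TopologicalSpace

noncomputable section

namespace M21.E3

variable {X : Scheme.{0}} [IsIntegral X] [CX X]

namespace BiP

variable {G : BiP X} {ι : Type}

theorem toK_aeval_b_HartG (s t : Bool) (p : Polynomial ℂ) :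
    toK (G.pt_mem_U s t) (Polynomial.aeval (G.bc s (inf_le_left : G.U s t ≤ G.V s)) p) =
      Polynomial.aeval (G.B ^ sg s) p := by
  rw [← toKA_apply, ← Polynomial.aeval_algHom_apply, toKA_apply, G.toK_bc]

theorem toK_aeval_z_HartG (s t : Bool) (p : Polynomial ℂ) :
    toK (G.pt_mem_U s t) (Polynomial.aeval (G.zc t (inf_le_right : G.U s t ≤ G.W t)) p) =
      Polynomial.aeval (G.Z ^ sg t) p := by
  rw [← toKA_apply, ← Polynomial.aeval_algHom_apply, toKA_apply, G.toK_zc]

variable [IsLocallyNoetherian X] [Fintype ι] {κ : Type}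

/-- Over the charts, a nonzero polynomial in a given function moves a section of `M'` into `M`. -/
theorem exists_poly_HartG (S : G.Split (FO X) ι) {M M' : X.Modules} (i : M ⟶ M') [Mono i]
    (hM : IsCoh M) (hM' : IsCoh M') (hr : (rdx S).r (cokernel i) = 0)
    (hD : (rdx S).D (cokernel i) = 0) (s t : Bool) (b : Γ(X, G.U s t)) (y : Γ(M', G.U s t)) :
    ∃ p : Polynomial ℂ, p ≠ 0 ∧ ∃ x : Γ(M, G.U s t), i.app _ x = Polynomial.aeval b p • y := by
  have hc : IsCoh (cokernel i) := (wserre_isCoh X).cokernel i hM hM'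
  have := finite_of_RD_zero S hc hr hD s t
  obtain ⟨p, hp, hx⟩ := exists_poly_mem (LinearMap.range (appL i (G.U s t)))
    (appL (cokernel.π i) (G.U s t)) (fun y hy => exists_of_cokernel i y hy) b y
  exact ⟨p, hp, hx⟩

/-- Split sheaves have the Hartogs property: let `M → M'` be a monomorphism with cokernel `T` with
`r = D = 0`, `ψ : M → N`. Over each chart `T(U s t)` is finite dimensional, so for
`y ∈ M'(U s t)` there are nonzero polynomials with `p(b) y, q(z) y ∈ M(U s t)` (`exists_poly_mem`,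
`exists_of_cokernel`). In particular `M'(UU)/M(UU)` is torsion, and the `K`-valued map of `ψ` extends to
`κ' : M'(UU) → K` (`exists_ext_UU`); for `y ∈ M'(U s t)`, `p(b) κ'(y)` and `q(z) κ'(y)` are in
`N(U s t)`, so `κ'(y) ∈ N(U s t)` (`Split.hartogs`); `exists_hom_frac` gives `ψ'`. -/
theorem Split.hart (S : G.Split (FO X) ι) {N : Frac X} (T : G.Split N κ) (hN : QC N.mod) :
    Hart (rdx S) N.mod := by
  intro M M' i hi hM hM' hr hD ψ
  have hne : Nonempty ι := S.nonempty
  have htors : ∀ y : Γ(M', G.UU), ∃ a : Γ(X, G.UU), toK G.pt_mem a ≠ 0 ∧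
      ∃ x : Γ(M, G.UU), i.app _ x = a • y := by
    intro y
    obtain ⟨n, y', hy'⟩ := hM'.qc.ext' (G.aff false false)
      (G.bc false (inf_le_left : G.U false false ≤ G.V false) *
        G.zc false (inf_le_right : G.U false false ≤ G.W false)) (G.UU_le false false)
      (G.basicOpen_bc_zc false false).symm y
    obtain ⟨p, hp, x, hx⟩ := exists_poly_HartG S i hM hM' hr hD false false
      (G.bc false (inf_le_left : G.U false false ≤ G.V false)) y'
    refine ⟨resF (G.UU_le false false) (Polynomial.aeval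
      (G.bc false (inf_le_left : G.U false false ≤ G.V false)) p) *
      resF (G.UU_le false false) (G.bc false (inf_le_left : G.U false false ≤ G.V false) *
        G.zc false (inf_le_right : G.U false false ≤ G.W false)) ^ n, ?_,
      res M (G.UU_le false false) x, ?_⟩
    · rw [map_mul, map_pow, toK_res, toK_res, toK_aeval_b_HartG, map_mul, G.toK_bc, G.toK_zc]
      exact mul_ne_zero (Split.aeval_B_ne S false p hp)
        (pow_ne_zero _ (mul_ne_zero (zpow_ne_zero _ G.B_ne) (zpow_ne_zero _ G.Z_ne)))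
    · rw [app_res, hx, res_smul', hy', smul_smul]
  obtain ⟨κ', hadd, hsmul, hκ⟩ := exists_ext_UU G i htors
    (fun x => N.val G.pt_mem (ψ.app G.UU x))
    (fun x x' => by rw [app_add, N.val_add])
    (fun a x => by rw [Scheme.Modules.Hom.app_smul, N.val_smul])
  have key : ∀ (s t : Bool) (y : Γ(M', G.U s t)) (a : Γ(X, G.U s t)) (x : Γ(M, G.U s t)),
      i.app _ x = a • y →
      toK (G.pt_mem_U s t) a * κ' (res M' (G.UU_le s t) y) ∈ N.secs (G.U s t) := by
    intro s t y a x hx
    have h1 : toK (G.pt_mem_U s t) a * κ' (res M' (G.UU_le s t) y) =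
        N.val (G.pt_mem_U s t) (ψ.app _ x) := by
      rw [← toK_res (G.UU_le s t) G.pt_mem, ← hsmul, ← res_smul', ← hx, ← app_res, hκ, app_res,
        N.val_res]
    rw [h1]
    exact fun q hq => N.val_mem _ hq _
  obtain ⟨ψ', hψ'⟩ := exists_hom_frac G hM'.qc N κ' hadd hsmul (by
    intro s t y
    have h0 : κ' (res M' (G.UU_le s t) y) ∈ N.secs (G.U s t) := by
      obtain ⟨p, hp, x, hx⟩ := exists_poly_HartG S i hM hM' hr hD s t
        (G.bc s (inf_le_left : G.U s t ≤ G.V s)) y
      obtain ⟨q, hq, z, hz⟩ := exists_poly_HartG S i hM hM' hr hD s t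
        (G.zc t (inf_le_right : G.U s t ≤ G.W t)) y
      refine Split.hartogs_of_ne T s t _ p q (Split.aeval_B_ne S s p hp) hq ?_ ?_
      · rw [← toK_aeval_b_HartG s t p]
        exact key s t y _ x hx
      · rw [← toK_aeval_z_HartG s t q]
        exact key s t y _ z hz
    exact h0)
  refine ⟨ψ', hom_ext_UU G hM.qc fun x => ?_⟩
  rw [comp_app_apply, hψ', hκ]

end BiP

end M21.E3
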