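import Pool.Agent.H.MP_21b43d_ag.E3.G.Num
import Pool.Agent.H.MP_21b43d_ag.E3.G.HartG
import Pool.Agent.H.MP_21b43d_ag.E3.G.Embed
import Pool.Agent.H.MP_21b43d_ag.E3.G.DualC
import Pool.Agent.H.MP_21b43d_ag.E3.Rk3
import Pool.Agent.H.MP_21b43d_ag.E3.MainB
import Pool.Agent.H.MP_21b43d_ag.Defs

/-!
# M21, existence part, C21: existence of a stability condition
-/

open CategoryTheory CategoryTheory.Limits CategoryTheory.Pretriangulated AlgebraicGeometry
  TopologicalSpace

noncomputable section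

namespace M21.E3

variable {X : Scheme.{0}} [IsIntegral X] [CX X] [IsLocallyNoetherian X]

namespace BiP

variable {G : BiP X} {ι : Type} [Fintype ι]

/-- An alternating sum with support in `{0, 1, 2}`. -/
theorem altSum_le_MainG (a : ℤ → ℕ) (h : ∀ i, i < 0 ∨ 2 < i → a i = 0) :
    altSum a ≤ a 0 + a 2 := by
  have h1 : altSum a = a 0 - a 1 + a 2 := by
    unfold altSum
    rw [finsum_eq_sum_of_support_subset (s := {0, 1, 2})]
    · have h2 : (Int.negOnePow 2 : ℤ) = 1 := by rw [Int.negOnePow_even 2 (by decide)]; rfl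
      rw [Finset.sum_insert (by decide), Finset.sum_insert (by decide), Finset.sum_singleton, h2]
      simp
      ring
    · intro i hi
      rw [Function.mem_support] at hi
      simp only [Finset.coe_insert, Finset.coe_singleton, Set.mem_insert_iff,
        Set.mem_singleton_iff]
      by_contra hcon
      apply hi
      rw [h i (by omega), Nat.cast_zero, mul_zero]
  rw [h1]
  have := Int.natCast_nonneg (a 1)
  omega

/-- `χ(M) ≤ h^0(M) + h^2(M)` and `h^2(M) ≤ dim Hom(M, Ω)`. -/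
theorem x_le [DecidableEq ι] (S : G.Split (FO X) ι) (d : DualB S) {M : X.Modules} (hM : IsCoh M)
    (h1 : FiniteDimensional ℂ (G.OO 0 0 ⟶ M)) (h2 : FiniteDimensional ℂ (M ⟶ d.Om.mod)) :
    (rdx S).x M ≤ Module.finrank ℂ (G.OO 0 0 ⟶ M) + Module.finrank ℂ (M ⟶ d.Om.mod) := by
  have hx : (rdx S).x M = altSum fun i : ℤ =>
      Module.finrank ℂ (G.LL 0 0 ⟶ (SS M)⟦i⟧) := rfl
  have h0 : ∀ i : ℤ, i < 0 ∨ 2 < i → Module.finrank ℂ (G.LL 0 0 ⟶ (SS M)⟦i⟧) = 0 := by
    intro i hi
    have : Subsingleton (G.LL 0 0 ⟶ (SS M)⟦i⟧) :=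
      ⟨fun φ ψ => by rw [G.hom_zero_cech hM.qc 0 0 i hi φ, G.hom_zero_cech hM.qc 0 0 i hi ψ]⟩
    exact Module.finrank_zero_of_subsingleton
  have h3 := altSum_le_MainG (fun i : ℤ => Module.finrank ℂ (G.LL 0 0 ⟶ (SS M)⟦i⟧)) h0
  have h4 : Module.finrank ℂ (G.LL 0 0 ⟶ (SS M)⟦(0 : ℤ)⟧) = Module.finrank ℂ (G.OO 0 0 ⟶ M) := by
    rw [← (homSS (G.OO (-0) (-0)) M).finrank_eq]
    rw [neg_zero]
  have h5 : Module.finrank ℂ (G.LL 0 0 ⟶ (SS M)⟦(2 : ℤ)⟧) ≤ Module.finrank ℂ (M ⟶ d.Om.mod) := by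
    obtain ⟨D, hD⟩ := d.exists_dual_inj hM.qc
    have := fd_coh S hM 2 0 0
    rw [← Subspace.dual_finrank_eq]
    exact LinearMap.finrank_le_finrank_of_injective hD
  rw [hx]
  omega

/-- The conditions `Pos` (`pos_of` with `O = O(0, 0)`, `Ω`; both have degree `0`). -/
theorem pos_rdx (S : G.Split (FO X) ι) (h : ∑ l, (S.a l + 1) + ∑ l, (S.b l + 1) = 0) :
    Pos (rdx S) 3 := by
  classical
  obtain ⟨d⟩ := exists_dualB S
  have hW := wserre_isCoh X
  have hO : ∀ m n : ℤ, IsCoh (G.OO m n) := fun m n => isCoh_OO G m n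
  have hH : ∀ m n : ℤ, Hart (rdx S) (G.OO m n) := by
    intro m n
    obtain ⟨T, -, -⟩ := S.exists_OF m n
    exact Split.hart S T (hO m n).qc
  obtain ⟨T, ha, hb⟩ := S.exists_OF (G := G) 0 0
  have RO : Rk1H (rdx S) (G.OO 0 0) :=
    { toRk1 := Split.rk1 S T (hO 0 0).qc
      deg := by
        have h1 := (rdx_split S T (hO 0 0).qc).2.1
        have h2 : (rdx S).D (G.OO 0 0) = ∑ l, (T.a l + 1) + ∑ l, (T.b l + 1) := h1
        rw [h2]
        simp only [ha, hb, add_zero]
        exact h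
      hart := hH 0 0
      endo := fun g => Split.endo S T (hO 0 0).qc g }
  have RΩ : Rk1H (rdx S) d.Om.mod :=
    { toRk1 := Split.rk1 S d.splitOm d.qc_Om
      deg := by
        rw [(rdx_split S d.splitOm d.qc_Om).2.1]
        have h1 : ∑ l, (d.splitOm.a l + 1) = - ∑ l, (S.a l + 1) := by
          rw [← Finset.sum_neg_distrib]
          exact Finset.sum_congr rfl fun l _ => by
            change - S.a l - 2 + 1 = _
            ring
        have h2 : ∑ l, (d.splitOm.b l + 1) = - ∑ l, (S.b l + 1) := by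
          rw [← Finset.sum_neg_distrib]
          exact Finset.sum_congr rfl fun l _ => by
            change - S.b l - 2 + 1 = _
            ring
        rw [h1, h2]
        omega
      hart := Split.hart S d.splitOm d.qc_Om
      endo := fun g => Split.endo S d.splitOm d.qc_Om g }
  refine pos_of hW RO RΩ (fun M hM f1 f2 => x_le S d hM f1 f2) ?_
  intro M hM
  obtain ⟨k, n, j, hj⟩ := exists_embed S hM
  exact ⟨_, j, hW.pow (hO k k) n, (hH k k).pow (rdx S) n, hj⟩

/-- Existence of a stability condition: `Λ = ℤ²`, `v(E) = (D(E), χ(E) - 3 r(E))`,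
`Z(v) = - v_1 + i v_0`. -/
theorem exists_stabilityCondition (S : G.Split (FO X) ι)
    (h : ∑ l, (S.a l + 1) + ∑ l, (S.b l + 1) = 0) :
    Nonempty (StabilityCondition (CX.f : X ⟶ Spec (.of ℂ))) := by
  have hW := wserre_isCoh X
  have : (dbW (IsCoh : ObjectProperty X.Modules)).IsTriangulated :=
    inferInstanceAs (dbCoh X).IsTriangulated
  obtain ⟨σ, hσ⟩ := exists_stab hW (rdx S) 3 (pos_rdx S h)
  let v : DbCoh X → (Fin 2 → ℤ) := fun E =>
    ![eul (rdx S).D E.obj, eul (mm (rdx S) 3) E.obj]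
  let Z : (Fin 2 → ℤ) →+ ℂ :=
    { toFun := fun w => - (w 1 : ℂ) + (w 0 : ℂ) * Complex.I
      map_zero' := by simp
      map_add' := fun a b => by
        simp only [Pi.add_apply, Int.cast_add]
        ring }
  have hZ : ∀ E : DbCoh X, Z (v E) =
      - (eul (mm (rdx S) 3) E.obj : ℂ) + (eul (rdx S).D E.obj : ℂ) * Complex.I := fun E => rfl
  refine ⟨{ toSlicing := σ, n := 2, v := v, v_add := ?_, v_num := ?_, Z := Z,
            Z_phase := ?_, support := ?_ }⟩
  · intro T hT
    have hT' : (dbCoh X).ι.mapTriangle.obj T ∈ distTriang (DMod X) := hT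
    have e1 := eul_add hW (rdx S).D (addOn_D (rdx S)) _ hT' T.obj₁.property T.obj₂.property
      T.obj₃.property
    have e2 := eul_add hW (mm (rdx S) 3) (addOn_mm (rdx S) 3) _ hT' T.obj₁.property
      T.obj₂.property T.obj₃.property
    funext i
    fin_cases i
    · exact e1
    · exact e2
  · intro E F hEF
    have key : ∀ m n : ℤ, M21.eulF ℂ (G.LL m n) E.obj = M21.eulF ℂ (G.LL m n) F.obj := by
      intro m n
      have h1 := hEF ⟨G.LL m n, dbW_single hW (G.OO (-m) (-n)) (isCoh_OO G (-m) (-n)) 0⟩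
      have h2 : chi (CX.f : X ⟶ Spec (.of ℂ)) (G.LL m n) E.obj = M21.eulF ℂ (G.LL m n) E.obj :=
        chi_eq_eulF CX.f (G.LL m n) E.obj
      have h3 : chi (CX.f : X ⟶ Spec (.of ℂ)) (G.LL m n) F.obj = M21.eulF ℂ (G.LL m n) F.obj :=
        chi_eq_eulF CX.f (G.LL m n) F.obj
      rw [← h2, ← h3]
      exact h1
    have e1 : eul (rdx S).D E.obj = eul (rdx S).D F.obj := by
      rw [eul_D S E.obj E.property, eul_D S F.obj F.property]
      unfold nd1 nd2
      rw [key, key, key]
    have e2 : eul (mm (rdx S) 3) E.obj = eul (mm (rdx S) 3) F.obj := by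
      have a1 : eul (mm (rdx S) 3) E.obj = G.nx E.obj - 3 * G.nr E.obj :=
        eul_mm S E.obj E.property 3
      have a2 : eul (mm (rdx S) 3) F.obj = G.nx F.obj - 3 * G.nr F.obj :=
        eul_mm S F.obj F.property 3
      rw [a1, a2]
      unfold nx nr
      rw [key, key, key, key]
    funext i
    fin_cases i
    · exact e1
    · exact e2
  · intro φ E hE h0
    obtain ⟨ρ, hρ, hρ'⟩ := hσ φ E hE h0
    exact ⟨ρ, hρ, (hZ E).trans hρ'⟩
  · refine ⟨1, fun φ E _ i => ?_⟩
    rw [one_mul, hZ]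
    fin_cases i
    · have h1 := Complex.abs_im_le_norm
        (- (eul (mm (rdx S) 3) E.obj : ℂ) + (eul (rdx S).D E.obj : ℂ) * Complex.I)
      simp only [Complex.add_im, Complex.neg_im, Complex.intCast_im, Complex.mul_im,
        Complex.intCast_re, Complex.I_im, Complex.I_re, mul_one, mul_zero, add_zero, neg_zero,
        zero_add] at h1
      exact h1
    · have h1 := Complex.abs_re_le_norm
        (- (eul (mm (rdx S) 3) E.obj : ℂ) + (eul (rdx S).D E.obj : ℂ) * Complex.I)
      simp only [Complex.add_re, Complex.neg_re, Complex.intCast_re, Complex.mul_re,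
        Complex.intCast_im, Complex.I_im, Complex.I_re, mul_one, mul_zero, sub_zero,
        add_zero, abs_neg] at h1
      exact h1

end BiP

end M21.E3
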