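import Pool.Agent.H.MP_21b43d_ag.E3.G.QCf

/-!
# M21, existence part, C10: ascending chains of coherent subsheaves are stationary
-/

open CategoryTheory CategoryTheory.Limits AlgebraicGeometry TopologicalSpace

noncomputable section

namespace M21.E3

variable {X : Scheme.{0}} [IsIntegral X] [IsLocallyNoetherian X]

omit [IsIntegral X] in
/-- The sections of a chain of subobjects over one chart are stationary. -/
theorem chart_NoethG {U : X.Opens} (hU : IsAffineOpen U) (M : X.Modules) (hM : IsCoh M)
    (f : ℕ →o Subobject M) : ∃ n, ∀ m, n ≤ m →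
      LinearMap.range (appL (f n).arrow U) = LinearMap.range (appL (f m).arrow U) := by
  have h1 : IsNoetherianRing Γ(X, U) := IsLocallyNoetherian.component_noetherian ⟨U, hU⟩
  have h2 : Module.Finite Γ(X, U) Γ(M, U) := hM.finite U hU
  have h3 : IsNoetherian Γ(X, U) Γ(M, U) := isNoetherian_of_isNoetherianRing_of_finite _ _
  let g : ℕ →o Submodule Γ(X, U) Γ(M, U) :=
    ⟨fun n => LinearMap.range (appL (f n).arrow U), by
      intro n m hnm
      rintro _ ⟨x, rfl⟩
      refine ⟨appL (Subobject.ofLE _ _ (f.monotone hnm)) U x, ?_⟩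
      have h4 : (Subobject.ofLE _ _ (f.monotone hnm) ≫ (f m).arrow).app U x =
          (f n).arrow.app U x := by
        rw [Subobject.ofLE_arrow]
      exact h4⟩
  exact monotone_stabilizes_iff_noetherian.mpr h3 g

/-- The sections over the four charts are noetherian modules; if the sections of two subobjects over the
four charts agree, the quasi-coherent subobjects agree (`epi_of_cover` for the inclusion). -/
theorem noeth_coh (G : BiP X) (M : X.Modules) (hM : IsCoh M) (f : ℕ →o Subobject M)
    (hf : ∀ n, IsCoh (f n : X.Modules)) : ∃ n, ∀ m, n ≤ m → f n = f m := by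
  choose N hN using fun i : Bool × Bool => chart_NoethG (G.aff i.1 i.2) M hM f
  refine ⟨Finset.univ.sup N, fun m hm => ?_⟩
  have hle := f.monotone hm
  have hE : Epi (Subobject.ofLE _ _ hle) := by
    refine epi_of_cover (fun i : Bool × Bool => G.U i.1 i.2) (fun i => G.aff i.1 i.2)
      (fun x => ?_) (hf m).qc _ fun i y => ?_
    · obtain ⟨s, t, h⟩ := G.exists_mem_U x
      exact ⟨(s, t), h⟩
    · have hi : N i ≤ Finset.univ.sup N := Finset.le_sup (Finset.mem_univ i)
      have h1 := (hN i _ hi).symm.trans (hN i m (hi.trans hm))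
      have h2 : appL (f m).arrow (G.U i.1 i.2) y ∈
          LinearMap.range (appL (f (Finset.univ.sup N)).arrow (G.U i.1 i.2)) := by
        rw [h1]
        exact ⟨y, rfl⟩
      obtain ⟨x, hx⟩ := h2
      refine ⟨x, injective_of_mono (f m).arrow (G.U i.1 i.2) ?_⟩
      have h3 : (Subobject.ofLE _ _ hle ≫ (f m).arrow).app (G.U i.1 i.2) x =
          (f (Finset.univ.sup N)).arrow.app (G.U i.1 i.2) x := by
        rw [Subobject.ofLE_arrow]
      exact h3.trans hx
  have hI : IsIso (Subobject.ofLE _ _ hle) := isIso_of_mono_of_epi _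
  refine le_antisymm hle (Subobject.le_of_comm (inv (Subobject.ofLE _ _ hle)) ?_)
  rw [IsIso.inv_comp_eq, Subobject.ofLE_arrow]

end M21.E3
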