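import Pool.Agent.H.MP_21b43d_ag.E3.DbW2
import Pool.Agent.H.MP_21b43d_ag.B.Dev

/-!
# M21, existence part, C20a: additive functions on the derived category
-/

open CategoryTheory CategoryTheory.Limits CategoryTheory.Pretriangulated

noncomputable section

namespace M21.E3

/-- The value of `eul e` on a complex concentrated in degree `0`. -/
theorem eul_single_NumA {𝒞 : Type 1} [Category.{0} 𝒞] [Abelian 𝒞] [HasDerivedCategory.{1} 𝒞]
    {W : ObjectProperty 𝒞} (hW : WSerre W) (e : 𝒞 → ℤ) (he : AddOn W e) (M : 𝒞) (hM : W M) :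
    eul e ((DerivedCategory.singleFunctor 𝒞 0).obj M) = e M := by
  have h1 := eul_two hW e he ((DerivedCategory.singleFunctor 𝒞 0).obj M) (fun i _ hi => by
    rcases lt_or_gt_of_ne hi with h | h
    · exact DerivedCategory.isZero_of_isGE _ 0 i h
    · exact DerivedCategory.isZero_of_isLE _ 0 i h)
  rw [h1, e_zero_DbW2 hW he (DerivedCategory.isZero_of_isGE
    ((DerivedCategory.singleFunctor 𝒞 0).obj M) 0 (-1) (by omega)), sub_zero]
  exact (e_iso_DbW2 hW he ((DerivedCategory.singleFunctorCompHomologyFunctorIso 𝒞 0).app M).symm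
    hM).symm

/-- An additive function on the derived category is determined by the cohomology objects. Induction
on the length of the cohomological amplitude: truncation triangle `τ K → K → H^b(K)[-b]`. -/
theorem eul_unique {𝒞 : Type 1} [Category.{0} 𝒞] [Abelian 𝒞] [HasDerivedCategory.{1} 𝒞]
    {W : ObjectProperty 𝒞} (hW : WSerre W) (Q : DerivedCategory 𝒞 → Prop)
    (P : DerivedCategory 𝒞 → ℤ) (e : 𝒞 → ℤ) (he : AddOn W e)
    (hiso : ∀ {K L : DerivedCategory 𝒞}, (K ≅ L) → Q K → Q L ∧ P K = P L)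
    (hshift : ∀ (K : DerivedCategory 𝒞) (n : ℤ), Q K → Q (K⟦n⟧) ∧
      P (K⟦n⟧) = (n.negOnePow : ℤ) * P K)
    (hadd : ∀ T ∈ distTriang (DerivedCategory 𝒞), Q T.obj₁ → Q T.obj₃ → Q T.obj₂ ∧
      P T.obj₂ = P T.obj₁ + P T.obj₃)
    (hsingle : ∀ M, W M → Q ((DerivedCategory.singleFunctor 𝒞 0).obj M) ∧
      P ((DerivedCategory.singleFunctor 𝒞 0).obj M) = e M)
    (K : DerivedCategory 𝒞) (hK : dbW W K) : Q K ∧ P K = eul e K := by
  have htri : (dbW W).IsTriangulated := dbW_triangulated hW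
  obtain ⟨⟨a, b, ha, hb⟩, hc⟩ := hK
  refine (M21.bounded_induction (fun K => dbW W K ∧ Q K ∧ P K = eul e K) ?_ ?_ K a b ?_).2
  · rintro A B i ⟨h1, h2, h3⟩
    obtain ⟨h4, h5⟩ := hiso i h2
    exact ⟨dbW_iso hW i h1, h4, by rw [← h5, h3, eul_iso hW e he i h1]⟩
  · rintro T hT ⟨h1, h2, h3⟩ ⟨k1, k2, k3⟩
    obtain ⟨h4, h5⟩ := hadd T hT h2 k2
    have h6 : dbW W T.obj₂ := by
      obtain ⟨L, hL, ⟨i⟩⟩ := ObjectProperty.ext_of_isTriangulatedClosed₂' (dbW W) T hT h1 k1
      exact dbW_iso hW i.symm hL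
    exact ⟨h6, h4, by rw [h5, h3, k3, eul_add hW e he T hT h1 h6 k1]⟩
  · intro n
    have h1 := hc n
    have h2 := dbW_single hW (HH n K) h1 n
    obtain ⟨h3, h4⟩ := hsingle _ h1
    obtain ⟨h5, h6⟩ := hshift _ (-n) h3
    have i : ((DerivedCategory.singleFunctor 𝒞 0).obj (HH n K))⟦-n⟧ ≅
        (DerivedCategory.singleFunctor 𝒞 n).obj (HH n K) :=
      ((DerivedCategory.singleFunctors 𝒞).shiftIso (-n) n 0 (by omega)).app _
    obtain ⟨h7, h8⟩ := hiso i h5
    have h9 := dbW_single hW (HH n K) h1 0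
    have h10 := eul_shift hW e he _ h9 (-n)
    refine ⟨h2, h7, ?_⟩
    rw [← h8, h6, h4, ← eul_iso hW e he i (dbW_iso hW i.symm h2), h10,
      eul_single_NumA hW e he _ h1]

end M21.E3
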