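import Pool.Agent.H.MP_21b43d_ag.E3.G.Poly
import Pool.Agent.H.MP_21b43d_ag.E3.G.NumA

/-!
# M21, existence part, C20: the numbers of complexes
-/

open CategoryTheory CategoryTheory.Limits CategoryTheory.Pretriangulated AlgebraicGeometry
  TopologicalSpace

noncomputable section

namespace M21.E3

variable {X : Scheme.{0}} [IsIntegral X] [CX X] [IsLocallyNoetherian X]

namespace BiP

variable {G : BiP X} {ι : Type} [Fintype ι]

theorem addOn_Num (S : G.Split (FO X) ι) (m n : ℤ) :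
    AddOn (𝒞 := X.Modules) (IsCoh : ObjectProperty X.Modules)
      (fun F => M21.eulF ℂ (G.LL m n) (SS F)) :=
  fun T hT h1 h2 h3 => eulF_add_Poly S T hT h1 h2 h3 m n

/-- For complexes (`eul_unique` with `Q K = HomFin ℂ (G.LL m n) K`). -/
theorem num_db (S : G.Split (FO X) ι) (E : DMod X) (hE : dbCoh X E) (m n : ℤ) :
    HomFin ℂ (G.LL m n) E ∧
      M21.eulF ℂ (G.LL m n) E = eul (fun F => M21.eulF ℂ (G.LL m n) (SS F)) E := by
  refine eul_unique (wserre_isCoh X) (fun K => HomFin ℂ (G.LL m n) K)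
    (fun K => M21.eulF ℂ (G.LL m n) K) (fun F => M21.eulF ℂ (G.LL m n) (SS F))
    (addOn_Num S m n) ?_ ?_ ?_ ?_ E hE
  · intro K L i h
    exact ⟨homFin_right_iso i h, eulF_right_iso _ i⟩
  · intro K k h
    exact ⟨homFin_right_shift k h, eulF_right_shift _ _ k⟩
  · intro T hT h1 h3
    have h2 := homFin_right₂ (G.LL m n) T hT h1 h3
    exact ⟨h2, eulF_add_right (G.LL m n) T hT h1 h2 h3⟩
  · intro M hM
    exact ⟨homFin_coh S hM m n, rfl⟩

/-- The support is finite. -/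
theorem supp_Num (S : G.Split (FO X) ι) (E : DMod X) (hE : dbCoh X E) (m n : ℤ) :
    (fun i : ℤ => M21.eulF ℂ (G.LL m n) (SS (HH i E))).support.Finite :=
  supp_finite_DbW2 (wserre_isCoh X) (addOn_Num S m n) hE (M := fun i => HH i E) fun _ h => h

/-- `eul` is linear in the function. -/
theorem eul_lin_Num (S : G.Split (FO X) ι) (E : DMod X) (hE : dbCoh X E) (a b c d : ℤ) :
    eul (fun F => a * M21.eulF ℂ (G.LL 1 1) (SS F) + b * M21.eulF ℂ (G.LL 1 0) (SS F) +
      c * M21.eulF ℂ (G.LL 0 1) (SS F) + d * M21.eulF ℂ (G.LL 0 0) (SS F)) E =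
      a * M21.eulF ℂ (G.LL 1 1) E + b * M21.eulF ℂ (G.LL 1 0) E +
      c * M21.eulF ℂ (G.LL 0 1) E + d * M21.eulF ℂ (G.LL 0 0) E := by
  have key : ∀ m n : ℤ, (fun i : ℤ => (i.negOnePow : ℤ) *
      M21.eulF ℂ (G.LL m n) (SS (HH i E))).support.Finite := fun m n =>
    (supp_Num S E hE m n).subset (fun i hi => by
      simp only [Function.mem_support] at hi ⊢
      exact right_ne_zero_of_mul hi)
  rw [(num_db S E hE 1 1).2, (num_db S E hE 1 0).2, (num_db S E hE 0 1).2,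
    (num_db S E hE 0 0).2]
  unfold eul
  have k2 : ∀ (u m n : ℤ), (fun i : ℤ => u * ((i.negOnePow : ℤ) *
      M21.eulF ℂ (G.LL m n) (SS (HH i E)))).support.Finite := fun u m n =>
    (key m n).subset (fun i hi => by
      simp only [Function.mem_support] at hi ⊢
      exact right_ne_zero_of_mul hi)
  have k3 : (fun i : ℤ => a * ((i.negOnePow : ℤ) * M21.eulF ℂ (G.LL 1 1) (SS (HH i E))) +
      b * ((i.negOnePow : ℤ) * M21.eulF ℂ (G.LL 1 0) (SS (HH i E)))).support.Finite :=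
    ((k2 a 1 1).union (k2 b 1 0)).subset (Function.support_add _ _)
  have k4 : (fun i : ℤ => a * ((i.negOnePow : ℤ) * M21.eulF ℂ (G.LL 1 1) (SS (HH i E))) +
      b * ((i.negOnePow : ℤ) * M21.eulF ℂ (G.LL 1 0) (SS (HH i E))) +
      c * ((i.negOnePow : ℤ) * M21.eulF ℂ (G.LL 0 1) (SS (HH i E)))).support.Finite :=
    (k3.union (k2 c 0 1)).subset (Function.support_add _ _)
  rw [mul_finsum, mul_finsum, mul_finsum, mul_finsum,
    ← finsum_add_distrib (k2 a 1 1) (k2 b 1 0),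
    ← finsum_add_distrib k3 (k2 c 0 1), ← finsum_add_distrib k4 (k2 d 0 0)]
  refine finsum_congr fun i => ?_
  ring

/-- `eul` is additive in the function. -/
theorem eul_D (S : G.Split (FO X) ι) (E : DMod X) (hE : dbCoh X E) :
    eul (rdx S).D E = G.nd1 E + G.nd2 E := by
  have h := eul_lin_Num S E hE 0 1 1 (-2)
  have e : (rdx S).D = (fun F => 0 * M21.eulF ℂ (G.LL 1 1) (SS F) +
      1 * M21.eulF ℂ (G.LL 1 0) (SS F) +
      1 * M21.eulF ℂ (G.LL 0 1) (SS F) + (-2) * M21.eulF ℂ (G.LL 0 0) (SS F)) := by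
    funext F
    show G.nd1 (SS F) + G.nd2 (SS F) = _
    unfold nd1 nd2
    ring
  rw [e, h]
  unfold nd1 nd2
  ring

theorem eul_mm (S : G.Split (FO X) ι) (E : DMod X) (hE : dbCoh X E) (t : ℤ) :
    eul (fun F => (rdx S).x F - t * (rdx S).r F) E = G.nx E - t * G.nr E := by
  have h := eul_lin_Num S E hE (-t) t t (1 - t)
  have e : (fun F => (rdx S).x F - t * (rdx S).r F) =
      (fun F => (-t) * M21.eulF ℂ (G.LL 1 1) (SS F) +
      t * M21.eulF ℂ (G.LL 1 0) (SS F) +
      t * M21.eulF ℂ (G.LL 0 1) (SS F) + (1 - t) * M21.eulF ℂ (G.LL 0 0) (SS F)) := by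
    funext F
    show G.nx (SS F) - t * G.nr (SS F) = _
    unfold nx nr
    ring
  rw [e, h]
  unfold nx nr
  ring

end BiP

end M21.E3
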