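import Pool.Agent.H.MP_21b43d_ag.E3.G.FinB
import Pool.Agent.H.MP_21b43d_ag.E3.G.NoethG

/-!
# M21, existence part, C11: rank, degree, Euler characteristic of coherent sheaves

`χ(F(m,n)) = r m n + d₁ m + d₂ n + χ`; the rank is `r`, the degree `d₁ + d₂`.
-/

open CategoryTheory CategoryTheory.Limits CategoryTheory.Pretriangulated AlgebraicGeometry
  TopologicalSpace

noncomputable section

namespace M21.E3

variable {X : Scheme.{0}} [IsIntegral X] [CX X] [IsLocallyNoetherian X]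

namespace BiP

variable {G : BiP X} {ι : Type} [Fintype ι]

theorem eulF_add_Poly (S : G.Split (FO X) ι) (T : ShortComplex X.Modules) (hT : T.ShortExact)
    (h1 : IsCoh T.X₁) (h2 : IsCoh T.X₂) (h3 : IsCoh T.X₃) (m n : ℤ) :
    M21.eulF ℂ (G.LL m n) (SS T.X₂) =
      M21.eulF ℂ (G.LL m n) (SS T.X₁) + M21.eulF ℂ (G.LL m n) (SS T.X₃) := by
  obtain ⟨d, hd⟩ := exists_triangle_SS T hT
  exact eulF_add_right (G.LL m n) _ hd (homFin_coh S h1 m n) (homFin_coh S h2 m n)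
    (homFin_coh S h3 m n)

/-- additivity of the four numbers on short exact sequences -/
theorem add_coh (S : G.Split (FO X) ι) (T : ShortComplex X.Modules) (hT : T.ShortExact)
    (h1 : IsCoh T.X₁) (h2 : IsCoh T.X₂) (h3 : IsCoh T.X₃) :
    G.nr (SS T.X₂) = G.nr (SS T.X₁) + G.nr (SS T.X₃) ∧
      G.nd1 (SS T.X₂) = G.nd1 (SS T.X₁) + G.nd1 (SS T.X₃) ∧
      G.nd2 (SS T.X₂) = G.nd2 (SS T.X₁) + G.nd2 (SS T.X₃) ∧
      G.nx (SS T.X₂) = G.nx (SS T.X₁) + G.nx (SS T.X₃) := by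
  have e00 := eulF_add_Poly S T hT h1 h2 h3 0 0
  have e10 := eulF_add_Poly S T hT h1 h2 h3 1 0
  have e01 := eulF_add_Poly S T hT h1 h2 h3 0 1
  have e11 := eulF_add_Poly S T hT h1 h2 h3 1 1
  unfold nr nd1 nd2 nx
  refine ⟨?_, ?_, ?_, ?_⟩ <;> linarith

/-- for large `m`, `n` the polynomial is nonnegative -/
theorem nonneg_Poly (S : G.Split (FO X) ι) {F : X.Modules} (hF : IsCoh F) :
    ∃ k : ℤ, ∀ m n, k ≤ m → k ≤ n →
      0 ≤ G.nr (SS F) * m * n + G.nd1 (SS F) * m + G.nd2 (SS F) * n + G.nx (SS F) := by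
  obtain ⟨k, hk⟩ := eulF_eq_finrank S hF
  refine ⟨k, fun m n hm hn => ?_⟩
  rw [← G.eulF_eq (SS F) (fun m n => homFin_coh S hF m n) m n, (hk m n hm hn).1]
  exact Int.natCast_nonneg _

theorem nr_nonneg (S : G.Split (FO X) ι) {F : X.Modules} (hF : IsCoh F) : 0 ≤ G.nr (SS F) := by
  obtain ⟨k, hk⟩ := nonneg_Poly S hF
  by_contra h
  have hr : G.nr (SS F) ≤ -1 := by omega
  set a := G.nd1 (SS F)
  set b := G.nd2 (SS F)
  set c := G.nx (SS F)
  set r := G.nr (SS F)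
  -- a large `N`
  obtain ⟨N, h1, h2, h3⟩ : ∃ N : ℤ, k ≤ N ∧ |a| + |b| + |c| + 1 ≤ N ∧ 1 ≤ N :=
    ⟨max (max k (|a| + |b| + |c| + 1)) 1, (le_max_left _ _).trans (le_max_left _ _),
      (le_max_right _ _).trans (le_max_left _ _), le_max_right _ _⟩
  have h4 := hk N N h1 h1
  have ha := le_abs_self a
  have hb := le_abs_self b
  have hc := le_abs_self c
  have hc0 := abs_nonneg c
  have h5 : a * N ≤ |a| * N := mul_le_mul_of_nonneg_right ha (by omega)
  have h6 : b * N ≤ |b| * N := mul_le_mul_of_nonneg_right hb (by omega)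
  have h7 : c ≤ |c| * N := by nlinarith
  have h8 : r * N * N ≤ -(N * N) := by nlinarith [mul_pos (by omega : (0 : ℤ) < N) (by omega : (0 : ℤ) < N)]
  nlinarith

/-- an affine function which is nonnegative for large arguments has nonnegative slope -/
theorem slope_Poly {a c k : ℤ} (h : ∀ m, k ≤ m → 0 ≤ a * m + c) : 0 ≤ a := by
  by_contra ha
  have ha : a ≤ -1 := by omega
  obtain ⟨N, h1, h2, h3⟩ : ∃ N : ℤ, k ≤ N ∧ |c| + 1 ≤ N ∧ 1 ≤ N :=
    ⟨max (max k (|c| + 1)) 1, (le_max_left _ _).trans (le_max_left _ _),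
      (le_max_right _ _).trans (le_max_left _ _), le_max_right _ _⟩
  have h4 := h N h1
  have hc := le_abs_self c
  nlinarith

theorem nd_nonneg (S : G.Split (FO X) ι) {F : X.Modules} (hF : IsCoh F) (hr : G.nr (SS F) = 0) :
    0 ≤ G.nd1 (SS F) ∧ 0 ≤ G.nd2 (SS F) := by
  obtain ⟨k, hk⟩ := nonneg_Poly S hF
  rw [hr] at hk
  constructor
  · refine slope_Poly (c := G.nd2 (SS F) * k + G.nx (SS F)) (k := k) fun m hm => ?_
    have := hk m k hm le_rfl
    linarith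
  · refine slope_Poly (c := G.nd1 (SS F) * k + G.nx (SS F)) (k := k) fun n hn => ?_
    have := hk k n le_rfl hn
    linarith

theorem nx_pos (S : G.Split (FO X) ι) {F : X.Modules} (hF : IsCoh F) (hr : G.nr (SS F) = 0)
    (hD : G.nd1 (SS F) + G.nd2 (SS F) = 0) (h0 : ¬ IsZero F) : 0 < G.nx (SS F) := by
  obtain ⟨h1, h2⟩ := nd_nonneg S hF hr
  have e1 : G.nd1 (SS F) = 0 := by omega
  have e2 : G.nd2 (SS F) = 0 := by omega
  obtain ⟨k, hk⟩ := eulF_eq_finrank S hF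
  obtain ⟨k', hk'⟩ := G.exists_hom_ne_zero hF.qc h0
  obtain ⟨h3, h4⟩ := hk (max k k') (max k k') (le_max_left _ _) (le_max_left _ _)
  obtain ⟨φ, hφ⟩ := hk' (max k k') (max k k') (le_max_right _ _) (le_max_right _ _)
  rw [G.eulF_eq (SS F) (fun m n => homFin_coh S hF m n), hr, e1, e2] at h3
  have h5 : 0 < Module.finrank ℂ (G.OO (-(max k k')) (-(max k k')) ⟶ F) :=
    Module.finrank_pos_iff_exists_ne_zero.mpr ⟨φ, hφ⟩
  have h6 : (0 : ℤ) < Module.finrank ℂ (G.OO (-(max k k')) (-(max k k')) ⟶ F) := by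
    exact_mod_cast h5
  linarith

/-- rank, degree and Euler characteristic of coherent sheaves -/
def rdx (S : G.Split (FO X) ι) : RDX (𝒞 := X.Modules) (IsCoh : ObjectProperty X.Modules) where
  r F := G.nr (SS F)
  D F := G.nd1 (SS F) + G.nd2 (SS F)
  x F := G.nx (SS F)
  add T hT h1 h2 h3 := by
    obtain ⟨e1, e2, e3, e4⟩ := add_coh S T hT h1 h2 h3
    exact ⟨e1, by rw [e2, e3]; ring, e4⟩
  r_nonneg F hF := nr_nonneg S hF
  D_nonneg F hF hr := add_nonneg (nd_nonneg S hF hr).1 (nd_nonneg S hF hr).2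
  x_pos F hF hr hD h0 := nx_pos S hF hr hD h0
  noeth M hM f hf := noeth_coh G M hM f hf

end BiP

end M21.E3
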