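import Pool.Agent.H.MP_21b43d_ag.E3.G.Geo3
import Pool.Agent.H.MP_21b43d_ag.B.Coh4
import Pool.Agent.H.MP_21b43d_ag.E3.Wk

/-!
# M21, existence part, C4: quasi-coherence and coherence on a cover by affine opens
-/

open CategoryTheory CategoryTheory.Limits AlgebraicGeometry TopologicalSpace

noncomputable section

namespace M21.E3

variable {X : Scheme.{0}}

/-- Quasi-coherence can be checked on the members of a cover by affine opens (compare `B/QC2.lean`,
`B/QC3.lean`: a presentation over every member of the cover gives Mathlib's quasi-coherence). -/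
theorem qc_of_cover {ι : Type} (U : ι → X.Opens) (hU : ∀ i, IsAffineOpen (U i))
    (hc : ∀ x : X, ∃ i, x ∈ U i) (M : X.Modules)
    (ext : ∀ (i : ι) (f : Γ(X, U i)) (s : Γ(M, X.basicOpen f)), ∃ (n : ℕ) (t : Γ(M, U i)),
      res M (X.basicOpen_le f) t = (resF (X.basicOpen_le f) f) ^ n • s)
    (tors : ∀ (i : ι) (f : Γ(X, U i)) (t : Γ(M, U i)), res M (X.basicOpen_le f) t = 0 →
      ∃ n : ℕ, f ^ n • t = 0) : QC M := by
  apply QC.of_isQuasicoherent
  have key : ∀ i, Nonempty (SheafOfModules.over M (U i)).Presentation := by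
    intro i
    apply nonempty_presentation_over M (hU i)
    rw [isIso_fromTildeΓ_iff_isLocalizing, isLocalizing_iff M (hU i)]
    exact fun f => ⟨tors i f, ext i f⟩
  refine ⟨⟨⟨ι, fun i => U i, ?_, fun i => (key i).some⟩⟩⟩
  rw [Opens.coversTop_iff]
  refine eq_top_iff.mpr ?_
  intro x _
  exact Opens.mem_iSup.mpr (hc x)

/-- The key step: finite generation passes to basic opens. -/
theorem finite_basicOpen_QCf {M : X.Modules} (hM : QC M) {U : X.Opens} (hU : IsAffineOpen U)
    (f : Γ(X, U)) (h : Module.Finite Γ(X, U) Γ(M, U)) :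
    Module.Finite Γ(X, X.basicOpen f) Γ(M, X.basicOpen f) := by
  classical
  obtain ⟨S, hS⟩ := h.fg_top
  refine ⟨⟨S.image (res M (X.basicOpen_le f)), ?_⟩⟩
  rw [eq_top_iff]
  intro t _
  obtain ⟨n, s, hs⟩ := hM.ext U hU f t
  have h1 : ∀ s : Γ(M, U), res M (X.basicOpen_le f) s ∈
      Submodule.span Γ(X, X.basicOpen f) (S.image (res M (X.basicOpen_le f)) : Set _) := by
    intro s
    have h2 : s ∈ Submodule.span Γ(X, U) (S : Set Γ(M, U)) := by rw [hS]; trivial
    induction h2 using Submodule.span_induction with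
    | mem s hs =>
      apply Submodule.subset_span
      rw [Finset.coe_image]
      exact ⟨s, hs, rfl⟩
    | zero => rw [res_zero]; exact Submodule.zero_mem _
    | add s t _ _ h3 h4 => rw [res_add]; exact Submodule.add_mem _ h3 h4
    | smul r s _ h3 => rw [res_smul]; exact Submodule.smul_mem _ _ h3
  have hu : IsUnit (resF (X.basicOpen_le f) f ^ n) :=
    (X.toRingedSpace.isUnit_res_basicOpen f).pow n
  obtain ⟨u, hu⟩ := hu
  have h2 := h1 s
  rw [hs, ← hu] at h2
  have h3 := Submodule.smul_mem _ ((u⁻¹ : (Γ(X, X.basicOpen f))ˣ) : Γ(X, X.basicOpen f)) h2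
  rwa [smul_smul, Units.inv_mul, one_smul] at h3

/-- The key step: finite generation on a finite cover by basic opens. -/
theorem finite_of_span_QCf {M : X.Modules} (hM : QC M) {U : X.Opens} (hU : IsAffineOpen U)
    (s : Finset Γ(X, U)) (hs : Ideal.span (s : Set Γ(X, U)) = ⊤)
    (h : ∀ f ∈ s, Module.Finite Γ(X, X.basicOpen f) Γ(M, X.basicOpen f)) :
    Module.Finite Γ(X, U) Γ(M, U) := by
  classical
  -- finitely many sections over `U` whose restrictions generate over `D(f)`
  have h1 : ∀ f : s, ∃ T : Finset Γ(M, U), ∀ t : Γ(M, X.basicOpen f.1),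
      t ∈ Submodule.span Γ(X, X.basicOpen f.1)
        (T.image (res M (X.basicOpen_le f.1)) : Set Γ(M, X.basicOpen f.1)) := by
    intro f
    obtain ⟨S, hS⟩ := (h f.1 f.2).fg_top
    choose n g hg using fun t : Γ(M, X.basicOpen f.1) => hM.ext U hU f.1 t
    refine ⟨S.image g, fun t => ?_⟩
    have h2 : t ∈ Submodule.span Γ(X, X.basicOpen f.1) (S : Set Γ(M, X.basicOpen f.1)) := by
      rw [hS]; trivial
    refine Submodule.span_le.mpr ?_ h2
    intro x hx
    have hu : IsUnit (resF (X.basicOpen_le f.1) f.1 ^ n x) :=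
      (X.toRingedSpace.isUnit_res_basicOpen f.1).pow (n x)
    obtain ⟨u, hu⟩ := hu
    have h3 : res M (X.basicOpen_le f.1) (g x) ∈ Submodule.span Γ(X, X.basicOpen f.1)
        ((S.image g).image (res M (X.basicOpen_le f.1)) : Set Γ(M, X.basicOpen f.1)) := by
      apply Submodule.subset_span
      rw [Finset.coe_image, Finset.coe_image]
      exact ⟨g x, ⟨x, hx, rfl⟩, rfl⟩
    rw [hg, ← hu] at h3
    have h4 := Submodule.smul_mem _
      ((u⁻¹ : (Γ(X, X.basicOpen f.1))ˣ) : Γ(X, X.basicOpen f.1)) h3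
    rwa [smul_smul, Units.inv_mul, one_smul] at h4
  choose T hT using h1
  let T' : Finset Γ(M, U) := Finset.univ.biUnion T
  refine ⟨⟨T', ?_⟩⟩
  rw [eq_top_iff]
  intro m _
  let N : Submodule Γ(X, U) Γ(M, U) := Submodule.span Γ(X, U) (T' : Set Γ(M, U))
  -- every section over `D(f)` in the span is, up to a power of `f`, the restriction of an element
  have h2 : ∀ (f : s) (t : Γ(M, X.basicOpen f.1)), t ∈ Submodule.span Γ(X, X.basicOpen f.1)
      (T f |>.image (res M (X.basicOpen_le f.1)) : Set Γ(M, X.basicOpen f.1)) →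
      ∃ (k : ℕ) (y : Γ(M, U)), y ∈ N ∧
        res M (X.basicOpen_le f.1) y = resF (X.basicOpen_le f.1) f.1 ^ k • t := by
    intro f t ht
    induction ht using Submodule.span_induction with
    | mem x hx =>
      rw [Finset.coe_image] at hx
      obtain ⟨y, hy, rfl⟩ := hx
      refine ⟨0, y, Submodule.subset_span ?_, by rw [pow_zero, one_smul]⟩
      exact Finset.mem_coe.mpr (Finset.mem_biUnion.mpr ⟨f, Finset.mem_univ _, hy⟩)
    | zero => exact ⟨0, 0, Submodule.zero_mem _, by rw [res_zero, smul_zero]⟩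
    | add x y _ _ hx hy =>
      obtain ⟨k, a, ha, ha'⟩ := hx
      obtain ⟨l, b, hb, hb'⟩ := hy
      refine ⟨k + l, f.1 ^ l • a + f.1 ^ k • b,
        Submodule.add_mem _ (Submodule.smul_mem _ _ ha) (Submodule.smul_mem _ _ hb), ?_⟩
      rw [res_add, res_pow_smul, res_pow_smul, ha', hb', smul_add, smul_smul, smul_smul, ← pow_add,
        ← pow_add, add_comm l k]
    | smul r x _ hx =>
      obtain ⟨k, a, ha, ha'⟩ := hx
      have := hU.isLocalization_basicOpen f.1
      obtain ⟨⟨c, ⟨_, l, rfl⟩⟩, hc⟩ := IsLocalization.surj (Submonoid.powers f.1) r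
      have hc' : r * resF (X.basicOpen_le f.1) (f.1 ^ l) = resF (X.basicOpen_le f.1) c := hc
      refine ⟨k + l, c • a, Submodule.smul_mem _ _ ha, ?_⟩
      have h3 : res M (X.basicOpen_le f.1) (c • a) =
          resF (X.basicOpen_le f.1) c • res M (X.basicOpen_le f.1) a := res_smul _ _ _
      rw [h3, ha', ← hc', resF_pow, smul_smul, smul_smul]
      congr 1
      ring
  -- the ideal of the `g` with `g m ∈ N`
  let I : Ideal Γ(X, U) :=
    { carrier := {g | g • m ∈ N}
      add_mem' := by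
        intro f g hf hg
        have : (f + g) • m ∈ N := by rw [add_smul]; exact Submodule.add_mem _ hf hg
        exact this
      zero_mem' := by
        have : (0 : Γ(X, U)) • m ∈ N := by rw [zero_smul]; exact Submodule.zero_mem _
        exact this
      smul_mem' := by
        intro c f hf
        have : (c * f) • m ∈ N := by rw [mul_smul]; exact Submodule.smul_mem _ _ hf
        exact this }
  have hrad : Ideal.span (s : Set Γ(X, U)) ≤ I.radical := by
    rw [Ideal.span_le]
    intro f hf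
    obtain ⟨k, y, hy, hy'⟩ := h2 ⟨f, hf⟩ _ (hT ⟨f, hf⟩ (res M (X.basicOpen_le f) m))
    obtain ⟨l, hl⟩ := hM.tors U hU f (f ^ k • m - y) (by
      rw [res_sub, res_pow_smul, hy', sub_self])
    refine ⟨l + k, ?_⟩
    have h3 : f ^ (l + k) • m = f ^ l • y := by
      rw [pow_add, mul_smul, ← sub_eq_zero, ← smul_sub]
      exact hl
    have h4 : f ^ (l + k) • m ∈ N := by
      rw [h3]
      exact Submodule.smul_mem _ _ hy
    exact h4
  rw [hs, top_le_iff, Ideal.radical_eq_top] at hrad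
  have h1I : (1 : Γ(X, U)) ∈ I := by rw [hrad]; trivial
  have h5 : (1 : Γ(X, U)) • m ∈ N := h1I
  rwa [one_smul] at h5

/-- Coherence can be checked on the members of a cover by affine opens
(`AlgebraicGeometry.of_affine_open_cover`, `Module.Finite.of_localizationSpan`). -/
theorem isCoh_of_cover {ι : Type} (U : ι → X.Opens) (hU : ∀ i, IsAffineOpen (U i))
    (hc : ∀ x : X, ∃ i, x ∈ U i) (M : X.Modules) (hM : QC M)
    (hf : ∀ i, Module.Finite Γ(X, U i) Γ(M, U i)) : IsCoh M := by
  refine isCoh_iff.mpr ⟨hM, fun V hV => ?_⟩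
  refine of_affine_open_cover (X := X) (P := fun W => Module.Finite Γ(X, W.1) Γ(M, W.1))
    (fun i => (⟨U i, hU i⟩ : X.affineOpens)) ?_ ⟨V, hV⟩ ?_ ?_ hf
  · rw [eq_top_iff]
    intro x _
    exact Opens.mem_iSup.mpr (hc x)
  · intro W f h
    exact finite_basicOpen_QCf hM W.2 f h
  · intro W s hs h
    exact finite_of_span_QCf hM W.2 s hs fun f hf => h ⟨f, hf⟩

/-- A morphism of quasi-coherent sheaves is an epimorphism if it is surjective on the sections over
the members of an affine cover. -/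
theorem epi_of_cover {ι : Type} (U : ι → X.Opens) (hU : ∀ i, IsAffineOpen (U i))
    (hc : ∀ x : X, ∃ i, x ∈ U i) {M N : X.Modules} (hN : QC N) (φ : M ⟶ N)
    (h : ∀ i, Function.Surjective (φ.app (U i))) : Epi φ := by
  apply epi_of_locSurj
  intro V n x hx
  obtain ⟨i, hi⟩ := hc x
  obtain ⟨f, hf, hxf⟩ := (hU i).exists_basicOpen_le ⟨x, hx⟩ hi
  obtain ⟨k, t, ht⟩ := hN.ext (U i) (hU i) f (res N hf n)
  obtain ⟨m, rfl⟩ := h i t
  have hu : IsUnit (resF (X.basicOpen_le f) f ^ k) :=
    (X.toRingedSpace.isUnit_res_basicOpen f).pow k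
  obtain ⟨u, hu⟩ := hu
  refine ⟨X.basicOpen f, hf, hxf,
    ((u⁻¹ : (Γ(X, X.basicOpen f))ˣ) : Γ(X, X.basicOpen f)) • res M (X.basicOpen_le f) m, ?_⟩
  rw [Scheme.Modules.Hom.app_smul, app_res, ht, ← hu, smul_smul, Units.inv_mul, one_smul]

/-- A section over the affine `U` of the cokernel of a morphism of quasi-coherent sheaves lifts
(`surj_of_qc`). -/
theorem surj_cokernel [IsLocallyNoetherian X] {M N : X.Modules} (hM : IsCoh M) (hN : IsCoh N)
    (φ : M ⟶ N) {U : X.Opens} (hU : IsAffineOpen U) :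
    Function.Surjective ((cokernel.π φ).app U) := by
  have h1 : Abelian.image.ι φ ≫ cokernel.π φ = 0 := kernel.condition _
  have hS : (ShortComplex.mk (Abelian.image.ι φ) (cokernel.π φ) h1).ShortExact := by
    refine { exact := ?_, mono_f := inferInstance, epi_g := inferInstance }
    exact ShortComplex.exact_of_f_is_kernel _ (kernelIsKernel _)
  intro n
  exact surj_of_qc _ hS ((weakSerre_isCoh X).image φ hM hN).qc hU n

/-- Coherent sheaves form a weak Serre subcategory. -/
theorem wserre_isCoh (X : Scheme.{0}) [IsLocallyNoetherian X] :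
    WSerre (𝒞 := X.Modules) (IsCoh : ObjectProperty X.Modules) where
  iso e h := IsCoh.of_iso e.symm h
  zero M h := isCoh_of_isZero h
  kernel f hM hN := (weakSerre_isCoh X).kernel f hM hN
  cokernel f hM hN := (weakSerre_isCoh X).cokernel f hM hN
  ext S hS h1 h3 := (weakSerre_isCoh X).middle S hS h1 h3

section frac

variable [IsIntegral X]

/-- The sections over the empty open. -/
theorem subsingleton_bot_QCf (M : X.Modules) {U : X.Opens} (h : U = ⊥) (s t : Γ(M, U)) : s = t := by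
  subst h
  exact sec_ext M fun x hx => absurd hx (by simp)

/-- Fractional sheaves: quasi-coherence on a cover. -/
theorem Frac.qc_of_cover (N : Frac X) {ι : Type} (U : ι → X.Opens) (hU : ∀ i, IsAffineOpen (U i))
    (hc : ∀ x : X, ∃ i, x ∈ U i)
    (h : ∀ (i : ι) (p : X) (hp : p ∈ U i) (f : Γ(X, U i)) (g : X.functionField),
      (∀ q ∈ X.basicOpen f, N.mem q g) → ∃ n : ℕ, ∀ q ∈ U i, N.mem q (toK hp f ^ n * g)) :
    QC N.mod := by
  refine E3.qc_of_cover U hU hc N.mod (fun i f s => ?_) (fun i f t ht => ?_)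
  · by_cases hf : ∃ p, p ∈ X.basicOpen f
    · obtain ⟨p, hp⟩ := hf
      have hpU : p ∈ U i := X.basicOpen_le f hp
      obtain ⟨n, hn⟩ := h i p hpU f (N.val hp s) fun q hq => N.val_mem hp hq s
      refine ⟨n, N.sec _ hn, N.val_inj hp ?_⟩
      rw [N.val_res, N.val_sec, N.val_smul, map_pow, toK_res]
    · refine ⟨0, 0, subsingleton_bot_QCf _ ?_ _ _⟩
      rw [eq_bot_iff]
      intro p hp
      exact absurd ⟨p, hp⟩ hf
  · by_cases hf : ∃ p, p ∈ X.basicOpen f
    · obtain ⟨p, hp⟩ := hf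
      refine ⟨0, ?_⟩
      rw [pow_zero, one_smul]
      apply N.val_inj (X.basicOpen_le f hp)
      rw [← N.val_res (X.basicOpen_le f) hp, ht, N.val_zero, N.val_zero]
    · have h0 : X.basicOpen f = ⊥ := by
        rw [eq_bot_iff]
        intro p hp
        exact absurd ⟨p, hp⟩ hf
      refine ⟨1, ?_⟩
      rw [(basicOpen_eq_bot_iff f).mp h0, pow_one, zero_smul]

variable (G : BiP X)

/-- the charts as a cover -/
theorem charts_QCf (x : X) : ∃ i : Bool × Bool, x ∈ G.U i.1 i.2 := by
  obtain ⟨s, t, h⟩ := G.exists_mem_U x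
  exact ⟨(s, t), h⟩

/-- `O(m, n)` is quasi-coherent. -/
theorem qc_OO_QCf (m n : ℤ) : QC (G.OO m n) := by
  refine Frac.qc_of_cover (G.OF m n) (fun i : Bool × Bool => G.U i.1 i.2)
    (fun i => G.aff i.1 i.2) (charts_QCf G) ?_
  rintro ⟨s, t⟩ p hp f g hg
  by_cases hf : ∃ q, q ∈ X.basicOpen f
  · obtain ⟨q, hq⟩ := hf
    obtain ⟨a, ha⟩ := exists_of_reg hq (g * G.B ^ (-BiP.tw s m) * G.Z ^ (-BiP.tw t n))
      fun r hr => (G.OF_mem_iff m n (s := s) (t := t) (X.basicOpen_le f hr) g).mp (hg r hr)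
    have := (G.aff s t).isLocalization_basicOpen f
    obtain ⟨⟨c, ⟨_, l, rfl⟩⟩, hc⟩ := IsLocalization.surj (Submonoid.powers f) a
    have hc' : a * resF (X.basicOpen_le f) (f ^ l) = resF (X.basicOpen_le f) c := hc
    refine ⟨l, fun r hr => (G.OF_mem_iff m n (s := s) (t := t) hr _).mpr ?_⟩
    have h1 := congrArg (toK hq) hc'
    rw [map_mul, toK_res, toK_res, map_pow, ha] at h1
    refine ⟨G.U s t, hr, c, ?_⟩
    change toK (X.basicOpen_le f hq) c = toK (X.basicOpen_le f hq) f ^ l * g * _ * _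
    rw [← h1]
    ring
  · have h0 : X.basicOpen f = ⊥ := by
      rw [eq_bot_iff]
      intro q hq
      exact absurd ⟨q, hq⟩ hf
    refine ⟨1, fun q _ => ?_⟩
    rw [(basicOpen_eq_bot_iff f).mp h0, pow_one, map_zero, zero_mul]
    exact (G.OF m n).zero q

/-- `O(m, n)` is coherent. -/
theorem isCoh_OO (m n : ℤ) : IsCoh (G.OO m n) := by
  obtain ⟨m', rfl⟩ : ∃ m', m = -m' := ⟨-m, (neg_neg m).symm⟩
  obtain ⟨n', rfl⟩ : ∃ n', n = -n' := ⟨-n, (neg_neg n).symm⟩
  refine isCoh_of_cover (fun i : Bool × Bool => G.U i.1 i.2) (fun i => G.aff i.1 i.2)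
    (charts_QCf G) _ (qc_OO_QCf G _ _) ?_
  rintro ⟨s, t⟩
  refine ⟨⟨{G.gen m' n' s t}, ?_⟩⟩
  rw [eq_top_iff]
  intro x _
  obtain ⟨a, ha, -⟩ := G.existsUnique_gen m' n' s t le_rfl x
  rw [Finset.coe_singleton, Submodule.mem_span_singleton]
  refine ⟨a, ?_⟩
  rw [res_self] at ha
  exact ha.symm

/-- A quasi-coherent sheaf whose sections over the four charts are zero is zero. -/
theorem isZero_of_charts {F : X.Modules} (hF : QC F) (h : ∀ s t, ∀ x : Γ(F, G.U s t), x = 0) :
    IsZero F := by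
  rw [IsZero.iff_id_eq_zero]
  apply hom_ext_app
  intro V x
  have h0 : x = 0 := by
    refine sec_ext F fun p hp => ?_
    obtain ⟨s, t, hst⟩ := G.exists_mem_U p
    obtain ⟨f, hf, hpf⟩ := (G.aff s t).exists_basicOpen_le ⟨p, hp⟩ hst
    refine ⟨X.basicOpen f, hf, hpf, ?_⟩
    rw [res_zero]
    obtain ⟨n, y, hy⟩ := hF.ext _ (G.aff s t) f (res F hf x)
    apply eq_zero_of_pow_smul_basicOpen F f n
    rw [← hy, h s t y, res_zero]
  rw [h0, app_zero, app_zero]

end frac

end M21.E3
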