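import Pool.Agent.H.MP_21b43d_ag.E3.G.Eff

/-!
# M21 (C9): classes on an object with an acyclic resolution of length two

`C` abelian and `k`-linear, `sgO A` the object `A` in degree zero of the derived category.

* `conn hS K hij : Hom(sgO A₁, K⟦j⟧) →ₗ Hom(sgO A₃, K⟦i⟧)` (`j + 1 = i`), the connecting map of a short
  exact sequence `0 → A₁ → A₂ → A₃ → 0`; `conn_eq_zero_iff`, `exists_conn`: exactness;
* `Res2 N C₀ C₁ C₂` : an exact sequence `0 → C₂ → C₁ → C₀ → N → 0`;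
* if the `C_r` are acyclic for `M` (`Acyc C_r M`): `Res2.vanish`, `Res2.hom0`, `Res2.H1`, `Res2.H2`
  compute `Hom(sgO N, (sgO M)⟦i⟧)` as the cohomology of `Hom(C₀, M) → Hom(C₁, M) → Hom(C₂, M)`.
-/

open CategoryTheory CategoryTheory.Limits CategoryTheory.Pretriangulated
open DerivedCategory

noncomputable section

universe t w v u

namespace M21

section Abs

variable (k : Type t) [Ring k] {C : Type u} [Category.{v} C] [Abelian C] [Linear k C]
  [HasDerivedCategory.{w} C]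

/-- composition on the left as a linear map -/
abbrev pre {D : Type*} [Category* D] [Preadditive D] [Linear k D] {A B : D} (f : A ⟶ B) (K : D) :
    (B ⟶ K) →ₗ[k] (A ⟶ K) := Linear.leftComp k K f

section conn

variable {A₁ A₂ A₃ : C} {f : A₁ ⟶ A₂} {g : A₂ ⟶ A₃} {w : f ≫ g = 0}
  (hS : (ShortComplex.mk f g w).ShortExact)

/-- the class of a short exact sequence -/
def cls : sgO A₃ ⟶ (sgO A₁)⟦(1 : ℤ)⟧ := hS.singleδ

omit [Linear k C] in
theorem cls_dist : Triangle.mk (sgmO f) (sgmO g) (cls hS) ∈ distTriang (DerivedCategory C) :=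
  hS.singleTriangle_distinguished

/-- the connecting map `Hom(A₁, K⟦j⟧) → Hom(A₃, K⟦i⟧)`, `j + 1 = i` -/
def conn (K : DerivedCategory C) {j i : ℤ} (hij : j + 1 = i) :
    (sgO A₁ ⟶ K⟦j⟧) →ₗ[k] (sgO A₃ ⟶ K⟦i⟧) where
  toFun φ := cls hS ≫ φ⟦(1 : ℤ)⟧' ≫ (shiftFunctorAdd' (DerivedCategory C) j 1 i hij).inv.app K
  map_add' φ ψ := by
    rw [Functor.map_add, Preadditive.add_comp, Preadditive.comp_add]
  map_smul' r φ := by
    rw [Functor.map_smul, Linear.smul_comp, Linear.comp_smul]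
    rfl

theorem conn_apply (K : DerivedCategory C) {j i : ℤ} (hij : j + 1 = i) (φ : sgO A₁ ⟶ K⟦j⟧) :
    conn k hS K hij φ =
      cls hS ≫ φ⟦(1 : ℤ)⟧' ≫ (shiftFunctorAdd' (DerivedCategory C) j 1 i hij).inv.app K := rfl

/-- naturality in `K` -/
theorem conn_naturality {K L : DerivedCategory C} (m : K ⟶ L) {j i : ℤ} (hij : j + 1 = i)
    (φ : sgO A₁ ⟶ K⟦j⟧) : conn k hS L hij (φ ≫ m⟦j⟧') = conn k hS K hij φ ≫ m⟦i⟧' := by
  rw [conn_apply, conn_apply, Functor.map_comp, Category.assoc, Category.assoc, Category.assoc,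
    ← NatTrans.naturality]
  rfl

theorem conn_eq_zero_iff (K : DerivedCategory C) {j i : ℤ} (hij : j + 1 = i)
    (φ : sgO A₁ ⟶ K⟦j⟧) :
    conn k hS K hij φ = 0 ↔ ∃ ψ : sgO A₂ ⟶ K⟦j⟧, sgmO f ≫ ψ = φ := by
  constructor
  · intro h
    rw [conn_apply, ← Category.assoc] at h
    have h1 : cls hS ≫ φ⟦(1 : ℤ)⟧' = 0 := by
      rw [← cancel_mono ((shiftFunctorAdd' (DerivedCategory C) j 1 i hij).inv.app K), h, zero_comp]
    obtain ⟨g', hg'⟩ := Triangle.yoneda_exact₃ _ (rot_of_distTriang _ (cls_dist hS))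
      (φ⟦(1 : ℤ)⟧') h1
    obtain ⟨ψ, hψ⟩ := (shiftFunctor (DerivedCategory C) (1 : ℤ)).map_surjective
      (X := sgO A₂) (Y := K⟦j⟧) g'
    refine ⟨-ψ, ?_⟩
    apply (shiftFunctor (DerivedCategory C) (1 : ℤ)).map_injective
    refine Eq.trans ?_ hg'.symm
    rw [← hψ, Functor.map_comp, Functor.map_neg, Preadditive.comp_neg]
    exact (Preadditive.neg_comp _ _).symm
  · rintro ⟨ψ, rfl⟩
    have h1 : cls hS ≫ (sgmO f)⟦(1 : ℤ)⟧' = 0 := comp_distTriang_mor_zero₃₁ _ (cls_dist hS)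
    rw [conn_apply, Functor.map_comp, Category.assoc, ← Category.assoc (cls hS), h1, zero_comp]

theorem exists_conn (K : DerivedCategory C) {j i : ℤ} (hij : j + 1 = i) (α : sgO A₃ ⟶ K⟦i⟧)
    (hα : sgmO g ≫ α = 0) : ∃ φ, conn k hS K hij φ = α := by
  obtain ⟨β, hβ⟩ := Triangle.yoneda_exact₃ _ (cls_dist hS) α hα
  obtain ⟨φ, hφ⟩ := (shiftFunctor (DerivedCategory C) (1 : ℤ)).map_surjective
    (X := sgO A₁) (Y := K⟦j⟧) (β ≫ (shiftFunctorAdd' (DerivedCategory C) j 1 i hij).hom.app K)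
  refine ⟨φ, ?_⟩
  rw [conn_apply, hφ, Category.assoc, Iso.hom_inv_id_app, Category.comp_id]
  exact hβ.symm

theorem comp_conn (K : DerivedCategory C) {j i : ℤ} (hij : j + 1 = i) (φ : sgO A₁ ⟶ K⟦j⟧) :
    sgmO g ≫ conn k hS K hij φ = 0 := by
  have h1 : sgmO g ≫ cls hS = 0 := comp_distTriang_mor_zero₂₃ _ (cls_dist hS)
  rw [conn_apply, ← Category.assoc, h1, zero_comp]

theorem ker_conn (K : DerivedCategory C) {j i : ℤ} (hij : j + 1 = i) :
    LinearMap.ker (conn k hS K hij) = LinearMap.range (pre k (sgmO f) (K⟦j⟧)) := by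
  ext φ
  rw [LinearMap.mem_ker, conn_eq_zero_iff, LinearMap.mem_range]
  rfl

theorem range_conn (K : DerivedCategory C) {j i : ℤ} (hij : j + 1 = i) :
    LinearMap.range (conn k hS K hij) = LinearMap.ker (pre k (sgmO g) (K⟦i⟧)) := by
  ext α
  rw [LinearMap.mem_ker, LinearMap.mem_range]
  constructor
  · rintro ⟨φ, rfl⟩
    exact comp_conn k hS K hij φ
  · intro h
    exact exists_conn k hS K hij α h

include hS in
omit [Linear k C] in
theorem exists_pre (K : DerivedCategory C) (φ : sgO A₂ ⟶ K) (hφ : sgmO f ≫ φ = 0) :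
    ∃ ψ : sgO A₃ ⟶ K, sgmO g ≫ ψ = φ := by
  obtain ⟨ψ, hψ⟩ := Triangle.yoneda_exact₂ _ (cls_dist hS) φ hφ
  exact ⟨ψ, hψ.symm⟩

include hS in
theorem ker_pre (K : DerivedCategory C) :
    LinearMap.ker (pre k (sgmO f) K) = LinearMap.range (pre k (sgmO g) K) := by
  ext φ
  rw [LinearMap.mem_ker, LinearMap.mem_range]
  constructor
  · intro h
    exact exists_pre hS K φ h
  · rintro ⟨ψ, rfl⟩
    have h1 : sgmO f ≫ sgmO g = 0 := comp_distTriang_mor_zero₁₂ _ (cls_dist hS)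
    change sgmO f ≫ sgmO g ≫ ψ = 0
    rw [← Category.assoc, h1, zero_comp]

end conn

/-- no classes in degrees different from zero -/
def Acyc (A M : C) : Prop := ∀ i : ℤ, i ≠ 0 → ∀ α : sgO A ⟶ (sgO M)⟦i⟧, α = 0

/-- morphisms as classes of degree zero -/
def hom0 (A M : C) : (A ⟶ M) ≃ₗ[k] (sgO A ⟶ (sgO M)⟦(0 : ℤ)⟧) :=
  LinearEquiv.ofBijective
    { toFun := fun φ => sgmO φ ≫ (shiftFunctorZero (DerivedCategory C) ℤ).inv.app (sgO M)
      map_add' := fun φ ψ => by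
        change (singleFunctor C 0).map (φ + ψ) ≫ _ = _
        rw [Functor.map_add, Preadditive.add_comp]
      map_smul' := fun r φ => by
        change (singleFunctor C 0).map (r • φ) ≫ _ = _
        rw [Functor.map_smul, Linear.smul_comp]
        rfl }
    (by
      constructor
      · intro φ ψ h
        apply (singleFunctor C 0).map_injective
        exact (cancel_mono ((shiftFunctorZero (DerivedCategory C) ℤ).inv.app (sgO M))).mp h
      · intro α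
        obtain ⟨φ, hφ⟩ := (singleFunctor C 0).map_surjective
          (α ≫ (shiftFunctorZero (DerivedCategory C) ℤ).hom.app (sgO M))
        refine ⟨φ, ?_⟩
        change (singleFunctor C 0).map φ ≫ _ = α
        rw [hφ, Category.assoc, Iso.hom_inv_id_app, Category.comp_id])

theorem hom0_apply {A M : C} (φ : A ⟶ M) :
    hom0 k A M φ = sgmO φ ≫ (shiftFunctorZero (DerivedCategory C) ℤ).inv.app (sgO M) := rfl

theorem hom0_pre {A B M : C} (f : A ⟶ B) (φ : B ⟶ M) :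
    hom0 k A M (f ≫ φ) = sgmO f ≫ hom0 k B M φ := by
  rw [hom0_apply, hom0_apply, ← Category.assoc]
  unfold sgmO
  rw [Functor.map_comp]

theorem hom0_post {A M M' : C} (φ : A ⟶ M) (m : M ⟶ M') :
    hom0 k A M' (φ ≫ m) = hom0 k A M φ ≫ (sgmO m)⟦(0 : ℤ)⟧' := by
  rw [hom0_apply, hom0_apply, Category.assoc]
  have h := (shiftFunctorZero (DerivedCategory C) ℤ).inv.naturality (sgmO m)
  rw [← h]
  unfold sgmO
  rw [Functor.map_comp, Category.assoc]
  rfl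

/-- An exact sequence `0 → C₂ → C₁ → C₀ → N → 0`, cut in two short exact sequences. -/
structure Res2 (N C₀ C₁ C₂ : C) where
  /-- the kernel of `C₀ ⟶ N` -/
  K : C
  /-- the first map -/
  a : C₂ ⟶ C₁
  /-- the second map -/
  b : C₁ ⟶ K
  /-- the inclusion of the kernel -/
  c : K ⟶ C₀
  /-- the augmentation -/
  d : C₀ ⟶ N
  wab : a ≫ b = 0
  wcd : c ≫ d = 0
  h₁ : (ShortComplex.mk a b wab).ShortExact
  h₀ : (ShortComplex.mk c d wcd).ShortExact

namespace Res2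

variable {N C₀ C₁ C₂ : C} (R : Res2 N C₀ C₁ C₂)

/-- the differential `C₁ ⟶ C₀` -/
def dd : C₁ ⟶ C₀ := R.b ≫ R.c

omit [Linear k C] [HasDerivedCategory.{w} C] in
theorem a_dd : R.a ≫ R.dd = 0 := by
  unfold dd
  rw [← Category.assoc, R.wab, zero_comp]

omit [Linear k C] [HasDerivedCategory.{w} C] in
theorem dd_d : R.dd ≫ R.d = 0 := by
  unfold dd
  rw [Category.assoc, R.wcd, comp_zero]

variable {M : C}

include R in
omit [Linear k C] in
theorem vanishK (A1 : Acyc C₁ M) (A2 : Acyc C₂ M) {i : ℤ} (hi : i < 0 ∨ 1 < i)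
    (α : sgO R.K ⟶ (sgO M)⟦i⟧) : α = 0 := by
  rcases hi with hi | hi
  · exact sg_hom_neg hi α
  · exact eq_zero_of_middle' R.h₁ (show (i - 1) + 1 = i by lia) (A2 (i - 1) (by lia)) α
      (A1 i (by lia) _)

include R in
omit [Linear k C] in
/-- vanishing outside of the degrees `0, 1, 2` -/
theorem vanish (A0 : Acyc C₀ M) (A1 : Acyc C₁ M) (A2 : Acyc C₂ M) {i : ℤ} (hi : i < 0 ∨ 2 < i)
    (α : sgO N ⟶ (sgO M)⟦i⟧) : α = 0 := by
  rcases hi with hi | hi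
  · exact sg_hom_neg hi α
  · exact eq_zero_of_middle' R.h₀ (show (i - 1) + 1 = i by lia)
      (R.vanishK A1 A2 (by lia)) α (A0 i (by lia) _)

/-! ### degree zero -/

omit [Linear k C] [HasDerivedCategory.{w} C] in
theorem exists_desc (φ : C₀ ⟶ M) (h : R.dd ≫ φ = 0) : ∃ ψ : N ⟶ M, R.d ≫ ψ = φ := by
  have h1 : Epi R.b := R.h₁.epi_g
  have h2 : R.c ≫ φ = 0 := by
    rw [← cancel_epi R.b, comp_zero, ← Category.assoc]
    exact h
  have := R.h₀.epi_g
  exact ⟨R.h₀.exact.desc φ h2, R.h₀.exact.g_desc φ h2⟩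

omit [HasDerivedCategory.{w} C] in
/-- `Hom(N, M) = ker(Hom(C₀, M) → Hom(C₁, M))` -/
theorem range_d : LinearMap.range (pre k R.d M) = LinearMap.ker (pre k R.dd M) := by
  ext φ
  rw [LinearMap.mem_range, LinearMap.mem_ker]
  constructor
  · rintro ⟨ψ, rfl⟩
    change R.dd ≫ R.d ≫ ψ = 0
    rw [← Category.assoc, R.dd_d, zero_comp]
  · intro h
    obtain ⟨ψ, hψ⟩ := R.exists_desc φ h
    exact ⟨ψ, hψ⟩

omit [HasDerivedCategory.{w} C] in
theorem injective_d : Function.Injective (pre k R.d M) := by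
  intro φ ψ h
  have : Epi R.d := R.h₀.epi_g
  exact (cancel_epi R.d).mp h

/-- `Hom(N, M) = ker(Hom(C₀, M) → Hom(C₁, M))` -/
def H0 : (sgO N ⟶ (sgO M)⟦(0 : ℤ)⟧) ≃ₗ[k] LinearMap.ker (pre k R.dd M) :=
  (hom0 k N M).symm ≪≫ₗ LinearEquiv.ofInjective _ (R.injective_d k) ≪≫ₗ
    LinearEquiv.ofEq _ _ (R.range_d k)

/-! ### the first syzygy -/

omit [HasDerivedCategory.{w} C] in
theorem range_b : LinearMap.range (pre k R.b M) = LinearMap.ker (pre k R.a M) := by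
  ext φ
  rw [LinearMap.mem_range, LinearMap.mem_ker]
  constructor
  · rintro ⟨ψ, rfl⟩
    change R.a ≫ R.b ≫ ψ = 0
    rw [← Category.assoc, R.wab, zero_comp]
  · intro h
    have : Epi R.b := R.h₁.epi_g
    exact ⟨R.h₁.exact.desc φ h, R.h₁.exact.g_desc φ h⟩

omit [HasDerivedCategory.{w} C] in
theorem injective_b : Function.Injective (pre k R.b M) := by
  intro φ ψ h
  have : Epi R.b := R.h₁.epi_g
  exact (cancel_epi R.b).mp h

/-- `Hom(K, M) = ker(Hom(C₁, M) → Hom(C₂, M))` -/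
def homK : (R.K ⟶ M) ≃ₗ[k] LinearMap.ker (pre k R.a M) :=
  LinearEquiv.ofInjective _ (R.injective_b k) ≪≫ₗ LinearEquiv.ofEq _ _ (R.range_b k)

omit [HasDerivedCategory.{w} C] in
theorem homK_apply (φ : R.K ⟶ M) : (R.homK k φ : C₁ ⟶ M) = R.b ≫ φ := rfl

omit [HasDerivedCategory.{w} C] in
theorem b_homK_symm (φ : LinearMap.ker (pre k R.a M)) :
    R.b ≫ (R.homK k).symm φ = (φ : C₁ ⟶ M) := by
  rw [← R.homK_apply k, LinearEquiv.apply_symm_apply]

/-! ### degree one -/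

/-- `ker(Hom(C₁, M) → Hom(C₂, M)) → Hom(sgO N, (sgO M)⟦1⟧)` -/
def H1 : LinearMap.ker (pre k R.a M) →ₗ[k] (sgO N ⟶ (sgO M)⟦(1 : ℤ)⟧) :=
  conn k R.h₀ (sgO M) (show (0 : ℤ) + 1 = 1 by norm_num) ∘ₗ
    (hom0 k R.K M).toLinearMap ∘ₗ (R.homK k).symm.toLinearMap

theorem H1_apply (φ : LinearMap.ker (pre k R.a M)) :
    R.H1 k φ = conn k R.h₀ (sgO M) (show (0 : ℤ) + 1 = 1 by norm_num)
      (hom0 k R.K M ((R.homK k).symm φ)) := rfl

theorem H1_surjective (A0 : Acyc C₀ M) : Function.Surjective (R.H1 k (M := M)) := by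
  intro α
  obtain ⟨φ, hφ⟩ := exists_conn k R.h₀ (sgO M) (show (0 : ℤ) + 1 = 1 by norm_num) α
    (A0 1 (by norm_num) _)
  refine ⟨R.homK k ((hom0 k R.K M).symm φ), ?_⟩
  rw [H1_apply, LinearEquiv.symm_apply_apply, LinearEquiv.apply_symm_apply, hφ]

theorem H1_eq_zero_iff (φ : LinearMap.ker (pre k R.a M)) :
    R.H1 k φ = 0 ↔ ∃ ψ : C₀ ⟶ M, R.dd ≫ ψ = φ := by
  rw [H1_apply, conn_eq_zero_iff]
  constructor
  · rintro ⟨ψ, hψ⟩
    refine ⟨(hom0 k C₀ M).symm ψ, ?_⟩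
    have h1 : R.c ≫ (hom0 k C₀ M).symm ψ = (R.homK k).symm φ := by
      apply (hom0 k R.K M).injective
      rw [hom0_pre, LinearEquiv.apply_symm_apply, hψ]
    rw [dd, Category.assoc, h1, b_homK_symm]
  · rintro ⟨ψ, hψ⟩
    refine ⟨hom0 k C₀ M ψ, ?_⟩
    rw [← hom0_pre]
    congr 1
    apply (R.homK k).injective
    rw [LinearEquiv.apply_symm_apply]
    apply Subtype.ext
    rw [homK_apply, ← hψ, dd, Category.assoc]

/-! ### degree two -/

/-- `Hom(C₂, M) → Hom(sgO N, (sgO M)⟦2⟧)` -/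
def H2 : (C₂ ⟶ M) →ₗ[k] (sgO N ⟶ (sgO M)⟦(2 : ℤ)⟧) :=
  conn k R.h₀ (sgO M) (show (1 : ℤ) + 1 = 2 by norm_num) ∘ₗ
    conn k R.h₁ (sgO M) (show (0 : ℤ) + 1 = 1 by norm_num) ∘ₗ (hom0 k C₂ M).toLinearMap

theorem H2_apply (φ : C₂ ⟶ M) :
    R.H2 k φ = conn k R.h₀ (sgO M) (show (1 : ℤ) + 1 = 2 by norm_num)
      (conn k R.h₁ (sgO M) (show (0 : ℤ) + 1 = 1 by norm_num) (hom0 k C₂ M φ)) := rfl

theorem H2_surjective (A0 : Acyc C₀ M) (A1 : Acyc C₁ M) :
    Function.Surjective (R.H2 k (M := M)) := by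
  intro α
  obtain ⟨β, hβ⟩ := exists_conn k R.h₀ (sgO M) (show (1 : ℤ) + 1 = 2 by norm_num) α
    (A0 2 (by norm_num) _)
  obtain ⟨φ, hφ⟩ := exists_conn k R.h₁ (sgO M) (show (0 : ℤ) + 1 = 1 by norm_num) β
    (A1 1 (by norm_num) _)
  refine ⟨(hom0 k C₂ M).symm φ, ?_⟩
  rw [H2_apply, LinearEquiv.apply_symm_apply, hφ, hβ]

theorem H2_eq_zero_iff (A0 : Acyc C₀ M) (φ : C₂ ⟶ M) :
    R.H2 k φ = 0 ↔ ∃ ψ : C₁ ⟶ M, R.a ≫ ψ = φ := by
  have h0 : R.H2 k φ = 0 ↔ conn k R.h₁ (sgO M) (show (0 : ℤ) + 1 = 1 by norm_num)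
      (hom0 k C₂ M φ) = 0 := by
    rw [H2_apply]
    constructor
    · intro h
      rw [conn_eq_zero_iff] at h
      obtain ⟨ψ, hψ⟩ := h
      rw [← hψ, A0 1 (by norm_num) ψ, comp_zero]
    · intro h
      rw [h, map_zero]
  rw [h0, conn_eq_zero_iff]
  constructor
  · rintro ⟨ψ, hψ⟩
    refine ⟨(hom0 k C₁ M).symm ψ, ?_⟩
    apply (hom0 k C₂ M).injective
    rw [hom0_pre, LinearEquiv.apply_symm_apply, hψ]
  · rintro ⟨ψ, hψ⟩
    exact ⟨hom0 k C₁ M ψ, by rw [← hom0_pre, hψ]⟩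

/-- naturality of `H2` in `M` -/
theorem H2_naturality {M' : C} (m : M ⟶ M') (φ : C₂ ⟶ M) :
    R.H2 k (φ ≫ m) = R.H2 k φ ≫ (sgmO m)⟦(2 : ℤ)⟧' := by
  rw [H2_apply, H2_apply, hom0_post, conn_naturality, conn_naturality]

/-- naturality of `H1` in `M` -/
theorem H1_naturality {M' : C} (m : M ⟶ M') (φ : LinearMap.ker (pre k R.a M))
    (ψ : LinearMap.ker (pre k R.a M')) (h : (ψ : C₁ ⟶ M') = (φ : C₁ ⟶ M) ≫ m) :
    R.H1 k ψ = R.H1 k φ ≫ (sgmO m)⟦(1 : ℤ)⟧' := by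
  have h1 : (R.homK k).symm ψ = (R.homK k).symm φ ≫ m := by
    have : Epi R.b := R.h₁.epi_g
    rw [← cancel_epi R.b, b_homK_symm, ← Category.assoc, b_homK_symm, h]
  rw [H1_apply, H1_apply, h1, hom0_post, conn_naturality]

end Res2

end Abs

end M21
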