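import Pool.Agent.H.MP_21b43d_ag.E3.G.Poly
import Pool.Agent.H.MP_21b43d_ag.E3.Rk1b

/-!
# M21, existence part, C11b: sheaves with `r = D = 0`, split sheaves have rank one
-/

open CategoryTheory CategoryTheory.Limits CategoryTheory.Pretriangulated AlgebraicGeometry
  TopologicalSpace

noncomputable section

namespace M21.E3

variable {X : Scheme.{0}} [IsIntegral X] [CX X] [IsLocallyNoetherian X]

namespace BiP

variable {G : BiP X} {ι : Type} [Fintype ι]

/-- If `r = D = 0`, then the sections over the charts are finite dimensional: `χ(T(m,n)) = χ` is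
constant; linearly independent sections over `U s t` are the values of linearly independent morphisms
`O(-m,-n) → T` for large `m, n` (`exists_hom_val`), so there are at most `χ` of them. -/
theorem finite_of_RD_zero (S : G.Split (FO X) ι) {T : X.Modules} (hT : IsCoh T)
    (hr : (rdx S).r T = 0) (hD : (rdx S).D T = 0) (s t : Bool) :
    FiniteDimensional ℂ Γ(T, G.U s t) := by
  classical
  have hr' : G.nr (SS T) = 0 := hr
  have hD' : G.nd1 (SS T) + G.nd2 (SS T) = 0 := hD
  obtain ⟨h1, h2⟩ := nd_nonneg S hT hr'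
  have hd1 : G.nd1 (SS T) = 0 := by omega
  have hd2 : G.nd2 (SS T) = 0 := by omega
  obtain ⟨k, hk⟩ := eulF_eq_finrank S hT
  have hx : ∀ m n : ℤ, k ≤ m → k ≤ n →
      (Module.finrank ℂ (G.OO (-m) (-n) ⟶ T) : ℤ) = G.nx (SS T) := by
    intro m n hm hn
    rw [← (hk m n hm hn).1, G.eulF_eq (SS T) (fun m n => homFin_coh S hT m n) m n, hr', hd1, hd2]
    ring
  have hrank : Module.rank ℂ Γ(T, G.U s t) ≤ ((G.nx (SS T)).toNat : Cardinal) := by
    apply rank_le
    intro A hA
    choose kx hkx using fun x : Γ(T, G.U s t) => G.exists_hom_val hT.qc s t x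
    obtain ⟨K, hK⟩ : ∃ K : ℤ, k ≤ K ∧ ∀ x ∈ A, kx x ≤ K := by
      obtain ⟨K, hK⟩ := (insert k (A.image kx)).exists_le
      refine ⟨K, hK k (Finset.mem_insert_self _ _), fun x hx => hK _ ?_⟩
      exact Finset.mem_insert_of_mem (Finset.mem_image_of_mem _ hx)
    choose φ hφ using fun x : A => hkx x.1 K K (hK.2 x.1 x.2) (hK.2 x.1 x.2)
    have hli : LinearIndependent ℂ φ := by
      apply LinearIndependent.of_comp (evC T (G.gen K K s t))
      have e : (evC T (G.gen K K s t)) ∘ φ = fun x : A => (x : Γ(T, G.U s t)) := by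
        funext x
        exact hφ x
      rw [e]
      exact hA
    haveI := (hk K K hK.1 hK.1).2
    have h3 := hli.fintype_card_le_finrank
    rw [Fintype.card_coe] at h3
    have h4 := hx K K hK.1 hK.1
    omega
  exact Module.rank_lt_aleph0_iff.mp (lt_of_le_of_lt hrank (Cardinal.natCast_lt_aleph0))

/-- The index set of a splitting of the structure sheaf is nonempty (`1 ≠ 0`). -/
theorem Split.nonempty (S : G.Split (FO X) ι) : Nonempty ι := by
  by_contra hne
  rw [not_nonempty_iff] at hne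
  have h1 : (1 : X.functionField) ∈ (FO X).secs (G.U false false) := fun p _ => Reg.one p
  rw [S.secs] at h1
  have h2 : G.spanR S.e (fun l p q => Rg false (S.a l) p ∧ Rg false (S.b l) q) = ⊥ := by
    unfold BiP.spanR
    rw [Submodule.span_eq_bot]
    rintro x ⟨l, -⟩
    exact hne.elim l
  rw [h2, Submodule.mem_bot] at h1
  exact one_ne_zero h1

theorem rdx_split (S : G.Split (FO X) ι) {N : Frac X} (T : G.Split N ι) (hN : QC N.mod) :
    (rdx S).r N.mod = Fintype.card ι ∧ (rdx S).D N.mod = ∑ l, (T.a l + 1) + ∑ l, (T.b l + 1) ∧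
      (rdx S).x N.mod = ∑ l, (T.a l + 1) * (T.b l + 1) := by
  obtain ⟨h1, h2, h3, h4⟩ := T.numbers hN
  refine ⟨h1, ?_, h4⟩
  change G.nd1 (SS N.mod) + G.nd2 (SS N.mod) = _
  rw [h2, h3, add_comm]

/-- The value of the image of a section of `O(-m, -n)` under a morphism to a fractional sheaf. -/
theorem val_app_Rkg {N : Frac X} {m n : ℤ} (ψ : G.OO (-m) (-n) ⟶ N.mod) {U : X.Opens} {p : X}
    (hp : p ∈ U) (x : Γ(G.OO (-m) (-n), U)) :
    N.val hp (ψ.app U x) = (G.OF (-m) (-n)).val hp x *
      N.val (G.pt_mem_U false false) (ψ.app _ (G.gen m n false false)) := by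
  obtain ⟨q, hq⟩ : ((U ⊓ G.U false false : X.Opens) : Set X).Nonempty :=
    nonempty_preirreducible_inter U.2 (G.U false false).2 ⟨p, hp⟩ ⟨G.pt, G.pt_mem_U false false⟩
  have hq' : q ∈ U ⊓ G.U false false := hq
  obtain ⟨a, ha, -⟩ := G.existsUnique_gen m n false false (inf_le_right : U ⊓ G.U false false ≤ _)
    (res (G.OO (-m) (-n)) (inf_le_left : U ⊓ G.U false false ≤ U) x)
  have e1 : (G.OF (-m) (-n)).val hp x = toK hq' a := by
    rw [(G.OF (-m) (-n)).val_eq hp hq'.1 x]
    have h1 : (G.OF (-m) (-n)).val hq' (res (G.OO (-m) (-n))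
        (inf_le_left : U ⊓ G.U false false ≤ U) x) = (G.OF (-m) (-n)).val hq'.1 x := rfl
    rw [← h1, ha]
    have h2 : (G.OF (-m) (-n)).val hq' (a • res (G.OO (-m) (-n))
        (inf_le_right : U ⊓ G.U false false ≤ G.U false false) (G.gen m n false false)) =
        toK hq' a * (G.B ^ (-tw false m) * G.Z ^ (-tw false n)) := rfl
    rw [h2]
    simp [tw]
  have e2 : N.val hp (ψ.app U x) = toK hq' a *
      N.val (G.pt_mem_U false false) (ψ.app _ (G.gen m n false false)) := by
    rw [N.val_eq hp hq'.1]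
    have h1 : N.val hq' (res N.mod (inf_le_left : U ⊓ G.U false false ≤ U) (ψ.app U x)) =
        N.val hq'.1 (ψ.app U x) := rfl
    rw [← h1, ← app_res, ha]
    have h3 : ψ.app _ (a • res (G.OO (-m) (-n))
        (inf_le_right : U ⊓ G.U false false ≤ G.U false false) (G.gen m n false false)) =
        a • ψ.app _ (res (G.OO (-m) (-n))
        (inf_le_right : U ⊓ G.U false false ≤ G.U false false) (G.gen m n false false)) :=
      Scheme.Modules.Hom.app_smul _ _ _
    rw [h3, app_res, N.val_smul, N.val_res, N.val_eq _ (G.pt_mem_U false false)]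
  rw [e1, e2]

theorem mono_Rkg {N : Frac X} {m n : ℤ} (ψ : G.OO (-m) (-n) ⟶ N.mod) (hψ : ψ ≠ 0) : Mono ψ := by
  obtain ⟨g, hg⟩ : ∃ g, g = N.val (G.pt_mem_U false false) (ψ.app _ (G.gen m n false false)) :=
    ⟨_, rfl⟩
  by_cases h0 : g = 0
  · exfalso
    apply hψ
    apply hom_ext_app
    intro U s
    refine Subtype.ext (funext fun x => ?_)
    have h1 := val_app_Rkg ψ x.2 s
    rw [← hg, h0, mul_zero] at h1
    exact h1
  · refine mono_of_injective _ fun U s t e => Subtype.ext (funext fun x => ?_)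
    have h1 := val_app_Rkg ψ x.2 s
    have h2 := val_app_Rkg ψ x.2 t
    rw [e, h2, ← hg] at h1
    exact (mul_right_cancel₀ h0 h1).symm

/-- Split sheaves (with the same index set as the structure sheaf) have rank one: a nonzero subobject
contains the image of a nonzero morphism `O(-m,-n) → N'` (`exists_hom_ne_zero`), which is a
monomorphism since `O(-m,-n) → N` is the multiplication by a nonzero element of the function field; the ranks of
`O(-m,-n)` and `N` are equal (`card ι`). -/
theorem Split.rk1 (S : G.Split (FO X) ι) {N : Frac X} (T : G.Split N ι) (hN : QC N.mod) :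
    Rk1 (rdx S) N.mod := by
  have hne := S.nonempty
  have hNc : IsCoh N.mod := T.isCoh hN
  have hr : (rdx S).r N.mod = Fintype.card ι := (rdx_split S T hN).1
  have hcard : 0 < Fintype.card ι := Fintype.card_pos
  refine ⟨hNc, by rw [hr]; exact_mod_cast hcard, ?_⟩
  intro N' i hi hN' hz
  obtain ⟨k, hk⟩ := G.exists_hom_ne_zero (F := N') (IsCoh.qc hN') hz
  obtain ⟨φ, hφ⟩ := hk k k le_rfl le_rfl
  have h1 : φ ≫ i ≠ 0 := by
    intro h
    apply hφ
    rw [← cancel_mono i, h, zero_comp]
  have h2 : Mono (φ ≫ i) := mono_Rkg _ h1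
  have h3 : Mono φ := mono_of_mono φ i
  have hO : IsCoh (G.OO (-k) (-k)) := isCoh_OO G _ _
  obtain ⟨T', -, -⟩ := S.exists_OF (-k) (-k)
  have h4 : (rdx S).r (G.OO (-k) (-k)) = Fintype.card ι := (rdx_split S T' hO.qc).1
  have hW := wserre_isCoh X
  have h5 := ((rdx S).add _ (se_coker_Rk1b φ) hO hN' (hW.cokernel φ hO hN')).1
  have h6 := ((rdx S).add _ (se_coker_Rk1b i) hN' hNc (hW.cokernel i hN' hNc)).1
  dsimp only at h5 h6
  have h7 := (rdx S).r_nonneg _ (hW.cokernel φ hO hN')
  have h8 := (rdx S).r_nonneg _ (hW.cokernel i hN' hNc)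
  omega

/-- `End(N) = ℂ` for split `N` (`Rk1.end_eq`, `L = O(-m,-n)`). -/
theorem Split.endo (S : G.Split (FO X) ι) {N : Frac X} (T : G.Split N ι) (hN : QC N.mod)
    (g : N.mod ⟶ N.mod) : ∃ c : ℂ, g = c • 𝟙 N.mod := by
  have h := Split.rk1 S T hN
  have hW := wserre_isCoh X
  have hz : ¬ IsZero N.mod := by
    intro hz
    have h1 := ((rdx S).inv_zero hW hz).1
    have h2 := h.pos
    omega
  obtain ⟨k, hk⟩ := G.exists_hom_ne_zero (F := N.mod) hN hz
  haveI := T.hom_fd k k
  exact h.end_eq hW (L := G.OO (-k) (-k)) (hk k k le_rfl le_rfl) g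

end BiP

end M21.E3
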