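import Pool.Agent.H.MP_21b43d_ag.E3.G.Span

/-!
# M21, existence part, C5b: split fractional sheaves

`Split N ι`: elements `e_l` (`l ∈ ι`) of the function field, independent over `ℂ[B^±1, Z^±1]`, and
integers `a_l`, `b_l` such that the sections of `N` over `U s t` are the combinations of the
`B^p Z^q e_l` with `0 ≤ p` (`s = 0`), `p ≤ a_l` (`s = 1`), `0 ≤ q` (`t = 0`), `q ≤ b_l` (`t = 1`): the
direct image of `N` on `ℙ¹ × ℙ¹` is the direct sum of the `O(a_l, b_l)`.
-/

open CategoryTheory CategoryTheory.Limits AlgebraicGeometry TopologicalSpace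

noncomputable section

namespace M21.E3

variable {X : Scheme.{0}} [IsIntegral X] [CX X]

/-- Sections over a basic open of an affine open, after multiplication by a power of the function. -/
theorem secs_ext_Split {N : Frac X} (hN : QC N.mod) {V W : X.Opens} (hV : IsAffineOpen V)
    (f : Γ(X, V)) (hWV : W ≤ V) (hW : W = X.basicOpen f) {p : X} (hp : p ∈ W)
    (g : X.functionField) (hg : g ∈ N.secs W) :
    ∃ n : ℕ, toK (hWV hp) f ^ n * g ∈ N.secs V := by
  obtain ⟨n, s, hs⟩ := hN.ext' hV f hWV hW (N.sec g hg)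
  refine ⟨n, ?_⟩
  have h1 := congrArg (N.val hp) hs
  rw [N.val_res, N.val_smul, map_pow, toK_res, N.val_sec] at h1
  rw [← h1]
  intro q hq
  exact N.val_mem (hWV hp) hq s

theorem secs_mono_Split (N : Frac X) {V W : X.Opens} (h : W ≤ V) : N.secs V ≤ N.secs W :=
  fun _ hg p hp => hg p (h hp)

namespace BiP

variable (G : BiP X)

/-- split fractional sheaves -/
structure Split (N : Frac X) (ι : Type) where
  /-- the basis -/
  e : ι → X.functionField
  /-- the first exponents -/
  a : ι → ℤ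
  /-- the second exponents -/
  b : ι → ℤ
  indep : LinearIndependent ℂ
    (fun x : ι × ℤ × ℤ => G.B ^ x.2.1 * G.Z ^ x.2.2 * e x.1)
  secs : ∀ s t, N.secs (G.U s t) = G.spanR e (fun l p q => Rg s (a l) p ∧ Rg t (b l) q)

variable {G} {ι : Type}

variable {N : Frac X}

theorem mem_secs_of_Split (S : G.Split N ι) (s t : Bool) (l : ι) (p q : ℤ) (hp : Rg s (S.a l) p)
    (hq : Rg t (S.b l) q) : G.B ^ p * G.Z ^ q * S.e l ∈ N.secs (G.U s t) := by
  rw [S.secs s t]
  exact Submodule.subset_span ⟨l, p, q, ⟨hp, hq⟩, rfl⟩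

/-- A split sheaf over the overlaps (localization: `N(UB_t) = ⋃ B^{-n} N(U_0t)`). -/
theorem Split.secs_UB (S : G.Split N ι) (hN : QC N.mod) (t : Bool) :
    N.secs (G.UB t) = G.spanR S.e (fun l _ q => Rg t (S.b l) q) := by
  apply le_antisymm
  · intro g hg
    have hp : G.pt ∈ G.UB t := G.UU_leB t G.pt_mem
    obtain ⟨n, hn⟩ := secs_ext_Split hN (G.aff false t)
      (G.bc false (inf_le_left : G.U false t ≤ G.V false)) (G.UB_le false t)
      (G.basicOpen_bc false t).symm hp g hg
    rw [G.toK_bc, S.secs false t] at hn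
    have h1 : G.B ^ (sg false * (n : ℤ)) * G.Z ^ (0 : ℤ) * g ∈
        G.spanR S.e (fun l p q => Rg false (S.a l) p ∧ Rg t (S.b l) q) := by
      rw [zpow_zero, mul_one, zpow_mul, zpow_natCast]
      exact hn
    rw [mul_mem_spanR_iff] at h1
    refine spanR_mono (fun l p q h => ?_) h1
    simpa using h.2
  · refine Submodule.span_le.mpr ?_
    rintro _ ⟨l, p, q, hq, rfl⟩
    intro x hx
    have h0 := mem_secs_of_Split S false t l 0 q (by simp [Rg]) hq
    have h1 := h0 x (G.UB_le false t hx)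
    rw [zpow_zero, one_mul] at h1
    have h2 := N.smul x (G.B ^ p) _ (G.reg_B p hx.1) h1
    rwa [← mul_assoc] at h2

theorem Split.secs_UZ (S : G.Split N ι) (hN : QC N.mod) (s : Bool) :
    N.secs (G.UZ s) = G.spanR S.e (fun l p _ => Rg s (S.a l) p) := by
  apply le_antisymm
  · intro g hg
    have hp : G.pt ∈ G.UZ s := G.UU_leZ s G.pt_mem
    obtain ⟨n, hn⟩ := secs_ext_Split hN (G.aff s false)
      (G.zc false (inf_le_right : G.U s false ≤ G.W false)) (G.UZ_le s false)
      (G.basicOpen_zc s false).symm hp g hg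
    rw [G.toK_zc, S.secs s false] at hn
    have h1 : G.B ^ (0 : ℤ) * G.Z ^ (sg false * (n : ℤ)) * g ∈
        G.spanR S.e (fun l p q => Rg s (S.a l) p ∧ Rg false (S.b l) q) := by
      rw [zpow_zero, one_mul, zpow_mul, zpow_natCast]
      exact hn
    rw [mul_mem_spanR_iff] at h1
    refine spanR_mono (fun l p q h => ?_) h1
    simpa using h.1
  · refine Submodule.span_le.mpr ?_
    rintro _ ⟨l, p, q, hq, rfl⟩
    intro x hx
    have h0 := mem_secs_of_Split S s false l p 0 hq (by simp [Rg])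
    have h1 := h0 x (G.UZ_le s false hx)
    rw [zpow_zero, mul_one] at h1
    have h2 := N.smul x (G.Z ^ q) _ (G.reg_Z q hx.2) h1
    have h3 : G.Z ^ q * (G.B ^ p * S.e l) = G.B ^ p * G.Z ^ q * S.e l := by ring
    rwa [h3] at h2

theorem Split.secs_UU (S : G.Split N ι) (hN : QC N.mod) :
    N.secs G.UU = G.spanAll S.e := by
  apply le_antisymm
  · intro g hg
    have hp : G.pt ∈ G.UU := G.pt_mem
    obtain ⟨n, hn⟩ := secs_ext_Split hN (G.aff false false)
      (G.bc false (inf_le_left : G.U false false ≤ G.V false) *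
        G.zc false (inf_le_right : G.U false false ≤ G.W false)) (G.UU_le false false)
      (G.basicOpen_bc_zc false false).symm hp g hg
    rw [map_mul, G.toK_bc, G.toK_zc, S.secs false false] at hn
    have h1 : G.B ^ (sg false * (n : ℤ)) * G.Z ^ (sg false * (n : ℤ)) * g ∈
        G.spanR S.e (fun l p q => Rg false (S.a l) p ∧ Rg false (S.b l) q) := by
      rw [zpow_mul, zpow_natCast, zpow_mul, zpow_natCast, ← mul_pow]
      exact hn
    rw [mul_mem_spanR_iff] at h1
    exact spanR_le _ h1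
  · refine Submodule.span_le.mpr ?_
    rintro _ ⟨⟨l, p, q⟩, rfl⟩
    intro x hx
    have h0 := mem_secs_of_Split S false false l 0 0 (by simp [Rg]) (by simp [Rg])
    have h1 := h0 x (G.UU_le false false hx)
    rw [zpow_zero, zpow_zero, one_mul, one_mul] at h1
    have h2 := N.smul x (G.B ^ p) _ (G.reg_B p hx.1) (N.smul x (G.Z ^ q) _ (G.reg_Z q hx.2) h1)
    rwa [← mul_assoc] at h2

theorem secs_twist_Split (N : Frac X) (m n : ℤ) (s t : Bool) (g : X.functionField) :
    g ∈ (G.twist N m n).secs (G.U s t) ↔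
      G.B ^ (-tw s m) * G.Z ^ (-tw t n) * g ∈ N.secs (G.U s t) := by
  have h3 : G.B ^ (-tw s m) * G.Z ^ (-tw t n) * g = g * G.B ^ (-tw s m) * G.Z ^ (-tw t n) := by
    ring
  rw [h3, Frac.mem_secs, Frac.mem_secs]
  exact forall₂_congr fun p hp => G.twist_mem_iff N m n hp g

theorem Rg_tw_Split (s : Bool) (a m p : ℤ) : Rg s a (p + -tw s m) ↔ Rg s (a + m) p := by
  cases s
  · simp [Rg, tw]
  · simp only [Rg, tw, if_true]
    omega

/-- The twist of a split sheaf is split. -/
theorem Split.twist (S : G.Split N ι) (m n : ℤ) :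
    ∃ T : G.Split (G.twist N m n) ι, T.e = S.e ∧ (∀ l, T.a l = S.a l + m) ∧
      ∀ l, T.b l = S.b l + n := by
  refine ⟨{ e := S.e, a := fun l => S.a l + m, b := fun l => S.b l + n, indep := S.indep,
            secs := fun s t => ?_ }, rfl, fun _ => rfl, fun _ => rfl⟩
  ext g
  rw [secs_twist_Split, S.secs s t, mul_mem_spanR_iff]
  have : (fun (l : ι) (p q : ℤ) => Rg s (S.a l) (p + -tw s m) ∧ Rg t (S.b l) (q + -tw t n)) =
      fun l p q => Rg s (S.a l + m) p ∧ Rg t (S.b l + n) q := by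
    funext l p q
    exact propext (and_congr (Rg_tw_Split s _ m p) (Rg_tw_Split t _ n q))
  rw [this]

theorem exists_nat_Split (s : Bool) (a p : ℤ) (h : Rg s a p) :
    ∃ k : ℕ, p = sg s * k + tw s a := by
  cases s
  · refine ⟨p.toNat, ?_⟩
    simp only [Rg, Bool.false_eq_true, if_false] at h
    simp [sg, tw, h]
  · refine ⟨(a - p).toNat, ?_⟩
    simp only [Rg, if_true] at h
    simp only [sg, tw, if_true]
    omega

/-- A split sheaf with finitely many `e_l` is coherent, once it is quasi-coherent: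
`N(U s t)` is generated by the `B^(tw s (a_l)) Z^(tw t (b_l)) e_l` over `ℂ[B^±1, Z^±1]`. -/
theorem Split.isCoh [Finite ι] (S : G.Split N ι) (hN : QC N.mod) : IsCoh N.mod := by
  refine isCoh_of_cover (fun x : Bool × Bool => G.U x.1 x.2) (fun x => G.aff x.1 x.2)
    (fun x => ?_) N.mod hN ?_
  · obtain ⟨s, t, h⟩ := G.exists_mem_U x
    exact ⟨(s, t), h⟩
  rintro ⟨s, t⟩
  change Module.Finite Γ(X, G.U s t) Γ(N.mod, G.U s t)
  have hpt : G.pt ∈ G.U s t := G.pt_mem_U s t
  have hgen : ∀ l, G.B ^ tw s (S.a l) * G.Z ^ tw t (S.b l) * S.e l ∈ N.secs (G.U s t) := by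
    intro l
    apply mem_secs_of_Split
    · cases s <;> simp [Rg, tw]
    · cases t <;> simp [Rg, tw]
  let gs : ι → Γ(N.mod, G.U s t) := fun l => N.sec _ (hgen l)
  have key : ∀ v ∈ G.spanR S.e (fun l p q => Rg s (S.a l) p ∧ Rg t (S.b l) q),
      ∃ y ∈ Submodule.span Γ(X, G.U s t) (Set.range gs), N.val hpt y = v := by
    intro v hv
    induction hv using Submodule.span_induction with
    | mem v hv =>
      obtain ⟨l, p, q, ⟨h1, h2⟩, rfl⟩ := hv
      obtain ⟨k, rfl⟩ := exists_nat_Split s _ p h1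
      obtain ⟨k', rfl⟩ := exists_nat_Split t _ q h2
      refine ⟨(G.bc s (inf_le_left : G.U s t ≤ G.V s) ^ k *
        G.zc t (inf_le_right : G.U s t ≤ G.W t) ^ k') • gs l,
        Submodule.smul_mem _ _ (Submodule.subset_span ⟨l, rfl⟩), ?_⟩
      rw [N.val_smul, map_mul, map_pow, map_pow, G.toK_bc, G.toK_zc]
      change _ * (G.B ^ tw s (S.a l) * G.Z ^ tw t (S.b l) * S.e l) = _
      rw [zpow_add₀ G.B_ne, zpow_add₀ G.Z_ne, zpow_mul, zpow_mul, zpow_natCast, zpow_natCast]
      ring
    | zero => exact ⟨0, Submodule.zero_mem _, N.val_zero hpt⟩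
    | add u v _ _ hu hv =>
      obtain ⟨y, hy, rfl⟩ := hu
      obtain ⟨z, hz, rfl⟩ := hv
      exact ⟨y + z, Submodule.add_mem _ hy hz, N.val_add hpt y z⟩
    | smul c v _ hv =>
      obtain ⟨y, hy, rfl⟩ := hv
      refine ⟨cr _ c • y, Submodule.smul_mem _ _ hy, ?_⟩
      rw [N.val_smul, toK_cr, Algebra.smul_def]
  have htop : Submodule.span Γ(X, G.U s t) (Set.range gs) = ⊤ := by
    rw [eq_top_iff]
    intro x _
    have hx : N.val hpt x ∈ N.secs (G.U s t) := fun q hq => N.val_mem hpt hq x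
    rw [S.secs s t] at hx
    obtain ⟨y, hy, hyx⟩ := key _ hx
    rw [← N.val_inj hpt hyx]
    exact hy
  exact ⟨⟨(Set.finite_range gs).toFinset, by rw [Set.Finite.coe_toFinset]; exact htop⟩⟩

end BiP

end M21.E3
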