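import Pool.Agent.H.MP_21b43d_ag.E3.G.Split
import Pool.Agent.H.MP_21b43d_ag.E3.G.Cech

/-!
# M21, existence part, C6: cohomology of split sheaves in the range `a_l + m ≥ -1`, `b_l + n ≥ -1`
-/

open CategoryTheory CategoryTheory.Limits CategoryTheory.Pretriangulated AlgebraicGeometry
  TopologicalSpace

noncomputable section

namespace M21.E3

theorem exists_pt_SplitH (P0 P1 Q0 Q1 : Prop) (hP : P0 ∨ P1) (hQ : Q0 ∨ Q1) (x0 x1 y0 y1 : ℂ)
    (e0 : x0 ≠ 0 → Q0) (e1 : x1 ≠ 0 → Q1) (e2 : y0 ≠ 0 → P0) (e3 : y1 ≠ 0 → P1)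
    (h : x0 - x1 = y0 - y1) :
    ∃ s : Bool → Bool → ℂ, (s false false ≠ 0 → P0 ∧ Q0) ∧ (s false true ≠ 0 → P0 ∧ Q1) ∧
      (s true false ≠ 0 → P1 ∧ Q0) ∧ (s true true ≠ 0 → P1 ∧ Q1) ∧
      x0 = s false false - s true false ∧ x1 = s false true - s true true ∧
      y0 = s false false - s false true ∧ y1 = s true false - s true true ∧
      (x0 = 0 → x1 = 0 → y0 = 0 → y1 = 0 → ∀ i j, s i j = 0) := by
  have key : ∀ (s00 s01 s10 s11 : ℂ), (s00 ≠ 0 → P0 ∧ Q0) → (s01 ≠ 0 → P0 ∧ Q1) →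
      (s10 ≠ 0 → P1 ∧ Q0) → (s11 ≠ 0 → P1 ∧ Q1) → x0 = s00 - s10 → x1 = s01 - s11 →
      y0 = s00 - s01 → y1 = s10 - s11 →
      (x0 = 0 → x1 = 0 → y0 = 0 → y1 = 0 → s00 = 0 ∧ s01 = 0 ∧ s10 = 0 ∧ s11 = 0) →
      ∃ s : Bool → Bool → ℂ, (s false false ≠ 0 → P0 ∧ Q0) ∧ (s false true ≠ 0 → P0 ∧ Q1) ∧
      (s true false ≠ 0 → P1 ∧ Q0) ∧ (s true true ≠ 0 → P1 ∧ Q1) ∧
      x0 = s false false - s true false ∧ x1 = s false true - s true true ∧
      y0 = s false false - s false true ∧ y1 = s true false - s true true ∧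
      (x0 = 0 → x1 = 0 → y0 = 0 → y1 = 0 → ∀ i j, s i j = 0) := by
    intro s00 s01 s10 s11 h1 h2 h3 h4 h5 h6 h7 h8 h9
    refine ⟨fun i j => if i then (if j then s11 else s10) else (if j then s01 else s00),
      h1, h2, h3, h4, h5, h6, h7, h8, fun a b c d i j => ?_⟩
    obtain ⟨k1, k2, k3, k4⟩ := h9 a b c d
    cases i <;> cases j <;> assumption
  by_cases p0 : P0
  · by_cases p1 : P1
    · by_cases q0 : Q0
      · by_cases q1 : Q1
        · exact key (x0 + y1) x1 y1 0 (fun _ => ⟨p0, q0⟩) (fun _ => ⟨p0, q1⟩) (fun _ => ⟨p1, q0⟩)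
            (fun _ => ⟨p1, q1⟩) (by ring) (by ring) (by linear_combination -h) (by ring)
            (fun a b c d => ⟨by rw [a, d, add_zero], b, d, rfl⟩)
        · have z1 : x1 = 0 := by
            by_contra hc
            exact q1 (e1 hc)
          exact key y0 0 y1 0 (fun _ => ⟨p0, q0⟩) (fun hc => absurd rfl hc) (fun _ => ⟨p1, q0⟩)
            (fun hc => absurd rfl hc) (by linear_combination h + z1) (by rw [z1]; ring) (by ring)
            (by ring) (fun a b c d => ⟨c, rfl, d, rfl⟩)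
      · have q1 : Q1 := hQ.resolve_left q0
        have z0 : x0 = 0 := by
            by_contra hc
            exact q0 (e0 hc)
        exact key 0 (-y0) 0 (-y1) (fun hc => absurd rfl hc) (fun _ => ⟨p0, q1⟩)
            (fun hc => absurd rfl hc) (fun _ => ⟨p1, q1⟩) (by rw [z0]; ring)
            (by linear_combination z0 - h) (by ring) (by ring)
            (fun a b c d => ⟨rfl, by rw [c, neg_zero], rfl, by rw [d, neg_zero]⟩)
    · have z1 : y1 = 0 := by
        by_contra hc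
        exact p1 (e3 hc)
      exact key x0 x1 0 0 (fun hc => ⟨p0, e0 hc⟩) (fun hc => ⟨p0, e1 hc⟩) (fun hc => absurd rfl hc)
        (fun hc => absurd rfl hc) (by ring) (by ring) (by linear_combination z1 - h)
        (by rw [z1]; ring) (fun a b c d => ⟨a, b, rfl, rfl⟩)
  · have p1 : P1 := hP.resolve_left p0
    have z0 : y0 = 0 := by
      by_contra hc
      exact p0 (e2 hc)
    exact key 0 0 (-x0) (-x1) (fun hc => absurd rfl hc) (fun hc => absurd rfl hc)
      (fun hc => ⟨p1, e0 (neg_ne_zero.mp hc)⟩) (fun hc => ⟨p1, e1 (neg_ne_zero.mp hc)⟩)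
      (by ring) (by ring) (by rw [z0]; ring) (by linear_combination z0 + h)
      (fun a b c d => ⟨rfl, rfl, by rw [a, neg_zero], by rw [b, neg_zero]⟩)

/-- The combinatorial core of `H^1 = 0` in coordinates. -/
theorem exists_coords_SplitH {α : Type} (P Q : Bool → α → Prop) (hP : ∀ v, P false v ∨ P true v)
    (hQ : ∀ v, Q false v ∨ Q true v) (x y : Bool → α →₀ ℂ) (hx : ∀ t v, x t v ≠ 0 → Q t v)
    (hy : ∀ s v, y s v ≠ 0 → P s v) (h : x false - x true = y false - y true) :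
    ∃ S : Bool → Bool → α →₀ ℂ, (∀ s t v, S s t v ≠ 0 → P s v ∧ Q t v) ∧
      (∀ t, x t = S false t - S true t) ∧ ∀ s, y s = S s false - S s true := by
  classical
  have e4 : ∀ v, x false v - x true v = y false v - y true v := fun v => DFunLike.congr_fun h v
  choose f hf using fun v => exists_pt_SplitH (P false v) (P true v) (Q false v) (Q true v) (hP v)
    (hQ v) (x false v) (x true v) (y false v) (y true v) (hx _ v) (hx _ v) (hy _ v) (hy _ v) (e4 v)
  have hs : ∀ i j v, f v i j ≠ 0 →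
      v ∈ (x false).support ∪ (x true).support ∪ (y false).support ∪ (y true).support := by
    intro i j v hv
    by_contra hc
    simp only [Finset.mem_union, Finsupp.mem_support_iff, not_or, not_not] at hc
    exact hv ((hf v).2.2.2.2.2.2.2.2 hc.1.1.1 hc.1.1.2 hc.1.2 hc.2 i j)
  refine ⟨fun i j => Finsupp.onFinset _ (fun v => f v i j) (hs i j), ?_, ?_, ?_⟩
  · intro s t v hv
    change f v s t ≠ 0 at hv
    obtain ⟨h1, h2, h3, h4, -⟩ := hf v
    cases s <;> cases t
    · exact h1 hv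
    · exact h2 hv
    · exact h3 hv
    · exact h4 hv
  · intro t
    ext v
    change x t v = f v false t - f v true t
    obtain ⟨-, -, -, -, h5, h6, -⟩ := hf v
    cases t
    · exact h5
    · exact h6
  · intro s
    ext v
    change y s v = f v s false - f v s true
    obtain ⟨-, -, -, -, -, -, h7, h8, -⟩ := hf v
    cases s
    · exact h7
    · exact h8


variable {X : Scheme.{0}} [IsIntegral X] [CX X]

namespace BiP

variable {G : BiP X} {N : Frac X} {ι : Type}

/-- The core of `H^1 = 0` in the function field. -/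
theorem exists_split_SplitH {e : ι → X.functionField}
    (hi : LinearIndependent ℂ (fun x : ι × ℤ × ℤ => G.B ^ x.2.1 * G.Z ^ x.2.2 * e x.1))
    (P Q : Bool → ι → ℤ → ℤ → Prop) (hP : ∀ l p q, P false l p q ∨ P true l p q)
    (hQ : ∀ l p q, Q false l p q ∨ Q true l p q) (x y : Bool → X.functionField)
    (hx : ∀ t, x t ∈ G.spanR e (Q t)) (hy : ∀ s, y s ∈ G.spanR e (P s))
    (h : x false - x true = y false - y true) :
    ∃ S : Bool → Bool → X.functionField,
      (∀ s t, S s t ∈ G.spanR e (fun l p q => P s l p q ∧ Q t l p q)) ∧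
      (∀ t, x t = S false t - S true t) ∧ ∀ s, y s = S s false - S s true := by
  set X' : Bool → G.spanAll e := fun t => ⟨x t, spanR_le _ (hx t)⟩ with hX'
  set Y' : Bool → G.spanAll e := fun s => ⟨y s, spanR_le _ (hy s)⟩ with hY'
  have hXY : X' false - X' true = Y' false - Y' true := Subtype.ext h
  obtain ⟨S, hS, h1, h2⟩ := exists_coords_SplitH
    (fun (s : Bool) (v : ι × ℤ × ℤ) => P s v.1 v.2.1 v.2.2)
    (fun (t : Bool) (v : ι × ℤ × ℤ) => Q t v.1 v.2.1 v.2.2)
    (fun v => hP _ _ _) (fun v => hQ _ _ _) (fun t => coord hi (X' t)) (fun s => coord hi (Y' s))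
    (fun t v hv => (mem_spanR_iff hi (Q t) (X' t)).mp (hx t) v hv)
    (fun s v hv => (mem_spanR_iff hi (P s) (Y' s)).mp (hy s) v hv)
    (by
      change coord hi (X' false) - coord hi (X' true) = coord hi (Y' false) - coord hi (Y' true)
      rw [← map_sub, ← map_sub, hXY])
  refine ⟨fun s t => ((coord hi).symm (S s t) : G.spanAll e), ?_, ?_, ?_⟩
  · intro s t
    rw [mem_spanR_iff hi]
    intro v hv
    rw [LinearEquiv.apply_symm_apply] at hv
    exact hS s t v hv
  · intro t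
    have h3 : X' t = (coord hi).symm (S false t) - (coord hi).symm (S true t) := by
      rw [← map_sub, ← h1 t]
      exact ((coord hi).symm_apply_apply _).symm
    exact congrArg Subtype.val h3
  · intro s
    have h3 : Y' s = (coord hi).symm (S s false) - (coord hi).symm (S s true) := by
      rw [← map_sub, ← h2 s]
      exact ((coord hi).symm_apply_apply _).symm
    exact congrArg Subtype.val h3

/-- the value of a section of `N` is an element of `N.secs` -/
theorem val_mem_secs_SplitH {U : X.Opens} {p : X} (hp : p ∈ U) (s : Γ(N.mod, U)) :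
    N.val hp s ∈ N.secs U := fun _ hq => N.val_mem hp hq s

theorem val_sub_SplitH {U : X.Opens} {p : X} (hp : p ∈ U) (s t : Γ(N.mod, U)) :
    N.val hp (s - t) = N.val hp s - N.val hp t := map_sub (N.valL hp) s t

/-- sections over the charts in the frame of `U 0 0` -/
theorem Split.mem_secs_iff_SplitH (S : G.Split N ι) (m n : ℤ) (s t : Bool) (g : X.functionField) :
    G.B ^ (-tw s m) * G.Z ^ (-tw t n) * g ∈ N.secs (G.U s t) ↔
      g ∈ G.spanR S.e (fun l p q => Rg s (S.a l) (p + -tw s m) ∧ Rg t (S.b l) (q + -tw t n)) := by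
  rw [S.secs, mul_mem_spanR_iff]

/-- the four conditions together -/
theorem Split.mem_all_iff_SplitH (S : G.Split N ι) (m n : ℤ) (g : X.functionField) :
    (∀ s t, G.B ^ (-tw s m) * G.Z ^ (-tw t n) * g ∈ N.secs (G.U s t)) ↔
      g ∈ G.spanR S.e (fun l p q => (0 ≤ p ∧ p ≤ S.a l + m) ∧ (0 ≤ q ∧ q ≤ S.b l + n)) := by
  have hQ : (fun l p q => (0 ≤ p ∧ p ≤ S.a l + m) ∧ (0 ≤ q ∧ q ≤ S.b l + n)) =
      fun (l : ι) (p q : ℤ) =>
        (Rg false (S.a l) (p + -tw false m) ∧ Rg false (S.b l) (q + -tw false n)) ∧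
        (Rg true (S.a l) (p + -tw true m) ∧ Rg true (S.b l) (q + -tw true n)) := by
    funext l p q
    apply propext
    simp only [Rg, tw, if_true, if_false, Bool.false_eq_true]
    constructor
    · rintro ⟨⟨h1, h2⟩, h3, h4⟩
      exact ⟨⟨by omega, by omega⟩, by omega, by omega⟩
    · rintro ⟨⟨h1, h2⟩, h3, h4⟩
      exact ⟨⟨by omega, by omega⟩, by omega, by omega⟩
  constructor
  · intro h
    have h00 := (S.mem_secs_iff_SplitH m n false false g).mp (h false false)
    have h11 := (S.mem_secs_iff_SplitH m n true true g).mp (h true true)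
    rw [hQ, ← spanR_inf S.indep]
    exact ⟨h00, h11⟩
  · intro h s t
    rw [S.mem_secs_iff_SplitH]
    refine spanR_mono (fun l p q hlpq => ?_) h
    cases s <;> cases t <;>
      simp only [Rg, tw, if_true, if_false, Bool.false_eq_true] <;>
      constructor <;> omega

/-- The value on `U 0 0` of a morphism `O(-m, -n) → N`. -/
def vL_SplitH (G : BiP X) (N : Frac X) (m n : ℤ) : (G.OO (-m) (-n) ⟶ N.mod) →ₗ[ℂ] X.functionField :=
  N.valL (G.pt_mem_U false false) ∘ₗ evC N.mod (G.gen m n false false)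

theorem vL_apply_SplitH (m n : ℤ) (φ : G.OO (-m) (-n) ⟶ N.mod) :
    vL_SplitH G N m n φ = N.val (G.pt_mem_U false false) (φ.app _ (G.gen m n false false)) := rfl

omit [AlgebraicGeometry.IsIntegral X] [CX X] in
theorem pt_mem_UB_SplitH (G : BiP X) (t : Bool) : G.pt ∈ G.UB t := G.UU_leB t G.pt_mem

omit [AlgebraicGeometry.IsIntegral X] [CX X] in
theorem pt_mem_UZ_SplitH (G : BiP X) (s : Bool) : G.pt ∈ G.UZ s := G.UU_leZ s G.pt_mem

/-- The members of a family, in terms of the first one. -/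
theorem fam_val_SplitH (m n : ℤ) (a : ∀ s t : Bool, Γ(N.mod, G.U s t)) :
    a ∈ G.Fam N.mod m n ↔ ∀ s t, N.val (G.pt_mem_U s t) (a s t) =
      G.B ^ (-tw s m) * G.Z ^ (-tw t n) * N.val (G.pt_mem_U false false) (a false false) := by
  have hB := G.B_ne
  have hZ := G.Z_ne
  have e1 : ∀ t, (res N.mod (G.UB_le false t) (a false t) =
      G.bp m (inf_le_left : G.UB t ≤ G.V01) • res N.mod (G.UB_le true t) (a true t)) ↔
      N.val (G.pt_mem_U false t) (a false t) = G.B ^ m * N.val (G.pt_mem_U true t) (a true t) := by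
    intro t
    rw [← (N.val_inj (pt_mem_UB_SplitH G t)).eq_iff, N.val_smul, N.val_res, N.val_res, G.toK_bp]
  have e2 : ∀ s, (res N.mod (G.UZ_le s false) (a s false) =
      G.zp n (inf_le_right : G.UZ s ≤ G.W01) • res N.mod (G.UZ_le s true) (a s true)) ↔
      N.val (G.pt_mem_U s false) (a s false) = G.Z ^ n * N.val (G.pt_mem_U s true) (a s true) := by
    intro s
    rw [← (N.val_inj (pt_mem_UZ_SplitH G s)).eq_iff, N.val_smul, N.val_res, N.val_res, G.toK_zp]
  have hmem : a ∈ G.Fam N.mod m n ↔ (∀ t, N.val (G.pt_mem_U false t) (a false t) =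
      G.B ^ m * N.val (G.pt_mem_U true t) (a true t)) ∧
      ∀ s, N.val (G.pt_mem_U s false) (a s false) =
        G.Z ^ n * N.val (G.pt_mem_U s true) (a s true) :=
    and_congr (forall_congr' e1) (forall_congr' e2)
  rw [hmem]
  have hBm : G.B ^ (-m) * G.B ^ m = 1 := by rw [← zpow_add₀ hB, neg_add_cancel, zpow_zero]
  have hZn : G.Z ^ (-n) * G.Z ^ n = 1 := by rw [← zpow_add₀ hZ, neg_add_cancel, zpow_zero]
  constructor
  · rintro ⟨h1, h2⟩
    have k10 : N.val (G.pt_mem_U true false) (a true false) =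
        G.B ^ (-m) * N.val (G.pt_mem_U false false) (a false false) := by
      rw [h1 false, ← mul_assoc, hBm, one_mul]
    have k01 : N.val (G.pt_mem_U false true) (a false true) =
        G.Z ^ (-n) * N.val (G.pt_mem_U false false) (a false false) := by
      rw [h2 false, ← mul_assoc, hZn, one_mul]
    have k11 : N.val (G.pt_mem_U true true) (a true true) =
        G.B ^ (-m) * (G.Z ^ (-n) * N.val (G.pt_mem_U false false) (a false false)) := by
      rw [← k01, h1 true, ← mul_assoc, hBm, one_mul]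
    intro s t
    cases s <;> cases t <;> simp only [tw, if_true, if_false, Bool.false_eq_true, neg_zero,
      zpow_zero, one_mul, mul_one]
    · exact k01
    · exact k10
    · rw [k11, mul_assoc]
  · intro h
    have k01 := h false true
    have k10 := h true false
    have k11 := h true true
    simp only [tw, if_true, if_false, Bool.false_eq_true, neg_zero, zpow_zero, one_mul,
      mul_one] at k01 k10 k11
    refine ⟨fun t => ?_, fun s => ?_⟩
    · cases t
      · rw [k10, ← mul_assoc, mul_comm (G.B ^ m), hBm, one_mul]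
      · rw [k11, k01, ← mul_assoc, ← mul_assoc, mul_comm (G.B ^ m), hBm, one_mul]
    · cases s
      · rw [k01, ← mul_assoc, mul_comm (G.Z ^ n), hZn, one_mul]
      · rw [k11, k10, mul_comm (G.B ^ (-m)) (G.Z ^ (-n)), mul_assoc, ← mul_assoc,
          mul_comm (G.Z ^ n), hZn, one_mul]

theorem vL_injective_SplitH (G : BiP X) (N : Frac X) (m n : ℤ) :
    Function.Injective (vL_SplitH G N m n) := by
  rw [injective_iff_map_eq_zero]
  intro φ hφ
  apply G.famL_injective N.mod m n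
  rw [map_zero]
  have h1 : G.famL N.mod m n φ ∈ G.Fam N.mod m n := by
    rw [← G.range_famL]
    exact ⟨φ, rfl⟩
  have h2 := (fam_val_SplitH m n _).mp h1
  funext s t
  apply N.val_inj (G.pt_mem_U s t)
  rw [h2 s t]
  have h3 : N.val (G.pt_mem_U false false) (G.famL N.mod m n φ false false) = 0 := hφ
  rw [h3, mul_zero]
  rfl

theorem Split.range_vL_SplitH (S : G.Split N ι) (m n : ℤ) :
    LinearMap.range (vL_SplitH G N m n) =
      G.spanR S.e (fun l p q => (0 ≤ p ∧ p ≤ S.a l + m) ∧ (0 ≤ q ∧ q ≤ S.b l + n)) := by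
  ext g
  rw [← S.mem_all_iff_SplitH, LinearMap.mem_range]
  constructor
  · rintro ⟨φ, rfl⟩ s t
    have h1 : G.famL N.mod m n φ ∈ G.Fam N.mod m n := by
      rw [← G.range_famL]
      exact ⟨φ, rfl⟩
    have h2 := (fam_val_SplitH m n _).mp h1 s t
    rw [vL_apply_SplitH]
    have h3 : N.val (G.pt_mem_U s t) (G.famL N.mod m n φ s t) = G.B ^ (-tw s m) * G.Z ^ (-tw t n) *
      N.val (G.pt_mem_U false false) (φ.app _ (G.gen m n false false)) := h2
    rw [← h3]
    exact val_mem_secs_SplitH _ _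
  · intro h
    have h1 : (fun s t => N.sec (U := G.U s t) (G.B ^ (-tw s m) * G.Z ^ (-tw t n) * g) (h s t)) ∈
        G.Fam N.mod m n := by
      rw [fam_val_SplitH]
      intro s t
      rw [N.val_sec, N.val_sec]
      simp [tw]
    obtain ⟨φ, hφ⟩ := G.exists_hom_of_fam N.mod m n _ h1
    refine ⟨φ, ?_⟩
    rw [vL_apply_SplitH, hφ, N.val_sec]
    simp [tw]

/-- The families of `N(m, n)` are the elements of the span of the `B^p Z^q e_l` with `0 ≤ p ≤ a_l + m`,
`0 ≤ q ≤ b_l + n` (the value of the section on `U 0 0`). -/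
theorem Split.nonempty_equiv (S : G.Split N ι) (m n : ℤ) :
    Nonempty ((G.OO (-m) (-n) ⟶ N.mod) ≃ₗ[ℂ]
      G.spanR S.e (fun l p q => (0 ≤ p ∧ p ≤ S.a l + m) ∧ (0 ≤ q ∧ q ≤ S.b l + n))) :=
  ⟨(LinearEquiv.ofInjective (vL_SplitH G N m n) (vL_injective_SplitH G N m n)).trans
    (LinearEquiv.ofEq _ _ (S.range_vL_SplitH m n))⟩

/-- the finite set of the exponents -/
def A_SplitH [Fintype ι] (a b : ι → ℤ) : Finset (ι × ℤ × ℤ) :=
  (Finset.univ.sigma fun l : ι => Finset.Ico (0 : ℤ) (a l + 1) ×ˢ Finset.Ico (0 : ℤ) (b l + 1)).map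
    ⟨fun x => (x.1, x.2), fun x y h => by
      obtain ⟨x1, x2⟩ := x
      obtain ⟨y1, y2⟩ := y
      obtain ⟨h1, h2⟩ := Prod.mk.inj h
      change x1 = y1 at h1
      change x2 = y2 at h2
      rw [h1, h2]⟩

theorem mem_A_SplitH [Fintype ι] (a b : ι → ℤ) (l : ι) (p q : ℤ) :
    (l, p, q) ∈ A_SplitH a b ↔ (0 ≤ p ∧ p ≤ a l) ∧ (0 ≤ q ∧ q ≤ b l) := by
  unfold A_SplitH
  rw [Finset.mem_map]
  constructor
  · rintro ⟨⟨l', p', q'⟩, h1, h2⟩
    have h3 : (l', p', q') = (l, p, q) := h2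
    obtain ⟨rfl, h4⟩ := Prod.mk.inj h3
    obtain ⟨rfl, rfl⟩ := Prod.mk.inj h4
    rw [Finset.mem_sigma] at h1
    have h5 := h1.2
    change (p', q') ∈ Finset.Ico (0 : ℤ) (a l' + 1) ×ˢ Finset.Ico (0 : ℤ) (b l' + 1) at h5
    rw [Finset.mem_product, Finset.mem_Ico, Finset.mem_Ico] at h5
    exact ⟨⟨h5.1.1, by have := h5.1.2; omega⟩, h5.2.1, by have := h5.2.2; omega⟩
  · rintro ⟨⟨h1, h2⟩, h3, h4⟩
    refine ⟨⟨l, p, q⟩, ?_, rfl⟩
    rw [Finset.mem_sigma]
    refine ⟨Finset.mem_univ _, ?_⟩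
    change (p, q) ∈ Finset.Ico (0 : ℤ) (a l + 1) ×ˢ Finset.Ico (0 : ℤ) (b l + 1)
    rw [Finset.mem_product, Finset.mem_Ico, Finset.mem_Ico]
    exact ⟨⟨h1, by omega⟩, h3, by omega⟩

theorem card_A_SplitH [Fintype ι] (a b : ι → ℤ) (h : ∀ l, -1 ≤ a l ∧ -1 ≤ b l) :
    ((A_SplitH a b).card : ℤ) = ∑ l, (a l + 1) * (b l + 1) := by
  unfold A_SplitH
  rw [Finset.card_map, Finset.card_sigma]
  push_cast
  refine Finset.sum_congr rfl fun l _ => ?_
  rw [Finset.card_product, Int.card_Ico, Int.card_Ico]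
  push_cast
  rw [Int.toNat_of_nonneg (by have := (h l).1; omega),
    Int.toNat_of_nonneg (by have := (h l).2; omega)]
  ring

theorem Split.spanR_A_SplitH [Fintype ι] (S : G.Split N ι) (m n : ℤ) :
    G.spanR S.e (fun l p q => (0 ≤ p ∧ p ≤ S.a l + m) ∧ (0 ≤ q ∧ q ≤ S.b l + n)) =
      G.spanR S.e (fun l p q => (l, p, q) ∈
        A_SplitH (fun l => S.a l + m) (fun l => S.b l + n)) := by
  congr 1
  funext l p q
  exact propext (mem_A_SplitH (fun l => S.a l + m) (fun l => S.b l + n) l p q).symm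

theorem Split.hom_fd [Fintype ι] (S : G.Split N ι) (m n : ℤ) :
    FiniteDimensional ℂ (G.OO (-m) (-n) ⟶ N.mod) := by
  obtain ⟨E⟩ := S.nonempty_equiv m n
  rw [S.spanR_A_SplitH] at E
  have := (finrank_spanR S.indep (A_SplitH (fun l => S.a l + m) (fun l => S.b l + n))).1
  exact Module.Finite.equiv E.symm

theorem Split.hom_finrank [Fintype ι] (S : G.Split N ι) (m n : ℤ)
    (h : ∀ l, -1 ≤ S.a l + m ∧ -1 ≤ S.b l + n) :
    (Module.finrank ℂ (G.OO (-m) (-n) ⟶ N.mod) : ℤ) =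
      ∑ l, (S.a l + m + 1) * (S.b l + n + 1) := by
  obtain ⟨E⟩ := S.nonempty_equiv m n
  rw [S.spanR_A_SplitH] at E
  have h1 := (finrank_spanR S.indep (A_SplitH (fun l => S.a l + m) (fun l => S.b l + n))).2
  rw [E.finrank_eq, h1, card_A_SplitH _ _ h]

/-- `H^2 = 0`: the four subspaces generate everything, since `0 ≤ p` or `p ≤ a_l + m` for all `p`. -/
theorem Split.h2_zero (S : G.Split N ι) (hN : QC N.mod) (m n : ℤ)
    (h : ∀ l, -1 ≤ S.a l + m ∧ -1 ≤ S.b l + n) (φ : G.LL m n ⟶ (SS N.mod)⟦(2 : ℤ)⟧) : φ = 0 := by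
  obtain ⟨c, hc, hc'⟩ := G.exists_H2 hN m n
  obtain ⟨y, rfl⟩ := hc φ
  rw [hc']
  have h1 : N.val G.pt_mem y ∈ N.secs G.UU := val_mem_secs_SplitH _ _
  rw [S.secs_UU hN] at h1
  have h2 : G.spanAll S.e ≤ G.spanR S.e (fun l p _ => Rg false (S.a l) p) ⊔
      G.spanR S.e (fun l p _ => Rg true (S.a l) (p + -m)) := by
    rw [spanR_sup]
    refine Submodule.span_le.mpr ?_
    rintro _ ⟨⟨l, p, q⟩, rfl⟩
    refine Submodule.subset_span ⟨l, p, q, ?_, rfl⟩
    have := (h l).1
    simp only [Rg, if_true, if_false, Bool.false_eq_true]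
    omega
  obtain ⟨u, hu, v, hv, huv⟩ := Submodule.mem_sup.mp (h2 h1)
  have hv' : G.B ^ (-m) * v ∈ N.secs (G.UZ true) := by
    rw [S.secs_UZ hN]
    have := (mul_mem_spanR_iff (G := G) (e := S.e) (fun l p _ => Rg true (S.a l) p) (-m) 0 v).mpr hv
    rwa [zpow_zero, mul_one] at this
  have hu' : u ∈ N.secs (G.UZ false) := by
    rw [S.secs_UZ hN]
    exact hu
  refine ⟨0, 0, N.sec (U := G.UZ false) u hu', N.sec (U := G.UZ true) (G.B ^ (-m) * v) hv', ?_⟩
  apply N.val_inj G.pt_mem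
  rw [res_zero, res_zero, smul_zero, add_zero, zero_add, N.val_add, N.val_smul, N.val_res,
    N.val_res, N.val_sec, N.val_sec, G.toK_bp, ← mul_assoc, ← zpow_add₀ G.B_ne, add_neg_cancel,
    zpow_zero, one_mul, huv]

/-- `H^1 = 0`. In coordinates, for a monomial `(l, p, q)` put `P0 : 0 ≤ p`, `P1 : p ≤ a_l + m`,
`Q0 : 0 ≤ q`, `Q1 : q ≤ b_l + n`, so `P0 ∨ P1`, `Q0 ∨ Q1`. Coefficients (multiplied by the powers of `B`, `Z`
so that everything is in the frame of `U 0 0`): `X0` (allowed if `Q0`), `X1` (if `Q1`), `Y0` (if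
`P0`), `Y1` (if `P1`) with `X0 - X1 = Y0 - Y1`; wanted `S_ij` (allowed if `P_i ∧ Q_j`) with
`X0 = S00 - S10`, `X1 = S01 - S11`, `Y0 = S00 - S01`, `Y1 = S10 - S11`.
* `P0`, not `P1`: `S10 = S11 = 0`, `S00 = X0`, `S01 = X1`;
* `P1`, not `P0`: `S00 = S01 = 0`, `S10 = -X0`, `S11 = -X1`;
* `P0`, `P1`, `Q0`, not `Q1`: `S01 = S11 = 0`, `S00 = Y0`, `S10 = Y1`;
* `P0`, `P1`, `Q1`, not `Q0`: `S00 = S10 = 0`, `S01 = -Y0`, `S11 = -Y1`;
* all four: `S11 = 0`, `S10 = Y1`, `S01 = X1`, `S00 = X0 + Y1`. -/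
theorem Split.h1_zero (S : G.Split N ι) (hN : QC N.mod) (m n : ℤ)
    (h : ∀ l, -1 ≤ S.a l + m ∧ -1 ≤ S.b l + n) (φ : G.LL m n ⟶ (SS N.mod)⟦(1 : ℤ)⟧) : φ = 0 := by
  refine G.H1_zero hN m n (fun x y hxy => ?_) φ
  have hB := G.B_ne
  have hZ := G.Z_ne
  have hBm : G.B ^ m * G.B ^ (-m) = 1 := by rw [← zpow_add₀ hB, add_neg_cancel, zpow_zero]
  have hZn : G.Z ^ n * G.Z ^ (-n) = 1 := by rw [← zpow_add₀ hZ, add_neg_cancel, zpow_zero]
  -- the values in the frame of `U 0 0`
  set xv : Bool → X.functionField := fun t => G.Z ^ (tw t n) *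
    N.val (pt_mem_UB_SplitH G t) (x t) with hxv
  set yv : Bool → X.functionField := fun s => G.B ^ (tw s m) *
    N.val (pt_mem_UZ_SplitH G s) (y s) with hyv
  have hx : ∀ t, xv t ∈ G.spanR S.e (fun l _ q => Rg t (S.b l) (q + -tw t n)) := by
    intro t
    have h1 : N.val (pt_mem_UB_SplitH G t) (x t) ∈ N.secs (G.UB t) := val_mem_secs_SplitH _ _
    rw [S.secs_UB hN] at h1
    have h2 := mul_mem_spanR_iff (G := G) (e := S.e) (fun l _ q => Rg t (S.b l) q) 0 (-tw t n)
      (xv t)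
    refine h2.mp ?_
    rw [zpow_zero, one_mul, hxv]
    change G.Z ^ (-tw t n) * (G.Z ^ (tw t n) * _) ∈ _
    rw [← mul_assoc, ← zpow_add₀ hZ, neg_add_cancel, zpow_zero, one_mul]
    exact h1
  have hy : ∀ s, yv s ∈ G.spanR S.e (fun l p _ => Rg s (S.a l) (p + -tw s m)) := by
    intro s
    have h1 : N.val (pt_mem_UZ_SplitH G s) (y s) ∈ N.secs (G.UZ s) := val_mem_secs_SplitH _ _
    rw [S.secs_UZ hN] at h1
    have h2 := mul_mem_spanR_iff (G := G) (e := S.e) (fun l p _ => Rg s (S.a l) p) (-tw s m) 0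
      (yv s)
    refine h2.mp ?_
    rw [zpow_zero, mul_one, hyv]
    change G.B ^ (-tw s m) * (G.B ^ (tw s m) * _) ∈ _
    rw [← mul_assoc, ← zpow_add₀ hB, neg_add_cancel, zpow_zero, one_mul]
    exact h1
  have hxy' : xv false - xv true = yv false - yv true := by
    have h1 := congrArg (N.val G.pt_mem) hxy
    rw [val_sub_SplitH, val_sub_SplitH, N.val_smul, N.val_smul, N.val_res, N.val_res, N.val_res, N.val_res, G.toK_zp,
      G.toK_bp] at h1
    simp only [hxv, hyv, tw, if_true, if_false, Bool.false_eq_true, zpow_zero, one_mul]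
    exact h1
  obtain ⟨T, hT, h1, h2⟩ := exists_split_SplitH S.indep
    (fun s l p _ => Rg s (S.a l) (p + -tw s m)) (fun t l _ q => Rg t (S.b l) (q + -tw t n))
    (fun l p q => by
      have := (h l).1
      simp only [Rg, tw, if_true, if_false, Bool.false_eq_true]
      omega)
    (fun l p q => by
      have := (h l).2
      simp only [Rg, tw, if_true, if_false, Bool.false_eq_true]
      omega) xv yv hx hy hxy'
  have hT' : ∀ s t, G.B ^ (-tw s m) * G.Z ^ (-tw t n) * T s t ∈ N.secs (G.U s t) := fun s t =>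
    (S.mem_secs_iff_SplitH m n s t (T s t)).mpr (hT s t)
  refine ⟨fun s t => N.sec (U := G.U s t) (G.B ^ (-tw s m) * G.Z ^ (-tw t n) * T s t) (hT' s t),
    fun t => ?_, fun s => ?_⟩
  · apply N.val_inj (pt_mem_UB_SplitH G t)
    have h3 : N.val (pt_mem_UB_SplitH G t) (x t) = G.Z ^ (-tw t n) * xv t := by
      rw [hxv]
      change _ = G.Z ^ (-tw t n) * (G.Z ^ (tw t n) * _)
      rw [← mul_assoc, ← zpow_add₀ hZ, neg_add_cancel, zpow_zero, one_mul]
    rw [val_sub_SplitH, h3, h1 t, N.val_smul, N.val_res, N.val_res, N.val_sec, N.val_sec, G.toK_bp]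
    have k0 : tw false m = 0 := rfl
    have k1 : tw true m = m := rfl
    rw [k0, k1, neg_zero, zpow_zero, one_mul]
    linear_combination (G.Z ^ (-tw t n) * T true t) * hBm
  · apply N.val_inj (pt_mem_UZ_SplitH G s)
    have h3 : N.val (pt_mem_UZ_SplitH G s) (y s) = G.B ^ (-tw s m) * yv s := by
      rw [hyv]
      change _ = G.B ^ (-tw s m) * (G.B ^ (tw s m) * _)
      rw [← mul_assoc, ← zpow_add₀ hB, neg_add_cancel, zpow_zero, one_mul]
    rw [val_sub_SplitH, h3, h2 s, N.val_smul, N.val_res, N.val_res, N.val_sec, N.val_sec, G.toK_zp]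
    have k0 : tw false n = 0 := rfl
    have k1 : tw true n = n := rfl
    rw [k0, k1, neg_zero, zpow_zero, mul_one]
    linear_combination (G.B ^ (-tw s m) * T s true) * hZn

/-- the groups in all degrees except `0` are zero -/
theorem Split.sub_SplitH (S : G.Split N ι) (hN : QC N.mod) (m n : ℤ)
    (h : ∀ l, -1 ≤ S.a l + m ∧ -1 ≤ S.b l + n) (i : ℤ) (hi : i ≠ 0) :
    Subsingleton (G.LL m n ⟶ (SS N.mod)⟦i⟧) := by
  refine ⟨fun φ ψ => ?_⟩
  have key : ∀ φ : G.LL m n ⟶ (SS N.mod)⟦i⟧, φ = 0 := by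
    rcases lt_trichotomy i 1 with h1 | h1 | h1
    · exact fun φ => G.hom_zero_cech hN m n i (Or.inl (by omega)) φ
    · subst h1
      exact fun φ => S.h1_zero hN m n h φ
    · rcases eq_or_ne i 2 with h2 | h2
      · subst h2
        exact fun φ => S.h2_zero hN m n h φ
      · exact fun φ => G.hom_zero_cech hN m n i (Or.inr (by omega)) φ
  rw [key φ, key ψ]

theorem Split.homFin_large [Fintype ι] (S : G.Split N ι) (hN : QC N.mod) (m n : ℤ)
    (h : ∀ l, -1 ≤ S.a l + m ∧ -1 ≤ S.b l + n) : HomFin ℂ (G.LL m n) (SS N.mod) := by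
  refine ⟨fun i => ?_, ?_⟩
  · rcases eq_or_ne i 0 with hi | hi
    · subst hi
      have := S.hom_fd m n
      exact Module.Finite.equiv (homSS (G.OO (-m) (-n)) N.mod)
    · have := S.sub_SplitH hN m n h i hi
      infer_instance
  · refine (Set.finite_singleton (0 : ℤ)).subset fun i hi => ?_
    rw [Function.mem_support] at hi
    by_contra hc
    have := S.sub_SplitH hN m n h i hc
    exact hi (Module.finrank_zero_of_subsingleton)

theorem Split.eulF_large [Fintype ι] (S : G.Split N ι) (hN : QC N.mod) (m n : ℤ)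
    (h : ∀ l, -1 ≤ S.a l + m ∧ -1 ≤ S.b l + n) :
    eulF ℂ (G.LL m n) (SS N.mod) = ∑ l, (S.a l + m + 1) * (S.b l + n + 1) := by
  unfold eulF altSum
  rw [finsum_eq_single _ (0 : ℤ) (fun i hi => by
    have := S.sub_SplitH hN m n h i hi
    have h0 : Module.finrank ℂ (G.LL m n ⟶ (SS N.mod)⟦i⟧) = 0 :=
      Module.finrank_zero_of_subsingleton
    change (i.negOnePow : ℤ) * ((Module.finrank ℂ (G.LL m n ⟶ (SS N.mod)⟦i⟧) : ℕ) : ℤ) = 0
    rw [h0, Nat.cast_zero, mul_zero])]
  have h1 : Module.finrank ℂ (G.LL m n ⟶ (SS N.mod)⟦(0 : ℤ)⟧) =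
      Module.finrank ℂ (G.OO (-m) (-n) ⟶ N.mod) :=
    (homSS (G.OO (-m) (-n)) N.mod).finrank_eq.symm
  rw [← S.hom_finrank m n h, ← h1]
  simp

end BiP

end M21.E3
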